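import Pool.Agent.Lib.MP_7e5527_ag.EF.AP2
import Pool.Agent.Lib.MP_7e5527_ag.EL.A7

/-! Conjugate characters at which countably many sums of products of expansions do not vanish. -/

open Filter Topology

noncomputable section

namespace Pool.Agent.E7

theorem af_slot {ι Y : Type} [Fintype ι] [DecidableEq ι] (Φ : (ι → Y) → Prop) (S S' : ι → Set Y)
    (h : ∀ i g, (∀ y ∈ S i, Φ (Function.update g i y)) → ∀ y ∈ S' i, Φ (Function.update g i y))
    (h0 : ∀ g, (∀ i, g i ∈ S i) → Φ g) {g : ι → Y} (hg : ∀ i, g i ∈ S' i) : Φ g := by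
  suffices ∀ (s : Finset ι) (g : ι → Y), (∀ i ∈ s, g i ∈ S' i) → (∀ i ∉ s, g i ∈ S i) → Φ g from
    this Finset.univ g (fun i _ => hg i) fun i hi => absurd (Finset.mem_univ i) hi
  intro s
  induction s using Finset.induction_on with
  | empty => exact fun g _ h2 => h0 g fun i => h2 i (Finset.notMem_empty i)
  | insert j s hj ih =>
    intro g h1 h2
    rw [← Function.update_eq_self j g]
    refine h j g (fun y hy => ih _ (fun i hi => ?_) fun i hi => ?_) _
      (h1 j (Finset.mem_insert_self _ _))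
    · rw [Function.update_of_ne (ne_of_mem_of_not_mem hi hj)]
      exact h1 i (Finset.mem_insert_of_mem hi)
    · rcases eq_or_ne i j with rfl | e
      · rwa [Function.update_self]
      · rw [Function.update_of_ne e]
        exact h2 i (by simp [e, hi])

theorem af_ten {ι A X : Type} [Fintype ι] (s : Finset A) (f : ι → X → A → ℂ) (U : ι → Set X)
    (g : ι → A → ℂ)
    (h : ∀ i (c : A → ℂ), (∀ x ∈ U i, ∑ a ∈ s, c a * f i x a = 0) → ∑ a ∈ s, c a * g i a = 0)
    {c : A → ℂ} (h0 : ∀ x : ι → X, (∀ i, x i ∈ U i) → ∑ a ∈ s, c a * ∏ i, f i (x i) a = 0) :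
    ∑ a ∈ s, c a * ∏ i, g i a = 0 := by
  classical
  refine af_slot (fun y : ι → A → ℂ => ∑ a ∈ s, c a * ∏ i, y i a = 0) (fun i => f i '' U i)
    (fun i => {g i}) (fun i y hy => ?_) (fun y hy => ?_) fun i => rfl
  · have e : ∀ w : A → ℂ, ∑ a ∈ s, c a * ∏ j, Function.update y i w j a =
        ∑ a ∈ s, (c a * ∏ j ∈ Finset.univ.erase i, y j a) * w a := fun w =>
      Finset.sum_congr rfl fun a _ => by
        rw [← Finset.prod_erase_mul _ _ (Finset.mem_univ i), Function.update_self, mul_assoc,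
          Finset.prod_congr rfl fun j hj => by
            rw [Function.update_of_ne (Finset.ne_of_mem_erase hj)]]
    rintro _ rfl
    simp only [e] at hy ⊢
    exact h i _ fun x hx => hy _ ⟨x, hx, rfl⟩
  · choose x hx e using hy
    simp only [← e]
    exact h0 x hx

variable {p : ℕ} [Fact p.Prime]

theorem af_pi {M : Type} {m : ℕ} {f : Fin m → M → ℂ_[p]} {s : Fin m → ℂ_[p]}
    (h : ∀ i, HasSum (f i) (s i)) :
    HasSum (fun T : Fin m → M => ∏ i, f i (T i)) (∏ i, s i) := by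
  have : NonarchimedeanRing ℂ_[p] := ⟨NonarchimedeanAddGroup.is_nonarchimedean⟩
  induction m with
  | zero => simp
  | succ m ih =>
    rw [← (Fin.consEquiv fun _ => M).hasSum_iff, Fin.prod_univ_succ]
    simpa [Function.comp_def, Fin.prod_univ_succ, Fin.consEquiv] using
      (h 0).mul_of_nonarchimedean (ih fun i => h i.succ)

/-- As `a4_chr`, for algebraic units. -/
theorem af_chr {u : Ix → ℂ_[p]} (hu : ∀ l, ‖u l‖ = 1 ∧ IsIntegral ℚ_[p] (u l)) :
    ∃ q : (Ix → ℚ) → ℂ_[p], Chr p q one3 ∧ (∀ T, IsAlgebraic ℚ_[p] (q T)) ∧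
    ∀ (m : Ix → ℤ) (n : ℤ), tr (vec m) one3 = n → q (vec m) = (p : ℂ_[p]) ^ n * chV u m := by
  have hp : (p : ℂ_[p]) ≠ 0 := Nat.cast_ne_zero.2 (Fact.out : p.Prime).ne_zero
  choose n hn using fun m => Lam.tr_int (vec_mem m) a4c_one3
  have hn2 : ∀ m m', n (m + m') = n m + n m' := fun m m' => by
    have h := hn (m + m')
    rw [vec_add, tr_add_left, hn, hn] at h
    exact_mod_cast h.symm
  have h0 : ∀ m, (p : ℂ_[p]) ^ n m * chV u m ≠ 0 := fun m => mul_ne_zero (zpow_ne_zero _ hp)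
    (norm_ne_zero_iff.1 (by rw [norm_chV fun l => (hu l).1]; exact one_ne_zero))
  have e1 : ∀ l, u l ≠ 0 := fun l => norm_ne_zero_iff.1 ((hu l).1 ▸ one_ne_zero)
  have e2 : ∀ m m', chV u (m + m') = chV u m * chV u m' := fun m m' => by
    simp only [chV, Pi.add_apply, zpow_add₀ (e1 _), Finset.prod_mul_distrib]
  let g : (Ix → ℤ) →+ Additive ℂ_[p]ˣ := AddMonoidHom.mk'
    (fun m => Additive.ofMul (Units.mk0 _ (h0 m))) fun m m' => by
      rw [← ofMul_mul]
      refine congrArg _ (Units.ext ?_)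
      simp only [Units.val_mul, Units.val_mk0, hn2, e2, zpow_add₀ hp]
      ring
  have : DivisibleBy (Additive ℂ_[p]ˣ) ℕ := divisibleByOfSMulRightSurj _ _ fun {k} hk x => by
    obtain ⟨y, hy⟩ := IsAlgClosed.exists_pow_nat_eq (x.toMul : ℂ_[p]) (Nat.pos_of_ne_zero hk)
    have h1 : y ≠ 0 := fun h => x.toMul.ne_zero (by rw [← hy, h, zero_pow hk])
    exact ⟨Additive.ofMul (Units.mk0 y h1), Additive.toMul.injective (Units.ext (by simpa using hy))⟩
  have := AddGroup.divisibleByIntOfDivisibleByNat (Additive ℂ_[p]ˣ)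
  obtain ⟨χ, hχ⟩ := (Module.Baer.of_divisible (Additive ℂ_[p]ˣ)).extension_property_addMonoidHom
    (AddMonoidHom.mk' vec vec_add) vec_inj g
  have h1 : ∀ m, ((χ (vec m)).toMul : ℂ_[p]) = (p : ℂ_[p]) ^ n m * chV u m := fun m =>
    congrArg (fun x : Additive ℂ_[p]ˣ => (x.toMul : ℂ_[p])) (DFunLike.congr_fun hχ m)
  have h2 : ∀ T : Ix → ℚ, ∃ (M : ℕ) (m : Ix → ℤ), 0 < M ∧ (M : ℚ) • T = vec m ∧
      ((χ T).toMul : ℂ_[p]) ^ M = (p : ℂ_[p]) ^ n m * chV u m := fun T => by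
    obtain ⟨M, hM, h⟩ := latJ_den fun i => tr T (UU i)
    obtain ⟨m, hm⟩ : (M : ℚ) • T ∈ Set.range vec := by
      rw [range_vec, mem_Lam_iff]
      simpa only [tr_smul_left] using h
    refine ⟨M, m, hM, hm.symm, ?_⟩
    rw [← h1, hm, Nat.cast_smul_eq_nsmul, map_nsmul, toMul_nsmul, Units.val_pow_eq_pow_val]
  refine ⟨fun T => (χ T).toMul, ⟨by rw [toR_one3]; exact one3_mem, fun T T' => by simp, fun T => ?_⟩,
    fun T => ?_, fun m k hk => ?_⟩
  · obtain ⟨M, m, hM, h3, h4⟩ := h2 T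
    have hp' : (0 : ℝ) < p := Nat.cast_pos.2 (Fact.out : p.Prime).pos
    refine (pow_left_inj₀ (norm_nonneg _) (Real.rpow_nonneg hp'.le _) hM.ne').1 ?_
    have h5 : ‖(p : ℂ_[p])‖ = (p : ℝ)⁻¹ := by
      rw [← map_natCast (algebraMap ℚ_[p] ℂ_[p]), norm_algebraMap', Padic.norm_p]
    have h6 := hn m
    rw [← h3, tr_smul_left] at h6
    rw [← norm_pow, h4, norm_mul, norm_chV fun l => (hu l).1, mul_one, norm_zpow, h5, ← Real.rpow_natCast,
      ← Real.rpow_mul hp'.le, inv_zpow', ← Real.rpow_intCast]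
    congr 1
    have h7 : ((n m : ℚ) : ℝ) = ((M * tr T one3 : ℚ) : ℝ) := by rw [h6]
    push_cast at h7 ⊢
    linarith
  · obtain ⟨M, m, hM, -, h4⟩ := h2 T
    refine IsAlgebraic.of_pow hM ?_
    rw [h4]
    exact mem_algebraicClosure_iff.1 (mul_mem (zpow_mem (natCast_mem _ p) _)
      (prod_mem fun l _ => zpow_mem (mem_algebraicClosure_iff'.2 (hu l).2) _))
  · have h3 : n m = k := by exact_mod_cast (hn m).symm.trans hk
    rw [← h3]
    exact h1 m

variable {A : Type} {m : ℕ}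

/-- A relation between values of functions holds between the values of the expansions. -/
theorem af_van (e : ℂ_[p] ≃+* ℂ) {q : Fin m → (Ix → ℚ) → ℂ_[p]} {Y : Ix → ℚ}
    (hq : ∀ i, Chr p (q i) Y) (s : Finset A) (c : A → ℤ) (F : A → Fin m → GZ)
    (h : ∀ Z : Fin m → HH, ∑ a ∈ s, (c a : ℂ) * ∏ i, a7x (Z i) (F a i) = 0) :
    ∑ a ∈ s, (c a : ℂ_[p]) * ∏ i, a7q e (hq i) (F a i) = 0 := by
  have h1 := af_ten s (fun i Z a => a7x Z (F a i)) (fun _ => Set.univ)
    (fun i a => e (a7q e (hq i) (F a i))) (fun i c hc => by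
      have h2 : ∑ a ∈ s, algebraMap ℂ GZ (c a) * F a i = 0 := Subtype.ext (funext fun Z => by
        refine Eq.trans ?_ (hc Z trivial)
        show a7x Z _ = _
        rw [map_sum]
        rfl)
      have h3 := congrArg (fun G => e (a7q e (hq i) G)) h2
      simpa only [map_sum, map_mul, a7_const, RingEquiv.apply_symm_apply, map_zero] using h3)
    fun Z _ => h Z
  refine e.injective ?_
  simpa only [map_sum, map_mul, map_prod, map_intCast, map_zero] using h1

theorem af_cf0 (G : GZ) {T : Ix → ℚ} (h : T ∉ Set.range vec) : cf G T = 0 :=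
  by_contra fun h' => h (range_vec ▸ G.2.2 T h')

theorem af_hs (e : ℂ_[p] ≃+* ℂ) {q : (Ix → ℚ) → ℂ_[p]} {Y : Ix → ℚ} (hq : Chr p q Y) (G : GZ) :
    HasSum (fun T => e.symm (cf G (vec T)) * q (vec T)) (a7q e hq G) :=
  (vec_inj.hasSum_iff (f := fun T => e.symm (cf G T) * q T) fun T hT => by
    rw [af_cf0 G hT, map_zero, zero_mul]).2 (hasSum_evq e hq G.2.1)

/-- A relation between the coefficients holds between the values. -/
theorem af_cf (s : Finset A) (c : A → ℂ) (F : A → Fin m → GZ)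
    (h : ∀ T : Fin m → Ix → ℤ, ∑ a ∈ s, c a * ∏ i, cf (F a i) (vec (T i)) = 0) (Z : Fin m → HH) :
    ∑ a ∈ s, c a * ∏ i, a7x (Z i) (F a i) = 0 := by
  refine af_ten s (fun i T a => cf (F a i) (vec T)) (fun _ => Set.univ)
    (fun i a => a7x (Z i) (F a i)) (fun i c hc => ?_) fun T _ => h T
  have h4 := hasSum_sum fun a (_ : a ∈ s) => ((F a i).2.1.spec.sum (Z i)).mul_left (c a)
  have h5 : (fun T => ∑ a ∈ s, c a * (cf (F a i) T * eT T (Z i))) = fun _ => 0 := by
    funext T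
    simp only [← mul_assoc, ← Finset.sum_mul]
    by_cases hT : T ∈ Set.range vec
    · obtain ⟨T, rfl⟩ := hT
      rw [hc T trivial, zero_mul]
    · simp only [af_cf0 _ hT, mul_zero, Finset.sum_const_zero, zero_mul]
  rw [h5] at h4
  exact h4.unique hasSum_zero

theorem af_q (e : ℂ_[p] ≃+* ℂ) [NeZero m] {ι : Type} [Countable ι] (s : ι → Finset A)
    (c : ι → A → ℤ) (F : A → Fin m → GZ)
    (h0 : ∀ j, ∃ Z : Fin m → HH, ∑ a ∈ s j, (c j a : ℂ) * ∏ i, a7x (Z i) (F a i) ≠ 0) :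
    ∃ (q : Fin m → (Ix → ℚ) → ℂ_[p]) (hq : ∀ i, Chr p (q i) one3),
      (∀ i T, IsAlgebraic ℚ_[p] (q i T)) ∧
      (∀ i, ∃ ρ : ℂ_[p] →+* ℂ_[p], (∀ z, ‖ρ z‖ = ‖z‖) ∧ q i = ρ ∘ q 0) ∧
      ∀ j, ∑ a ∈ s j, (c j a : ℂ_[p]) * ∏ i, a7q e (hq i) (F a i) ≠ 0 := by
  have hp : (p : ℂ_[p]) ≠ 0 := by exact_mod_cast (Fact.out : p.Prime).ne_zero
  choose n hn using a4g_tr
  obtain ⟨q1, h1, -, h2⟩ := a4_chr (p := p) 1
  simp only [chU_one, mul_one] at h2
  let b (j : ι) (T : Fin m → Ix → ℤ) : ℂ_[p] :=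
    ∑ a ∈ s j, (c j a : ℂ_[p]) * ∏ i, e.symm (cf (F a i) (vec (T i))) * (p : ℂ_[p]) ^ n (T i)
  have b1 : ∀ j, Summable (b j) := fun j => summable_sum fun a _ => Summable.mul_left _ (by
    simpa only [h2 _ _ (hn _)] using (af_pi fun i => af_hs e h1 (F a i)).summable)
  have b2 : ∀ j, b j ≠ 0 := fun j h => by
    obtain ⟨Z, hZ⟩ := h0 j
    refine hZ (af_cf _ _ F (fun T => e.symm.injective ?_) Z)
    have h4 := congrFun h T
    simp only [b, Finset.prod_mul_distrib, ← mul_assoc, ← Finset.sum_mul, Pi.zero_apply] at h4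
    simpa only [map_sum, map_mul, map_prod, map_intCast, map_zero] using (mul_eq_zero.1 h4).resolve_right
      (Finset.prod_ne_zero_iff.2 fun i _ => zpow_ne_zero (n (T i)) hp)
  obtain ⟨ρ, u, r0, r1, r2, hu, h3⟩ := af_gen m b (fun j => (b1 j).tendsto_cofinite_zero) b2
    (c := fun T (s : Fin m × Ix) => T s.1 s.2)
    fun T T' h => funext fun i => funext fun l => congrFun h (i, l)
  obtain ⟨q, h4, h5, h6⟩ := af_chr hu
  have hq : ∀ i, Chr p (ρ i ∘ q) one3 := fun i => ⟨h4.mem, fun T T' => by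
    simp only [Function.comp_apply, h4.mul, map_mul], fun T => (r1 i _).trans (h4.norm T)⟩
  refine ⟨fun i => ρ i ∘ q, hq, fun i T => (h5 T).algHom ⟨ρ i, r2 i⟩,
    fun i => ⟨ρ i, r1 i, by simp only [r0]; rfl⟩, fun j h => h3 j ?_⟩
  rw [← h, ← (hasSum_sum fun a (_ : a ∈ s j) =>
    (af_pi fun i => af_hs e (hq i) (F a i)).mul_left (c j a : ℂ_[p])).tsum_eq]
  refine tsum_congr fun T => ?_
  rw [Finset.sum_mul]
  refine Finset.sum_congr rfl fun a _ => ?_
  simp only [Function.comp_apply, h6 _ _ (hn _), chV, map_mul, map_prod, map_zpow₀, map_natCast,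
    Fintype.prod_prod_type, Finset.prod_mul_distrib, mul_assoc]

end Pool.Agent.E7
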