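import Pool.Agent.Lib.MP_7e5527_ag.EF.MJG
import Pool.Agent.Lib.MP_7e5527_ag.EF.AT
import Pool.Agent.Lib.MP_7e5527_ag.EL.RE

/-! Block A: existence of points with jointly generic conjugates. -/

open Filter Topology

noncomputable section

namespace Pool.Agent.E7

theorem af_n (s : ℂˣ) (B : Ix → ℂ) : dE s (-s) * nE B * (dE s (-s))⁻¹ = nE (-B) := by
  rw [mul_inv_eq_iff_eq_mul]
  apply LinearEquiv.ext
  intro v
  simp only [LinearEquiv.mul_apply, a5c_dE, nE_apply, nfun, Prod.mk.injEq, cross_neg_right,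
    sharp_neg, nrm_neg, tr_neg_right, cross_smul_left, tr_smul_left, Units.val_neg, true_and]
  refine ⟨by module, by module, by ring⟩

theorem af_comm (s : ℂˣ) (B : Ix → ℂ) :
    nE ((1 / 2 : ℂ) • B) * dE s (-s) * (nE ((1 / 2 : ℂ) • B))⁻¹ * (dE s (-s))⁻¹ = nE B := by
  have e := af_n s (-((1 / 2 : ℂ) • B))
  rw [neg_neg, nE_neg] at e
  rw [mul_assoc, mul_assoc, ← mul_assoc (dE s (-s)), e, ← nE_add]
  refine congrArg nE ?_
  module

theorem af_grp {H : Subgroup Gb} (s : ℂˣ)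
    (h : ∀ B U, a5M s (-s) B U * (a5M s (-s) 0 0)⁻¹ ∈ H) : G0 ≤ H := by
  refine (Subgroup.closure_le _).2 ?_
  rintro _ (⟨B, rfl⟩ | ⟨B, rfl⟩)
  · have e : a5M s (-s) ((1 / 2 : ℂ) • B) 0 * (a5M s (-s) 0 0)⁻¹ = nE B := by
      rw [← af_comm (-s) B, neg_neg, ← a5c_w s (-s), a5M, a5M, nE_zero]
      group
    exact e ▸ h _ _
  · have e : a5M s (-s) 0 ((1 / 2 : ℂ) • B) * (a5M s (-s) 0 0)⁻¹ = nP B := by
      rw [nP, ← af_comm s B, a5M, a5M, nE_zero]
      group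
    exact e ▸ h _ _

variable {m : ℕ}

/-- The value of `P` at a block matrix. -/
def afP (P : MvPolynomial ((Wx × Fin m) × (Wx × Fin m)) ℚ) (g : Fin m → Gb) : ℂ :=
  MvPolynomial.aeval (fun y => blk g y.1 y.2) P

/-- The point `i` of the Deligne torus. -/
def afI : ℂˣ := Units.mk0 Complex.I Complex.I_ne_zero

theorem af_hg (Z : Ix → ℂ) : hg Z afI = a5M afI (-afI) (star Z) (inv (Z - star Z)) := by
  rw [hg, show star afI = -afI from Units.ext (by simp [afI])]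
  rfl

theorem af_mat (s t : ℂˣ) : ∃ M : Wx → Wx → MvPolynomial (Ix ⊕ Ix) ℂ, ∀ B U a b,
    mat (a5M s t B U) a b = MvPolynomial.eval (Sum.elim B U) (M a b) := by
  choose M hM using fun a b => a5_poly (MvPolynomial.X (a, b)) s t
  exact ⟨M, fun B U a b => by rw [← hM, a5F, MvPolynomial.aeval_X]⟩

theorem af_pol (P : MvPolynomial ((Wx × Fin m) × (Wx × Fin m)) ℚ) (g : Fin m → Gb) (i : Fin m)
    (s t : ℂˣ) : ∃ Q : MvPolynomial (Ix ⊕ Ix) ℂ, ∀ B U,
      afP P (Function.update g i (a5M s t B U)) = MvPolynomial.eval (Sum.elim B U) Q := by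
  obtain ⟨M, hM⟩ := af_mat s t
  refine ⟨MvPolynomial.aeval (fun y => if y.1.2 = y.2.2 then (if y.1.2 = i then M y.1.1 y.2.1 else
    .C (mat (g y.1.2) y.1.1 y.2.1)) else 0) P, fun B U => ?_⟩
  refine Eq.trans ?_
    (MvPolynomial.comp_aeval_apply _ (MvPolynomial.eval (Sum.elim B U)).toRatAlgHom P).symm
  refine congrArg (fun f => MvPolynomial.aeval f P) (funext fun y => ?_)
  rw [blk, Matrix.blockDiagonal_apply, RingHom.toRatAlgHom_apply]
  split_ifs with h1 h2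
  · rw [h2, Function.update_self, hM]
  · rw [Function.update_of_ne h2, MvPolynomial.eval_C]
  · rw [map_zero]

theorem af_cont (P : MvPolynomial ((Wx × Fin m) × (Wx × Fin m)) ℚ) :
    Continuous fun Z : Fin m → HH => afP P fun i => hg (Z i) afI := by
  obtain ⟨M, hM⟩ := af_mat afI (-afI)
  simp only [afP, MvPolynomial.aeval_def, ← MvPolynomial.eval_map]
  refine (MvPolynomial.continuous_eval _).comp (continuous_pi fun y => ?_)
  simp only [blk, Matrix.blockDiagonal_apply, af_hg, hM]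
  split_ifs
  · exact (MvPolynomial.continuous_eval _).comp (a5c_arg.comp (continuous_apply _))
  · exact continuous_const

theorem af_box {Z0 : Fin m → HH} {C : Set (Fin m → HH)} (h : C ∈ 𝓝 Z0) :
    ∃ U : Fin m → Set HH, (∀ i, U i ∈ 𝓝 (Z0 i)) ∧ ∀ Z, (∀ i, Z i ∈ U i) → Z ∈ C := by
  rw [nhds_pi, mem_pi] at h
  obtain ⟨I, -, U, h1, h2⟩ := h
  exact ⟨U, h1, fun Z hZ => h2 fun i _ => hZ i⟩

theorem af_int (P : MvPolynomial ((Wx × Fin m) × (Wx × Fin m)) ℚ) {Z0 : Fin m → HH}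
    (h : {Z : Fin m → HH | (afP P fun i => hg (Z i) afI) = 0} ∈ 𝓝 Z0) {g : Fin m → Gb}
    (hg' : ∀ i, ∃ B U, g i = a5M afI (-afI) B U) : afP P g = 0 := by
  obtain ⟨U, h1, h2⟩ := af_box h
  refine af_slot (fun g => afP P g = 0) (fun i => (fun Z : HH => hg Z afI) '' U i)
    (fun _ => {y | ∃ B U, y = a5M afI (-afI) B U}) (fun i g hy => ?_) (fun g hy => ?_) hg'
  · rintro _ ⟨B, V, rfl⟩
    obtain ⟨Q, hQ⟩ := af_pol P g i afI (-afI)
    have h3 : Q = 0 := by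
      refine a5_dense Q (Z0 i).2 ?_
      rw [← isOpen_HH.isOpenEmbedding_subtypeVal.map_nhds_eq (Z0 i), eventually_map]
      filter_upwards [h1 i] with Z hZ
      rw [← hQ, ← af_hg]
      exact hy _ ⟨Z, hZ, rfl⟩
    rw [hQ, h3, map_zero]
  · choose Z hZ e using hy
    rw [← funext e]
    exact h2 Z hZ

/-- A generic point of the power of the domain. -/
theorem af_x {A ι : Type} [Countable ι] (s : ι → Finset A) (c : ι → A → ℤ) (F : A → Fin m → GZ)
    (h0 : ∀ j, ∃ Z : Fin m → HH, ∑ a ∈ s j, (c j a : ℂ) * ∏ i, a7x (Z i) (F a i) ≠ 0) :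
    ∃ x : Fin m → HH, (∀ j, ∑ a ∈ s j, (c j a : ℂ) * ∏ i, a7x (x i) (F a i) ≠ 0) ∧
      JG fun i => (x i : Ix → ℂ) := by
  have := a7_count ((Wx × Fin m) × (Wx × Fin m)) ℚ
  have := isOpen_HH.locallyCompactSpace
  have : Nonempty HH := ⟨bpt⟩
  let C : ι ⊕ {P // ¬ ∀ g : Fin m → Gb, (∀ i, ∃ B U, g i = a5M afI (-afI) B U) → afP P g = 0} →
      Set (Fin m → HH) := Sum.elim (fun j => {Z | ∑ a ∈ s j, (c j a : ℂ) * ∏ i, a7x (Z i) (F a i) = 0})
    fun P => {Z | (afP P.1 fun i => hg (Z i) afI) = 0}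
  have hc : ∀ j, IsClosed (C j) := by
    rintro (j | P)
    · exact isClosed_eq (continuous_finsetSum _ fun a _ => continuous_const.mul
        (continuous_finsetProd _ fun i _ => (a6_cont (F a i).2.1).comp (continuous_apply i)))
        continuous_const
    · exact isClosed_eq (af_cont P.1) continuous_const
  have hi : ∀ j Z, C j ∉ 𝓝 Z := by
    rintro (j | P) Z0 h
    · obtain ⟨Z, hZ⟩ := h0 j
      obtain ⟨U, h1, h2⟩ := af_box h
      refine hZ (af_ten (s j) (fun i Z a => a7x Z (F a i)) U (fun i a => a7x (Z i) (F a i))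
        (fun i c hc => ?_) h2)
      have e : ∀ W, a7x W (∑ a ∈ s j, algebraMap ℂ GZ (c a) * F a i) =
          ∑ a ∈ s j, c a * a7x W (F a i) := fun W => map_sum _ _ _
      rw [← e]
      exact congrFun (a6_int (∑ a ∈ s j, algebraMap ℂ GZ (c a) * F a i).2.1
        (mem_of_superset (h1 i) fun W hW => (e W).trans (hc W hW))) (Z i)
    · exact P.2 fun g => af_int P.1 h
  obtain ⟨x, hx⟩ := (dense_iInter_of_isOpen (fun j => (hc j).isOpen_compl) fun j =>
    interior_eq_empty_iff_dense_compl.1 (Set.eq_empty_of_forall_notMem fun Z hZ =>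
      hi j Z (mem_interior_iff_mem_nhds.1 hZ))).nonempty
  rw [Set.mem_iInter] at hx
  refine ⟨x, fun j => hx (.inl j), ?_⟩
  rw [JG, comm_GEm]
  refine le_sInf fun H ⟨⟨S, hS⟩, hH⟩ => ?_
  have h1 : ∀ g : Fin m → Gb, (∀ i, ∃ B U, g i = a5M afI (-afI) B U) → g ∈ H := fun g hg' =>
    (hS g).2 fun P hP => by_contra fun h => hx (.inr ⟨P, fun h' => h (h' g hg')⟩)
      ((hS _).1 (hH afI) P hP)
  refine (Subgroup.pi_le_iff).2 fun i => Subgroup.map_le_iff_le_comap.2 (af_grp afI fun B U => ?_)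
  have h2 := H.mul_mem (h1 (Function.update (fun _ => a5M afI (-afI) 0 0) i (a5M afI (-afI) B U))
    fun k => by
      rcases eq_or_ne k i with rfl | e
      · exact ⟨B, U, Function.update_self ..⟩
      · exact ⟨0, 0, Function.update_of_ne e ..⟩)
    (H.inv_mem (h1 (fun _ => a5M afI (-afI) 0 0) fun _ => ⟨0, 0, rfl⟩))
  refine Subgroup.mem_comap.2 ((congrArg (· ∈ H) (funext fun k => ?_)).mp h2)
  rcases eq_or_ne k i with rfl | e
  · simp
  · simp [e]

theorem af_rep {ι G K : Type} [CommRing G] [CommRing K] (g : ι → G) (φ : Fin m → G →+* K)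
    (r : MvPolynomial (Fin m × ι) ℤ) :
    MvPolynomial.eval₂Hom (Int.castRingHom K) (fun y => φ y.1 (g y.2)) r =
      ∑ d ∈ r.support, ((r.coeff d : ℤ) : K) *
        ∏ i, φ i (∏ y ∈ d.support with y.1 = i, g y.2 ^ d y) := by
  rw [MvPolynomial.coe_eval₂Hom, MvPolynomial.eval₂_eq]
  refine Finset.sum_congr rfl fun d _ => congrArg _ ?_
  rw [← Finset.prod_fiberwise _ Prod.fst]
  refine Finset.prod_congr rfl fun i _ => ?_
  rw [map_prod]
  exact Finset.prod_congr rfl fun y hy => by rw [map_pow, (Finset.mem_filter.1 hy).2]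

theorem exists_cj (p m : ℕ) [Fact p.Prime] [NeZero m] :
    ∃ (e : ℂ_[p] ≃+* ℂ) (x : Fin m → Ix → ℂ) (q : Fin m → (Ix → ℚ) → ℂ_[p]),
      (∀ i, x i ∈ HH ∧ TqI e (q i) (x i) ∧
        ∃ ρ : ℂ_[p] →+* ℂ_[p], (∀ z, ‖ρ z‖ = ‖z‖) ∧ q i = ρ ∘ q 0) ∧ JG x := by
  choose n F hF hs using mf_findim
  obtain ⟨e0, -⟩ := exists_equiv_ker p (Int.castRingHom ℂ_[p]) (Int.castRingHom ℂ) fun r => by simp
  have hZ : ∀ k i, F k i ∈ GZ := fun k i => ⟨(hF k i).1, fun T hT =>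
    (hF k i).1.spec.supp_Lam (fun B hB => (hF k i).2 _ (nE_mem_Gam hB)) hT⟩
  let ι := (Σ k, Fin (n k)) × Option (Ix → ℚ)
  let g : ι → GZ := fun y => y.2.elim ⟨F y.1.1 y.1.2, hZ _ _⟩
    fun T => algebraMap ℂ GZ (cf (F y.1.1 y.1.2) T)
  have := a7_count (Fin m × ι) ℤ
  let Φ (d : Fin m × ι →₀ ℕ) (i : Fin m) : GZ := ∏ y ∈ d.support with y.1 = i, g y.2 ^ d y
  let J := {r : MvPolynomial (Fin m × ι) ℤ //
    ∃ Z : Fin m → HH, ∑ d ∈ r.support, ((r.coeff d : ℤ) : ℂ) * ∏ i, a7x (Z i) (Φ d i) ≠ 0}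
  obtain ⟨q, hq, ha, hρ, h1⟩ := af_q e0 (fun j : J => j.1.support) (fun j d => j.1.coeff d) Φ
    fun j => j.2
  obtain ⟨x, h2, h3⟩ := af_x (fun j : J => j.1.support) (fun j d => j.1.coeff d) Φ fun j => j.2
  obtain ⟨e, he⟩ := exists_equiv_ker p
    (MvPolynomial.eval₂Hom (Int.castRingHom _) fun y : Fin m × ι => a7q e0 (hq y.1) (g y.2))
    (MvPolynomial.eval₂Hom (Int.castRingHom _) fun y : Fin m × ι => a7x (x y.1) (g y.2)) fun r => by
    rw [af_rep g fun i => a7q e0 (hq i), af_rep g fun i => a7x (x i)]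
    by_cases h : ∃ Z : Fin m → HH, ∑ d ∈ r.support, ((r.coeff d : ℤ) : ℂ) * ∏ i, a7x (Z i) (Φ d i) ≠ 0
    · exact iff_of_false (h1 ⟨r, h⟩) (h2 ⟨r, h⟩)
    · simp only [not_exists, not_not] at h
      exact iff_of_true (af_van e0 hq _ (fun d => r.coeff d) Φ h) (h x)
  have hX : ∀ i y, e (a7q e0 (hq i) (g y)) = a7x (x i) (g y) := fun i y => by
    simpa only [MvPolynomial.eval₂Hom_X'] using he (MvPolynomial.X (i, y))
  have h4 : ∀ k j T, e.symm (cf (F k j) T) = e0.symm (cf (F k j) T) := fun k j T => by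
    rw [RingEquiv.symm_apply_eq, ← a7_const e0 (hq 0)]
    exact (hX 0 (⟨k, j⟩, some T)).symm
  have h5 : ∀ i k j, e (evq e (q i) (F k j)) = F k j (x i) := fun i k j => by
    rw [evq]
    simp only [h4]
    exact hX i (⟨k, j⟩, none)
  refine ⟨e, fun i => x i, q, fun i => ⟨(x i).2, ⟨one3, 1, hq i, one_ne_zero, ha i,
    fun k G a hGa => ?_⟩, hρ i⟩, h3⟩
  obtain ⟨c, hc⟩ := (Submodule.mem_span_range_iff_exists_fun ℂ).1
    (hs k (res G) ⟨a, hGa.good⟩ hGa.inv_Gam)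
  have h6 : evq e (q i) (res G) = ∑ j, e.symm (c j) * evq e (q i) (F k j) := by
    rw [← hc, evq_sum e (hq i) _ fun j _ => mem_GQ.1 (GQ.smul_mem (mem_GQ.2 (hF k j).1) _)]
    exact Finset.sum_congr rfl fun j _ => evq_smul e (hq i) (hF k j).1 _
  rw [evq, hGa.good.cf_eq] at h6
  rw [one_zpow, one_mul, h6, map_sum]
  simp only [map_mul, RingEquiv.apply_symm_apply, h5]
  have h7 := congrFun hc (x i)
  simp only [Finset.sum_apply, Pi.smul_apply, smul_eq_mul] at h7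
  exact h7.symm

end Pool.Agent.E7
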