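import Pool.Agent.Lib.MP_7e5527_ag.EL.A3
import Pool.Agent.Lib.MP_7e5527_ag.Gal1

/-! Identity theorem for `p`-adic Laurent series on tuples of conjugate units. -/

open Filter Topology

noncomputable section

namespace Pool.Agent.E7

variable {p : ℕ} [Fact p.Prime]

/-- As `a2_ident`, for any injective family of points of `ℤ_[p] ^ σ`. -/
theorem af_ident {M σ : Type} {b : M → ℂ_[p]} (hb : Tendsto b cofinite (𝓝 0)) {y : M → σ → ℤ_[p]}
    (hy : Function.Injective y) (h1 : ∀ Q : MvPolynomial σ ℂ_[p],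
      HasSum (fun m => b m * MvPolynomial.eval (fun i => iZ p (y m i)) Q) 0) : b = 0 := by
  classical
  set x : M → σ → ℂ_[p] := fun m i => iZ p (y m i) with hx
  replace h1 : ∀ Q : MvPolynomial σ ℂ_[p], HasSum (fun m => b m * MvPolynomial.eval (x m) Q) 0 := h1
  funext m0
  by_contra h0
  have hε : 0 < ‖b m0‖ / 2 := half_pos (norm_pos_iff.2 h0)
  have h2 : ∀ m, ∃ Q : MvPolynomial σ ℂ_[p], (∀ m', ‖MvPolynomial.eval (x m') Q‖ ≤ 1) ∧
      MvPolynomial.eval (x m0) Q = 1 ∧ (m ≠ m0 → ‖MvPolynomial.eval (x m) Q‖ < 1) := fun m => by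
    by_cases hm : m = m0
    · exact ⟨1, by simp, by simp, fun e => absurd hm e⟩
    obtain ⟨i, hi⟩ := Function.ne_iff.1 (hy.ne hm)
    obtain ⟨f, P, f0, fy, fP⟩ := a2_sep (y := y m i - y m0 i) (sub_ne_zero.2 hi)
    have h3 : ∀ m', MvPolynomial.eval (x m')
        (Polynomial.aeval (MvPolynomial.X i - MvPolynomial.C (x m0 i)) P) =
        iZ p (f (y m' i - y m0 i)) := fun m' => by
      rw [fP, map_sub, ← MvPolynomial.coe_aeval_eq_eval, ← Polynomial.coe_aeval_eq_eval]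
      exact (Polynomial.aeval_algHom_apply (MvPolynomial.aeval (x m')) _ P).symm.trans
        (by simp [hx])
    refine ⟨Polynomial.aeval (MvPolynomial.X i - MvPolynomial.C (x m0 i)) P, fun m' => ?_, ?_,
      fun _ => ?_⟩
    · rw [h3, norm_iZ]; exact PadicInt.norm_le_one _
    · rw [h3, sub_self, f0, map_one]
    · rw [h3, norm_iZ]; exact fy
  choose Q Q1 Q2 Q3 using h2
  have hF : {m | ¬ ‖b m‖ < ‖b m0‖ / 2}.Finite := by
    simpa using Metric.tendsto_nhds.1 hb _ hε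
  set c := fun m => MvPolynomial.eval (x m) (∏ k ∈ hF.toFinset, Q k) with hc
  have c1 : ∀ m, ‖c m‖ ≤ 1 := fun m => by
    simp only [hc, map_prod, norm_prod]
    exact Finset.prod_le_one (fun _ _ => norm_nonneg _) fun k _ => Q1 k m
  have c2 : c m0 = 1 := by simp [hc, Q2]
  have c3 : ∀ m ∈ hF.toFinset.erase m0, ‖c m‖ < 1 := fun m hm => by
    simp only [hc, map_prod, norm_prod]
    rw [← Finset.mul_prod_erase _ _ (Finset.mem_of_mem_erase hm)]
    exact mul_lt_one_of_nonneg_of_lt_one_left (norm_nonneg _) (Q3 m (Finset.ne_of_mem_erase hm))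
      (Finset.prod_le_one (fun _ _ => norm_nonneg _) fun k _ => Q1 k m)
  obtain ⟨N, hN⟩ := ((Filter.eventually_all_finset _).2 fun m hm =>
    (((tendsto_pow_atTop_nhds_zero_of_lt_one (norm_nonneg _) (c3 m hm)).const_mul
      ‖b m‖).eventually_le_const (by simpa using h0 : ‖b m‖ * 0 < ‖b m0‖ / 2))).exists
  have h4 := hasSum_ite_sub_hasSum (h1 ((∏ k ∈ hF.toFinset, Q k) ^ N)) m0
  have h5 := IsUltrametricDist.norm_tsum_le_of_forall_le_of_nonneg hε.le
    (f := fun m => if m = m0 then 0 else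
      b m * MvPolynomial.eval (x m) ((∏ k ∈ hF.toFinset, Q k) ^ N)) fun m => by
    split_ifs with e
    · simpa using hε.le
    rw [map_pow, norm_mul, norm_pow]
    by_cases hm : m ∈ hF.toFinset
    · exact hN m (Finset.mem_erase.2 ⟨e, hm⟩)
    · exact (mul_le_of_le_one_right (norm_nonneg _) (pow_le_one₀ (norm_nonneg _) (c1 m))).trans
        (not_not.1 (mt hF.mem_toFinset.2 hm)).le
  rw [h4.tsum_eq, map_pow, show MvPolynomial.eval (x m0) _ = 1 from c2] at h5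
  simp only [one_pow, mul_one, zero_sub, norm_neg] at h5
  linarith

/-- `A = 1 + B` up to second order. -/
def afE (ε : ℝ) (A B : ℂ_[p]) : Prop := ‖A - 1 - B‖ ≤ ε ^ 2 ∧ ‖B‖ ≤ ε

theorem afE.one {ε : ℝ} (h : 0 ≤ ε) : afE ε (1 : ℂ_[p]) 0 := ⟨by simpa using sq_nonneg ε, by simpa⟩

theorem afE.mul {ε : ℝ} (h1 : ε ≤ 1) {A B A' B' : ℂ_[p]} (h : afE ε A B) (h' : afE ε A' B') :
    afE ε (A * A') (B + B') := by
  have h0 : 0 ≤ ε := (norm_nonneg _).trans h.2
  have e : ∀ {A B : ℂ_[p]}, afE ε A B → ‖A - 1‖ ≤ ε := fun {A B} h => by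
    rw [show A - 1 = A - 1 - B + B by ring]
    exact (IsUltrametricDist.norm_add_le_max _ _).trans (max_le (h.1.trans (by nlinarith)) h.2)
  refine ⟨?_, (IsUltrametricDist.norm_add_le_max _ _).trans (max_le h.2 h'.2)⟩
  rw [show A * A' - 1 - (B + B') = A - 1 - B + (A' - 1 - B') + (A - 1) * (A' - 1) by ring]
  refine (IsUltrametricDist.norm_add_le_max _ _).trans (max_le
    ((IsUltrametricDist.norm_add_le_max _ _).trans (max_le h.1 h'.1)) ?_)
  rw [norm_mul, sq]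
  exact mul_le_mul (e h) (e h') (norm_nonneg _) h0

theorem af_norm {d : ℂ_[p]} (h : ‖d‖ < 1) : ‖1 + d‖ = 1 := by
  rw [IsUltrametricDist.norm_add_eq_max_of_norm_ne_norm (by simpa using h.ne'), norm_one,
    max_eq_left h.le]

theorem afE.zpow {ε : ℝ} (h1 : ε < 1) {d : ℂ_[p]} (hd : ‖d‖ ≤ ε) (n : ℤ) :
    afE ε ((1 + d) ^ n) ((n : ℂ_[p]) * d) := by
  have h2 := af_norm (hd.trans_lt h1)
  have h3 : 1 + d ≠ 0 := norm_ne_zero_iff.1 (h2 ▸ one_ne_zero)
  have h0 : 0 ≤ ε := (norm_nonneg _).trans hd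
  induction n using Int.induction_on with
  | zero => simpa using afE.one h0
  | succ n ih =>
    rw [zpow_add_one₀ h3, Int.cast_add, add_mul, Int.cast_one, one_mul]
    exact ih.mul h1.le ⟨by simpa using sq_nonneg ε, hd⟩
  | pred n ih =>
    rw [zpow_sub_one₀ h3, Int.cast_sub, sub_mul, Int.cast_one, one_mul, sub_eq_add_neg]
    refine ih.mul h1.le ⟨?_, by rwa [norm_neg]⟩
    rw [show (1 + d)⁻¹ - 1 - -d = d ^ 2 * (1 + d)⁻¹ by field_simp; ring, norm_mul, norm_inv, h2,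
      inv_one, mul_one, norm_pow]
    exact pow_le_pow_left₀ (norm_nonneg _) hd 2

theorem afE.prod {ε : ℝ} (h0 : 0 ≤ ε) (h1 : ε < 1) {τ : Type} (S : Finset τ) {d : τ → ℂ_[p]}
    (hd : ∀ s, ‖d s‖ ≤ ε) (T : τ → ℤ) :
    afE ε (∏ s ∈ S, (1 + d s) ^ T s) (∑ s ∈ S, (T s : ℂ_[p]) * d s) := by
  classical
  induction S using Finset.induction_on with
  | empty => simpa using afE.one h0
  | insert a S ha ih =>
    rw [Finset.prod_insert ha, Finset.sum_insert ha]
    exact (afE.zpow h1 (hd a) _).mul h1.le ih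

variable {M τ : Type} [Fintype τ] {b : M → ℂ_[p]}

/-- The character with values `v`. -/
def chV (v : τ → ℂ_[p]) (T : τ → ℤ) : ℂ_[p] := ∏ s, v s ^ T s

theorem norm_chV {v : τ → ℂ_[p]} (hv : ∀ s, ‖v s‖ = 1) (T : τ → ℤ) : ‖chV v T‖ = 1 := by
  simp only [chV, norm_prod, norm_zpow, hv, one_zpow, Finset.prod_const_one]

theorem af_tend (hb : Tendsto b cofinite (𝓝 0)) {w : M → ℂ_[p]} (hw : ∀ m, ‖w m‖ ≤ 1) :
    Tendsto (fun m => b m * w m) cofinite (𝓝 0) :=
  squeeze_zero_norm (fun m => (norm_mul _ _).trans_le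
    (mul_le_of_le_one_right (norm_nonneg _) (hw m))) (tendsto_zero_iff_norm_tendsto_zero.1 hb)

theorem af_sum (hb : Tendsto b cofinite (𝓝 0)) {v : τ → ℂ_[p]} (hv : ∀ s, ‖v s‖ = 1)
    (c : M → τ → ℤ) : Summable fun m => b m * chV v (c m) :=
  NonarchimedeanAddGroup.summable_of_tendsto_cofinite_zero
    (af_tend hb fun _ => (norm_chV hv _).le)

theorem af_p : ‖(p : ℂ_[p])‖ < 1 := by
  rw [← map_natCast (iZ p), norm_iZ]
  exact (PadicInt.norm_lt_one_iff_dvd _).2 dvd_rfl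

/-- The derivative in the direction `d`. -/
theorem af_der (hb : Tendsto b cofinite (𝓝 0)) {v d : τ → ℂ_[p]} (hv : ∀ s, ‖v s‖ = 1)
    (hd : ∀ s, ‖d s‖ ≤ 1) (c : M → τ → ℤ) (h0 : ∑' m, b m * chV v (c m) = 0)
    (h : ∀ᶠ n : ℕ in atTop,
      ∑' m, b m * chV (fun s => v s * (1 + (p : ℂ_[p]) ^ (n + 1) * d s)) (c m) = 0) :
    HasSum (fun m => b m * (∑ s, (c m s : ℂ_[p]) * d s) * chV v (c m)) 0 := by
  have hp := af_p (p := p)
  have hp0 : (p : ℂ_[p]) ≠ 0 := Nat.cast_ne_zero.2 (Fact.out : p.Prime).ne_zero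
  have hl : ∀ m, ‖∑ s, (c m s : ℂ_[p]) * d s‖ ≤ 1 := fun m =>
    IsUltrametricDist.norm_sum_le_of_forall_le_of_nonneg zero_le_one fun s _ => by
      rw [norm_mul]
      exact mul_le_one₀ (IsUltrametricDist.norm_intCast_le_one _ _) (norm_nonneg _) (hd s)
  have hR := (af_sum (af_tend hb hl) hv c).hasSum
  obtain ⟨C, hC⟩ := (tendsto_zero_iff_norm_tendsto_zero.1 hb).bddAbove_range_of_cofinite
  have hC' : ∀ m, ‖b m‖ ≤ max C 0 := fun m => (hC ⟨m, rfl⟩).trans (le_max_left _ _)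
  generalize ∑' m, b m * (∑ s, (c m s : ℂ_[p]) * d s) * chV v (c m) = R at hR
  suffices R = 0 from this ▸ hR
  refine norm_le_zero_iff.1 (ge_of_tendsto (by
    simpa using ((tendsto_pow_atTop_nhds_zero_of_lt_one (norm_nonneg _) hp).comp
      (tendsto_add_atTop_nat 1)).const_mul (max C 0) :
    Tendsto (fun n : ℕ => max C 0 * ‖(p : ℂ_[p])‖ ^ (n + 1)) atTop (𝓝 0)) (h.mono fun n hn => ?_))
  have t1 : ‖(p : ℂ_[p])‖ ^ (n + 1) < 1 := pow_lt_one₀ (norm_nonneg _) hp n.succ_ne_zero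
  have t0 : 0 < ‖(p : ℂ_[p])‖ ^ (n + 1) := pow_pos (norm_pos_iff.2 hp0) _
  rw [← norm_pow] at t0 t1 ⊢
  generalize (p : ℂ_[p]) ^ (n + 1) = t at hn t0 t1
  have hd' : ∀ s, ‖t * d s‖ ≤ ‖t‖ := fun s =>
    (norm_mul _ _).trans_le (mul_le_of_le_one_right t0.le (hd s))
  have s1 := (af_sum hb (fun s => by
    rw [norm_mul, hv, af_norm ((hd' s).trans_lt t1), one_mul] :
      ∀ s, ‖v s * (1 + t * d s)‖ = 1) c).hasSum
  have s2 := (af_sum hb hv c).hasSum
  rw [hn] at s1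
  rw [h0] at s2
  have s3 := ((s1.sub s2).sub (hR.mul_left t)).tsum_eq
  have s4 := IsUltrametricDist.norm_tsum_le_of_forall_le_of_nonneg (C := max C 0 * ‖t‖ ^ 2)
    (by positivity) (f := fun m => b m * chV (fun s => v s * (1 + t * d s)) (c m) -
      b m * chV v (c m) - t * (b m * (∑ s, (c m s : ℂ_[p]) * d s) * chV v (c m))) fun m => by
    have e : b m * chV (fun s => v s * (1 + t * d s)) (c m) - b m * chV v (c m) -
        t * (b m * (∑ s, (c m s : ℂ_[p]) * d s) * chV v (c m)) =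
        b m * chV v (c m) * (∏ s, (1 + t * d s) ^ c m s - 1 - ∑ s, (c m s : ℂ_[p]) * (t * d s)) := by
      simp only [chV, mul_zpow, Finset.prod_mul_distrib, mul_left_comm _ t, ← Finset.mul_sum]
      ring
    rw [e, norm_mul, norm_mul, norm_chV hv, mul_one]
    exact mul_le_mul (hC' m) (afE.prod t0.le t1 _ hd' _).1 (norm_nonneg _) (le_max_right _ _)
  rw [s3, sub_zero, zero_sub, norm_neg, norm_mul] at s4
  exact le_of_mul_le_mul_left (by linarith) t0

end Pool.Agent.E7
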