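import Pool.Agent.Lib.MP_7e5527_ag.EF.AP1

/-! Units whose conjugates satisfy no analytic relation out of a countable family. -/

open Filter Topology Polynomial

noncomputable section

namespace Pool.Agent.E7

variable {p : ℕ} [Fact p.Prime]

/-- An algebraic integer with at least `m` conjugates: a root of `p` of prime order. -/
theorem af_conj (m : ℕ) [NeZero m] : ∃ (θ : ℂ_[p]) (ρ : Fin m → ℂ_[p] →+* ℂ_[p]),
    IsIntegral ℚ_[p] θ ∧ ‖θ‖ ≤ 1 ∧ ρ 0 = RingHom.id _ ∧ (∀ i z, ‖ρ i z‖ = ‖z‖) ∧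
    (∀ i x, ρ i (algebraMap ℚ_[p] ℂ_[p] x) = algebraMap ℚ_[p] ℂ_[p] x) ∧
    Function.Injective fun i => ρ i θ := by
  obtain ⟨N, hm, hN⟩ := Nat.exists_infinite_primes m
  have hp0 : (p : ℂ_[p]) ≠ 0 := Nat.cast_ne_zero.2 (Fact.out : p.Prime).ne_zero
  obtain ⟨θ, hθ⟩ := IsAlgClosed.exists_pow_nat_eq (p : ℂ_[p]) hN.pos
  have : NeZero N := ⟨hN.ne_zero⟩
  obtain ⟨ζ, hζ⟩ := HasEnoughRootsOfUnity.exists_primitiveRoot ℂ_[p] N
  have h0 : θ ≠ 0 := fun h => hp0 (by rw [← hθ, h, zero_pow hN.ne_zero])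
  let K : IntermediateField ℚ_[p] ℂ_[p] := ⊥
  have hi : Irreducible (X ^ N - C (p : K)) := X_pow_sub_C_irreducible_of_prime hN fun b hb => by
    obtain ⟨x, hx⟩ := IntermediateField.mem_bot.1 b.2
    have h1 : x ^ N = p := (algebraMap ℚ_[p] ℂ_[p]).injective (by
      rw [map_pow, hx, map_natCast]
      exact_mod_cast congrArg Subtype.val hb)
    have h2 := congrArg Padic.valuation h1
    rw [Padic.valuation_pow, Padic.valuation_p] at h2
    exact hN.one_lt.ne' (by exact_mod_cast Int.eq_one_of_mul_eq_one_right (by simp) h2)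
  have ha : ∀ z : ℂ_[p], z ^ N = p → aeval z (X ^ N - C (p : K)) = 0 := fun z hz => by
    simp [hz]
  have hmo := monic_X_pow_sub_C (p : K) hN.ne_zero
  have hI : IsIntegral K θ := ⟨_, hmo, ha θ hθ⟩
  have hmin := minpoly.eq_of_irreducible_of_monic hi (ha θ hθ) hmo
  choose ρ r1 r2 r3 using fun i : Fin m => UAP.exists_iso K hI (z' := ζ ^ (i : ℕ) * θ) (by
    rw [← hmin]
    exact ha _ (by rw [mul_pow, ← pow_mul, mul_comm _ N, pow_mul, hζ.pow_eq_one, one_pow, one_mul, hθ]))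
  have r4 : ∀ i, Function.update ρ 0 (RingHom.id _) i θ = ζ ^ (i : ℕ) * θ := fun i => by
    rcases eq_or_ne i 0 with rfl | e
    · simp
    · rw [Function.update_of_ne e, r3]
  refine ⟨θ, Function.update ρ 0 (RingHom.id _), isIntegral_trans θ hI, ?_, by simp, fun i z => ?_,
    fun i x => ?_, fun i j e => ?_⟩
  · refine (pow_le_one_iff_of_nonneg (norm_nonneg _) hN.ne_zero).1 ?_
    rw [← norm_pow, hθ]
    exact af_p.le
  · rcases eq_or_ne i 0 with rfl | e
    · simp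
    · rw [Function.update_of_ne e, r1]
  · rcases eq_or_ne i 0 with rfl | e
    · simp
    · rw [Function.update_of_ne e, r2 _ _ (K.algebraMap_mem x)]
  · simp only [r4] at e
    exact Fin.ext (hζ.pow_inj (i.2.trans_le hm) (j.2.trans_le hm) (mul_right_cancel₀ h0 e))

variable {M σ : Type} [Fintype σ] {m : ℕ} {b : M → ℂ_[p]} {θ : ℂ_[p]}
  {ρ : Fin m → ℂ_[p] →+* ℂ_[p]} {D : Set ℂ_[p]}

/-- A set of units that is stable under enough multiplications. -/
structure AfD (θ : ℂ_[p]) (ρ : Fin m → ℂ_[p] →+* ℂ_[p]) (D : Set ℂ_[p]) : Prop where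
  le : ‖θ‖ ≤ 1
  iso : ∀ i z, ‖ρ i z‖ = ‖z‖
  inj : Function.Injective fun i => ρ i θ
  cpt : IsCompact D
  one : 1 ∈ D
  norm : ∀ z ∈ D, ‖z‖ = 1
  mul : ∀ z ∈ D, ∀ n k : ℕ, z * (1 + (p : ℂ_[p]) ^ (n + 1) * θ ^ k) ∈ D

/-- The conjugates of a tuple. -/
def afV (ρ : Fin m → ℂ_[p] →+* ℂ_[p]) (u : σ → D) (s : Fin m × σ) : ℂ_[p] := ρ s.1 (u s.2)

omit [Fintype σ] in
theorem AfD.nv (h : AfD θ ρ D) (u : σ → D) (s : Fin m × σ) : ‖afV ρ u s‖ = 1 :=
  (h.iso _ _).trans (h.norm _ (u _).2)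

theorem AfD.step (h : AfD θ ρ D) (hb : Tendsto b cofinite (𝓝 0)) (c : M → Fin m × σ → ℤ)
    {u : σ → D} (h0 : ∀ᶠ u' in 𝓝 u, ∑' T, b T * chV (afV ρ u') (c T) = 0) (s : Fin m × σ) :
    ∑' T, b T * (c T s : ℂ_[p]) * chV (afV ρ u) (c T) = 0 := by
  classical
  obtain ⟨i0, l0⟩ := s
  obtain ⟨a, ha⟩ := Matrix.mulVec_surjective_iff_isUnit.2 ((Matrix.isUnit_iff_isUnit_det _).2
    (Matrix.det_vandermonde_ne_zero_iff.2 h.inj).isUnit) (Pi.single i0 1)
  have h1 : ∀ k : Fin m, HasSum (fun T => b T * (∑ s, (c T s : ℂ_[p]) *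
      if s.2 = l0 then ρ s.1 θ ^ (k : ℕ) else 0) * chV (afV ρ u) (c T)) 0 := fun k => by
    refine af_der hb (h.nv u) (fun s => ?_) c h0.self_of_nhds ?_
    · split_ifs
      · rw [norm_pow, h.iso]
        exact pow_le_one₀ (norm_nonneg _) h.le
      · simp
    have t1 : Tendsto (fun n : ℕ => (⟨_, h.mul _ (u l0).2 n k⟩ : D)) atTop (𝓝 (u l0)) := by
      refine tendsto_subtype_rng.2 ?_
      simpa using (((((tendsto_pow_atTop_nhds_zero_of_norm_lt_one af_p).comp
        (tendsto_add_atTop_nat 1)).mul_const (θ ^ (k : ℕ))).const_add 1).const_mul (u l0 : ℂ_[p]))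
    have t2 := (tendsto_const_nhds (x := u)).update l0 t1
    rw [Function.update_eq_self] at t2
    filter_upwards [t2.eventually h0] with n hn
    refine Eq.trans (tsum_congr fun T => congrArg (fun v => b T * chV v (c T))
      (funext fun s => ?_)) hn
    obtain ⟨i, l⟩ := s
    rcases eq_or_ne l l0 with rfl | e
    · simp [afV]
    · simp [afV, e]
  have h2 := hasSum_sum fun k (_ : k ∈ Finset.univ) => (h1 k).mul_left (a k)
  simp only [mul_zero, Finset.sum_const_zero] at h2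
  rw [← h2.tsum_eq]
  refine tsum_congr fun T => ?_
  have e : ∀ i, ∑ k : Fin m, ρ i θ ^ (k : ℕ) * a k = if i = i0 then 1 else 0 := fun i => by
    simpa [Matrix.mulVec, dotProduct, Pi.single_apply] using congrFun ha i
  have e2 : (c T (i0, l0) : ℂ_[p]) =
      ∑ k, a k * ∑ s, (c T s : ℂ_[p]) * if s.2 = l0 then ρ s.1 θ ^ (k : ℕ) else 0 := by
    simp only [Fintype.sum_prod_type, mul_ite, mul_zero, Finset.sum_ite_eq', Finset.mem_univ,
      if_true, Finset.mul_sum]
    rw [Finset.sum_comm]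
    simp only [mul_left_comm (a _), mul_comm (a _), ← Finset.mul_sum, e]
    simp
  rw [e2, Finset.mul_sum, Finset.sum_mul]
  exact Finset.sum_congr rfl fun k _ => by ring

theorem AfD.int (h : AfD θ ρ D) (hb : Tendsto b cofinite (𝓝 0)) {c : M → Fin m × σ → ℤ}
    (hc : Function.Injective c) {u : σ → D}
    (h0 : ∀ᶠ u' in 𝓝 u, ∑' T, b T * chV (afV ρ u') (c T) = 0) : b = 0 := by
  have h1 : ∀ Q : MvPolynomial (Fin m × σ) ℂ_[p],
      Tendsto (fun T => b T * MvPolynomial.eval (fun s => (c T s : ℂ_[p])) Q) cofinite (𝓝 0) ∧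
      ∀ᶠ u' in 𝓝 u, ∑' T, b T * MvPolynomial.eval (fun s => (c T s : ℂ_[p])) Q *
        chV (afV ρ u') (c T) = 0 := fun Q => by
    induction Q using MvPolynomial.induction_on with
    | C a =>
      simp only [MvPolynomial.eval_C]
      refine ⟨by simpa using hb.mul_const a, h0.mono fun u' hu => ?_⟩
      simp only [mul_right_comm _ a, tsum_mul_right, hu, zero_mul]
    | add P Q hP hQ =>
      simp only [map_add, mul_add, add_mul]
      refine ⟨by simpa using hP.1.add hQ.1, (hP.2.and hQ.2).mono fun u' hu => ?_⟩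
      rw [(af_sum hP.1 (h.nv u') c).tsum_add (af_sum hQ.1 (h.nv u') c), hu.1, hu.2, add_zero]
    | mul_X P s hP =>
      simp only [map_mul, MvPolynomial.eval_X, ← mul_assoc]
      exact ⟨af_tend hP.1 fun T => IsUltrametricDist.norm_intCast_le_one _ _,
        hP.2.eventually_nhds.mono fun u' hu => h.step hP.1 c hu s⟩
  have h2 : (fun T => b T * chV (afV ρ u) (c T)) = 0 :=
    af_ident (af_tend hb fun T => (norm_chV (h.nv u) _).le) (y := fun T s => (c T s : ℤ_[p]))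
      (fun T T' e => hc (funext fun s => Int.cast_injective (congrFun e s))) fun Q => by
      have := (af_sum (h1 Q).1 (h.nv u) c).hasSum
      rw [(h1 Q).2.self_of_nhds] at this
      simpa only [map_intCast, mul_right_comm] using this
  funext T
  refine (mul_eq_zero.1 (congrFun h2 T)).resolve_right fun h6 => ?_
  simpa [h6] using norm_chV (h.nv u) (c T)

theorem AfD.cont (h : AfD θ ρ D) (hb : Tendsto b cofinite (𝓝 0)) (c : M → Fin m × σ → ℤ) :
    Continuous fun u : σ → D => ∑' T, b T * chV (afV ρ u) (c T) := by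
  have := isCompact_iff_compactSpace.1 h.cpt
  have hi : ∀ s, Continuous fun u : σ → D => afV ρ u s := fun s =>
    (AddMonoidHomClass.isometry_of_norm (ρ s.1) (h.iso _)).continuous.comp
      (continuous_subtype_val.comp (continuous_apply _))
  let F (T : M) : C(σ → D, ℂ_[p]) := ⟨fun u => b T * chV (afV ρ u) (c T),
    continuous_const.mul (continuous_finsetProd _ fun s _ => (hi s).zpow₀ _ fun u =>
      Or.inl (norm_ne_zero_iff.1 (h.nv u s ▸ one_ne_zero)))⟩
  have hF : Summable F := NonarchimedeanAddGroup.summable_of_tendsto_cofinite_zero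
    (squeeze_zero_norm (fun T => (ContinuousMap.norm_le _ (norm_nonneg (b T))).2 fun u => by
      simp [F, norm_chV (h.nv u)]) (tendsto_zero_iff_norm_tendsto_zero.1 hb))
  exact (∑' T, F T).continuous.congr fun u => (ContinuousMap.tsum_apply hF u).symm

/-- Baire in the units of `ℚ_[p] (θ)`. -/
theorem af_gen (m : ℕ) [NeZero m] {ι : Type} [Countable ι] (b : ι → M → ℂ_[p])
    (hb : ∀ j, Tendsto (b j) cofinite (𝓝 0)) (h0 : ∀ j, b j ≠ 0) {c : M → Fin m × σ → ℤ}
    (hc : Function.Injective c) : ∃ (ρ : Fin m → ℂ_[p] →+* ℂ_[p]) (u : σ → ℂ_[p]),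
      ρ 0 = RingHom.id _ ∧ (∀ i z, ‖ρ i z‖ = ‖z‖) ∧
      (∀ i x, ρ i (algebraMap ℚ_[p] ℂ_[p] x) = algebraMap ℚ_[p] ℂ_[p] x) ∧
      (∀ l, ‖u l‖ = 1 ∧ IsIntegral ℚ_[p] (u l)) ∧
      ∀ j, ∑' T, b j T * chV (fun s => ρ s.1 (u s.2)) (c T) ≠ 0 := by
  obtain ⟨θ, ρ, h1, h2, h3, h4, h5, h6⟩ := af_conj (p := p) m
  let A := Algebra.adjoin ℚ_[p] {θ}
  have hA : A.toSubmodule.FG := h1.fg_adjoin_singleton
  have h : AfD θ ρ {z | z ∈ A ∧ ‖z‖ = 1} := by
    refine ⟨h2, h4, h6, ?_, ⟨A.one_mem, norm_one⟩, fun z hz => hz.2, fun z hz n k => ⟨A.mul_mem hz.1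
      (A.add_mem A.one_mem (A.mul_mem (A.pow_mem (natCast_mem A p) _)
        (A.pow_mem (Algebra.self_mem_adjoin_singleton _ _) _))), ?_⟩⟩
    · have : FiniteDimensional ℚ_[p] A.toSubmodule := Module.Finite.iff_fg.2 hA
      have := FiniteDimensional.proper ℚ_[p] A.toSubmodule
      have h7 := (isCompact_sphere (0 : A.toSubmodule) 1).image continuous_subtype_val
      refine h7.of_isClosed_subset ((A.toSubmodule.closed_of_finiteDimensional).inter
        (isClosed_eq continuous_norm continuous_const)) fun z hz => ⟨⟨z, hz.1⟩, by simpa using hz.2, rfl⟩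
    · rw [norm_mul, hz.2, one_mul, af_norm]
      rw [norm_mul, norm_pow, norm_pow]
      exact mul_lt_one_of_nonneg_of_lt_one_left (by positivity)
        (pow_lt_one₀ (norm_nonneg _) af_p n.succ_ne_zero) (pow_le_one₀ (norm_nonneg _) h2)
  have := isCompact_iff_compactSpace.1 h.cpt
  have : Nonempty {z | z ∈ A ∧ ‖z‖ = 1} := ⟨⟨1, h.one⟩⟩
  obtain ⟨u, hu⟩ := (dense_iInter_of_isOpen
    (fun j => (isClosed_eq (h.cont (hb j) c) continuous_const).isOpen_compl)
    fun j => interior_eq_empty_iff_dense_compl.1 (Set.eq_empty_of_forall_notMem fun u hu =>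
      h0 j (h.int (hb j) hc (mem_interior_iff_mem_nhds.1 hu)))).nonempty
  exact ⟨ρ, fun l => u l, h3, h4, h5, fun l => ⟨(u l).2.2, .of_mem_of_fg A hA _ (u l).2.1⟩,
    Set.mem_iInter.1 hu⟩

end Pool.Agent.E7
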