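import Pool.Agent.Lib.MP_7e5527_ag.E7.PDefs
import Pool.Agent.Lib.MP_7e5527_ag.EA.AF
import Pool.Agent.Lib.MP_7e5527_ag.EA.AD

/-! The interface of the `p`-adic core. -/

open MvPowerSeries Filter Topology

noncomputable section

namespace Pool.Agent.E7

variable {ι : Type} [Fintype ι] [DecidableEq ι] {p : ℕ} [Fact p.Prime]

/-- The Taylor series of `w ↦ ∑ a T * q ^ T * exp (T · w)`. -/
def TS (q : ι → ℂ_[p]) (a : (ι → ℤ) → ℂ_[p]) : PS ι ℂ_[p] :=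
  fun ν => ∑' T, a T * mon q T * ∏ i, ((T i : ℂ_[p]) ^ ν i / ((ν i).factorial : ℂ_[p]))

/-- The Siegel set lies in a polyhedral cone. -/
def Cone.Poly (Co : Cone ι) : Prop :=
  ∃ (J : Type) (_ : Fintype J) (Y0 : ι → ℚ) (Y : J → ι → ℚ), Y0 ∈ Co.Om ∧
    (∀ j, ∀ T ∈ Co.Lp, 0 ≤ ip T (Y j)) ∧ ∀ y ∈ Co.Sg, ∃ (l : ℚ) (m : J → ℚ), 0 < l ∧
      (∀ j, 0 ≤ m j) ∧ y = l • Y0 + ∑ j, m j • Y j

/-- A sequence of zeros of one series with coefficients in the `p`-adic integers. -/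
structure PD (p : ℕ) [Fact p.Prime] (Co : Cone ι) (κ : Type) where
  q : ℕ → ι → ℂ_[p]
  y : ℕ → ι → ℚ
  a : (ι → ℤ) → ℤ_[p]
  E : IntermediateField ℚ_[p] ℂ_[p]
  finE : FiniteDimensional ℚ_[p] E
  supp : ∀ T, a T ≠ 0 → T ∈ Co.Lp
  pt : ∀ n, Pt p (q n) (y n)
  sg : ∀ n, y n ∈ Co.Sg
  kum : ∀ n, ∃ m : ℕ, 0 < m ∧ ∀ i, q n i ^ m ∈ E
  van : ∀ n, ∑' T, UAP.zp p (a T) * mon (q n) T = 0
  fib : ∀ x, {n | q n = x}.Finite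
  lgr : ∀ Lg, IsLog Lg → ∃ L : κ → ℂ_[p], ∀ n i,
    Lg (q n i) ∈ Submodule.span ℚ_[p] (Set.range L)

/-- Arcs through the conjugates of `q` on which the series vanishes. -/
def POut (r : ℕ) {m : ℕ} (ρ : Fin m → ℂ_[p] →+* ℂ_[p]) (q : ι → ℂ_[p]) (a : (ι → ℤ) → ℤ_[p]) :
    Prop :=
  ∃ z : Fin m → ι → PS Unit ℂ_[p], (∀ i, C0 (z i)) ∧ (∀ i, z i ≠ 0) ∧
    (Dep ℂ_[p] r fun s : Fin m × ι => z s.1 s.2) ∧
      ∀ i, sb (z i) (TS (fun l => ρ i (q l)) fun T => UAP.zp p (a T)) = 0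

end Pool.Agent.E7
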