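import Pool.Agent.Lib.MP_7e5527_ag.EA.CR
import Pool.Agent.Lib.MP_7e5527_ag.EF.PSt

/-! Algebraic lemmas for the comparison of expansions. -/

open MvPowerSeries

noncomputable section

namespace Pool.Agent.E7

theorem c1_ae {σ k A B : Type} [CommRing k] [CommRing A] [Algebra k A] [CommRing B] [Algebra k B]
    (E : A →+* B) (h : ∀ c, E (algebraMap k A c) = algebraMap k B c) (v : σ → A)
    (P : MvPolynomial σ k) :
    E (MvPolynomial.aeval v P) = MvPolynomial.aeval (fun i => E (v i)) P := by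
  induction P using MvPolynomial.induction_on with
  | C a => rw [MvPolynomial.aeval_C, MvPolynomial.aeval_C, h]
  | add f g hf hg => rw [map_add, map_add, map_add, hf, hg]
  | mul_X f j hf =>
    rw [map_mul, map_mul, map_mul, hf, MvPolynomial.aeval_X, MvPolynomial.aeval_X]

/-- Homogenisation. -/
theorem c1_hom {σ A : Type} [CommRing A] (H : MvPolynomial σ A) :
    ∃ (d : ℕ) (G : MvPolynomial (Option σ) A), ∀ (S : Type) [CommRing S] (j : A →+* S)
      (x : Option σ → S) (v : S), v * x none = 1 →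
      G.eval₂ j x * v ^ d = H.eval₂ j fun l => x (some l) * v := by
  induction H using MvPolynomial.induction_on with
  | C a => exact ⟨0, MvPolynomial.C a, fun S _ j x v _ => by simp⟩
  | add f g hf hg =>
    obtain ⟨d, F, hF⟩ := hf
    obtain ⟨d', G, hG⟩ := hg
    refine ⟨d + d', F * MvPolynomial.X none ^ d' + G * MvPolynomial.X none ^ d,
      fun S _ j x v h => ?_⟩
    have h1 : ∀ n, v ^ n * x none ^ n = 1 := fun n => by rw [← mul_pow, h, one_pow]
    rw [MvPolynomial.eval₂_add, MvPolynomial.eval₂_add, ← hF S j x v h, ← hG S j x v h]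
    simp only [MvPolynomial.eval₂_mul, MvPolynomial.eval₂_pow, MvPolynomial.eval₂_X]
    linear_combination F.eval₂ j x * v ^ d * h1 d' + G.eval₂ j x * v ^ d' * h1 d
  | mul_X f l hf =>
    obtain ⟨d, F, hF⟩ := hf
    refine ⟨d + 1, F * MvPolynomial.X (some l), fun S _ j x v h => ?_⟩
    rw [MvPolynomial.eval₂_mul, MvPolynomial.eval₂_mul, ← hF S j x v h, MvPolynomial.eval₂_X,
      MvPolynomial.eval₂_X]
    ring

variable {k ι β : Type} [Field k] [CharZero k] [Fintype ι] [DecidableEq ι] [Fintype β]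
  [DecidableEq β] {m r : ℕ}

theorem as_many (Λ Λ' : Fin m → LD k ι β) {ζ : Fin m → ι → PS ι k} (h0 : ∀ i, C0 (ζ i))
    (hx : ∀ i j, sb (ζ i) ((Λ i).x j) = (Λ' i).x j)
    (hQ : ∀ i, ∃ (Q0 : MvPolynomial ι k) (Q1 : ι → MvPolynomial ι k), Q0.coeff 0 ≠ 0 ∧
      ∀ l, (Q0 : PS ι k) * ζ i l = Q1 l) (𝔄 : Subalgebra k (PS (Fin m × ι) k))
    (h𝔄 : ∀ i j, rename (Prod.mk i) ((Λ i).x j) ∈ 𝔄) {H : MvPolynomial ι k}
    (hG : GenV r 𝔄 {f | ∃ i, f = rename (Prod.mk i) (MvPolynomial.aeval (Λ i).x H)})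
    {y : Fin m → ι → PS Unit k} (hy : ∀ i, C0 (y i)) (hz : ∀ i, y i ≠ 0) (hm : 0 < m)
    (h1 : Dep k r fun q : Fin m × ι => y q.1 q.2)
    (h2 : ∀ i, sb (y i) (MvPolynomial.aeval (Λ' i).x H) = 0) : False := by
  have h3 : ∀ i j, sb (fun l => sb (y i) (ζ i l)) ((Λ i).x j) = sb (y i) ((Λ' i).x j) :=
    fun i j => by
      rw [← hx]
      exact (evx_sb (hy i).ev (h0 i).ev ((hy i).ev.evx (h0 i)) _).symm
  have hc : ∀ i, C0 fun l => sb (y i) (ζ i l) := fun i l => by
    rw [const_sb (hy i)]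
    exact h0 i l
  refine as_main Λ 𝔄 h𝔄 hG hc (fun i h => hz i ?_) hm (h1.alg fun q => ?_) ?_
  rotate_right
  · rintro _ ⟨i, rfl⟩
    refine ⟨i, _, 1, 0, isUnit_one, rfl, ?_, ?_⟩
    · rw [zero_add, pow_one, mul_one]
      exact isAlgebraic_algebraMap (⟨_, by
        rw [Algebra.adjoin_range_eq_range_aeval]
        exact ⟨H, rfl⟩⟩ : Algebra.adjoin k (Set.range (Λ i).x))
    · rw [← h2 i, c1_ae _ fun c => evx_C (hc i).ev c, c1_ae _ fun c => evx_C (hy i).ev c,
        funext (h3 i)]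
  · refine evx_inj (Λ' i).jac_unit (φ := C) (hy i).ev (C0.ev fun _ => map_zero _) fun j => ?_
    have h4 : (fun l => sb (y i) (ζ i l)) = fun _ => 0 := h
    rw [← h3, h4, evx_zero, ← hx]
    exact ((evx_zero _).trans (congrArg C (const_sb (h0 i) _))).symm
  · obtain ⟨Q0, Q1, q0, q1⟩ := hQ q.1
    have h4 : ∀ Q : MvPolynomial ι k, sb (y q.1) (Q : PS ι k) ∈
        algS k fun q : Fin m × ι => y q.1 q.2 := fun Q => by
      induction Q using MvPolynomial.induction_on with
      | C a =>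
        rw [MvPolynomial.coe_C, evx_C (hy _).ev]
        exact Subalgebra.algebraMap_mem _ _
      | add f g hf hg =>
        rw [MvPolynomial.coe_add, map_add]
        exact add_mem hf hg
      | mul_X f j hf =>
        rw [MvPolynomial.coe_mul, map_mul, MvPolynomial.coe_X, evx_X (hy _).ev]
        exact mul_mem hf (self_mem_algS (x := fun q : Fin m × ι => y q.1 q.2) (q.1, j))
    refine algS_div (h4 Q0) (fun h => q0 ?_) ?_
    · have h5 := congrArg constantCoeff h
      rwa [const_sb (hy _), ← coeff_zero_eq_constantCoeff_apply, MvPolynomial.coeff_coe,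
        map_zero] at h5
    · rw [← map_mul, q1]
      exact h4 _

variable {p : ℕ} [Fact p.Prime]

omit [DecidableEq ι] in
theorem TS_const (q : ι → ℂ_[p]) (a : (ι → ℤ) → ℂ_[p]) :
    constantCoeff (TS q a) = ∑' T, a T * mon q T := by
  change TS q a 0 = _
  simp [TS]

theorem TS_der (q : ι → ℂ_[p]) (a : (ι → ℤ) → ℂ_[p]) (l : ι) :
    pderiv ℂ_[p] l (TS q a) = TS q fun T => T l * a T := by
  ext ν
  rw [coeff_pderiv]
  change TS q a _ * _ = TS q _ ν
  rw [TS, TS, ← tsum_mul_right]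
  refine tsum_congr fun T => ?_
  rw [← Finset.mul_prod_erase _ _ (Finset.mem_univ l), ← Finset.mul_prod_erase _ _ (Finset.mem_univ l),
    Finset.prod_congr rfl (g := fun i => (T i : ℂ_[p]) ^ ν i / ((ν i).factorial : ℂ_[p]))
      fun i hi => by
        rw [Finsupp.add_apply, Finsupp.single_eq_of_ne (Finset.ne_of_mem_erase hi), add_zero]]
  have h1 : ((ν l).factorial : ℂ_[p]) ≠ 0 := Nat.cast_ne_zero.2 (Nat.factorial_ne_zero _)
  have h2 : ((ν l : ℂ_[p]) + 1) ≠ 0 := Nat.cast_add_one_ne_zero _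
  rw [Finsupp.add_apply, Finsupp.single_eq_same, Nat.factorial_succ]
  push_cast
  field_simp
  ring

omit [DecidableEq ι] in
theorem c1_uniq {R K : Type} [CommRing K] [IsAddTorsionFree K] {d : ι → R → R}
    {τ τ' : R → PS ι K} (h : ∀ F, constantCoeff (τ F) = constantCoeff (τ' F))
    (h1 : ∀ l F, pderiv K l (τ F) = τ (d l F)) (h2 : ∀ l F, pderiv K l (τ' F) = τ' (d l F))
    (F : R) : τ F = τ' F := by
  ext ν
  induction hn : ν.degree generalizing ν F with
  | zero =>
    rw [(Finsupp.degree_eq_zero_iff ν).1 hn]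
    exact h F
  | succ n ih =>
    obtain ⟨l, hl⟩ : ∃ l, ν l ≠ 0 := by
      by_contra hc
      push Not at hc
      rw [show ν = 0 from Finsupp.ext hc, map_zero] at hn
      exact absurd hn (by omega)
    obtain ⟨μ, rfl⟩ : ∃ μ, ν = μ + Finsupp.single l 1 :=
      ⟨ν - Finsupp.single l 1, (tsub_add_cancel_of_le (by
        rw [Finsupp.single_le_iff]; omega)).symm⟩
    have h3 := ih (d l F) μ (by
      rw [map_add, Finsupp.degree_single] at hn
      omega)
    rw [← h1, ← h2, coeff_pderiv, coeff_pderiv, ← Nat.cast_add_one, mul_comm, mul_comm (coeff _ _),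
      ← nsmul_eq_mul, ← nsmul_eq_mul] at h3
    exact nsmul_right_injective (Nat.succ_ne_zero _) h3

theorem TW.Ts.eq_TS {Co : Cone ι} {R : Type} [CommRing R] {S : TW p Co R} {ψ : R →+* ℂ_[p]}
    {τ : R →+* PS ι ℂ_[p]} (h : S.Ts ψ τ) {q : ι → ℂ_[p]}
    (hψ : ∀ F, ψ F = ∑' T, S.co F T * mon q T) (F : R) : τ F = TS q (S.co F) :=
  c1_uniq (τ := τ) (τ' := fun F => TS q (S.co F)) (d := S.del)
    (fun F => by rw [h.const, TS_const, hψ]) h.der
    (fun l F => by rw [TS_der, funext (S.co_del l F)]) F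

end Pool.Agent.E7
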