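import Pool.Agent.Lib.MP_7e5527_ag.EF.Left
import Pool.Agent.Lib.MP_7e5527_ag.EA.CA
import Pool.Agent.Lib.MP_7e5527_ag.E7.Match
import Pool.Agent.Lib.MP_7e5527_ag.E7.SRE

/-! Points of the domain and their parameters. -/

noncomputable section

namespace Pool.Agent.E7

variable {p : ℕ} [Fact p.Prime] {e : ℂ_[p] ≃+* ℂ} {q q' : (Ix → ℚ) → ℂ_[p]} {Y Y' : Ix → ℚ}

/-- The level. -/
def Gm3 : Subgroup Gb := Gam2 ⊓ GamP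

theorem Gm3_P : Gm3 ≤ GamP := inf_le_right

theorem Gm3_two : Gm3 ≤ Gam2 := inf_le_left

theorem Gm3_le : Gm3 ≤ Gam := Gm3_two.trans Gam2_le

theorem Gm3_index : Gm3.relIndex Gam ≠ 0 := Subgroup.relIndex_inf_ne_zero Gam2_index GamP_index

theorem Gm3_n (B : Ix → ℚ) (h : B ∈ Lam) : nE (toR ℂ B) ∈ Gm3 := ⟨nE_mem_Gam2 h, nE_mem_GamP h⟩

theorem c2_supp {k : ℤ} {F : Fn} (h : MI Gm3 k F) {T : Ix → ℚ} (hT : cf F T ≠ 0) : T ∈ Lam :=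
  h.1.gd.spec.supp_Lam (fun B hB => h.2 _ (Gm3_n B hB)) hT

/-- The point `Z` has parameter `q`. -/
def Mt (e : ℂ_[p] ≃+* ℂ) (q : (Ix → ℚ) → ℂ_[p]) (Z : HH) : Prop :=
  ∃ c : ℂ, c ≠ 0 ∧ ∀ k F, MI Gm3 k F → F Z = c ^ k * e (evq e q F)

theorem Mt.congr {Z : HH} (h : Mt e q Z) (hq : ∀ T ∈ Lam, q T = q' T) : Mt e q' Z := by
  obtain ⟨c, hc, h⟩ := h
  refine ⟨c, hc, fun k F hF => ?_⟩
  rw [h k F hF, evq, evq]
  refine congrArg (fun z => c ^ k * e z) (tsum_congr fun T => ?_)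
  by_cases h0 : cf F T = 0
  · rw [h0, map_zero, zero_mul, zero_mul]
  · rw [hq T (c2_supp hF h0)]

theorem c2_of_sl {x : HH} {g : Gb} (hg : g ∈ GG) {c : ℂ} (hc : c ≠ 0)
    (h : ∀ k F, MF k F → Inv Gm3 k F → sl k g F x = c ^ k * e (evq e q F)) :
    Mt e q (ofC (act g x)) := by
  have hj := (act_spec hg x.2).1
  refine ⟨jf g x * c, mul_ne_zero hj hc, fun k F hF => ?_⟩
  rw [mul_zpow, mul_assoc, ← h k F hF.1 hF.2, sl, ← mul_assoc, zpow_neg,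
    mul_inv_cancel₀ (zpow_ne_zero k hj), one_mul]

theorem Mt.good {Z : HH} (h : Mt e q Z) (hq : Chr p q Y) (hY : toR ℝ Y ∈ Sieg) :
    (Z : Ix → ℂ) ∈ U0 := by
  obtain ⟨c, hc, h⟩ := h
  refine ⟨Z.2, ?_, fun h0 => ?_⟩
  · rw [ext, ofC_coe, h 4 ThF ⟨ThF_m2.1, ThF_m2.2.mono Gm3_two⟩]
    refine mul_ne_zero (zpow_ne_zero _ hc) ((map_ne_zero e).2 fun h0 => ?_)
    have := norm_evq_ThF e hq
    rw [h0, norm_zero] at this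
    exact zero_ne_one this
  · have h1 := h 260 _ ⟨JacF_m2.1, JacF_m2.2.mono Gm3_two⟩
    rw [ext, ofC_coe] at h0
    rw [Pi.pow_apply, h0, zero_pow two_ne_zero] at h1
    exact mul_ne_zero (zpow_ne_zero _ hc) ((map_ne_zero e).2 (evq_JacF e hq hY)) h1.symm

theorem Chr.iso (hq : Chr p q Y) {ρ : ℂ_[p] →+* ℂ_[p]} (hρ : ∀ z, ‖ρ z‖ = ‖z‖) :
    Chr p (ρ ∘ q) Y :=
  ⟨hq.mem, fun T T' => by simp only [Function.comp_apply, hq.mul, map_mul],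
    fun T => (hρ _).trans (hq.norm T)⟩

theorem c2_pt (hq : Chr p q Y) {c : ℂ} (hc : c ≠ 0) {x : HH}
    (hT : ∀ k F a, IsMF k F a → F x = c ^ k * e (∑' T, e.symm (a T) * q T)) {g : Gb}
    (hg : g ∈ GG) : ∃ γ ∈ Gam, ∃ (A : Matrix Ix Ix ℚ) (cA : ℚ) (B : Ix → ℚ), IsSim A cA ∧
      toR ℝ (lin A Y) ∈ Sieg ∧ Mt e (qt e q A B) (ofC (act (γ * g) x)) := by
  obtain ⟨γ, hγ, c', A, cA, B, h1, h2, h3, h4⟩ := match_pt e hq hc hT Gm3_le Gm3_index hg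
  exact ⟨γ, hγ, A, cA, B, h2, h3, c2_of_sl (mul_mem (Gam_le hγ) hg) h1 h4⟩

theorem c2_back (hq : Chr p q Y) {c : ℂ} (hc : c ≠ 0) {x : HH}
    (hT : ∀ k F a, IsMF k F a → F x = c ^ k * e (∑' T, e.symm (a T) * q T))
    {A : Matrix Ix Ix ℚ} {cA : ℚ} (hA : IsSim A cA) (B : Ix → ℚ) :
    ∃ g ∈ GG, Mt e (qt e q A B) (ofC (act g x)) := by
  obtain ⟨μ, hμ⟩ := exists_m hA
  have hg : nE (toR ℂ B) * μ ∈ GG := mul_mem (Subgroup.subset_closure (Or.inl ⟨B, rfl⟩))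
    (Subgroup.subset_closure (Or.inr (Or.inl ⟨A, cA, hA, hμ⟩)))
  have hP : IsP (nE (toR ℂ B) * μ) 1 B A cA := ⟨one_ne_zero, hA, fun v => by
    rw [Rat.cast_one, one_smul, ← hμ]
    rfl⟩
  generalize nE (toR ℂ B) * μ = g at hg hP
  obtain ⟨Δ', h1, h2, h3⟩ := exists_level Gm3_le Gm3_index hg
  obtain ⟨γ0, hγ0, h4⟩ := match0 e hq hc hT h1 h2
  refine ⟨g * γ0, mul_mem hg (Gam_le hγ0), c2_of_sl (mul_mem hg (Gam_le hγ0)) hc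
    fun k F hF hI => ?_⟩
  have h5 := h4 k _ (hF.slash hg) fun δ hδ => by
    have h6 := h3 δ hδ _ (one_mem _) _ (one_mem _)
    rw [one_mul, mul_one] at h6
    rw [← sl_mul k hg (Gam_le (h1 hδ)), ← inv_mul_cancel_right (g * δ) g,
      sl_mul k (Gam_le (Gm3_le h6)) hg, hI _ h6]
  rwa [← sl_mul k hg (Gam_le hγ0), evq_slP e hF.gd k hP, Rat.cast_one, one_zpow, one_mul] at h5

theorem c2_root (e : ℂ_[p] ≃+* ℂ) (ρ : ℂ_[p] →+* ℂ_[p]) (B : Ix → ℚ) : ∃ n : ℕ, ∀ T ∈ Lam,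
    ρ (e.symm (eT T (toR ℂ B))) = e.symm (eT T (toR ℂ ((n : ℚ) • B))) := by
  obtain ⟨N, hN, h⟩ := eT_root_unif one_pos B
  have : NeZero N := ⟨hN.ne'⟩
  have h1 := (Complex.isPrimitiveRoot_exp N hN.ne').map_of_injective (f := e.symm)
    e.symm.injective
  obtain ⟨n, -, hn⟩ := h1.eq_pow_of_pow_eq_one (ξ := ρ _) (by rw [← map_pow, h1.pow_eq_one, map_one])
  refine ⟨n, fun T hT => ?_⟩
  obtain ⟨j, -, hj⟩ := h1.eq_pow_of_pow_eq_one (ξ := e.symm (eT T (toR ℂ B)))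
    (by rw [← map_pow, h T (by rwa [Nat.cast_one, one_smul]), map_one])
  rw [g1_pow, map_pow, ← hj, map_pow, ← hn, ← pow_mul, ← pow_mul, mul_comm n]

theorem c2_conj {ρ : ℂ_[p] →+* ℂ_[p]} (hq : Chr p (ρ ∘ q) Y) {c : ℂ} (hc : c ≠ 0) {x : HH}
    (hT : ∀ k F a, IsMF k F a → F x = c ^ k * e (∑' T, e.symm (a T) * (ρ ∘ q) T))
    {A : Matrix Ix Ix ℚ} {cA : ℚ} (hA : IsSim A cA) (B : Ix → ℚ) :
    ∃ g ∈ GG, Mt e (ρ ∘ qt e q A B) (ofC (act g x)) := by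
  obtain ⟨n, hn⟩ := c2_root e ρ B
  obtain ⟨g, hg, h⟩ := c2_back hq hc hT hA ((n : ℚ) • B)
  refine ⟨g, hg, h.congr fun T hT => ?_⟩
  rw [Function.comp_apply, qt, qt, map_mul, hn T hT]
  rfl

end Pool.Agent.E7
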