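import Pool.Agent.Lib.MP_7e5527_ag.EF.C2
import Pool.Agent.Lib.MP_7e5527_ag.EL.A6
import Pool.Agent.Lib.MP_7e5527_ag.EO.DMain
import Pool.Agent.Lib.MP_7e5527_ag.EA.CF
import Pool.Agent.Lib.MP_7e5527_ag.EA.AU

/-! An equation with `p`-adic integer coefficients. -/

open Filter Topology

noncomputable section

namespace Pool.Agent.E7

variable {p : ℕ} [Fact p.Prime] {e : ℂ_[p] ≃+* ℂ} {q : (Ix → ℚ) → ℂ_[p]} {Y : Ix → ℚ}

theorem c3_dom {F G : Fn} (hF : Gd F) (hG : Gd G) (h0 : F ≠ 0) (h : F * G = 0) : G = 0 := by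
  obtain ⟨Z, hZ⟩ := Function.ne_iff.1 h0
  refine a6_int hG (Z0 := Z) ?_
  filter_upwards [(a6_cont hF).continuousAt.eventually_ne hZ] with W hW
  exact (mul_eq_zero.1 (congrFun h W)).resolve_left hW

theorem ff_m2 (o : Option Ix) : M2 4 (FF Thi o) := by
  cases o with
  | none => exact ThF_m2
  | some i => exact Thi_m2 i

theorem c3_rel (e : ℂ_[p] ≃+* ℂ) {k : ℤ} {F : Fn} (hF : M2 k F) (h0 : F ≠ 0) :
    ∃ H : MvPolynomial Ix ℂ, H ≠ 0 ∧ ∀ Z : HH, F Z = 0 → ThF Z ≠ 0 →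
      MvPolynomial.eval (xr Z) H = 0 := by
  by_cases hT : ThF = 0
  · exact ⟨1, one_ne_zero, fun Z _ h => (h (congrFun hT Z)).elim⟩
  obtain ⟨G, a, hG, hG0, hGF⟩ : ∃ (G : Fn) (a : ℕ), M2 (a * (4 : ℕ)) G ∧ G ≠ 0 ∧
      ∀ Z, F Z = 0 → G Z = 0 := by
    refine ⟨F ^ 4 * ThF ^ k.natAbs, (k + k.natAbs).toNat, ?_, fun h => ?_, fun Z h => ?_⟩
    · have h1 := MI.mul Gam2_le (MI.pow Gam2_le hF 4) (MI.pow Gam2_le ThF_m2 k.natAbs)
      rwa [show ((4 : ℕ) : ℤ) * k + k.natAbs * 4 = ((k + k.natAbs).toNat : ℤ) * (4 : ℕ) by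
        rw [Int.toNat_of_nonneg (by omega)]
        push_cast
        ring] at h1
    · have h1 := c3_dom (hF.1.pow 4).gd (ThF_m2.1.pow _).gd (fun h2 => h0 (funext fun Z =>
        pow_eq_zero_iff (four_ne_zero) |>.1 (congrFun h2 Z))) h
      exact hT (funext fun Z => (pow_eq_zero_iff'.1 (congrFun h1 Z)).1)
    · rw [Pi.mul_apply, Pi.pow_apply, h, zero_pow four_ne_zero, zero_mul]
  obtain ⟨D0, hD⟩ := gfh e Gam2_le Gam2_index 4
  obtain ⟨P, p0, ⟨L, hL⟩, -, p1⟩ := (hD (FF Thi) a G (fun o => ⟨(ff_m2 o).1, (ff_m2 o).2,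
    (ff_m2 o).1.mem_GZ (ff_m2 o).2⟩) hG.1 hG.2 (hG.1.mem_GZ hG.2)).1
  obtain ⟨R, hR, hR0⟩ := Polynomial.exists_eq_pow_rootMultiplicity_mul_and_not_dvd P p0 0
  generalize Polynomial.rootMultiplicity 0 P = j at hR
  rw [map_zero, sub_zero] at hR hR0
  rw [Polynomial.X_dvd_iff] at hR0
  have h1 : P.coeff j = R.coeff 0 := by
    have := Polynomial.coeff_X_pow_mul R j 0
    rwa [zero_add, ← hR] at this
  obtain ⟨d, -, hd⟩ := hL j (h1 ▸ hR0)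
  rw [h1] at hd
  have h2 : R.eval₂ (MvPolynomial.eval₂Hom (algebraMap ℂ Fn) (FF Thi)) G = 0 := by
    rw [hR, Polynomial.eval₂_mul, Polynomial.eval₂_X_pow] at p1
    refine c3_dom (hG.1.pow j).gd ?_ (fun h => hG0 (funext fun Z =>
      (pow_eq_zero_iff'.1 (congrFun h Z)).1)) p1
    rw [← mem_GQ, Polynomial.eval₂_eq_sum]
    refine sum_mem fun n _ => mul_mem ?_ (pow_mem hG.1.gd _)
    exact MvPolynomial.eval₂_mem (s := GQ) (fun ν _ => GQ.algebraMap_mem _) fun o => (ff_m2 o).1.gd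
  refine ⟨MvPolynomial.aeval (fun o : Option Ix => o.elim 1 MvPolynomial.X) (R.coeff 0),
    fun h => hR0 (FS.cf2_deh hd h), fun Z hZ h3 => ?_⟩
  have h4 := congrArg (Pi.evalRingHom (fun _ : HH => ℂ) Z) h2
  rw [Polynomial.hom_eval₂, Pi.evalRingHom_apply, hGF Z hZ, Polynomial.eval₂_at_zero, map_zero,
    RingHom.comp_apply, Pi.evalRingHom_apply, MvPolynomial.coe_eval₂Hom, ← MvPolynomial.aeval_def,
    aeval_apply] at h4
  have h5 := slx_hom hd (ThF Z)⁻¹ fun o => FF Thi o Z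
  rw [h4, mul_zero] at h5
  rw [← h5]
  refine (MvPolynomial.comp_aeval_apply _ (MvPolynomial.aeval (xr Z)) _).trans
    (congrArg (fun v => MvPolynomial.eval v (R.coeff 0)) (funext fun o => ?_))
  cases o with
  | none => simp [FF, h3]
  | some i => simp [FF, xr, ext, ofC_coe, div_eq_inv_mul]

theorem Mt.xr_eq {Z : HH} (h : Mt e q Z) (hq : Chr p q Y) (i : Ix) :
    xr Z i = e ((SRE e).xc (fun l => q (TT l)) i) := by
  obtain ⟨c, hc, h⟩ := h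
  rw [xr, ext, ext, ofC_coe, h 4 _ ⟨ThF_m2.1, ThF_m2.2.mono Gm3_two⟩,
    h 4 _ ⟨(Thi_m2 i).1, (Thi_m2 i).2.mono Gm3_two⟩, mul_div_mul_left _ _ (zpow_ne_zero _ hc),
    ← map_div₀, evq_eq e hq ⟨ThF, ThF_mem⟩, evq_eq e hq ⟨Thi i, Thi_mem i⟩]
  rfl

theorem qt_alg (h : ∀ T, IsAlgebraic ℚ_[p] (q T)) (A : Matrix Ix Ix ℚ) (B T : Ix → ℚ) :
    IsAlgebraic ℚ_[p] (qt e q A B T) := by
  obtain ⟨N, hN, h1⟩ := eT_root T B
  refine IsAlgebraic.mul (IsAlgebraic.of_pow hN ?_) (h _)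
  rw [← map_pow, h1, map_one]
  exact isAlgebraic_one

theorem c3_desc {q : ℕ → (Ix → ℚ) → ℂ_[p]} {Y : ℕ → Ix → ℚ} (hq : ∀ n, Chr p (q n) (Y n))
    (ha : ∀ n T, IsAlgebraic ℚ_[p] (q n T)) {Z : ℕ → HH} (hZ : ∀ n, Mt e (q n) (Z n))
    {H : MvPolynomial Ix ℂ} (h0 : H ≠ 0) (h : ∀ n, MvPolynomial.eval (xr (Z n)) H = 0) :
    ∃ (G : MvPolynomial Ix ℤ_[p]) (φ : ℕ ↪ ℕ), G ≠ 0 ∧
      ∀ n, G.eval₂ (UAP.zp p) ((SRE e).xc fun l => q (φ n) (TT l)) = 0 := by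
  obtain ⟨G, h1, h2⟩ := desc_rel (hyperfilter ℕ) (x := fun n => (SRE e).xc fun l => q n (TT l))
    (fun n i => (SRE e).xc_alg (hq n).pt (yc_mem_Om.2 (hq n).mem) (fun l => ha n _) i)
    (P := MvPolynomial.map (e.symm : ℂ →+* ℂ_[p]) H)
    (fun h1 => h0 (MvPolynomial.map_injective _ (RingHom.injective _) (h1.trans (map_zero _).symm)))
    (Eventually.of_forall fun n => by
      have h1 := congrArg (e.symm : ℂ →+* ℂ_[p]) (h n)
      rw [map_zero, MvPolynomial.eval, MvPolynomial.coe_eval₂Hom, MvPolynomial.eval₂_comp_left,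
        RingHom.comp_id] at h1
      rw [MvPolynomial.eval_map, ← h1]
      refine congrArg (MvPolynomial.eval₂ _ · H) (funext fun i => ?_)
      rw [Function.comp_apply, (hZ n).xr_eq (hq n)]
      exact (e.symm_apply_apply _).symm)
  have h3 : {n | G.eval₂ (UAP.zp p) ((SRE e).xc fun l => q n (TT l)) = 0}.Infinite :=
    fun h3 => h3.notMem_hyperfilter h2
  exact ⟨G, (h3.natEmbedding _).trans (Function.Embedding.subtype _), h1,
    fun n => (h3.natEmbedding _ n).2⟩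

end Pool.Agent.E7
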