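import Pool.Agent.Lib.MP_7e5527_ag.EF.St
import Pool.Agent.Lib.MP_7e5527_ag.EL.SDefs
import Pool.Agent.Lib.MP_7e5527_ag.E7.Hol
import Pool.Agent.Lib.MP_7e5527_ag.EA.HDefs
import Pool.Agent.Lib.MP_7e5527_ag.EA.AF
import Pool.Agent.Lib.MP_7e5527_ag.EA.AD

/-! Internal definitions. -/

noncomputable section

namespace Pool.Agent.E7

variable {m : ℕ}

/-- The block matrix. -/
def blk (g : Fin m → Gb) : Matrix (Wx × Fin m) (Wx × Fin m) ℂ :=
  Matrix.blockDiagonal fun i => mat (g i)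

/-- The power of the group. -/
def GEm (m : ℕ) : Subgroup (Fin m → Gb) := Subgroup.pi Set.univ fun _ => GE

/-- The Mumford-Tate group of a point of the power of the domain. -/
def MTm (x : Fin m → Ix → ℂ) : Subgroup (Fin m → Gb) := St.MT blk fun z i => hg (x i) z

/-- Jointly generic points. -/
def JG (x : Fin m → Ix → ℂ) : Prop := ⁅GEm m, GEm m⁆ ≤ MTm x

/-- Tate point with character `q`. -/
def TqI {p : ℕ} [Fact p.Prime] (e : ℂ_[p] ≃+* ℂ) (q : (Ix → ℚ) → ℂ_[p]) (x : Ix → ℂ) : Prop :=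
  ∃ (Y : Ix → ℚ) (c : ℂ), Chr p q Y ∧ c ≠ 0 ∧ (∀ T, IsAlgebraic ℚ_[p] (q T)) ∧
    ∀ k F a, IsMF k F a → F x = c ^ k * e (∑' T, e.symm (a T) * q T)

/-- The germ of `Thi j / ThF` at `Z`. -/
def xg (Z : Ix → ℂ) (j : Ix) : PS Ix ℂ := tay (ext (Thi j)) Z * Ring.inverse (tay (ext ThF) Z)

/-- The germs of all the coordinates on the product. -/
def xm (Z : Fin m → Ix → ℂ) (q : Fin m × Ix) : PS (Fin m × Ix) ℂ :=
  MvPowerSeries.rename (Prod.mk q.1) (xg (Z q.1) q.2)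

/-- The action on the power of the domain. -/
def aM (g : Fin m → Gb) (Z : Fin m → Ix → ℂ) : Fin m → Ix → ℂ := fun i => act (g i) (Z i)

/-- Homogeneous polynomial functions of degree `d`. -/
def HF (d : ℕ) (φ : (Fin m → Gb) → ℂ) : Prop :=
  ∃ P : MvPolynomial ((Wx × Fin m) × (Wx × Fin m)) ℂ, P.IsHomogeneous d ∧
    ∀ g, φ g = MvPolynomial.eval (fun y => blk g y.1 y.2) P

end Pool.Agent.E7
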