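import Pool.Agent.Lib.MP_7e5527_ag.EF.C1
import Pool.Agent.Lib.MP_7e5527_ag.EF.C3
import Pool.Agent.Lib.MP_7e5527_ag.EF.Defs
import Pool.Agent.Lib.MP_7e5527_ag.EA.CC

/-! The two expansions at one point. -/

open MvPowerSeries

noncomputable section

namespace Pool.Agent.E7

variable {p : ℕ} [Fact p.Prime] {e : ℂ_[p] ≃+* ℂ} {q : (Ix → ℚ) → ℂ_[p]} {Y : Ix → ℚ}

/-- The frame. -/
def fq (e : ℂ_[p] ≃+* ℂ) (o : Option Ix) : RQ e :=
  ⟨FF Thi o, (ff_m2 o).1.mem_RQ ((ff_m2 o).1.mem_GZ (ff_m2 o).2)⟩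

/-- The value at `q`. -/
def evR (e : ℂ_[p] ≃+* ℂ) (hq : Chr p q Y) : RQ e →+* ℂ_[p] where
  toFun F := evq e q F
  map_one' := evq_one e hq
  map_mul' F G := evq_mul e hq (RQ.gd F) (RQ.gd G)
  map_zero' := evq_zero e
  map_add' F G := evq_add e hq (RQ.gd F) (RQ.gd G)

theorem evR_eq (hq : Chr p q Y) (F : RQ e) :
    evR e hq F = ∑' T, (TWE e).co F T * mon (fun i => q (TT i)) T :=
  evq_eq e hq ⟨F, F.2.2⟩

theorem c4_inv {A B : Type} [CommRing A] [CommRing B] (φ : A →+* B) {u : A}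
    (h : IsUnit u) : φ (Ring.inverse u) = Ring.inverse (φ u) := by
  obtain ⟨v, rfl⟩ := h
  rw [Ring.inverse_unit]
  exact (Ring.inverse_unit (Units.map (φ : A →* B) v)).symm

theorem c4_der {A K : Type} [CommRing A] [Field K] (φ : A →+* PS Ix K) (a : A) (κ : K)
    (d0 : Ix → A → A) (δ : Ix → Derivation ℤ (MvPolynomial Ix A) (MvPolynomial Ix A))
    (ha : φ a = C κ) (h0 : ∀ l F, pderiv K l (φ F) = φ (d0 l F))
    (h1 : ∀ i c, δ i (MvPolynomial.C c) = MvPolynomial.C (d0 i c))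
    (h2 : ∀ i j, δ i (MvPolynomial.X j) = if i = j then MvPolynomial.C a else 0) (l : Ix)
    (G : MvPolynomial Ix A) :
    pderiv K l (MvPolynomial.eval₂Hom φ (fun j => C κ * X j) G) =
      MvPolynomial.eval₂Hom φ (fun j => C κ * X j) (δ l G) := by
  induction G using MvPolynomial.induction_on with
  | C c => rw [h1, MvPolynomial.eval₂Hom_C, MvPolynomial.eval₂Hom_C, h0]
  | add f g hf hg => rw [map_add, map_add, map_add, map_add, hf, hg]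
  | mul_X f j hf =>
    rw [map_mul, Derivation.leibniz, Derivation.leibniz, hf, h2, smul_eq_mul, smul_eq_mul,
      smul_eq_mul, smul_eq_mul, map_add, map_mul, map_mul, MvPolynomial.eval₂Hom_X']
    congr 2
    rw [← smul_eq_C_mul, Derivation.map_smul, pderiv_X]
    by_cases h : l = j
    · subst h
      rw [if_pos rfl, MvPolynomial.eval₂Hom_C, ha]
      simp [smul_eq_C_mul]
    · rw [if_neg h, map_zero]
      simp [Ne.symm h]

theorem c4_ld (e : ℂ_[p] ≃+* ℂ) : ∃ D : ℕ, ∀ (q : (Ix → ℚ) → ℂ_[p]) (Y : Ix → ℚ) (Z : HH),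
    Chr p q Y → toR ℝ Y ∈ Sieg → Mt e q Z →
    ∃ (Λ Λ' : LD ℂ Ix (Fin D)) (ζ : Ix → PS Ix ℂ) (φ : RQ e →+* PS Ix ℂ), Λ.x = xg Z ∧ C0 ζ ∧
      (∀ j, sb ζ (Λ.x j) = Λ'.x j) ∧
      (∃ (Q0 : MvPolynomial Ix ℂ) (Q1 : Ix → MvPolynomial Ix ℂ), Q0.coeff 0 ≠ 0 ∧
        ∀ l, (Q0 : PS Ix ℂ) * ζ l = Q1 l) ∧
      (∀ F, φ F = map (e : ℂ_[p] →+* ℂ) (TS (fun i => q (TT i)) ((TWE e).co F))) ∧
      (∀ c, φ (algebraMap ℂ _ c) = C c) ∧ IsUnit (φ (fq e none)) ∧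
      ∀ j, Λ'.x j = φ (fq e (some j)) * Ring.inverse (φ (fq e none)) := by
  obtain ⟨D, 𝔉, δ, e1, e2, e3, g1, g2, g3, g4⟩ := exists_fs (k0 := 4) Gm3_P Gm3_index Gm3_n
    four_pos (fq e) fun o => ⟨(ff_m2 o).1, (ff_m2 o).2.mono Gm3_two⟩
  refine ⟨D, fun q Y Z hq hY ⟨c, hc, hv⟩ => ?_⟩
  obtain ⟨T, t1, t2, t3, t4⟩ := exists_tayH Z
  obtain ⟨τs, hs⟩ := (TWE e).exists_ts (evR e hq)
  have hH : RQ e ≤ Hol := oo_le.trans GQ_le_Hol
  obtain ⟨α, hα⟩ : ∃ α : MvPolynomial Ix (RQ e) →+* Hol,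
      ∀ G, (α G : Fn) = MvPolynomial.aeval yF G :=
    ⟨MvPolynomial.eval₂Hom (Subalgebra.inclusion hH).toRingHom fun j => ⟨yF j, isHol_yF j⟩,
      fun G => MvPolynomial.eval₂_comp_left Hol.val.toRingHom _ _ G⟩
  have hαC : ∀ F : RQ e, (α (MvPolynomial.C F) : Fn) = F := fun F => by
    rw [hα, MvPolynomial.aeval_C]
    rfl
  have hs' := hs.map (e : ℂ_[p] →+* ℂ)
  generalize hφ : (MvPowerSeries.map (e : ℂ_[p] →+* ℂ)).comp τs = φ at hs'
  have hφc : ∀ a : ℂ, φ (algebraMap ℂ (RQ e) a) = C a := fun a => by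
    have h1 : ∀ l, (TWE e).del l (algebraMap ℂ (RQ e) a) = 0 := fun l => Subtype.ext (dl_const l a)
    rw [ps_const (f := φ _) fun l => by rw [hs'.der, h1, map_zero], hs'.const]
    refine congrArg C ?_
    change e (evq e q (algebraMap ℂ Fn a)) = a
    rw [Algebra.algebraMap_eq_smul_one, evq_smul e hq ⟨_, GoodC.one⟩, evq_one e hq, mul_one,
      e.apply_symm_apply]
  obtain ⟨τ', u1, u2⟩ : ∃ τ' : MvPolynomial Ix (RQ e) →+* PS Ix ℂ,
      (∀ F, τ' (MvPolynomial.C F) = φ F) ∧ ∀ l G, pderiv ℂ l (τ' G) = τ' (δ l G) :=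
    ⟨_, fun F => MvPolynomial.eval₂Hom_C _ _ F,
      c4_der φ _ _ (TWE e).del δ (hφc _) hs'.der g1 g2⟩
  have hcp : 𝔉.Cp (T.comp α) τ' := ⟨c, hc, fun n G hG => by
    obtain ⟨F, rfl, hF⟩ := g4 n G hG
    rw [RingHom.comp_apply, t2, hαC, hv n F hF, u1, hs'.const, zpow_natCast]
    rfl⟩
  have hm' : 𝔉.TM τ' := by
    refine ⟨fun a => ?_, ⟨1, by rw [Matrix.det_one]; exact isUnit_one, fun l G => ?_⟩, ?_, ?_⟩
    · rw [MvPolynomial.algebraMap_apply, u1, hφc]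
    · rw [u2, e3, Finset.sum_eq_single l (fun i _ h => by
        rw [Matrix.one_apply_ne h, map_zero, zero_mul]) (fun h => absurd (Finset.mem_univ l) h),
        Matrix.one_apply_eq, map_one, one_mul]
    · rw [e2, u1, hs'.const]
      refine (map_ne_zero e).2 fun h0 => ?_
      have h1 := norm_evq_ThF e hq
      rw [show evq e q ThF = 0 from h0, norm_zero] at h1
      exact zero_ne_one h1
    · rw [FS.br, e1, e2, e3, ← Wr.map_br (dl := (TWE e).del) (dl' := fun i G => δ i G)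
        MvPolynomial.C fun i x => (g1 i x).symm, u1, hs'.const]
      refine (map_ne_zero e).2 fun h0 => evq_JacF e hq hY ?_
      have h1 : ((Wr.br (TWE e).del (fun _ => ((4 : ℕ) : ℤ)) (fq e) : RQ e) : Fn) = JacF :=
        Wr.map_br (dl := (TWE e).del) (dl' := dl) (RQ e).val.toRingHom (fun _ _ => rfl) _ _
      rw [evq_pow e hq JacF_mem.1, ← h1]
      exact pow_eq_zero_iff two_ne_zero |>.2 h0
  have hm : 𝔉.TM (T.comp α) := by
    obtain ⟨c', c1, c2⟩ := hcp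
    refine ⟨fun a => ?_, ⟨ycM, ycM_unit, fun l G => ?_⟩, ?_, ?_⟩
    · rw [← t3]
      exact congrArg T (Subtype.ext (hαC _))
    · rw [RingHom.comp_apply, t4, e3]
      refine Finset.sum_congr rfl fun i _ => congrArg (fun x => _ * T x) (Subtype.ext ?_)
      rw [dH_coe, hα, hα, g3]
    · rw [c2 _ _ (𝔉.fm none)]
      exact mul_ne_zero (pow_ne_zero _ c1) hm'.e0
    · rw [c2 _ _ FS.br_fm]
      exact mul_ne_zero (pow_ne_zero _ c1) hm'.br
  obtain ⟨Λ, Λ', ζ, a1, a2, a3, a4, a5, a6⟩ := FS.exists_ld hm hm' hcp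
  have hT : ∀ o, T.comp α (𝔉.f o) = tay (ext (FF Thi o)) Z := fun o => by
    rw [e2, RingHom.comp_apply, t1, hαC]
    rfl
  refine ⟨Λ, Λ', ζ, φ, funext fun j => ?_, a3, a4, LD.rev Λ Λ' a3 a4 a5 a6, fun F => ?_, hφc, ?_,
    fun j => ?_⟩
  · rw [a1, FS.xs, hT, hT]
    rfl
  · rw [← hφ, RingHom.comp_apply, hs.eq_TS (evR_eq hq)]
  · have h1 := hm'.e0
    rw [e2, u1] at h1
    exact isUnit_iff_constantCoeff.2 h1.isUnit
  · rw [a2, FS.xs, e2, u1, u1]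

end Pool.Agent.E7
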