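import Pool.Agent.Lib.MP_7e5527_ag.EF.PRM

/-! Finite fibres at good points. -/

open Filter Topology

noncomputable section

namespace Pool.Agent.E7

theorem fin_act {γ : Gb} (hγ : γ ∈ Gam2) {k : ℤ} {F : Fn} (hF : Inv Gam2 k F) {Z : Ix → ℂ}
    (hZ : Z ∈ HH) : ext F (act γ Z) = jf γ Z ^ k * ext F Z := by
  have h1 := congrFun (hF γ hγ) ⟨Z, hZ⟩
  rw [ext, ext, ofC_eq hZ, ← h1, sl, ← mul_assoc, zpow_neg,
    mul_inv_cancel₀ (zpow_ne_zero k (act_spec (Gam_le (Gam2_le hγ)) hZ).1), one_mul]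

theorem fin_cont {Z : Ix → ℂ} (h : Z ∈ U0) : ContinuousAt xr Z :=
  continuousAt_pi.2 fun i => ((Thi_m2 i).1.gd.isHol.differentiableAt h.1).continuousAt.div
    (ThF_m2.1.gd.isHol.differentiableAt h.1).continuousAt h.2.1

theorem fin_prop {Z0 : Ix → ℂ} (h0 : Z0 ∈ U0) :
    ∃ S : Set (Ix → ℂ), S.Finite ∧ S ⊆ HH ∧ ∀ Z ∈ HH, (∃ c : ℂ, c ≠ 0 ∧ ∀ (w : ℕ) (G : Fn),
      M2 (w * 4) G → ext G Z = c ^ w * ext G Z0) → ∃ s ∈ S, ∃ γ ∈ Gam2, Z = act γ s := by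
  obtain ⟨n, N, hN, hp⟩ := proper
  obtain ⟨K, k1, k2, k3⟩ := hp (∑ a, ‖ext (N a) Z0 / ext ThF Z0 ^ n‖ +
    ‖(ext (JacF ^ 2) Z0 / ext ThF Z0 ^ 65)⁻¹‖)
  refine ⟨K ∩ xr ⁻¹' {xr Z0}, ?_, fun Z hZ => (k2 hZ.1).1, ?_⟩
  · have h1 : IsCompact (K ∩ xr ⁻¹' {xr Z0}) := k1.of_isClosed_subset
      (ContinuousOn.preimage_isClosed_of_isClosed
        (fun Z hZ => (fin_cont (k2 hZ)).continuousWithinAt) k1.isClosed isClosed_singleton)
      Set.inter_subset_left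
    refine h1.finite (isDiscrete_iff_nhdsNE.2 fun Z hZ => ?_)
    obtain ⟨ξ, -, h2, -⟩ := xr_inv (k2 hZ.1)
    rw [inf_principal_eq_bot]
    filter_upwards [nhdsWithin_le_nhds h2, self_mem_nhdsWithin] with W hW hne hm
    refine hne ?_
    rw [Set.mem_singleton_iff, ← hW, ← h2.self_of_nhds, show xr W = xr Z0 from hm.2,
      show xr Z = xr Z0 from hZ.2]
  · rintro Z hZ ⟨c, hc, h⟩
    have h1 : ext ThF Z = c * ext ThF Z0 := by simpa using h 1 ThF (by simpa using ThF_m2)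
    have h2 : ∀ (w : ℕ) (G : Fn), M2 (w * 4) G →
        ext G Z / ext ThF Z ^ w = ext G Z0 / ext ThF Z0 ^ w := fun w G hG => by
      rw [h w G hG, h1, mul_pow, mul_div_mul_left _ _ (pow_ne_zero _ hc)]
    have h3 : M2 ((65 : ℕ) * 4) (JacF ^ 2) := by simpa using JacF_m2
    have hU : Z ∈ U0 := ⟨hZ, by rw [h1]; exact mul_ne_zero hc h0.2.1, fun h4 => by
      have h5 := h 65 _ h3
      rw [show ext (JacF ^ 2) Z = ext JacF Z ^ 2 from rfl, h4, zero_pow two_ne_zero] at h5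
      exact mul_ne_zero (pow_ne_zero _ hc) (pow_ne_zero 2 h0.2.2) h5.symm⟩
    have h6 : 0 ≤ ∑ a, ‖ext (N a) Z0 / ext ThF Z0 ^ n‖ :=
      Finset.sum_nonneg fun _ _ => norm_nonneg _
    obtain ⟨γ, hγ, hK⟩ := k3 Z hU (fun a => by
      rw [h2 n _ (hN a)]
      exact (Finset.single_le_sum (f := fun a => ‖ext (N a) Z0 / ext ThF Z0 ^ n‖)
        (fun _ _ => norm_nonneg _) (Finset.mem_univ a)).trans
          (le_add_of_nonneg_right (norm_nonneg _))) (by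
      rw [h2 65 _ h3]
      exact le_add_of_nonneg_left h6)
    have hG := Gam_le (Gam2_le hγ)
    refine ⟨act γ Z, ⟨hK, funext fun i => ?_⟩, γ⁻¹, inv_mem hγ, ?_⟩
    · have h7 := h2 1 (Thi i) (by simpa using Thi_m2 i)
      rw [pow_one, pow_one] at h7
      rw [xr, xr, fin_act hγ (Thi_m2 i).2 hZ, fin_act hγ ThF_m2.2 hZ,
        mul_div_mul_left _ _ (zpow_ne_zero _ (act_spec hG hZ).1), h7]
    · rw [← act_mul (inv_mem hG) hG hZ, inv_mul_cancel, act_one]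

end Pool.Agent.E7
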