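import Pool.Agent.Lib.MP_7e5527_ag.EF.C4
import Pool.Agent.Lib.MP_7e5527_ag.EF.Fin
import Pool.Agent.Lib.MP_7e5527_ag.E7.Lgr

/-! The input of the `p`-adic core. -/

open MvPowerSeries

noncomputable section

namespace Pool.Agent.E7

variable {p : ℕ} [Fact p.Prime] {e : ℂ_[p] ≃+* ℂ}

theorem c5_fib {q : ℕ → (Ix → ℚ) → ℂ_[p]} {Y : ℕ → Ix → ℚ} (hq : ∀ n, Chr p (q n) (Y n))
    (hY : ∀ n, toR ℝ (Y n) ∈ Sieg) {Z : ℕ → HH} (hZ : ∀ n, Mt e (q n) (Z n))
    (hs : ∀ n n', n < n' → ¬∃ γ ∈ Gam, (Z n' : Ix → ℂ) = act γ (Z n)) (x : Ix → ℂ_[p]) :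
    {n | (fun i => q n (TT i)) = x}.Finite := by
  by_contra hi
  obtain ⟨n0, h0⟩ := Set.Infinite.nonempty hi
  obtain ⟨S, s1, s2, s3⟩ := fin_prop ((hZ n0).good (hq n0) (hY n0))
  obtain ⟨c0, hc0, h1⟩ := hZ n0
  have h2 : ∀ n, (fun i => q n (TT i)) = x → ∃ s ∈ S, ∃ γ ∈ Gam2, (Z n : Ix → ℂ) = act γ s := by
    intro n hn
    obtain ⟨c, hc, h2⟩ := (hZ n).congr (q' := q n0) fun T hT =>
      (hq n).eq_on_Lam (hq n0) (congrFun (hn.trans (Eq.symm h0))) hT
    refine s3 _ (Z n).2 ⟨(c / c0) ^ 4, pow_ne_zero _ (div_ne_zero hc hc0), fun w G hG => ?_⟩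
    have hG' : MI Gm3 ((4 * w : ℕ) : ℤ) G := by
      rw [Nat.cast_mul, mul_comm]
      exact ⟨hG.1, hG.2.mono Gm3_two⟩
    rw [ext, ext, ofC_coe, ofC_coe, h1 _ G hG', h2 _ G hG', zpow_natCast, zpow_natCast, ← pow_mul,
      div_pow, ← mul_assoc, div_mul_cancel₀ _ (pow_ne_zero _ hc0)]
  choose! s t1 γ t2 t3 using h2
  obtain ⟨n, hn, n', hn', h3, h4⟩ := Set.Infinite.exists_lt_map_eq_of_mapsTo hi (f := s) t1 s1
  have g1 := Gam_le (Gam2_le (t2 n hn))
  refine hs n n' h3 ⟨γ n' * (γ n)⁻¹, mul_mem (Gam2_le (t2 n' hn')) (inv_mem (Gam2_le (t2 n hn))), ?_⟩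
  rw [act_mul (Gam_le (Gam2_le (t2 n' hn'))) (inv_mem g1) (Z n).2, t3 n hn,
    ← act_mul (inv_mem g1) g1 (s2 (t1 n hn)), inv_mul_cancel, act_one, h4, t3 n' hn']

theorem c5_int (e : ℂ_[p] ≃+* ℂ) (G : MvPolynomial (Option Ix) ℤ_[p]) (T : Ix → ℤ) :
    (TWE e).co (G.eval₂ ((TWE e).cst.comp (UAP.zp p)) (fq e)) T ∈ (UAP.zp p).range := by
  have h1 : ∀ T, (TWE e).co 1 T ∈ (UAP.zp p).range := fun T => by
    rw [(TWE e).co_one, Pi.single_apply]
    split_ifs
    · exact one_mem _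
    · exact zero_mem _
  let R : Subring (RQ e) :=
    { carrier := {G | ∀ T, (TWE e).co G T ∈ (UAP.zp p).range}
      mul_mem' := fun {a b} ha hb T => by
        rw [(TWE e).co_mul]
        exact finsum_induction (· ∈ (UAP.zp p).range) (zero_mem _) (fun _ _ => add_mem)
          fun U => mul_mem (ha U) (hb _)
      one_mem' := h1
      add_mem' := fun {a b} ha hb T => by
        rw [map_add]
        exact add_mem (ha T) (hb T)
      zero_mem' := fun T => by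
        rw [map_zero]
        exact zero_mem _
      neg_mem' := fun {a} ha T => by
        rw [map_neg]
        exact neg_mem (ha T) }
  refine MvPolynomial.eval₂_mem (s := R) (fun ν _ U => ?_) (fun o U => ?_) T
  · rw [RingHom.comp_apply, ← mul_one ((TWE e).cst _), (TWE e).co_cst]
    exact mul_mem ⟨_, rfl⟩ (h1 U)
  · obtain ⟨n, hn⟩ : ∃ n : ℤ, (TWE e).co (fq e o) U = n := by
      cases o with
      | none => exact (SRE e).int0 U
      | some i => exact (SRE e).int i U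
    rw [hn]
    exact intCast_mem _ n

theorem c5_inj (p : ℕ) [Fact p.Prime] : Function.Injective (UAP.zp p) :=
  (algebraMap ℚ_[p] ℂ_[p]).injective.comp Subtype.val_injective

theorem c5_pd {q : (Ix → ℚ) → ℂ_[p]} {Y : Ix → ℚ} (hq : Chr p q Y)
    (ha : ∀ T, IsAlgebraic ℚ_[p] (q T)) {A : ℕ → Matrix Ix Ix ℚ} {c : ℕ → ℚ} {B : ℕ → Ix → ℚ}
    (hA : ∀ n, IsSim (A n) (c n)) (hY : ∀ n, toR ℝ (lin (A n) Y) ∈ Sieg) {Φ : RQ e}
    (hΦ : ∀ T, (TWE e).co Φ T ∈ (UAP.zp p).range) (h0 : ∀ n, evq e (qt e q (A n) (B n)) Φ = 0)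
    (hf : ∀ x, {n | (fun i => qt e q (A n) (B n) (TT i)) = x}.Finite) :
    ∃ D : PD p cone Ix, (D.q = fun n i => qt e q (A n) (B n) (TT i)) ∧
      (fun T => UAP.zp p (D.a T)) = (TWE e).co Φ := by
  choose a h1 using hΦ
  exact ⟨{
    q := fun n i => qt e q (A n) (B n) (TT i)
    y := fun n => yc (lin (A n) Y)
    a := a
    E := IntermediateField.adjoin ℚ_[p] (Set.range fun i => q (TT i))
    finE := IntermediateField.finiteDimensional_adjoin (by
      rintro _ ⟨i, rfl⟩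
      exact (ha _).isIntegral)
    supp := fun T h => (TWE e).supp Φ T (by
      rw [← h1]
      exact (map_ne_zero_iff _ (c5_inj p)).2 h)
    pt := fun n => (hq.qt e (hA n) (B n)).pt
    sg := fun n => yc_mem_Sg.2 (hY n)
    kum := fun n => qt_pow_mem e hq _
      (fun i => IntermediateField.subset_adjoin _ _ (Set.mem_range_self i)) _ _
    van := fun n => by
      simp only [h1]
      exact (evR_eq (hq.qt e (hA n) (B n)) Φ).symm.trans (h0 n)
    fib := hf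
    lgr := fun Lg hLg => by
      obtain ⟨L, hL⟩ := lgr_log hq hLg
      refine ⟨L, fun n i => ?_⟩
      have h2 : ∀ (r : ℚ) x, x ∈ Submodule.span ℚ_[p] (Set.range L) →
          (r : ℂ_[p]) * x ∈ Submodule.span ℚ_[p] (Set.range L) := fun r x hx => by
        have := Submodule.smul_mem _ (r : ℚ_[p]) hx
        rwa [Algebra.smul_def, map_ratCast] at this
      rw [hL, tr_eq_sum]
      refine sum_mem fun l _ => ?_
      rw [toR, ← Rat.cast_natCast, ← Rat.cast_mul, lin_apply]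
      exact h2 _ _ (sum_mem fun j _ => h2 _ _ (Submodule.subset_span ⟨j, rfl⟩)) }, rfl, funext h1⟩

end Pool.Agent.E7
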