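import Pool.Agent.Lib.MP_7e5527_ag.EA.AU

/-! Arcs that avoid an integral power series. -/

open MvPowerSeries Filter Topology

noncomputable section

namespace Pool.Agent.E7

variable {p : ℕ} [Fact p.Prime] {σ : Type} [Finite σ] {N : Type} [CommRing N] [PC p N]

/-- The ideal of the elements that vanish at most places. -/
def parz_I {A B : Type} [CommRing A] [CommRing B] (U : Ultrafilter ℕ) (E : ℕ → A →+* B) :
    Ideal A where
  carrier := {f | ∀ᶠ m in (U : Filter ℕ), E m f = 0}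
  add_mem' := fun {f g} hf hg => by
    filter_upwards [hf, hg] with m h1 h2
    rw [map_add, h1, h2, add_zero]
  zero_mem' := Eventually.of_forall fun m => map_zero _
  smul_mem' := fun c f hf => by
    filter_upwards [hf] with m h1
    rw [smul_eq_mul, map_mul, h1, mul_zero]

theorem parz_mem {A B : Type} [CommRing A] [CommRing B] {U : Ultrafilter ℕ}
    {E : ℕ → A →+* B} {f : A} : f ∈ parz_I U E ↔ ∀ᶠ m in (U : Filter ℕ), E m f = 0 := Iff.rfl

theorem parz_prime {A B : Type} [CommRing A] [CommRing B] [IsDomain B] (U : Ultrafilter ℕ)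
    (E : ℕ → A →+* B) : (parz_I U E).IsPrime := by
  refine ⟨fun h => ?_, fun {f g} h => ?_⟩
  · have h1 : (1 : A) ∈ parz_I U E := h ▸ Submodule.mem_top
    obtain ⟨m, hm⟩ := (parz_mem.1 h1).exists
    rw [map_one] at hm
    exact one_ne_zero hm
  · refine Ultrafilter.eventually_or.1 ((parz_mem.1 h).mono fun m hm => ?_)
    rw [map_mul] at hm
    exact mul_eq_zero.1 hm

theorem parz_fg {A B : Type} [CommRing A] [CommRing B] [IsNoetherianRing A]
    (U : Ultrafilter ℕ) (E : ℕ → A →+* B) :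
    ∀ᶠ n in (U : Filter ℕ), ∀ f ∈ parz_I U E, E n f = 0 := by
  obtain ⟨S, hS⟩ := IsNoetherian.noetherian (parz_I U E)
  have h1 : ∀ᶠ n in (U : Filter ℕ), ∀ g ∈ S, E n g = 0 :=
    (eventually_all_finset S).2 fun g hg => parz_mem.1 (hS ▸ Submodule.subset_span hg)
  filter_upwards [h1] with n hn f hf
  rw [← hS] at hf
  have h2 : Submodule.span A (S : Set A) ≤ RingHom.ker (E n) :=
    Submodule.span_le.2 fun g hg => hn g hg
  exact h2 hf

theorem parz_pn {A : Type} [CommRing A] {y : A} (h : (p : A) ∣ y) : PN p y :=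
  Ideal.le_radical (Ideal.mem_span_singleton.2 h)

theorem parz_ev {a : σ → ℤ_[p]} (ha : ∀ i, (p : ℤ_[p]) ∣ a i) :
    Ev fun i => zc p N (a i) :=
  ev_pad p fun i => (parz_pn (ha i)).map _

/-- Clearing denominators in a polynomial. -/
theorem parz_scale {A B : Type} [CommRing A] [CommRing B] (φ : A →+* B)
    (h : ∀ b : B, ∃ (n : ℕ) (a : A), (p : B) ^ n * b = φ a) (Q : MvPolynomial σ B) :
    ∃ (n : ℕ) (Q' : MvPolynomial σ A),
      (p : MvPolynomial σ B) ^ n * Q = MvPolynomial.map φ Q' := by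
  induction Q using MvPolynomial.induction_on with
  | C b =>
    obtain ⟨n, a, ha⟩ := h b
    refine ⟨n, MvPolynomial.C a, ?_⟩
    rw [MvPolynomial.map_C, ← ha, map_mul, map_pow, map_natCast]
  | add Q R hQ hR =>
    obtain ⟨n, Q', hQ⟩ := hQ
    obtain ⟨m, R', hR⟩ := hR
    refine ⟨n + m, (p : MvPolynomial σ A) ^ m * Q' + (p : MvPolynomial σ A) ^ n * R', ?_⟩
    rw [map_add, map_mul, map_mul, map_pow, map_pow, map_natCast, ← hQ, ← hR]
    ring
  | mul_X Q i hQ =>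
    obtain ⟨n, Q', hQ⟩ := hQ
    refine ⟨n, Q' * MvPolynomial.X i, ?_⟩
    rw [map_mul, MvPolynomial.map_X, ← hQ, mul_assoc]

theorem parz_norm_p : ‖(p : ℂ_[p])‖ < 1 := by
  have h : ‖((p : OC p) : ℂ_[p])‖ < 1 := pn_iff.1 (parz_pn dvd_rfl)
  simpa using h

theorem parz_den (b : ℂ_[p]) : ∃ (n : ℕ) (a : OC p), (p : ℂ_[p]) ^ n * b = ov p a := by
  have h1 : Tendsto (fun n : ℕ => ‖(p : ℂ_[p])‖ ^ n * ‖b‖) atTop (𝓝 (0 * ‖b‖)) :=
    (tendsto_pow_atTop_nhds_zero_of_lt_one (norm_nonneg _) parz_norm_p).mul_const _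
  rw [zero_mul] at h1
  obtain ⟨n, hn⟩ := (h1.eventually (gt_mem_nhds (zero_lt_one' ℝ))).exists
  refine ⟨n, ⟨(p : ℂ_[p]) ^ n * b, mem_OC.2 ?_⟩, rfl⟩
  rw [norm_mul, norm_pow]
  exact hn.le

theorem parz_map_coe {A B : Type} [CommRing A] [CommRing B] (φ : A →+* B)
    (Q : MvPolynomial σ A) :
    ((MvPolynomial.map φ Q : MvPolynomial σ B) : PS σ B) = MvPowerSeries.map φ (Q : PS σ A) := by
  ext ν
  rw [MvPolynomial.coeff_coe, MvPolynomial.coeff_map, MvPowerSeries.coeff_map,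
    MvPolynomial.coeff_coe]

theorem parz_coe_p {B : Type} [CommRing B] (n : ℕ) (Q : MvPolynomial σ B) :
    (((p : MvPolynomial σ B) ^ n * Q : MvPolynomial σ B) : PS σ B) = (p : PS σ B) ^ n * Q := by
  have h := map_mul (MvPolynomial.coeToMvPowerSeries.ringHom (σ := σ) (R := B))
    ((p : MvPolynomial σ B) ^ n) Q
  rw [map_pow, map_natCast] at h
  exact h

theorem parz_approx (M : ℕ) (c : PS σ ℂ_[p]) : ∃ (n : ℕ) (c' : PS σ (OC p)),
    (p : PS σ ℂ_[p]) ^ n * c - map (ov p) c' ∈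
      Ideal.span (Set.range (X : σ → PS σ ℂ_[p])) ^ M := by
  obtain ⟨n, Q, hQ⟩ := parz_scale (ov p) parz_den (truncTotal M c)
  refine ⟨n, Q, ?_⟩
  rw [← parz_map_coe, ← hQ, parz_coe_p, ← mul_sub]
  exact Ideal.mul_mem_left _ _ (sub_trunc_mem c M)

theorem parz_span (J : Ideal (PS σ (OC p))) (M : ℕ) {F : PS σ ℂ_[p]}
    (hF : F ∈ Ideal.span (MvPowerSeries.map (ov p) '' (J : Set (PS σ (OC p))))) :
    ∃ (n : ℕ) (G : PS σ (OC p)), G ∈ J ∧ (p : PS σ ℂ_[p]) ^ n * F - map (ov p) G ∈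
      Ideal.span (Set.range (X : σ → PS σ ℂ_[p])) ^ M := by
  induction hF using Submodule.span_induction with
  | mem F hF =>
    obtain ⟨G, hG, rfl⟩ := hF
    refine ⟨0, G, hG, ?_⟩
    rw [pow_zero, one_mul, sub_self]
    exact zero_mem _
  | zero =>
    refine ⟨0, 0, zero_mem _, ?_⟩
    rw [mul_zero, map_zero, sub_self]
    exact zero_mem _
  | add F F' _ _ h h' =>
    obtain ⟨n, G, hG, h⟩ := h
    obtain ⟨m, G', hG', h'⟩ := h'
    refine ⟨n + m, (p : PS σ (OC p)) ^ m * G + (p : PS σ (OC p)) ^ n * G',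
      add_mem (J.mul_mem_left _ hG) (J.mul_mem_left _ hG'), ?_⟩
    have e : (p : PS σ ℂ_[p]) ^ (n + m) * (F + F') -
        map (ov p) ((p : PS σ (OC p)) ^ m * G + (p : PS σ (OC p)) ^ n * G') =
        (p : PS σ ℂ_[p]) ^ m * ((p : PS σ ℂ_[p]) ^ n * F - map (ov p) G) +
          (p : PS σ ℂ_[p]) ^ n * ((p : PS σ ℂ_[p]) ^ m * F' - map (ov p) G') := by
      rw [map_add, map_mul, map_mul, map_pow, map_pow, map_natCast]
      ring
    rw [e]
    exact add_mem (Ideal.mul_mem_left _ _ h) (Ideal.mul_mem_left _ _ h')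
  | smul c F _ h =>
    obtain ⟨n, G, hG, h⟩ := h
    obtain ⟨m, c', hc⟩ := parz_approx M c
    refine ⟨m + n, c' * G, J.mul_mem_left _ hG, ?_⟩
    have e : (p : PS σ ℂ_[p]) ^ (m + n) * c • F - map (ov p) (c' * G) =
        ((p : PS σ ℂ_[p]) ^ n * F) * ((p : PS σ ℂ_[p]) ^ m * c - map (ov p) c') +
          map (ov p) c' * ((p : PS σ ℂ_[p]) ^ n * F - map (ov p) G) := by
      rw [map_mul, smul_eq_mul]
      ring
    rw [e]
    exact add_mem (Ideal.mul_mem_left _ _ hc) (Ideal.mul_mem_left _ _ h)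

theorem parz_coeff_p {B : Type} [CommRing B] (n : ℕ) (f : PS σ B) (ν : σ →₀ ℕ) :
    coeff ν ((p : PS σ B) ^ n * f) = p ^ n • coeff ν f := by
  rw [← map_nsmul, nsmul_eq_mul, Nat.cast_pow]

theorem parz_kr (I : Ideal (PS σ ℤ_[p])) [I.IsPrime] (h0 : ∀ f ∈ I, constantCoeff f = 0)
    {f : PS σ ℤ_[p]} (h : ∀ M : ℕ, ∃ (n : ℕ) (g : PS σ ℤ_[p]), g ∈ I ∧
      (p : PS σ ℤ_[p]) ^ n * f - g ∈ Ideal.span (Set.range (X : σ → PS σ ℤ_[p])) ^ M) :
    f ∈ I := by
  refine Ideal.Quotient.eq_zero_iff_mem.1 (kr (s := Ideal.Quotient.mk I (p : PS σ ℤ_[p]))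
    ((Ideal.span (Set.range (X : σ → PS σ ℤ_[p]))).map (Ideal.Quotient.mk I)) (fun n hn => ?_)
    fun M => ?_)
  · rw [← map_pow, Ideal.mem_quotient_iff_mem_sup] at hn
    have h1 : Ideal.span (Set.range (X : σ → PS σ ℤ_[p])) ⊔ I ≤ RingHom.ker constantCoeff := by
      refine sup_le (Ideal.span_le.2 ?_) h0
      rintro _ ⟨i, rfl⟩
      exact constantCoeff_X i
    have h2 := h1 hn
    rw [RingHom.mem_ker, map_pow, map_natCast] at h2
    exact pow_ne_zero n (Nat.cast_ne_zero.2 (Fact.out : p.Prime).ne_zero) h2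
  · obtain ⟨n, g, hg, h⟩ := h M
    refine ⟨n, ?_⟩
    have h1 := Ideal.mem_map_of_mem (Ideal.Quotient.mk I) h
    rw [Ideal.map_pow, map_sub, Ideal.Quotient.eq_zero_iff_mem.2 hg, sub_zero, map_mul,
      map_pow] at h1
    exact h1

theorem parz_not_mem (U : Ultrafilter ℕ) {b : ℕ → σ → ℤ_[p]} (hb : ∀ n i, (p : ℤ_[p]) ∣ b n i)
    (h0 : ∀ f : PS σ ℤ_[p], (∀ᶠ m in (U : Filter ℕ), evz ℤ_[p] (b m) f = 0) → constantCoeff f = 0)
    {P' : PS σ (OC p)} (hP : ∀ᶠ m in (U : Filter ℕ), evz (OC p) (b m) P' ≠ 0) :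
    MvPowerSeries.map (ov p) P' ∉ Ideal.span (MvPowerSeries.map (ov p) ''
      {G : PS σ (OC p) | ∀ᶠ m in (U : Filter ℕ), evz (OC p) (b m) G = 0}) := by
  intro hF
  have hp0 : (p : ℂ_[p]) ≠ 0 := Nat.cast_ne_zero.2 (Fact.out : p.Prime).ne_zero
  have := parz_prime U fun m => evz ℤ_[p] (b m)
  have hl : ∀ l : OC p →+ ℤ_[p], (fun ν => l (coeff ν P') : PS σ ℤ_[p]) ∈
      parz_I U fun m => evz ℤ_[p] (b m) := fun l => by
    refine parz_kr _ (fun f hf => h0 f hf) fun M => ?_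
    obtain ⟨n, G, hG, h⟩ := parz_span (parz_I U fun m => evz (OC p) (b m)) M hF
    refine ⟨n, fun ν => l (coeff ν G), ?_, mem_X_pow.2 fun ν hν => ?_⟩
    · refine parz_mem.2 ((parz_mem.1 hG).mono fun m hm => ?_)
      rw [← fun_evz l (hb m), hm, map_zero]
    · have h1 := mem_X_pow.1 h ν hν
      rw [map_sub, parz_coeff_p, coeff_map, coeff_map, ← map_nsmul, ← map_sub] at h1
      have h2 : p ^ n • coeff ν P' - coeff ν G = 0 :=
        Subtype.ext h1
      rw [map_sub, parz_coeff_p]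
      change p ^ n • l (coeff ν P') - l (coeff ν G) = 0
      rw [← map_nsmul, ← map_sub, h2, map_zero]
  obtain ⟨m, hm, hm'⟩ := ((parz_fg U fun m => evz ℤ_[p] (b m)).and hP).exists
  have htf : ∀ y : OC p, (p : OC p) * y = 0 → y = 0 := fun y hy => by
    refine (mul_eq_zero.1 hy).resolve_left fun h => hp0 ?_
    have := congrArg (ov p) h
    rwa [map_natCast, map_zero] at this
  refine hm' (pc_sep p fun j => fun_dvd htf fun l => ?_)
  rw [fun_evz l (hb m), hm _ (hl l)]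
  exact dvd_zero _

/-- As `arcz`, for an integral power series `P`. -/
theorem arcz' (U : Ultrafilter ℕ) {a : ℕ → σ → ℤ_[p]} (ha : ∀ n i, (p : ℤ_[p]) ∣ a n i) :
    ∀ᶠ n in (U : Filter ℕ), ∀ P : PS σ (OC p), constantCoeff P = 0 →
      (∀ᶠ m in (U : Filter ℕ), evz (OC p) (a m - a n) P ≠ 0) →
      ∃ y : σ → PS Unit ℂ_[p], C0 y ∧ sb y (map (ov p) P) ≠ 0 ∧ ∀ G : PS σ (OC p),
        (∀ᶠ m in (U : Filter ℕ), evz (OC p) (a m - a n) G = 0) → sb y (map (ov p) G) = 0 := by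
  filter_upwards [arcz_zero U ha] with n hn P hP0 hP
  have h1 : MvPowerSeries.map (ov p) P ∉ (Ideal.span (MvPowerSeries.map (ov p) ''
      {G : PS σ (OC p) | ∀ᶠ m in (U : Filter ℕ), evz (OC p) (a m - a n) G = 0})).radical := by
    rintro ⟨k, hk⟩
    rw [← map_pow] at hk
    refine parz_not_mem U (b := fun m => a m - a n) (fun m i => dvd_sub (ha m i) (ha n i)) hn
      (hP.mono fun m hm => ?_) hk
    rw [map_pow]
    exact pow_ne_zero _ hm
  rw [Ideal.radical_eq_sInf, Submodule.mem_sInf] at h1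
  push Not at h1
  obtain ⟨𝔓, ⟨hle, hpr⟩, hn𝔓⟩ := h1
  obtain ⟨y, hy0, hy, hyP⟩ := arc 𝔓 hn𝔓 (by rw [constantCoeff_map, hP0, map_zero])
  exact ⟨y, hy0, hyP, fun G hG => hy _ (hle (Ideal.subset_span ⟨G, hG, rfl⟩))⟩

end Pool.Agent.E7
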