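import Pool.Agent.Lib.MP_7e5527_ag.EF.PNd
import Pool.Agent.Lib.MP_7e5527_ag.EF.PArz

/-! The case of one residue class. -/

open MvPowerSeries Filter Topology

noncomputable section

namespace Pool.Agent.E7

variable {ι : Type} [Fintype ι] [DecidableEq ι] {p : ℕ} [Fact p.Prime] {Co : Cone ι} {κ : Type}
  {m : ℕ} {ρ : Fin m → ℂ_[p] →+* ℂ_[p]} {U : Ultrafilter ℕ} {t : ℕ} {J : Type} [Fintype J]

theorem pb1_ev {g : J → ι → ℤ} (l : Fin t → OC p) {a a' : ι × Fin t → ℤ_[p]} {s s' : J → ℤ_[p]}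
    (ha : ∀ x, (p : ℤ_[p]) ∣ a x) (ha' : ∀ x, (p : ℤ_[p]) ∣ a' x) (hs : ∀ j, (p : ℤ_[p]) ∣ s j)
    (hs' : ∀ j, (p : ℤ_[p]) ∣ s' j) (h0 : ∀ j, s j ≠ 0) {σ : ℂ_[p] →+* ℂ_[p]} (hσ : UAP.Iso σ)
    {T : ι → ℤ} (hT : ∀ j, 0 ≤ ipZ T (g j)) :
    ((evz (OC p) (Sum.elim a s - Sum.elim a' s') (VS g (fun k => resO σ hσ (l k)) s' T) : OC p) :
      ℂ_[p]) = σ (mon (VP g l (a - a') s) T) := by
  have e : Sum.elim a s - Sum.elim a' s' = Sum.elim (a - a') (s - s') :=
    funext fun x => by rcases x with x | x <;> rfl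
  have h1 : ∀ x, (p : ℤ_[p]) ∣ (a - a') x := fun x => dvd_sub (ha x) (ha' x)
  rw [e, evz, vs_ev (s' := s - s') (RingHom.id _) _ h1 (fun j => dvd_sub (hs j) (hs' j))
    (fun j => by rw [Pi.sub_apply, add_sub_cancel]; exact h0 j) hT, add_sub_cancel, map_mon]
  exact congrArg (mon · T) (funext fun i => (vp_iso h1 hσ i).symm)

theorem pcaseB1 (hU : (U : Filter ℕ) ≤ cofinite) (D : PD p Co κ) (N : NF Co U D.q t J)
    {ω0 : ι → ℂ_[p]} (hω : ∀ᶠ n in (U : Filter ℕ), N.ω n = ω0) (hm : 0 < m)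
    (hρ : ∀ i, UAP.Iso (ρ i)) : ∃ n, POut (Fintype.card ι * (t + 1)) ρ (D.q n) D.a := by
  have hb : ∀ n x, (p : ℤ_[p]) ∣ Sum.elim (N.a n) (N.s n) x := fun n x =>
    Sum.rec (N.ha n) (N.hs n) x
  obtain ⟨n, hn1, hn2, hn3⟩ := (N.eq.and (hω.and (arcz' U hb))).exists
  obtain ⟨c, hc⟩ : ∃ c : ι → ℂ_[p], ∀ i, c i = ω0 i * N.c i *
    (exo p (∑ k, zc p (OC p) (N.a n (i, k)) * N.l k) : OC p) := ⟨_, fun _ => rfl⟩
  have hq : ∀ k, (∀ i, D.q k i = N.ω k i * N.c i * VP N.g N.l (N.a k) (N.s k) i) → N.ω k = ω0 →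
      D.q k = fun i => c i * VP N.g N.l (N.a k - N.a n) (N.s k) i := fun k h1 h2 =>
    funext fun i => by rw [h1, h2, hc, vp_sub (N.ha k) (N.ha n), mul_assoc _ _ (VP _ _ _ _ _)]
  have hqn := hq n hn1 hn2
  have nul : Nul Co c := N.nul.of_norm fun i => by
    obtain ⟨r, h1, h2⟩ := N.root n i
    rw [hc, norm_mul, norm_mul, ← hn2, (root_jw h1 h2).1, one_mul,
      ao2_one ((ax1_norm (vp_sm (N.ha n) N.l i)).trans_lt (ao2_sq p)), mul_one]
  obtain ⟨V, hV⟩ : ∃ V : Fin m → (ι → ℤ) → PS ((ι × Fin t) ⊕ J) (OC p), ∀ i T,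
    V i T = VS N.g (fun k => resO (ρ i) (hρ i) (N.l k)) (N.s n) T := ⟨_, fun _ _ => rfl⟩
  have hev : ∀ k i T, T ∈ Co.Lp → ((evz (OC p) (Sum.elim (N.a k) (N.s k) -
      Sum.elim (N.a n) (N.s n)) (V i T) : OC p) : ℂ_[p]) =
      ρ i (mon (VP N.g N.l (N.a k - N.a n) (N.s k)) T) := fun k i T hT => by
    rw [hV]
    exact pb1_ev N.l (N.ha k) (N.ha n) (N.hs k) (N.hs n) (N.s0 k) (hρ i) fun j => N.g0 j T hT
  have hco : ∀ i T, T ∈ Co.Lp → ((constantCoeff (V i T) : OC p) : ℂ_[p]) =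
      ρ i (mon (VP N.g N.l 0 (N.s n)) T) := fun i T hT => by
    have h1 := hev n i T hT
    rw [sub_self, sub_self, evz] at h1
    simp only [Pi.zero_apply, map_zero, evx_zero, RingHom.id_apply] at h1
    exact h1
  have hE : ∀ k, Ev fun x => zc p (OC p)
      ((Sum.elim (N.a k) (N.s k) - Sum.elim (N.a n) (N.s n)) x) := fun k =>
    au1_ev fun x => dvd_sub (hb k x) (hb n x)
  obtain ⟨l0, hl0⟩ : ∃ l0, ∀ᶠ k in (U : Filter ℕ), D.q k l0 ≠ D.q n l0 := by
    refine Ultrafilter.eventually_exists_iff.1 ?_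
    filter_upwards [hU (D.fib (D.q n)).compl_mem_cofinite] with k hk
    exact Function.ne_iff.1 hk
  obtain ⟨y, y0, yP, hy⟩ := hn3
    (∏ i, (V i (Pi.single l0 1) - C (constantCoeff (V i (Pi.single l0 1)))))
    (by
      rw [map_prod]
      exact Finset.prod_eq_zero (Finset.mem_univ ⟨0, hm⟩) (by simp))
    (by
      filter_upwards [N.eq, hω, hl0] with k h1 h2 h3
      rw [map_prod]
      refine Finset.prod_ne_zero_iff.2 fun i _ h0 => h3 ?_
      rw [map_sub, sub_eq_zero, evz, evx_C (hE k)] at h0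
      have h4 := (hev k i _ (Co.single_mem l0)).symm.trans
        ((congrArg Subtype.val h0).trans (hco i _ (Co.single_mem l0)))
      rw [(ρ i).injective.eq_iff, mon_single, mon_single] at h4
      rw [hq k h1 h2, hqn, sub_self]
      exact congrArg _ h4)
  choose L hL using fun j => exists_isExp (e := 1 + C (UAP.zp p (N.s n j))⁻¹ * y (.inr j))
    (by rw [map_add, map_mul, y0, mul_zero, add_zero, map_one])
  obtain ⟨z, hz⟩ : ∃ z : Fin m → ι → PS Unit ℂ_[p], ∀ i,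
    z i = VZ N.g (fun k => resO (ρ i) (hρ i) (N.l k)) (fun x => y (.inl x)) L := ⟨_, fun _ => rfl⟩
  have harc : ∀ i T, T ∈ Co.Lp → C0 (z i) ∧ sb y (MvPowerSeries.map (ov p) (V i T)) =
      C (ρ i (mon (VP N.g N.l 0 (N.s n)) T)) * sb (z i) (exT fun l => (T l : ℂ_[p])) :=
    fun i T hT => by
      have h1 := vs_arc (l := fun k => resO (ρ i) (hρ i) (N.l k)) y0 (N.s0 n) hL
        fun j => N.g0 j T hT
      rw [hz, hV, map_mon, funext (vp_iso (a := 0) (fun _ => dvd_zero _) (hρ i))]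
      exact h1
  have z0 : ∀ i, C0 (z i) := fun i => (harc i 0 Co.zero_mem).1
  refine ⟨n, z, z0, fun i h0 => yP ?_, ?_, fun i => ?_⟩
  · rw [map_prod, map_prod]
    refine Finset.prod_eq_zero (Finset.mem_univ i) ?_
    rw [map_sub, map_sub, (harc i _ (Co.single_mem l0)).2, h0, map_C, evx_C y0.ev, sub_eq_zero,
      show sb (0 : ι → PS Unit ℂ_[p]) _ = _ from evx_zero _, (isExp_exT _).c1, map_one, mul_one]
    exact congrArg C (hco i _ (Co.single_mem l0)).symm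
  · have h1 := dep_card (k := ℂ_[p]) (Sum.elim (fun x : ι × Fin t => y (.inl x))
      fun i : ι => ∑ j, C (N.g j i : ℂ_[p]) * L j)
    rw [Fintype.card_sum, Fintype.card_prod, Fintype.card_fin, ← Nat.mul_succ] at h1
    refine h1.alg fun x => ?_
    rw [hz, VZ]
    exact add_mem (sum_mem fun k _ => mul_mem (Subalgebra.algebraMap_mem _ _)
      (self_mem_algS (Sum.inl (x.2, k)))) (self_mem_algS (Sum.inr x.2))
  · have nul' := nul.iso (hρ i)
    obtain ⟨G, hG⟩ := (((nul'.pnul D.supp).map C).mul_right (V i)).exists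
    have h1 := hy G (by
      filter_upwards [N.eq, hω] with k h1 h2
      have h3 := iso_hasSum (hρ i) ((D.nul k).summable' D.supp).hasSum
      rw [D.van, map_zero] at h3
      refine Subtype.ext ((psum_oc.1 (hG.map (evz (OC p) _))).unique (Eq.mp (congrArg
        (HasSum · (0 : ℂ_[p])) (funext fun T => ?_)) h3))
      rw [map_mul (evz _ _), evz, evx_C (hE k), RingHom.id_apply, MulMemClass.coe_mul,
        nul'.coe_zcf D.supp, map_mul, iso_zp (hρ i)]
      by_cases h4 : D.a T = 0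
      · rw [h4, map_zero, zero_mul, zero_mul, zero_mul]
      rw [hev k i T (D.supp T h4), hq k h1 h2, mon_mul, map_mul, map_mon, mul_assoc])
    refine ((((D.nul n).iso (hρ i)).ts_csum D.supp).sb (z0 i)).unique ?_
    rw [← h1]
    refine Eq.mp (congrArg (CSum · _) (funext fun T => ?_)) (hG.csum.sb y0)
    rw [map_mul, map_mul, map_mul, map_C, evx_C y0.ev, evx_C (z0 i).ev,
      show ov p _ = _ from nul'.coe_zcf D.supp T]
    by_cases h4 : D.a T = 0
    · rw [h4, map_zero, zero_mul, zero_mul, map_zero, zero_mul, zero_mul]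
    rw [(harc i T (D.supp T h4)).2, ← mul_assoc, ← map_mul, ← map_mon, ← map_mon, hqn, mon_mul,
      sub_self, map_mul (ρ i), mul_assoc]

end Pool.Agent.E7
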