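import Pool.Agent.Lib.MP_7e5527_ag.EF.PNd
import Pool.Agent.Lib.MP_7e5527_ag.EA.GF

/-! The deformation of the roots of unity. -/

open MvPowerSeries Filter Topology

noncomputable section

namespace Pool.Agent.E7

variable {p : ℕ} [Fact p.Prime] {U : Ultrafilter ℕ}

variable {ι : Type} [Fintype ι] [DecidableEq ι]

omit [DecidableEq ι] in
theorem pdf_mon {B K : Type} [CommRing B] [Field K] (φ : B →* K) (u : ι → Bˣ) (T : ι → ℤ) :
    φ (umon u T) = mon (fun i => φ (u i)) T := by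
  have : φ (umon u T) = ((Units.map φ (∏ i, u i ^ T i) : Kˣ) : K) := rfl
  rw [this, map_prod]
  simp [mon]

theorem pdf_lift (g : PS Unit (RF p)) :
    ∃ f : PS Unit (W0 p), MvPowerSeries.map WittVector.constantCoeff f = g := by
  refine ⟨fun ν => WittVector.teichmuller p (coeff ν g), MvPowerSeries.ext fun ν => ?_⟩
  rw [coeff_map]
  exact WittVector.teichmuller_coeff_zero p _

theorem pdf_fr {B : Type} [CommRing B] [CharP B p] (k : ℕ) (b : B) :
    (WittVector.frobenius ^ k : WittVector p B →+* WittVector p B) (WittVector.teichmuller p b) =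
      WittVector.teichmuller p b ^ p ^ k := by
  induction k with
  | zero => rw [pow_zero, pow_zero, pow_one]; rfl
  | succ k ih =>
    rw [pow_succ', RingHom.mul_def, RingHom.comp_apply, ih, map_pow,
      WittVector.frobenius_eq_map_frobenius, WittVector.map_teichmuller, frobenius_def, map_pow,
      ← pow_mul, ← pow_succ']

theorem pdf_map {B B' : Type} [CommRing B] [CommRing B'] (ρ : B →+* B') (k : ℕ)
    (x : WittVector p B) :
    (WittVector.frobenius ^ k : WittVector p B' →+* WittVector p B') (WittVector.map ρ x) =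
      WittVector.map ρ ((WittVector.frobenius ^ k : WittVector p B →+* WittVector p B) x) := by
  induction k with
  | zero => rfl
  | succ n ih =>
    rw [pow_succ', pow_succ', RingHom.mul_def, RingHom.mul_def, RingHom.comp_apply,
      RingHom.comp_apply, ih, wv_map_fr]

omit [DecidableEq ι] in
/-- A point on the arc. -/
theorem pdf_arc {B : Type} [CommRing B] (π : PS ι (RF p) →+* B) (a : ι → RF p) {ω : ι → ℂ_[p]}
    (h1 : ∀ l, ‖ω l‖ = 1) (hω : ∀ l, (jw p (WittVector.teichmuller p (a l)) : ℂ_[p]) = ω l)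
    {y : ι → PS Unit (RF p)} {lam : B →+* PT p} (hy0 : C0 y) (hy : y ≠ 0)
    (hl : ∀ f, lam (π f) = PerfectClosure.of _ p (sb y f)) :
    ∃ (Λ : WittVector p B →+* OC p) (ε : ι → OC p), N1 ε ∧ lgo ε ≠ 0 ∧
      (∀ x, Λ (WittVector.map (π.comp C) x) = jw p x) ∧
      ∀ l, (Λ (WittVector.teichmuller p (π (C (a l) + X l))) : ℂ_[p]) = ω l * ε l := by
  obtain ⟨m, hm, hn⟩ := norm_arc hy0 hy
  obtain ⟨w₀, hw1, hw2, hgap⟩ := exists_gap p hm
  obtain ⟨Λ₀, hΛ1, hΛ2⟩ := exists_lam hw2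
  choose f hf using fun i => pdf_lift (y i)
  let ω' : ι → OC p := fun l =>
    Λ₀ (WittVector.map lam (WittVector.teichmuller p (π (C (a l) + X l))))
  have h2 := hn w₀ hw1 hw2 f (fun l => ω' l - jw p (WittVector.teichmuller p (a l))) hf fun l => by
    rw [← hΛ1, ← map_sub]
    refine hΛ2 _ _ ?_
    refine (map_sub (WittVector.constantCoeff (p := p)) _ _).trans ?_
    rw [WittVector.constantCoeff_apply, WittVector.constantCoeff_apply, WittVector.map_coeff,
      WittVector.map_coeff, WittVector.teichmuller_coeff_zero, WittVector.teichmuller_coeff_zero,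
      hl, map_add, evx_C hy0.ev, evx_X hy0.ev, map_add, RingHom.comp_apply, add_sub_cancel_left, hf]
  have h0 : ∀ l, ω l ≠ 0 := fun l h => by simpa [h] using h1 l
  have hi : ∀ l, ((toO (ω l)⁻¹ : OC p) : ℂ_[p]) = (ω l)⁻¹ := fun l =>
    coe_toO (by rw [norm_inv, h1, inv_one])
  have he : ∀ l, ((ω' l * toO (ω l)⁻¹ : OC p) : ℂ_[p]) = ω' l * (ω l)⁻¹ := fun l => by
    rw [MulMemClass.coe_mul, hi]
  have h3 : ∀ l, ‖((ω' l * toO (ω l)⁻¹ : OC p) : ℂ_[p]) - 1‖ =
      ‖((ω' l - jw p (WittVector.teichmuller p (a l)) : OC p) : ℂ_[p])‖ := fun l => by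
    rw [he, AddSubgroupClass.coe_sub, hω, ← mul_inv_cancel₀ (h0 l), ← sub_mul, norm_mul, norm_inv,
      h1, inv_one, mul_one]
  have h4 : ∀ l, ‖((ω' l * toO (ω l)⁻¹ : OC p) : ℂ_[p]) - 1‖ ≤ ‖(w₀ : ℂ_[p])‖ ^ m := fun l => by
    rw [h3, ← h2]
    exact norm_le_pi_norm
      (fun l => ((ω' l - jw p (WittVector.teichmuller p (a l)) : OC p) : ℂ_[p])) l
  have hN : N1 fun l => ω' l * toO (ω l)⁻¹ := fun l =>
    (h4 l).trans_lt (pow_lt_one₀ (norm_nonneg _) hw2 hm.ne')
  refine ⟨Λ₀.comp (WittVector.map lam), fun l => ω' l * toO (ω l)⁻¹, hN, fun h5 => ?_,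
    fun x => ?_, fun l => ?_⟩
  · have hpos : 0 < ‖(w₀ : ℂ_[p])‖ ^ m :=
      lt_of_le_of_lt (inv_nonneg.2 (Nat.cast_nonneg p)) hw1
    refine ((pi_norm_lt_iff hpos).2 fun i => ?_).ne h2
    obtain ⟨j, hj⟩ := lg_eq_zero (hN i) (congrFun h5 i)
    rw [← h3]
    exact lt_of_le_of_ne (h4 i) (hgap _ j hj)
  · rw [← hΛ1 x, RingHom.comp_apply]
    exact congrArg Λ₀ (WittVector.ext fun n =>
      (hl _).trans (congrArg (PerfectClosure.of _ p) (evx_C hy0.ev _)))
  · rw [he, mul_left_comm, mul_inv_cancel₀ (h0 l), mul_one]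
    rfl

/-- `exists_gb` for the reductions, `GBs.gd`, `xn n T` is the Teichmueller lift of the monomial in
the units `π n (C _ + X l)`; `norm_arc`, `exists_gap`, `exists_lam` as in `Cn.arc_pt`; compose
with powers of `WittVector.frobenius` as in `Cn.caseB`. -/
theorem exists_def (hU : (U : Filter ℕ) ≤ cofinite) {ω : ℕ → ι → ℂ_[p]}
    (hr : ∀ n i, ∃ r : ℕ, ¬ p ∣ r ∧ ω n i ^ r = 1) (hω : ∀ ω0, ¬ ∀ᶠ n in (U : Filter ℕ), ω n = ω0) :
    ∃ (A : Type) (_ : CommRing A) (_ : PC p A) (An : ℕ → Type) (_ : ∀ n, CommRing (An n))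
      (_ : ∀ n, PC p (An n)) (G : GD p U A An) (x : (ι → ℤ) → A) (xn : ∀ n, (ι → ℤ) → An n),
      ∀ᶠ n in (U : Filter ℕ), (∀ T, G.i n (xn n T) = x T) ∧
        (∀ T, (jw p (G.ε n (xn n T)) : ℂ_[p]) = mon (ω n) T) ∧
        ∃ ε : ι → OC p, N1 ε ∧ lgo ε ≠ 0 ∧ ∀ k : ℕ, ∃ Λ : An n →+* OC p,
          (∀ w, Λ (G.cn n w) = jw p ((WittVector.frobenius ^ k : W0 p →+* W0 p) w)) ∧
          ∀ T, (Λ (xn n T) : ℂ_[p]) = mon (fun i => (ω n i * ε i) ^ p ^ k) T := by
  let a : ℕ → ι → RF p := fun n l => red p (toO (ω n l))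
  have h1 : ∀ n l, ‖ω n l‖ = 1 ∧ (jw p (WittVector.teichmuller p (a n l)) : ℂ_[p]) = ω n l :=
    fun n l => (hr n l).elim fun r h => root_jw h.1 h.2
  have h2 : ∀ n l, IsUnit (C (a n l) + X l : PS ι (RF p)) := fun n l => by
    rw [isUnit_iff_constantCoeff, map_add, constantCoeff_C, constantCoeff_X, add_zero]
    refine Ne.isUnit fun h => ?_
    have := red_eq_zero.1 h
    rw [coe_toO (h1 n l).1.le, (h1 n l).1] at this
    exact this.false
  obtain ⟨Ω, _, _, _, B, _, _, _, G, π, x, hC, hev, h⟩ := exists_gb hU a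
  let ξ : ∀ n, ι → (B n)ˣ := fun n l => ((h2 n l).map (π n)).unit
  have hξ : ∀ n l, (ξ n l : B n) = π n (C (a n l) + X l) := fun n l => rfl
  refine ⟨WittVector p Ω, inferInstance, inferInstance, fun n => WittVector p (B n), inferInstance,
    inferInstance, G.gd, fun T => WittVector.teichmuller p (mon x T),
    fun n T => WittVector.teichmuller p (umon (ξ n) T),
    h.mono fun n hn => ⟨fun T => ?_, fun T => ?_, ?_⟩⟩
  · refine (WittVector.map_teichmuller p (G.i n) _).trans (congrArg _ ?_)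
    exact (pdf_mon (G.i n : B n →* Ω) (ξ n) T).trans (congrArg (mon · T) (funext hn.1))
  · refine (pdf_mon ((((ov p).comp ((jw p).comp (WittVector.map (G.ev n))) :
      WittVector p (B n) →+* ℂ_[p]) : WittVector p (B n) →* ℂ_[p]).comp
        (WittVector.teichmuller p)) (ξ n) T).trans (congrArg (mon · T) (funext fun l => ?_))
    rw [← (h1 n l).2]
    refine congrArg (fun w : W0 p => (jw p w : ℂ_[p]))
      ((WittVector.map_teichmuller p (G.ev n) _).trans (congrArg _ ?_))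
    rw [hξ, hev, map_add, constantCoeff_C, constantCoeff_X, add_zero]
  · obtain ⟨y, lam, hy0, hy, hl⟩ := hn.2.resolve_left fun h3 => hω (ω n) (h3.mono fun m hm =>
      funext fun l => by rw [← (h1 m l).2, ← (h1 n l).2, hm])
    obtain ⟨Λ, ε, hN, hlg, hΛ, hε⟩ :=
      pdf_arc (π n) (a n) (fun l => (h1 n l).1) (fun l => (h1 n l).2) hy0 hy hl
    refine ⟨ε, hN, hlg, fun k => ⟨Λ.comp (WittVector.frobenius ^ k), fun w => ?_, fun T => ?_⟩⟩
    · rw [← hΛ, ← pdf_map, show (π n).comp C = G.cn n from RingHom.ext (hC n)]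
      rfl
    · refine (pdf_mon ((((ov p).comp (Λ.comp (WittVector.frobenius ^ k)) :
        WittVector p (B n) →+* ℂ_[p]) : WittVector p (B n) →* ℂ_[p]).comp
          (WittVector.teichmuller p)) (ξ n) T).trans (congrArg (mon · T) (funext fun l => ?_))
      rw [← hε, ← hξ, ← SubmonoidClass.coe_pow, ← map_pow, ← pdf_fr]
      rfl

end Pool.Agent.E7
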