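import Pool.Agent.Lib.MP_7e5527_ag.EF.PLine

/-! Vanishing on a line. -/

open MvPowerSeries Filter Topology

noncomputable section

namespace Pool.Agent.E7

variable {ι : Type} [Fintype ι] [DecidableEq ι] {p : ℕ} [Fact p.Prime] {Co : Cone ι}
  {q : ι → ℂ_[p]} {a : (ι → ℤ) → ℤ_[p]}

omit [DecidableEq ι] in
theorem pl2_exp (c : ι → ℂ_[p]) (T : ι → ℤ) :
    IsExp (sb (fun l => (C (c l) * X () : PS Unit ℂ_[p])) (exT fun i => (T i : ℂ_[p])))
      (C (∑ i, (T i : ℂ_[p]) * c i) * X ()) := by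
  have h := isExp_sb_exT (fun i => (T i : ℂ_[p])) (ax2_c0 c)
  rwa [map_sum, Finset.sum_mul, Finset.sum_congr rfl fun i _ => by rw [map_mul, mul_assoc]]

theorem pl2_csum (h : Nul Co q) (ha : ∀ T, a T ≠ 0 → T ∈ Co.Lp) (c : ι → ℂ_[p]) :
    CSum (fun T => C (UAP.zp p (a T) * mon q T) *
      sb (fun l => (C (c l) * X () : PS Unit ℂ_[p])) (exT fun i => (T i : ℂ_[p])))
      (sb (fun l => (C (c l) * X () : PS Unit ℂ_[p])) (TS q fun T => UAP.zp p (a T))) := by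
  have h1 := (h.ts_csum ha).sb (ax2_c0 c)
  simpa only [map_mul (sb _), evx_C (ax2_c0 c).ev] using h1

/-- `ts_csum`, `CSum.sb`; the term `sb .. (exT T)` depends only on `ipZ T c` (`IsExp.unique`);
`pa_fib`. -/
theorem Nul.line_class (h : Nul Co q) (ha : ∀ T, a T ≠ 0 → T ∈ Co.Lp) (c : ι → ℤ) {J : Type}
    [DecidableEq J] (cl : (ι → ℤ) → J) (rep : J → ι → ℤ)
    (hcl : ∀ T, ipZ T c = ipZ (rep (cl T)) c)
    (h0 : ∀ j, ∑' T, (if cl T = j then UAP.zp p (a T) * mon q T else 0) = 0) :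
    sb (fun l => (C (c l : ℂ_[p]) * X () : PS Unit ℂ_[p])) (TS q fun T => UAP.zp p (a T)) = 0 := by
  have h1 := pl2_csum h ha fun l => (c l : ℂ_[p])
  set e : (ι → ℤ) → PS Unit ℂ_[p] := fun T =>
    sb (fun l => (C (c l : ℂ_[p]) * X () : PS Unit ℂ_[p])) (exT fun i => (T i : ℂ_[p])) with he
  have h2 : ∀ T, e T = e (rep (cl T)) := fun T => by
    have h3 := pl2_exp (p := p) (fun l => (c l : ℂ_[p])) T
    have h4 : ∑ i, (T i : ℂ_[p]) * (c i : ℂ_[p]) =
        ∑ i, (rep (cl T) i : ℂ_[p]) * (c i : ℂ_[p]) := by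
      exact_mod_cast congrArg (Int.cast : ℤ → ℂ_[p]) (hcl T)
    rw [h4] at h3
    exact h3.unique (pl2_exp _ _)
  refine MvPowerSeries.ext fun ν => ?_
  have h3 := h1 ν
  simp only [coeff_C_mul] at h3
  have h4 := pa_fib h3.summable cl
  have h5 : ∀ j, ∑' T, (if cl T = j then UAP.zp p (a T) * mon q T * coeff ν (e T) else 0) = 0 := by
    intro j
    refine Eq.trans ?_ ((congrArg (· * coeff ν (e (rep j))) (h0 j)).trans (zero_mul _))
    rw [← tsum_mul_right]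
    refine tsum_congr fun T => ?_
    split_ifs with hT
    · rw [h2, hT]
    · rw [zero_mul]
  rw [funext h5] at h4
  rw [← h3.tsum_eq, map_zero]
  exact h4.unique hasSum_zero

omit [DecidableEq ι] in
theorem pl2_lam {ε : ι → OC p} (hε : N1 ε) {f : ℕ} (hf : 0 < f) : ∃ (k1 : ℕ) (lam : ι → OC p),
    (∀ i, (p : ℂ_[p]) ^ 2 * lam i = (p : ℂ_[p]) ^ (f * k1) * lgo ε i) ∧ Sm lam ∧
      ∀ k i, ε i ^ p ^ (f * (k1 + k)) = exo p ((p : OC p) ^ (f * k) * lam i) := by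
  obtain ⟨g0, g1⟩ := plg_lt p
  have hp : (p : ℂ_[p]) ≠ 0 := Nat.cast_ne_zero.2 (Fact.out : p.Prime).ne_zero
  have t0 : Tendsto (fun k : ℕ => f * k) atTop atTop := tendsto_id.const_mul_atTop' hf
  have t1 : ∀ i, ∀ᶠ k : ℕ in atTop, ‖(ε i : ℂ_[p]) ^ p ^ (f * k) - 1‖ ≤ ((p : ℝ) ^ 2)⁻¹ :=
    fun i => t0.eventually ((tendsto_iff_norm_sub_tendsto_zero.1
      (tendsto_ppow p (hε i))).eventually (ge_mem_nhds (by
        rw [← inv_pow]
        exact pow_pos g0 2)))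
  have t2 : ∀ i, ∀ᶠ k : ℕ in atTop,
      ‖(p : ℂ_[p]) ^ (f * k) * (lgo ε i / (p : ℂ_[p]) ^ 2)‖ < 1 := fun i => by
    have t := ((tendsto_pow_atTop_nhds_zero_of_lt_one g0.le g1).comp t0).mul_const
      ‖lgo ε i / (p : ℂ_[p]) ^ 2‖
    rw [zero_mul] at t
    filter_upwards [t.eventually (gt_mem_nhds one_pos)] with k hk
    rwa [norm_mul, norm_pow, UAP.norm_p_eq]
  obtain ⟨k1, hk1⟩ := eventually_atTop.1 ((eventually_all.2 t1).and (eventually_all.2 t2))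
  have h1 : ∀ i, ((toO ((p : ℂ_[p]) ^ (f * k1) * (lgo ε i / (p : ℂ_[p]) ^ 2)) : OC p) : ℂ_[p]) =
      (p : ℂ_[p]) ^ (f * k1) * (lgo ε i / (p : ℂ_[p]) ^ 2) := fun i =>
    coe_toO ((hk1 k1 le_rfl).2 i).le
  refine ⟨k1, fun i => toO ((p : ℂ_[p]) ^ (f * k1) * (lgo ε i / (p : ℂ_[p]) ^ 2)), fun i => ?_,
    fun i => ?_, fun k i => ?_⟩
  · rw [h1]
    field_simp
  · rw [h1]
    exact (hk1 k1 le_rfl).2 i
  · have h2 : (((p : OC p) ^ (f * k) * toO ((p : ℂ_[p]) ^ (f * k1) *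
        (lgo ε i / (p : ℂ_[p]) ^ 2)) : OC p) : ℂ_[p]) =
        (p : ℂ_[p]) ^ (f * (k1 + k)) * (lgo ε i / (p : ℂ_[p]) ^ 2) := by
      rw [MulMemClass.coe_mul, SubmonoidClass.coe_pow, SubringClass.coe_natCast, h1]
      ring
    refine eq_exo ?_ ((hk1 _ (Nat.le_add_right k1 k)).1 i) ?_
    · rw [h2]
      exact (hk1 _ (Nat.le_add_right k1 k)).2 i
    · rw [h2, SubmonoidClass.coe_pow, lg_pow (hε i), Nat.cast_pow, lgo]
      field_simp

omit [DecidableEq ι] in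
theorem pl2_term (lam : ι → OC p) (T : ι → ℤ) :
    MvPowerSeries.map (ov p) (exo p (C (∑ i, (T i : OC p) * lam i) * X () : PS Unit (OC p))) =
      sb (fun l => (C ((p : ℂ_[p]) ^ 2 * lam l) * X () : PS Unit ℂ_[p]))
        (exT fun i => (T i : ℂ_[p])) := by
  have h1 := (isExp_exo (p := p) (b := (C (∑ i, (T i : OC p) * lam i) * X () : PS Unit (OC p)))
    (by simp)).map (ov p)
  have h2 := pl2_exp (p := p) (fun l => (p : ℂ_[p]) ^ 2 * (lam l : ℂ_[p])) T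
  have h3 : ∑ i, (T i : ℂ_[p]) * ((p : ℂ_[p]) ^ 2 * lam i) =
      (p : ℂ_[p]) ^ 2 * ov p (∑ i, (T i : OC p) * lam i) := by
    rw [map_sum, Finset.mul_sum]
    refine Finset.sum_congr rfl fun i _ => ?_
    rw [map_mul, map_intCast, mul_left_comm]
    rfl
  rw [h3, map_mul, map_pow, map_natCast, mul_assoc] at h2
  rw [map_mul, map_mul, map_pow, map_natCast, map_C, map_X] at h1
  exact h1.unique h2

/-- For large `k` the powers are `exo (p ^ (f * (k - k1)) * lam)` (`ppow_bound`, `eq_exo`, as in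
`Cn.caseB`); `F` is the `p`-adic sum of `C (zcf q a T) * exo (C (T · lam) * X ())`; `line_lemma` with
one variable; `c = p ^ 2 * lam`. -/
theorem Nul.line_tors (h : Nul Co q) (ha : ∀ T, a T ≠ 0 → T ∈ Co.Lp) {ε : ι → OC p} (hε : N1 ε)
    (hl : lgo ε ≠ 0) {f : ℕ} (hf : 0 < f) (h0 : ∀ k : ℕ, ∑' T, UAP.zp p (a T) * mon q T *
      mon (fun i => (ε i : ℂ_[p]) ^ p ^ (f * k)) T = 0) : ∃ c : ι → ℂ_[p], c ≠ 0 ∧
    sb (fun l => (C (c l) * X () : PS Unit ℂ_[p])) (TS q fun T => UAP.zp p (a T)) = 0 := by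
  obtain ⟨k1, lam, h1, h2, h3⟩ := pl2_lam hε hf
  have hp : (p : ℂ_[p]) ≠ 0 := Nat.cast_ne_zero.2 (Fact.out : p.Prime).ne_zero
  set d : (ι → ℤ) → OC p := fun T => ∑ i, (T i : OC p) * lam i with hd
  have hc : ∀ T, constantCoeff (C (d T) * X () : PS Unit (OC p)) = 0 := fun T => by simp
  obtain ⟨F, hF⟩ := (((h.pnul ha).map (C : OC p →+* PS Unit (OC p))).mul_right
    fun T => exo p (C (d T) * X () : PS Unit (OC p))).exists
  have h4 : ∀ k, 0 < k → evx (RingHom.id _) (fun _ : Unit => (p : OC p) ^ (f * k)) F = 0 := by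
    intro k hk
    have he : Ev fun _ : Unit => (p : OC p) ^ (f * k) := ev_pad p fun _ =>
      Ideal.le_radical (Ideal.mem_span_singleton.2 (dvd_pow_self _ (Nat.mul_pos hf hk).ne'))
    have hs : Sm fun i => (p : OC p) ^ (f * k) * lam i := fun i =>
      (oc_dvd.1 (dvd_mul_left _ _)).trans_lt (h2 i)
    have h5 := psum_oc.1 (hF.map (evx (RingHom.id _) fun _ : Unit => (p : OC p) ^ (f * k)))
    refine Subtype.ext (h5.tsum_eq.symm.trans (Eq.trans (tsum_congr fun T => ?_) (h0 (k1 + k))))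
    have h6 : d T * (p : OC p) ^ (f * k) = ∑ i, (T i : OC p) * ((p : OC p) ^ (f * k) * lam i) := by
      rw [hd, Finset.sum_mul]
      exact Finset.sum_congr rfl fun i _ => by ring
    rw [map_mul, ax1_evx he _ (hc T), map_mul, evx_C he, evx_C he, evx_X he, RingHom.id_apply,
      RingHom.id_apply, MulMemClass.coe_mul, h.coe_zcf ha, h6, exo_mon hs]
    simp only [← h3, SubmonoidClass.coe_pow]
  have h5 := line_lemma F (fun _ => 1) 1 (by simp) hf 0 fun k hk => by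
    rw [one_pow, Matrix.map_one _ (map_zero _) (map_one _), Matrix.one_mulVec, ← h4 k hk]
    congr 2
    funext i
    simp
  have h6 : F = 0 := by
    have e : (fun _ : Unit => (C 1 * X () : PS Unit (OC p))) = X := funext fun i => by simp
    rwa [e, sb_X] at h5
  refine ⟨fun l => (p : ℂ_[p]) ^ 2 * lam l, fun e => hl (funext fun i => ?_), ?_⟩
  · have h7 : (p : ℂ_[p]) ^ 2 * lam i = 0 := congrFun e i
    rw [h1] at h7
    exact (mul_eq_zero.1 h7).resolve_left (pow_ne_zero _ hp)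
  · have h7 := hF.csum
    rw [h6, map_zero] at h7
    refine (pl2_csum h ha _).unique (Eq.mp (congrArg (fun g => CSum g 0) (funext fun T => ?_)) h7)
    rw [map_mul, map_C, pl2_term lam T]
    exact congrArg (fun z => C z * _) (h.coe_zcf ha T)

end Pool.Agent.E7
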