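import Pool.Agent.Lib.MP_7e5527_ag.EF.PNd
import Pool.Agent.Lib.MP_7e5527_ag.EA.AG

/-! Lemmas for the normal form. -/

open MvPowerSeries Filter Topology

noncomputable section

namespace Pool.Agent.E7

variable {ι : Type} [Fintype ι] [DecidableEq ι] {p : ℕ} [Fact p.Prime] {Co : Cone ι} {κ : Type}

open IntermediateField

theorem pna_alg {E : IntermediateField ℚ_[p] ℂ_[p]} [FiniteDimensional ℚ_[p] E] {x : ℂ_[p]}
    (h : x ∈ E) : IsAlgebraic ℚ_[p] x :=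
  ((Algebra.IsIntegral.isIntegral (R := ℚ_[p]) (⟨_, h⟩ : E)).map E.val).isAlgebraic

theorem pna_add {a b : ℂ_[p]} (ha : ‖a‖ < 1) (hb : ‖b‖ < 1) : ‖a + b‖ < 1 :=
  (IsUltrametricDist.norm_add_le_max a b).trans_lt (max_lt ha hb)

theorem pna_pow {v : ℂ_[p]} (h : ‖v - 1‖ < 1) (n : ℕ) : ‖v ^ n - 1‖ < 1 := by
  induction n with
  | zero => simp
  | succ n ih =>
    rw [show v ^ (n + 1) - 1 = (v ^ n - 1) * (v - 1) + (v ^ n - 1 + (v - 1)) by ring]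
    exact pna_add (by
      rw [norm_mul]
      exact mul_lt_one_of_nonneg_of_lt_one_left (norm_nonneg _) ih h.le) (pna_add ih h)

theorem pna_eq {v : ℂ_[p]} (h : ‖v - 1‖ < 1) {n : ℕ} (hn : ¬ p ∣ n) : ‖v ^ n - 1‖ = ‖v - 1‖ := by
  have h1 : ∀ m : ℕ, ‖∑ i ∈ Finset.range m, v ^ i - m‖ < 1 := fun m => by
    induction m with
    | zero => simp
    | succ m ih =>
      rw [Finset.sum_range_succ, Nat.cast_succ, add_sub_add_comm]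
      exact pna_add ih (pna_pow h m)
  have h2 : ‖(n : ℂ_[p])‖ = 1 := by
    rw [← map_natCast (UAP.zp p), UAP.norm_zp, PadicInt.norm_natCast_eq_one_iff,
      (Fact.out : p.Prime).coprime_iff_not_dvd]
    exact hn
  rw [← geom_sum_mul, norm_mul, ← sub_add_cancel (∑ i ∈ Finset.range n, v ^ i) n,
    IsUltrametricDist.norm_add_eq_max_of_norm_ne_norm (h2 ▸ (h1 n).ne), h2,
    max_eq_right (h1 n).le, one_mul]

/-- `lg_spec`, `UAP.isClosed_field`. -/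
theorem lg_alg {u : ℂ_[p]} (hu : ‖u - 1‖ < 1) (h : IsAlgebraic ℚ_[p] u) :
    IsAlgebraic ℚ_[p] (lg p u) := by
  have := adjoin.finiteDimensional h.isIntegral
  refine pna_alg (E := ℚ_[p]⟮u⟯) ((UAP.isClosed_field _).mem_of_tendsto (lg_spec hu)
    (Eventually.of_forall fun k => ?_))
  exact mul_mem (inv_mem (pow_mem (_root_.natCast_mem _ p) k))
    (sub_mem (pow_mem (mem_adjoin_simple_self _ u) _) (one_mem _))

/-- `eo_teich`. -/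
theorem unit_dec {x : ℂ_[p]} (hx : ‖x‖ = 1) : ∃ (ω : ℂ_[p]) (u : OC p),
    (∃ r : ℕ, ¬ p ∣ r ∧ ω ^ r = 1) ∧ ‖(u : ℂ_[p]) - 1‖ < 1 ∧ x = ω * u := by
  obtain ⟨ω, rfl | ⟨r, h1, h2⟩, h3⟩ := eo_teich hx.le
  · rw [sub_zero, hx] at h3
    exact (lt_irrefl _ h3).elim
  have h4 := (root_jw h1 h2).1
  have h5 : ω ≠ 0 := norm_ne_zero_iff.1 (h4 ▸ one_ne_zero)
  refine ⟨ω, ⟨x / ω, mem_OC.2 (by rw [norm_div, hx, h4, div_one])⟩, ⟨r, h1, h2⟩, ?_,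
    (mul_div_cancel₀ x h5).symm⟩
  rwa [div_sub_one h5, norm_div, h4, div_one]

/-- With `w = p ^ b * w'`: `‖v ^ w' - 1‖ = ‖v - 1‖` for principal units `v`. -/
theorem DVF.near {K : Subfield ℂ_[p]} (hK : DVF K) {w : ℕ} (hw : 0 < w) : ∃ (r : ℝ) (b : ℕ),
    r < 1 ∧ ∀ u : ℂ_[p], ‖u - 1‖ < 1 → u ^ w ∈ K → ‖u ^ p ^ b - 1‖ ≤ r := by
  obtain ⟨r, h1, h2⟩ := hK.dv
  obtain ⟨b, m, hm, rfl⟩ := Nat.exists_eq_pow_mul_and_not_dvd hw.ne' p (Fact.out : p.Prime).ne_one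
  refine ⟨r, b, h1, fun u hu h => ?_⟩
  rw [← pna_eq (pna_pow hu _) hm, ← pow_mul]
  exact h2 _ (sub_mem h (one_mem _)) (pna_pow hu _)

/-- `kum_mem` as in `gal`, `exists_dvf'` for a basis of `E'` and the `c i`, `root_jw`. -/
theorem PD.dvf (D : PD p Co κ) {w0 : ℕ}
    (h : ∀ n c, Good D.E (D.q n) c → ∀ i, c i ^ w0 = 1) {c : ι → ℂ_[p]}
    (hc : ∀ i, IsAlgebraic ℚ_[p] (c i)) : ∃ K : Subfield ℂ_[p], DVF K ∧ (∀ i, c i ∈ K) ∧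
      (∀ (ω : ℂ_[p]) (r : ℕ), ¬ p ∣ r → ω ^ r = 1 → ω ∈ K) ∧ ∀ n i, D.q n i ^ w0 ∈ K := by
  have hp : p.Prime := Fact.out
  have hp2 : 0 < p ^ 2 := pow_pos hp.pos _
  have := D.finE
  let b := Module.finBasis ℚ_[p] D.E
  obtain ⟨K, hK, h1, h2⟩ := exists_dvf' (y := Sum.elim c fun j => (b j : ℂ_[p])) (by
    rintro (i | j)
    exacts [hc i, pna_alg (b j).2])
  have h3 : ∀ (ω : ℂ_[p]) (r : ℕ), ¬ p ∣ r → ω ^ r = 1 → ω ∈ K := fun ω r hr e =>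
    (root_jw hr e).2 ▸ hK.jw _
  refine ⟨K, hK, fun i => h1 (.inl i), h3, fun n i => ?_⟩
  obtain ⟨ξ, hξ⟩ := pgal_prim p hp2
  have := UAP.finiteDimensional_sup_root D.E hp2 hξ.pow_eq_one
  obtain ⟨m, hm, hqm⟩ := D.kum n
  obtain ⟨s, r, hr, rfl⟩ := Nat.exists_eq_pow_mul_and_not_dvd hm.ne' p hp.ne_one
  obtain ⟨ω, hω⟩ := pgal_prim p (Nat.pos_of_ne_zero fun e : r = 0 => hr (e ▸ dvd_zero p))
  refine (?_ : _ ≤ K.toIntermediateField hK.qp) (kum_mem (E' := D.E ⊔ ℚ_[p]⟮ξ⟯) le_sup_left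
    (fun x hx => ?_) (D.pt n).ne_zero hr hqm hω (h n) i)
  · refine sup_le (sup_le (fun x hx => ?_) (adjoin_simple_le_iff.2 (h2 ξ hξ.pow_eq_one)))
      (adjoin_simple_le_iff.2 (h3 ω r hr hω.pow_eq_one))
    have e := congrArg D.E.val (b.sum_repr ⟨x, hx⟩)
    rw [map_sum] at e
    refine (show _ = x from e) ▸ sum_mem fun j _ => ?_
    rw [Algebra.smul_def, map_mul, AlgHom.commutes]
    exact mul_mem (hK.qp _) (h1 (.inr j))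
  · have : NeZero (p ^ 2) := ⟨hp2.ne'⟩
    obtain ⟨j, -, rfl⟩ := hξ.eq_pow_of_pow_eq_one hx
    exact pow_mem ((le_sup_right : ℚ_[p]⟮ξ⟯ ≤ _) (mem_adjoin_simple_self _ ξ)) j

theorem PD.alg (D : PD p Co κ) (n : ℕ) (i : ι) : IsAlgebraic ℚ_[p] (D.q n i) := by
  have := D.finE
  obtain ⟨m, hm, h⟩ := D.kum n
  exact .of_pow hm (pna_alg (h i))

/-- `gal`. -/
theorem PD.den (D : PD p Co κ) {w0 : ℕ} (hw : 0 < w0)
    (h : ∀ n c, Good D.E (D.q n) c → ∀ i, c i ^ w0 = 1) :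
    ∃ e : ℕ, 0 < e ∧ ∀ n i, ∃ z : ℤ, (e : ℚ) * D.y n i = z := by
  have := D.finE
  obtain ⟨f, w, e, E', -, -, he, -, h1⟩ := gal ι D.E hw
  refine ⟨e, he, fun n i => ?_⟩
  obtain ⟨k, hk⟩ := (h1 _ (D.pt n).ne_zero (D.kum n) (h n)).1 i
  have h0 : (0 : ℝ) < p := one_pos.trans av1_one_lt
  rw [D.pt n i, ← Real.rpow_mul_natCast h0.le, ← Real.rpow_intCast,
    Real.rpow_right_inj h0 av1_one_lt.ne'] at hk
  refine ⟨-k, Rat.cast_injective (α := ℝ) ?_⟩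
  push_cast
  linarith

end Pool.Agent.E7
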