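import Pool.Agent.Lib.MP_7e5527_ag.EF.PGv
import Pool.Agent.Lib.MP_7e5527_ag.EF.PDf
import Pool.Agent.Lib.MP_7e5527_ag.EF.PNa
import Pool.Agent.Lib.MP_7e5527_ag.EF.PLn2

/-! The case of infinitely many residue classes. -/

open MvPowerSeries Filter Topology

noncomputable section

namespace Pool.Agent.E7

variable {ι : Type} [Fintype ι] [DecidableEq ι] {p : ℕ} [Fact p.Prime] {Co : Cone ι} {κ : Type}
  {r m : ℕ} {ρ : Fin m → ℂ_[p] →+* ℂ_[p]} {U : Ultrafilter ℕ} {t : ℕ} {J : Type} [Fintype J]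

theorem pb2_lift {O : Type} [CommRing O] {K : Subfield ℂ_[p]} (v : O →+* OC p)
    (hv : ∀ y : OC p, (y : ℂ_[p]) ∈ K → ∃ x, v x = y) {y : OC p} (hy : (y : ℂ_[p]) ∈ K) :
    ∃ x : O, (∀ k : ℕ, (p : OC p) ^ k ∣ y → (p : O) ^ k ∣ x) ∧ v x = y := by
  classical
  by_cases h : ∃ k : ℕ, ¬ (p : OC p) ^ (k + 1) ∣ y
  · have h1 : (p : OC p) ^ Nat.find h ∣ y := by
      rcases Nat.eq_zero_or_pos (Nat.find h) with h0 | h0
      · rw [h0, pow_zero]
        exact one_dvd _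
      · have := Nat.find_min h (Nat.sub_lt h0 Nat.one_pos)
        rwa [not_not, Nat.sub_add_cancel h0] at this
    obtain ⟨z, hz⟩ := h1
    have e : (z : ℂ_[p]) = y / (p : ℂ_[p]) ^ Nat.find h := by
      have e1 := congrArg (fun w : OC p => (w : ℂ_[p])) hz
      simp only [MulMemClass.coe_mul, SubmonoidClass.coe_pow, SubringClass.coe_natCast] at e1
      rw [eq_div_iff (pow_ne_zero _ av1_ne), mul_comm]
      exact e1.symm
    obtain ⟨x, hx⟩ := hv z (e ▸ div_mem hy (pow_mem (natCast_mem K p) _))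
    refine ⟨(p : O) ^ Nat.find h * x, fun k hk => ?_, ?_⟩
    · refine (pow_dvd_pow _ ?_).mul_right x
      by_contra hlt
      exact Nat.find_spec h ((pow_dvd_pow _ (not_le.1 hlt)).trans hk)
    · rw [map_mul, map_pow, map_natCast, hx, ← hz]
  · push Not at h
    refine ⟨0, fun k _ => dvd_zero _, ?_⟩
    rw [map_zero]
    refine (Subtype.ext (norm_le_zero_iff.1 (ge_of_tendsto' (av1_lim (p := p)) fun k => ?_))).symm
    exact oc_pdvd.1 ((pow_dvd_pow _ (Nat.le_succ k)).trans (h k))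

/-- Lift `f T / p ^ k` for the largest `k`. -/
theorem dec_lift {O α : Type} [CommRing O] {K : Subfield ℂ_[p]} (v : O →+* OC p)
    (hv : ∀ y : OC p, (y : ℂ_[p]) ∈ K → ∃ x, v x = y) {f : α → OC p} (hf : PNul p f)
    (hK : ∀ T, (f T : ℂ_[p]) ∈ K) : ∃ f' : α → O, PNul p f' ∧ ∀ T, v (f' T) = f T := by
  choose f' h1 h2 using fun T => pb2_lift v hv (hK T)
  exact ⟨f', fun k => (hf k).subset fun T hT h => hT (h1 T k h), h2⟩

theorem pb2_root {τ : ℂ_[p] →+* ℂ_[p]} {f r : ℕ} (h : Frob τ f) {ω : ℂ_[p]} (hr : ¬ p ∣ r)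
    (h1 : ω ^ r = 1) (h2 : τ ω = ω) : ω ^ p ^ f = ω := by
  have hn := (root_jw hr h1).1
  have h0 : ω ≠ 0 := norm_pos_iff.1 (hn ▸ one_pos)
  have h3 := h.res ω hn.le
  rw [h2, norm_sub_rev] at h3
  have h4 : ω ^ p ^ f / ω = 1 := by
    refine UAP.root_eq_one_of_coprime hr ?_ ?_
    · rw [div_pow, ← pow_mul, mul_comm, pow_mul, h1, one_pow, div_one]
    · rwa [div_sub_one h0, norm_div, hn, div_one]
  exact (div_eq_one_iff_eq h0).1 h4

theorem pb2_ev (D : PD p Co κ) (N : NF Co U D.q t J) {O : Type} [CommRing O] [PC p O]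
    (v : O →+* OC p) {l' : Fin t → O} (hl : ∀ k, v (l' k) = N.l k) {f' : (ι → ℤ) → O}
    (hf : ∀ T, v (f' T) = zcf N.c D.a T) (n : ℕ) (T : ι → ℤ) :
    (v (evz O (Sum.elim (N.a n) (N.s n)) (C (f' T) * VS (p := p) N.g l' 0 T)) : ℂ_[p]) =
      UAP.zp p (D.a T) * mon (fun i => N.c i * VP N.g N.l (N.a n) (N.s n) i) T := by
  have ha : ∀ x, (p : ℤ_[p]) ∣ Sum.elim (N.a n) (N.s n) x := by
    rintro (x | x)
    · exact N.ha n x
    · exact N.hs n x
  rw [map_mul, evx_C (au1_ev ha), map_mul, MulMemClass.coe_mul, RingHom.id_apply, hf,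
    N.nul.coe_zcf D.supp, mon_mul, mul_assoc]
  by_cases h0 : D.a T = 0
  · rw [h0, map_zero, zero_mul, zero_mul]
  have h1 : Ev fun i => v (zc p O (Sum.elim (N.a n) (N.s n) i)) := by
    simp only [zc_map]
    exact au1_ev ha
  rw [evx_comp (au1_ev ha) v h1]
  simp only [zc_map, RingHom.comp_id]
  rw [vs_ev v l' (N.ha n) (N.hs n) (fun j => by rw [Pi.zero_apply, zero_add]; exact N.s0 n j)
    fun j => N.g0 j T (D.supp T h0)]
  simp only [hl, zero_add]

/-- `exists_dvf'` for `N.c`, `N.l`; `DVF.dec`; `GD.gv1` with `V T = C (f' T) * VS N.g l' 0 T` and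
the parameters `Sum.elim (N.a n) (N.s n)`; `exists_def`; `bg_frob` for a field that contains
`D.q n i`, `N.ω n i`; `g = resO (s ^ k) ∘ val`, `frob_jw`, `root_jw`; `Nul.line_tors`. -/
theorem pcaseB2 (hU : (U : Filter ℕ) ≤ cofinite) (D : PD p Co κ) (N : NF Co U D.q t J)
    (hω : ∀ ω0, ¬ ∀ᶠ n in (U : Filter ℕ), N.ω n = ω0) (hr : 0 < r)
    (hρ : ∀ i, UAP.Iso (ρ i)) : ∃ n, POut r ρ (D.q n) D.a := by
  obtain ⟨K, hK, hm, -⟩ := exists_dvf' (p := p) (τ := ι ⊕ Fin t)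
    (y := Sum.elim N.c fun k => (N.l k : ℂ_[p])) (by
      rintro (i | k)
      · exact N.calg i
      · exact N.lalg k)
  obtain ⟨O, _, _, Dc, hv⟩ := hK.dec
  have := Dc.pc
  choose l' hl using fun k => hv (N.l k) (hm (.inr k))
  obtain ⟨f', hf1, hf2⟩ := dec_lift Dc.val hv (N.nul.pnul D.supp) fun T => by
    rw [N.nul.coe_zcf D.supp]
    exact mul_mem (hK.qp _) (prod_mem fun i _ => zpow_mem (hm (.inl i)) _)
  have hV : PNul p fun T => (C (f' T) * VS (p := p) N.g l' 0 T : PS ((ι × Fin t) ⊕ J) O) :=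
    (hf1.map C).mul_right _
  have ha : ∀ n x, (p : ℤ_[p]) ∣ Sum.elim (N.a n) (N.s n) x := by
    rintro n (x | x)
    · exact N.ha n x
    · exact N.hs n x
  obtain ⟨A, _, _, An, _, _, G, x, xn, hx⟩ := exists_def hU N.root hω
  have h1 := G.gv1 Dc hV ha (x := x) (xn := xn) (by
    filter_upwards [hx, N.eq] with n h1 h2
    refine ⟨h1.1, psum_oc.2 ?_⟩
    have h3 := ((D.nul n).summable' D.supp).hasSum
    rw [D.van n] at h3
    have e : (fun T => ((jw p (G.ε n (xn n T)) * Dc.val (evz O (Sum.elim (N.a n) (N.s n))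
        (C (f' T) * VS (p := p) N.g l' 0 T)) : OC p) : ℂ_[p])) =
        fun T => UAP.zp p (D.a T) * mon (D.q n) T := by
      funext T
      rw [MulMemClass.coe_mul, h1.2.1, pb2_ev D N Dc.val hl hf2, mul_left_comm, ← mon_mul]
      simp only [← mul_assoc, ← h2]
    rw [e]
    exact h3)
  obtain ⟨n, h2, ⟨-, -, ε, hε, hl0, h3⟩, h4⟩ := (h1.and (hx.and N.eq)).exists
  have := D.finE
  obtain ⟨E1, _, -, hE, -⟩ := exists_field (ι := ι ⊕ ι) D.E (y := Sum.elim (D.q n) (N.ω n)) (by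
    rintro (i | i)
    · exact D.alg n i
    · obtain ⟨r, h5, h6⟩ := N.root n i
      have hr0 : 0 < r := Nat.pos_of_ne_zero (by rintro rfl; exact h5 (dvd_zero p))
      refine IsAlgebraic.of_pow hr0 ?_
      rw [Sum.elim_inr, h6]
      exact isAlgebraic_one)
  obtain ⟨σ, f, hf, hσ, hfix⟩ := bg_frob E1
  obtain ⟨c, hc, h5⟩ := (D.nul n).line_tors D.supp hε hl0 hf fun k => by
    have hτ := hσ.pow k
    have hfk : ∀ a ∈ E1, (σ ^ k) a = a := fun a h => by
      rw [RingHom.coe_pow]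
      exact Function.iterate_fixed (hfix a h) k
    obtain ⟨Λ, h6, h7⟩ := h3 (k * f)
    have h8 := psum_oc.1 (h2 Λ ((resO _ hτ.iso).comp Dc.val) fun w => by
      rw [h6, RingHom.comp_apply, Dc.alg, frob_jw hτ])
    refine HasSum.tsum_eq ?_
    have h9 : ∀ i, N.ω n i ^ p ^ (k * f) = N.ω n i := fun i => by
      obtain ⟨r, h5, h6⟩ := N.root n i
      exact pb2_root hτ h5 h6 (hfk _ (hE (.inr i)))
    have h10 : ∀ i, N.ω n i * (σ ^ k) (N.c i * VP N.g N.l (N.a n) (N.s n) i) = D.q n i :=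
      fun i => by
      have e1 : (σ ^ k) (N.ω n i) = N.ω n i := hfk _ (hE (.inr i))
      have e2 : (σ ^ k) (D.q n i) = D.q n i := hfk _ (hE (.inl i))
      rw [← e2, h4 i, mul_assoc, map_mul (σ ^ k) (N.ω n i), e1]
    have e : (fun T => UAP.zp p (D.a T) * mon (D.q n) T *
        mon (fun i => (ε i : ℂ_[p]) ^ p ^ (f * k)) T) =
        fun T => ((Λ (xn n T) * ((resO _ hτ.iso).comp Dc.val) (evz O (Sum.elim (N.a n) (N.s n))
          (C (f' T) * VS (p := p) N.g l' 0 T)) : OC p) : ℂ_[p]) := by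
      funext T
      rw [MulMemClass.coe_mul, h7, RingHom.comp_apply, coe_resO, pb2_ev D N Dc.val hl hf2, map_mul,
        iso_zp hτ.iso, map_mon, mul_left_comm, ← mon_mul, mul_assoc, ← mon_mul]
      congr 2
      funext i
      rw [mul_pow, h9, ← h10, Nat.mul_comm f k]
      ring
    rw [e]
    exact h8
  exact ⟨n, (D.nul n).pout_line D.supp hr hρ hc h5⟩

end Pool.Agent.E7
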