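import Pool.Agent.Lib.MP_7e5527_ag.EF.PSt
import Pool.Agent.Lib.MP_7e5527_ag.E7.PMon

/-! Valuation vectors in a polyhedral cone. -/

open Filter Topology

noncomputable section

namespace Pool.Agent.E7

variable {ι : Type} [Fintype ι] [DecidableEq ι] {Co : Cone ι}

/-- A common denominator. -/
theorem pspl_den {α : Type} [Fintype α] (x : α → ℚ) :
    ∃ d : ℕ, 0 < d ∧ ∀ a, ∃ z : ℤ, (z : ℚ) = d * x a := by
  classical
  refine ⟨∏ a, (x a).den, Finset.prod_pos fun a _ => (x a).den_pos, fun a => ?_⟩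
  obtain ⟨c, hc⟩ := Finset.dvd_prod_of_mem (fun a => (x a).den) (Finset.mem_univ a)
  refine ⟨c * (x a).num, ?_⟩
  rw [hc]
  push_cast
  rw [← Rat.den_mul_eq_num]
  ring

theorem pspl_frac {μ : ℚ} (h : 0 ≤ μ) :
    ∃ k : ℕ, 0 ≤ μ - k ∧ μ - k ≤ 1 ∧ (0 < μ → 0 < μ - k) := by
  rcases h.eq_or_lt with h0 | h0
  · exact ⟨0, by simp [← h0], by simp [← h0], fun h1 => absurd h0 h1.ne⟩
  · obtain ⟨k, hk⟩ := Nat.exists_eq_succ_of_ne_zero (Nat.ceil_pos.2 h0).ne'
    have h1 := Nat.le_ceil μ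
    have h2 := Nat.ceil_lt_add_one h
    rw [hk] at h1 h2
    push_cast at h1 h2
    exact ⟨k, by linarith, by linarith, fun _ => by linarith⟩

omit [DecidableEq ι] in
theorem pspl_fin (b : ι → ℤ) {e : ℕ} (he : 0 < e) :
    {R : ι → ℚ | ∀ i, |R i| ≤ b i ∧ ∃ z : ℤ, (e : ℚ) * R i = z}.Finite := by
  have he' : (0 : ℚ) < e := by exact_mod_cast he
  refine (Set.Finite.pi' fun i =>
    (Set.finite_Icc (-(e * b i)) (e * b i)).image fun z : ℤ => (z : ℚ) / e).subset fun R hR i => ?_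
  obtain ⟨h1, z, hz⟩ := hR i
  refine ⟨z, ?_, ?_⟩
  · have h2 : |(z : ℚ)| ≤ e * b i := by
      rw [← hz, abs_mul, abs_of_pos he']
      exact mul_le_mul_of_nonneg_left h1 he'.le
    exact abs_le.1 (by exact_mod_cast h2)
  · simp only [← hz]
    field_simp

omit [DecidableEq ι] in
theorem pspl_ip {J : Type} [Fintype J] (T : ι → ℤ) (θ : J → ℚ) (g : J → ι → ℤ) :
    ip T (fun i => ∑ j, θ j * g j i) = ∑ j, θ j * (ipZ T (g j) : ℚ) := by
  simp only [ip, ipZ, Finset.mul_sum, Int.cast_sum, Int.cast_mul]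
  rw [Finset.sum_comm]
  exact Finset.sum_congr rfl fun j _ => Finset.sum_congr rfl fun i _ => by ring

/-- Integral generators; `none` is the interior one. -/
theorem Cone.Poly.int (h : Co.Poly) : ∃ (J : Type) (_ : Fintype J) (g : Option J → ι → ℤ),
    (∀ j, ∀ T ∈ Co.Lp, 0 ≤ ipZ T (g j)) ∧
    (∀ B : ℤ, {T | T ∈ Co.Lp ∧ ipZ T (g none) ≤ B}.Finite) ∧
    ∀ y ∈ Co.Sg, ∃ μ : Option J → ℚ, 0 < μ none ∧ (∀ j, 0 ≤ μ j) ∧
      ∀ i, y i = ∑ j, μ j * g j i := by
  obtain ⟨J, _, Y0, Y, h0, hY, hS⟩ := h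
  obtain ⟨d, hd, hz⟩ := pspl_den fun a : Option J × ι => (a.1.elim Y0 Y) a.2
  choose z hz using hz
  have hd' : (0 : ℚ) < d := by exact_mod_cast hd
  have hi : ∀ j T, (ipZ T (fun i => z (j, i)) : ℚ) = d * ip T (j.elim Y0 Y) := fun j T => by
    simp only [ipZ_cast, ip, hz, Finset.mul_sum]
    exact Finset.sum_congr rfl fun i _ => by ring
  refine ⟨J, inferInstance, fun j i => z (j, i), fun j T hT => ?_, fun B => ?_, fun y hy => ?_⟩
  · have h1 : 0 ≤ ip T (j.elim Y0 Y) := by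
      cases j with
      | none => exact Co.ip_nonneg h0 hT
      | some j => exact hY j T hT
    have h2 := mul_nonneg hd'.le h1
    rw [← hi] at h2
    exact_mod_cast h2
  · refine (Co.fin Y0 h0 (B / d)).subset fun T hT => ⟨hT.1, ?_⟩
    have h1 : (ipZ T (fun i => z (none, i)) : ℚ) ≤ B := by exact_mod_cast hT.2
    rw [hi] at h1
    rw [le_div_iff₀ hd', mul_comm]
    exact h1
  · obtain ⟨l, m, hl, hm, rfl⟩ := hS y hy
    refine ⟨fun j => j.elim l m / d, div_pos hl hd', fun j => div_nonneg ?_ hd'.le, fun i => ?_⟩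
    · cases j with
      | none => exact hl.le
      | some j => exact hm j
    · simp only [hz, Fintype.sum_option, Option.elim, Pi.add_apply, Pi.smul_apply,
        Finset.sum_apply, smul_eq_mul]
      have h1 : ∀ u v : ℚ, u / d * (d * v) = u * v := fun u v => by field_simp
      simp only [h1]

/-- Take integer parts (`⌈μ none⌉ - 1` and `⌊μ j⌋`); the remainders lie in a finite set. Replace
`g j` by zero when the integer part vanishes for most `n`. -/
theorem Cone.Poly.split (h : Co.Poly) (U : Ultrafilter ℕ) {y : ℕ → ι → ℚ} (hy : ∀ n, y n ∈ Co.Sg)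
    {e : ℕ} (he : 0 < e) (hz : ∀ n i, ∃ z : ℤ, (e : ℚ) * y n i = z) :
    ∃ (J : Type) (_ : Fintype J) (g : J → ι → ℤ) (R : ι → ℚ) (k : ℕ → J → ℕ),
      (∀ j, ∀ T ∈ Co.Lp, 0 ≤ ipZ T (g j)) ∧ (∀ T ∈ Co.Lp, 0 ≤ ip T R) ∧
      (∀ B : ℚ, {T | T ∈ Co.Lp ∧ ip T R ≤ B}.Finite) ∧ (∀ n j, 0 < k n j) ∧
      ∀ᶠ n in (U : Filter ℕ), ∀ i, y n i = R i + ∑ j, (k n j : ℚ) * g j i := by
  classical
  obtain ⟨J, _, g, hg, hf, hS⟩ := h.int
  choose μ h0 h1 hμ using fun n => hS (y n) (hy n)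
  choose k k0 k1 k2 using fun n j => pspl_frac (h1 n j)
  set Rn : ℕ → ι → ℚ := fun n i => ∑ j, (μ n j - k n j) * g j i with hRn
  have hyR : ∀ n i, y n i = Rn n i + ∑ j, (k n j : ℚ) * g j i := fun n i => by
    rw [hμ, hRn, ← Finset.sum_add_distrib]
    exact Finset.sum_congr rfl fun j _ => by ring
  have hmem : ∀ n, Rn n ∈ {R : ι → ℚ | ∀ i, |R i| ≤ (∑ j, |g j i| : ℤ) ∧
      ∃ z : ℤ, (e : ℚ) * R i = z} := fun n i => by
    refine ⟨(Finset.abs_sum_le_sum_abs _ _).trans ?_, ?_⟩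
    · push_cast
      refine Finset.sum_le_sum fun j _ => ?_
      rw [abs_mul, abs_of_nonneg (k0 n j)]
      exact mul_le_of_le_one_left (abs_nonneg _) (k1 n j)
    · obtain ⟨z, hz⟩ := hz n i
      refine ⟨z - e * ∑ j, k n j * g j i, ?_⟩
      push_cast
      rw [← hz, hyR]
      ring
  obtain ⟨R, -, hR⟩ := (U.map Rn).eq_pure_of_finite_mem (pspl_fin (fun i => ∑ j, |g j i|) he)
    (Ultrafilter.mem_map.2 (univ_mem' hmem))
  have hU : ∀ᶠ n in (U : Filter ℕ), Rn n = R := by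
    have h2 : ({R} : Set (ι → ℚ)) ∈ U.map Rn := by
      rw [hR]
      exact Ultrafilter.mem_pure.2 rfl
    exact h2
  obtain ⟨n0, hn0⟩ := hU.exists
  have hip : ∀ T, ip T R = ∑ j, (μ n0 j - k n0 j) * (ipZ T (g j) : ℚ) := fun T => by
    rw [← hn0, hRn]
    exact pspl_ip T _ g
  have hnn : ∀ T ∈ Co.Lp, ∀ j, 0 ≤ (μ n0 j - k n0 j) * (ipZ T (g j) : ℚ) := fun T hT j =>
    mul_nonneg (k0 n0 j) (by exact_mod_cast hg j T hT)
  refine ⟨Option J, inferInstance, fun j => if ∀ᶠ n in (U : Filter ℕ), k n j = 0 then 0 else g j,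
    R, fun n j => max (k n j) 1, fun j T hT => ?_, fun T hT => ?_, fun B => ?_,
    fun n j => lt_max_of_lt_right one_pos, ?_⟩
  · dsimp only
    split_ifs
    · simp [ipZ]
    · exact hg j T hT
  · rw [hip]
    exact Finset.sum_nonneg fun j _ => hnn T hT j
  · have hθ := k2 n0 none (h0 n0)
    refine (hf ⌈B / (μ n0 none - k n0 none)⌉).subset fun T hT => ⟨hT.1, ?_⟩
    have h2 := Finset.single_le_sum (fun j _ => hnn T hT.1 j) (Finset.mem_univ none)
    rw [← hip] at h2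
    have h3 : (ipZ T (g none) : ℚ) ≤ B / (μ n0 none - k n0 none) := by
      rw [le_div_iff₀ hθ, mul_comm]
      exact h2.trans hT.2
    exact_mod_cast h3.trans (Int.le_ceil _)
  · have h2 : ∀ᶠ n in (U : Filter ℕ), ∀ j i, ((max (k n j) 1 : ℕ) : ℚ) *
        ((if ∀ᶠ n in (U : Filter ℕ), k n j = 0 then 0 else g j) i : ℤ) = k n j * g j i := by
      refine eventually_all.2 fun j => ?_
      by_cases hj : ∀ᶠ n in (U : Filter ℕ), k n j = 0
      · filter_upwards [hj] with n hn i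
        simp [if_pos hj, hn]
      · filter_upwards [Ultrafilter.eventually_not.2 hj] with n hn i
        rw [if_neg hj, max_eq_left (Nat.one_le_iff_ne_zero.2 hn)]
    filter_upwards [hU, h2] with n hn hn' i
    simp only [hn']
    rw [← hn]
    exact hyR n i

end Pool.Agent.E7
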