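import Pool.Agent.Lib.MP_7e5527_ag.EF.PNa
import Pool.Agent.Lib.MP_7e5527_ag.EF.PSpl

/-! Existence of the normal form. -/

open MvPowerSeries Filter Topology

noncomputable section

namespace Pool.Agent.E7

variable {ι : Type} [Fintype ι] [DecidableEq ι] {p : ℕ} [Fact p.Prime] {Co : Cone ι} {κ : Type}

theorem pnf_add {y y' : OC p} (h : ‖(y : ℂ_[p])‖ < 1) (h' : ‖(y' : ℂ_[p])‖ < 1) :
    exo p (y + y') = exo p y * exo p y' :=
  exo_add (Sm.ev (Fin.forall_fin_two.2 ⟨h, h'⟩))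

/-- `par` for a finite family among the `lg (u n i)` that spans them all; rebase at one index. -/
theorem par_alg (U : Ultrafilter ℕ) {V : Submodule ℚ_[p] ℂ_[p]} [FiniteDimensional ℚ_[p] V]
    {u : ℕ → ι → OC p} (hu : ∀ n, N1 (u n)) (ha : ∀ n i, IsAlgebraic ℚ_[p] (u n i : ℂ_[p]))
    {r : ℝ} (hr : r < 1) {b : ℕ}
    (h1 : ∀ᶠ n in (U : Filter ℕ), ∀ i, ‖(u n i : ℂ_[p]) ^ p ^ b - 1‖ ≤ r)
    (h2 : ∀ n i, lgo (u n) i ∈ V) : ∃ (t n1 : ℕ) (l : Fin t → OC p) (a : ℕ → ι × Fin t → ℤ_[p]),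
      t ≤ Module.finrank ℚ_[p] V ∧ (∀ k, IsAlgebraic ℚ_[p] (l k : ℂ_[p])) ∧
      (∀ n x, (p : ℤ_[p]) ∣ a n x) ∧ ∀ᶠ n in (U : Filter ℕ), ∀ i,
        u n i = u n1 i * exo p (∑ k, zc p (OC p) (a n (i, k)) * l k) := by
  have hW : Submodule.span ℚ_[p] (Set.range fun x : ℕ × ι => lgo (u x.1) x.2) ≤ V :=
    Submodule.span_le.2 (Set.range_subset_iff.2 fun x => h2 x.1 x.2)
  obtain ⟨m, L, hL⟩ := Submodule.fg_iff_exists_fin_generating_family.1
    ((Submodule.fg_iff_finiteDimensional _).2 (Submodule.finiteDimensional_of_le hW))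
  obtain ⟨t, l, w, a, f, h3, h4, -, -, h5, h6⟩ := par U L hu hr h1
    (.of_forall fun n i => hL ▸ Submodule.subset_span ⟨(n, i), rfl⟩)
  rw [hL] at h4
  obtain ⟨n1, h7⟩ := h6.exists
  have h8 : ∀ n x, (p : ℤ_[p]) ∣ (a n - a n1) x := fun n x => dvd_sub (h5 n x) (h5 n1 x)
  refine ⟨t, n1, l, fun n => a n - a n1, ?_, fun k => ?_, h8, h6.mono fun n hn i => ?_⟩
  · simpa using (LinearIndependent.of_comp V.subtype
      (v := fun k => (⟨l k, hW (h4 k)⟩ : V)) h3).fintype_card_le_finrank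
  · refine Submodule.span_induction (p := fun y _ => IsAlgebraic ℚ_[p] y) ?_ isAlgebraic_zero
      (fun _ _ _ _ => IsAlgebraic.add) (fun c _ _ h => h.smul c) (h4 k)
    rintro _ ⟨x, rfl⟩
    exact lg_alg (hu x.1 x.2) (ha x.1 x.2)
  · have e := pnf_add (vp_sm (h5 n1) l i) (vp_sm (h8 n) l i)
    beta_reduce at e
    rw [(hn i).1, (h7 i).1, mul_assoc, ← e, ← Finset.sum_add_distrib]
    simp only [Pi.sub_apply, map_sub, ← add_mul, add_sub_cancel]

theorem pnf_div {Lg : ℂ_[p] → ℂ_[p]} (h : IsLog Lg) {x y : ℂ_[p]} (hx : x ≠ 0) (hy : y ≠ 0) :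
    Lg (x / y) = Lg x - Lg y := by
  rw [eq_sub_iff_add_eq, ← h _ _ (div_ne_zero hx hy) hy, div_mul_cancel₀ _ hy]

/-- `Cone.Poly.split`; `c = q n0 / ∏ p ^ (k n0 j * g j)`; `unit_dec` for
`q n / (c * ∏ p ^ (k n j * g j))`; the logarithms lie in the span of `L` and `Lg p`. -/
theorem PD.nf [Fintype κ] (hC : Co.Poly) (D : PD p Co κ) (U : Ultrafilter ℕ) {w0 : ℕ}
    (hw : 0 < w0) (h : ∀ n c, Good D.E (D.q n) c → ∀ i, c i ^ w0 = 1) :
    ∃ (t : ℕ) (J : Type) (_ : Fintype J), t ≤ Fintype.card κ + 1 ∧ Nonempty (NF Co U D.q t J) := by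
  classical
  have hp : p.Prime := Fact.out
  have p0 : (p : ℂ_[p]) ≠ 0 := av1_ne
  have p1 : (0 : ℝ) < p := Nat.cast_pos.2 hp.pos
  obtain ⟨e, he, hz⟩ := D.den hw h
  obtain ⟨J, _, g, R, k, g0, R0, Rf, k0, hev⟩ := hC.split U D.sg he hz
  obtain ⟨n0, hn0⟩ := hev.exists
  let ν : ℕ → ℕ := fun n => if ∀ i, D.y n i = R i + ∑ j, (k n j : ℚ) * g j i then n else n0
  let z : ℕ → ι → ℤ := fun n i => ∑ j, g j i * k n j
  let d : ℕ → ι → ℂ_[p] := fun n i => D.q n i / (p : ℂ_[p]) ^ z n i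
  have hd : ∀ n, (∀ i, D.y n i = R i + ∑ j, (k n j : ℚ) * g j i) → Pt p (d n) R := fun n hn i => by
    rw [norm_div, D.pt n i, hn i, norm_zpow, UAP.norm_p_eq, inv_zpow', ← Real.rpow_intCast,
      ← Real.rpow_sub p1]
    simp [z, mul_comm]
  have hν : ∀ n, Pt p (d (ν n)) R := fun n => hd _ (by
    simp only [ν]
    split_ifs with c
    exacts [c, hn0])
  have q0 : ∀ n i, D.q n i ≠ 0 := fun n => (D.nul n).ne
  have z0 : ∀ n i, (p : ℂ_[p]) ^ z n i ≠ 0 := fun n i => zpow_ne_zero _ p0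
  have d0 : ∀ n i, d n i ≠ 0 := fun n i => div_ne_zero (q0 n i) (z0 n i)
  have hx : ∀ n i, ‖d (ν n) i / d n0 i‖ = 1 := fun n i => by
    rw [norm_div, hν, hd n0 hn0, div_self (Real.rpow_pos_of_pos p1 _).ne']
  choose ω u hω hu hxu using fun n i => unit_dec (hx n i)
  have ω1 : ∀ n i, ‖ω n i‖ = 1 := fun n i => (hω n i).elim fun r hr => (root_jw hr.1 hr.2).1
  have ω0 : ∀ n i, ω n i ≠ 0 := fun n i => norm_ne_zero_iff.1 (ω1 n i ▸ one_ne_zero)
  have eu : ∀ n i, (u n i : ℂ_[p]) = d (ν n) i / d n0 i / ω n i := fun n i => by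
    rw [hxu, mul_div_cancel_left₀ _ (ω0 n i)]
  let A := algebraicClosure ℚ_[p] ℂ_[p]
  have dA : ∀ n i, d n i ∈ A := fun n i =>
    div_mem (mem_algebraicClosure_iff.2 (D.alg n i)) (zpow_mem (natCast_mem A p) _)
  have uA : ∀ n i, (u n i : ℂ_[p]) ∈ A := fun n i => by
    obtain ⟨r, h1, h2⟩ := hω n i
    rw [eu]
    exact div_mem (div_mem (dA _ i) (dA _ i)) (mem_algebraicClosure_iff.2 (IsAlgebraic.of_pow
      (n := r) (Nat.pos_of_ne_zero fun c => h1 (c ▸ dvd_zero p)) (h2 ▸ isAlgebraic_one)))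
  obtain ⟨K, hK, K1, K2, K3⟩ := D.dvf h fun i => mem_algebraicClosure_iff.1 (dA n0 i)
  obtain ⟨r, b, hr, hb⟩ := hK.near hw
  obtain ⟨Lg, hL, hL'⟩ := exists_Lg p
  obtain ⟨L, hq⟩ := D.lgr Lg hL
  let L' : Option κ → ℂ_[p] := fun o => o.elim (Lg p) L
  let V := Submodule.span ℚ_[p] (Set.range L')
  have : FiniteDimensional ℚ_[p] V := FiniteDimensional.span_of_finite ℚ_[p] (Set.finite_range L')
  have dV : ∀ n i, Lg (d n i) ∈ V := fun n i => by
    rw [pnf_div hL (q0 n i) (z0 n i), hL.zpow p0, ← zsmul_eq_mul]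
    exact sub_mem (Submodule.span_mono (Set.range_comp_subset_range some L') (hq n i))
      (zsmul_mem (Submodule.subset_span (Set.mem_range_self (f := L') none)) _)
  obtain ⟨t, n1, l, a, ht, hl, ha, hua⟩ := par_alg U (V := V) (u := u) hu
    (fun n i => mem_algebraicClosure_iff.1 (uA n i)) hr (b := b)
    (.of_forall fun n i => hb _ (hu n i) (by
      obtain ⟨r, h1, h2⟩ := hω n i
      rw [eu, div_pow, div_pow, div_pow]
      exact div_mem (div_mem (div_mem (K3 _ i) (pow_mem (zpow_mem (natCast_mem K p) _) _))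
        (pow_mem (K1 i) _)) (pow_mem (K2 _ r h1 h2) _)))
    fun n i => by
      obtain ⟨r, h1, h2⟩ := hω n i
      have h3 := hL.zpow (ω0 n i) r
      rw [zpow_natCast, h2, hL.one, eq_comm, mul_eq_zero, Int.cast_natCast, Nat.cast_eq_zero] at h3
      rw [lgo, tendsto_nhds_unique (lg_spec (hu n i)) (hL' _ (hu n i)), eu,
        pnf_div hL (div_ne_zero (d0 _ i) (d0 _ i)) (ω0 n i), pnf_div hL (d0 _ i) (d0 _ i),
        h3.resolve_left fun c => h1 (c ▸ dvd_zero p), sub_zero]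
      exact sub_mem (dV _ i) (dV _ i)
  refine ⟨t, J, inferInstance, ht.trans ((finrank_range_le_card L').trans_eq Fintype.card_option),
    ⟨⟨g, fun i => d n0 i * u n1 i, l, a, fun n j => (p : ℤ_[p]) ^ k n j, ω, g0,
      ((hd n0 hn0).nul R0 Rf).of_norm fun i => ?_,
      fun i => mem_algebraicClosure_iff.1 (mul_mem (dA n0 i) (uA n1 i)), hl, ha,
      fun n j => dvd_pow_self _ (k0 n j).ne',
      fun n j => pow_ne_zero _ (Nat.cast_ne_zero.2 hp.ne_zero), hω, ?_⟩⟩⟩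
  · rw [norm_mul, eu, norm_div _ (ω n1 i), hx, ω1, div_one, mul_one]
  · filter_upwards [hev, hua] with n h1 h2 i
    have h3 := hxu n i
    have h4 : ∏ j, UAP.zp p ((p : ℤ_[p]) ^ k n j) ^ g j i = (p : ℂ_[p]) ^ z n i := by
      simp only [map_pow, map_natCast]
      simpa only [mon, zpow_natCast, ipZ] using mon_zpow p0 (fun j => k n j) fun j => g j i
    rw [show ν n = n from if_pos h1, div_eq_iff (d0 _ i), div_eq_iff (z0 n i), h2 i] at h3
    rw [h3, VP, h4]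
    push_cast
    ring

end Pool.Agent.E7
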