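import Pool.Agent.Lib.MP_7e5527_ag.EF.PCa
import Pool.Agent.Lib.MP_7e5527_ag.EF.PB1
import Pool.Agent.Lib.MP_7e5527_ag.EF.PB2
import Pool.Agent.Lib.MP_7e5527_ag.EF.PNF

/-! The `p`-adic core. -/

open MvPowerSeries Filter Topology

noncomputable section

namespace Pool.Agent.E7

variable {ι : Type} [Fintype ι] [DecidableEq ι] {p : ℕ} [Fact p.Prime] {Co : Cone ι} {κ : Type}
  {m : ℕ} {ρ : Fin m → ℂ_[p] →+* ℂ_[p]}

omit [DecidableEq ι] in
theorem POut.mono {r r' : ℕ} {q : ι → ℂ_[p]} {a : (ι → ℤ) → ℤ_[p]} (h : POut r ρ q a)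
    (hr : r ≤ r') : POut r' ρ q a := by
  obtain ⟨z, h1, h2, h3, h4⟩ := h
  exact ⟨z, h1, h2, h3.mono hr, h4⟩

theorem pcore [Fintype κ] (hC : Co.Poly) (D : PD p Co κ) (hm : 0 < m) (hρ : ∀ i, UAP.Iso (ρ i)) :
    ∃ n, POut (Fintype.card ι * (Fintype.card κ + 2)) ρ (D.q n) D.a := by
  have hι : 0 < Fintype.card ι := by
    refine Nat.pos_of_ne_zero fun h0 => ?_
    have := Fintype.card_eq_zero_iff.1 h0
    refine Set.infinite_univ ((D.fib (D.q 0)).subset fun n _ => ?_)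
    exact Subsingleton.elim _ _
  have hr : 0 < Fintype.card ι * (Fintype.card κ + 2) := Nat.mul_pos hι (by omega)
  by_cases hw : ∃ w0 : ℕ, 0 < w0 ∧ ∀ n c, Good D.E (D.q n) c → ∀ i, c i ^ w0 = 1
  · obtain ⟨w0, h0, h⟩ := hw
    obtain ⟨t, J, _, ht, ⟨N⟩⟩ := D.nf hC (hyperfilter ℕ) h0 h
    by_cases hω : ∃ ω0, ∀ᶠ n in (hyperfilter ℕ : Filter ℕ), N.ω n = ω0
    · obtain ⟨ω0, hω⟩ := hω
      obtain ⟨n, hn⟩ := pcaseB1 hyperfilter_le_cofinite D N hω hm hρ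
      exact ⟨n, hn.mono (Nat.mul_le_mul_left _ (by omega))⟩
    · exact pcaseB2 hyperfilter_le_cofinite D N (not_exists.1 hω) hr hρ
  · push Not at hw
    choose f c hg hc using fun k : ℕ => hw k.factorial k.factorial_pos
    exact pcaseA hC D f c hg hc hr hρ

end Pool.Agent.E7
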