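import Mathlib

/-! A compact subset of an open set lies in a rational polyhedral cone. -/

open Filter Topology

namespace Pool.Agent.E7

/-- Grid points: `x = (1 - ∑ k, w k) • x0 + ∑ k, w k • (x0 + (card / M) • e k)` with
`x0 = ⌊M x⌋ / M`. -/
theorem cpt_cone {ι : Type} [Fintype ι] {K O : Set (ι → ℝ)} (hK : IsCompact K) (hO : IsOpen O)
    (h : K ⊆ O) : ∃ F : Finset (ι → ℚ), (∀ v ∈ F, (fun i => (v i : ℝ)) ∈ O) ∧
      ∀ x : ι → ℚ, (fun i => (x i : ℝ)) ∈ K → ∃ w : (ι → ℚ) → ℚ, (∀ v, 0 ≤ w v) ∧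
        x = ∑ v ∈ F, w v • v := by
  classical
  obtain ⟨δ, hδ, hth⟩ := hK.exists_thickening_subset_open hO h
  obtain ⟨R, hR⟩ := hK.isBounded.exists_norm_le
  set N : ℕ := Fintype.card ι + 1 with hN
  have hN0 : (0 : ℚ) < N := by exact_mod_cast Nat.succ_pos _
  obtain ⟨M, hM⟩ := exists_nat_gt ((N + 1 : ℝ) / δ)
  have hM0 : (0 : ℝ) < M := lt_trans (by positivity) hM
  have hMq : (0 : ℚ) < M := by exact_mod_cast hM0
  let p : (ι → ℤ) → Option ι → ι → ℚ := fun z j i => (z i + if j = some i then (N : ℚ) else 0) / M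
  let Z : Finset (ι → ℤ) := (Finset.Icc (fun _ => ⌊-(M * R)⌋) fun _ => ⌊M * R⌋).filter
    fun z => ∃ y ∈ K, ∀ i, z i = ⌊M * y i⌋
  refine ⟨(Z ×ˢ Finset.univ).image fun a => p a.1 a.2, fun v hv => ?_, fun x hx => ?_⟩
  · obtain ⟨⟨z, j⟩, ha, rfl⟩ := Finset.mem_image.1 hv
    obtain ⟨y, hy, hz⟩ := (Finset.mem_filter.1 (Finset.mem_product.1 ha).1).2
    refine hth (Metric.mem_thickening_iff.2 ⟨y, hy, (dist_pi_lt_iff hδ).2 fun i => ?_⟩)
    have h1 := Int.floor_le (M * y i)
    have h2 := Int.lt_floor_add_one (M * y i)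
    have h3 : (N + 1 : ℝ) < δ * M := by rwa [div_lt_iff₀ hδ, mul_comm] at hM
    have h4 : (0 : ℝ) ≤ N := Nat.cast_nonneg _
    have e : ((p z j i : ℚ) : ℝ) - y i =
        (⌊M * y i⌋ + (if j = some i then (N : ℝ) else 0) - M * y i) / M := by
      simp only [p, show z i = _ from hz i]
      split_ifs <;> push_cast <;> field_simp
    rw [Real.dist_eq, e, abs_div, abs_of_pos hM0, div_lt_iff₀ hM0, abs_lt]
    split_ifs <;> constructor <;> linarith
  · let z : ι → ℤ := fun i => ⌊(M : ℚ) * x i⌋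
    have hz : ∀ i, z i = ⌊(M : ℝ) * (x i : ℝ)⌋ := fun i => by
      rw [show (M : ℝ) * (x i : ℝ) = (((M : ℚ) * x i : ℚ) : ℝ) by push_cast; rfl, Rat.floor_cast]
    have hZ : z ∈ Z := by
      have hb : ∀ i, |(x i : ℝ)| ≤ R := fun i =>
        (norm_le_pi_norm (fun i => (x i : ℝ)) i).trans (hR _ hx)
      refine Finset.mem_filter.2 ⟨Finset.mem_Icc.2 ⟨fun i => ?_, fun i => ?_⟩, _, hx, hz⟩
      · rw [hz i]
        exact Int.floor_le_floor (by nlinarith [(abs_le.1 (hb i)).1])
      · rw [hz i]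
        exact Int.floor_le_floor (by nlinarith [(abs_le.1 (hb i)).2])
    let r : ι → ℚ := fun i => (M * x i - z i) / N
    have hr0 : ∀ i, 0 ≤ r i := fun i => div_nonneg (sub_nonneg.2 (Int.floor_le _)) hN0.le
    have hr1 : ∑ i, r i ≤ 1 := by
      refine (Finset.sum_le_card_nsmul _ _ (1 / (N : ℚ)) fun i _ => ?_).trans ?_
      · exact div_le_div_of_nonneg_right (by linarith [Int.lt_floor_add_one ((M : ℚ) * x i)])
          hN0.le
      · rw [Finset.card_univ, nsmul_eq_mul, mul_one_div, div_le_one hN0, hN]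
        push_cast
        linarith
    let c : Option ι → ℚ := fun j => j.elim (1 - ∑ i, r i) r
    refine ⟨fun v => ∑ j ∈ Finset.univ.filter fun j => p z j = v, c j,
      fun v => Finset.sum_nonneg fun j _ => ?_, ?_⟩
    · cases j with
      | none => exact sub_nonneg.2 hr1
      | some i => exact hr0 i
    have e : ∑ v ∈ (Z ×ˢ Finset.univ).image fun a => p a.1 a.2,
        (∑ j ∈ Finset.univ.filter fun j => p z j = v, c j) • v = ∑ j, c j • p z j := by
      rw [← Finset.sum_fiberwise_of_maps_to (s := Finset.univ) (g := p z)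
        (t := (Z ×ˢ Finset.univ).image fun a => p a.1 a.2)
        fun j _ => Finset.mem_image.2 ⟨(z, j), Finset.mem_product.2 ⟨hZ, Finset.mem_univ _⟩, rfl⟩]
      refine Finset.sum_congr rfl fun v _ => ?_
      rw [Finset.sum_smul]
      exact Finset.sum_congr rfl fun j hj => by rw [(Finset.mem_filter.1 hj).2]
    rw [e]
    funext i
    have e2 : ∀ k, r k * p z (some k) i = r k * (z i / M) + if k = i then r i * N / M else 0 :=
      fun k => by
        simp only [p, Option.some.injEq]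
        split_ifs with hk
        · rw [hk]
          ring
        · ring
    simp only [Finset.sum_apply, Fintype.sum_option, Pi.smul_apply, smul_eq_mul, c, Option.elim,
      e2, Finset.sum_add_distrib, ← Finset.sum_mul, Finset.sum_ite_eq', Finset.mem_univ, if_true]
    simp only [p, r, reduceCtorEq, if_false]
    field_simp
    ring

end Pool.Agent.E7
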