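import Pool.Agent.Lib.MP_7e5527_ag.EF.PSt
import Pool.Agent.Lib.MP_7e5527_ag.EF.PCpt
import Pool.Agent.Lib.MP_7e5527_ag.E7.ConeI

/-! The Siegel set lies in a polyhedral cone. -/

open Filter Topology

noncomputable section

namespace Pool.Agent.E7

theorem ppoly_toR (a0 a1 a2 : ℚ) (w0 w1 w2 : Fin 8 → ℚ) : toR ℝ (jac a0 a1 a2 w0 w1 w2) =
    jac (a0 : ℝ) a1 a2 (fun k => w0 k) (fun k => w1 k) fun k => w2 k := by
  have hc : ∀ x : Fin 8 → ℚ, (oconj fun k => (x k : ℝ)) = fun k => ((oconj x k : ℚ) : ℝ) :=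
    oconj_map (Rat.castHom ℝ)
  have hm : ∀ x y : Fin 8 → ℚ, (omul (fun k => (x k : ℝ)) fun k => (y k : ℝ)) =
      fun k => ((omul x y k : ℚ) : ℝ) := omul_map (Rat.castHom ℝ)
  apply jext <;> simp only [dg_toR, oc_toR, dg_jac_0, dg_jac_1, dg_jac_2, cone_oc0, cone_oc1,
    cone_oc2, onorm_cast, hm, hc] <;> first | (funext k; simp) | simp

theorem ppoly_rat {Y : Ix → ℚ} {d0 d1 d2 : ℝ} {u0 u1 u2 : Fin 8 → ℝ}
    (e : toR ℝ Y = jac d0 d1 d2 u0 u1 u2) (h0 : d0 ≠ 0) (h1 : d1 ≠ 0) :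
    ∃ (a0 a1 a2 : ℚ) (w0 w1 w2 : Fin 8 → ℚ), d0 = a0 ∧ d1 = a1 ∧ d2 = a2 ∧
      (u0 = fun k => (w0 k : ℝ)) ∧ (u1 = fun k => (w1 k : ℝ)) ∧ u2 = fun k => (w2 k : ℝ) := by
  have hc : ∀ x : Fin 8 → ℚ, (oconj fun k => (x k : ℝ)) = fun k => ((oconj x k : ℚ) : ℝ) :=
    oconj_map (Rat.castHom ℝ)
  have hm : ∀ x y : Fin 8 → ℚ, (omul (fun k => (x k : ℝ)) fun k => (y k : ℝ)) =
      fun k => ((omul x y k : ℚ) : ℝ) := omul_map (Rat.castHom ℝ)
  have e0 := congrArg (dg · 0) e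
  have e1 := congrArg (dg · 1) e
  have e2 := congrArg (dg · 2) e
  have f0 := congrFun (congrArg (oc · 0) e)
  have f1 := congrFun (congrArg (oc · 1) e)
  have f2 := congrFun (congrArg (oc · 2) e)
  simp only [dg_toR, oc_toR, dg_jac_0, dg_jac_1, dg_jac_2, cone_oc0, cone_oc1, cone_oc2,
    Pi.add_apply, Pi.smul_apply, smul_eq_mul] at e0 e1 e2 f0 f1 f2
  subst e0
  obtain ⟨w1, rfl⟩ : ∃ w : Fin 8 → ℚ, u1 = fun k => (w k : ℝ) :=
    ⟨fun k => oc Y 1 k / dg Y 0, funext fun k => by push_cast; rw [f1]; field_simp⟩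
  obtain ⟨w2, rfl⟩ : ∃ w : Fin 8 → ℚ, u2 = fun k => (w k : ℝ) :=
    ⟨fun k => oc Y 2 k / dg Y 0, funext fun k => by push_cast; rw [f2]; field_simp⟩
  rw [onorm_cast] at e1
  obtain ⟨a1, rfl⟩ : ∃ a : ℚ, d1 = a := ⟨dg Y 1 - dg Y 0 * onorm w2, by push_cast; linarith⟩
  rw [hm, hc] at f0
  obtain ⟨w0, rfl⟩ : ∃ w : Fin 8 → ℚ, u0 = fun k => (w k : ℝ) :=
    ⟨fun k => (oc Y 0 k - dg Y 0 * oconj (omul w1 w2) k) / a1, funext fun k => by
      push_cast; rw [f0]; field_simp; ring⟩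
  rw [onorm_cast, onorm_cast] at e2
  exact ⟨_, a1, dg Y 2 - a1 * onorm w0 - dg Y 0 * onorm w1, w0, w1, w2, rfl, rfl,
    by push_cast; linarith, rfl, rfl, rfl⟩

theorem ppoly_cpt : IsCompact {u : Fin 8 → ℝ | onorm u ≤ 1} := by
  refine (isCompact_univ_pi fun _ => isCompact_Icc (a := (-1 : ℝ)) (b := 1)).of_isClosed_subset
    (isClosed_le (by unfold onorm; fun_prop) continuous_const) fun u hu k _ => ?_
  have : u k ^ 2 ≤ onorm u :=
    Finset.single_le_sum (f := fun k => u k ^ 2) (fun _ _ => sq_nonneg _) (Finset.mem_univ k)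
  exact abs_le.1 ((sq_le_one_iff_abs_le_one _).1 (this.trans hu))

theorem ppoly_cont (d0 d1 d2 : ℝ) : Continuous
    fun u : (Fin 8 → ℝ) × (Fin 8 → ℝ) × (Fin 8 → ℝ) => jac d0 d1 d2 u.1 u.2.1 u.2.2 := by
  have hn : Continuous (onorm : (Fin 8 → ℝ) → ℝ) := by unfold onorm; fun_prop
  have hc : Continuous (oconj : (Fin 8 → ℝ) → _) :=
    continuous_pi fun k => by unfold oconj; split_ifs <;> fun_prop
  have hm : Continuous fun u : (Fin 8 → ℝ) × (Fin 8 → ℝ) => omul u.1 u.2 :=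
    continuous_pi fun k => by
      fin_cases k <;> simp [omul, ofQ, q1, q2] <;> fun_prop
  have hm' := hc.comp (hm.comp (continuous_snd (X := Fin 8 → ℝ)))
  have hj : ∀ (z : _ → Fin 3 → ℝ) (x : _ → Fin 3 → Fin 8 → ℝ), Continuous z → Continuous x →
      Continuous fun u : (Fin 8 → ℝ) × (Fin 8 → ℝ) × (Fin 8 → ℝ) => mkJ (z u) (x u) :=
    fun z x hz hx => continuous_pi fun l => by
      rcases l with i | a <;> simp only [mkJ, Sum.elim_inl, Sum.elim_inr] <;> fun_prop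
  unfold jac v0 v1
  refine (((hj _ _ ?_ ?_).const_smul d0).add ((hj _ _ ?_ ?_).const_smul d1)).add continuous_const
  · fun_prop
  · exact hm'.matrixVecCons (by fun_prop)
  · fun_prop
  · fun_prop

theorem ppoly_eps {v : Ix → ℚ} (h : toR ℝ v ∈ Om) :
    ∃ ε : ℚ, 0 < ε ∧ ∀ T, Psd T → 0 ≤ tr T (v - ε • one3) := by
  obtain ⟨ε, h0, h1⟩ := exists_sub_one3 h
  obtain ⟨q, q0, q1⟩ := exists_rat_btwn h0
  refine ⟨q, by exact_mod_cast q0, fun T hT => ?_⟩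
  have a := hT _ h1
  have b := hT _ one3_mem
  have : (0 : ℝ) ≤ (tr T (v - q • one3) : ℚ) := by
    rw [← tr_toR, toR_sub, toR_smul, toR_one3]
    rw [tr_sub_right, tr_smul_right] at a ⊢
    nlinarith
  exact_mod_cast this

/-- Multiplication by this vector kills the first row and column. -/
def ppoly_c {R : Type} [CommRing R] : Ix → R := mkJ ![0, 1, 1] ![1, 0, 0]

theorem ppoly_mul {R : Type} [CommRing R] (Z : Ix → R) :
    ppoly_c * Z = mkJ ![0, dg Z 1, dg Z 2] ![oc Z 0, 0, 0] := by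
  funext l
  rcases l with i | ⟨i, k⟩ <;> fin_cases i <;> simp [ppoly_c, mkJ, dg, oc]

theorem ppoly_cjac (u : Fin 8 → ℚ) : ppoly_c * jac 1 1 (1 / 8) u 0 0 = jac 0 1 (1 / 8) u 0 0 := by
  rw [ppoly_mul]
  apply jext <;> simp [dg_jac_0, dg_jac_1, dg_jac_2, cone_oc0, cone_oc1, cone_oc2, onorm_zero,
    omul_zero_left, oconj_zero]

theorem ppoly_kill {v T : Ix → ℚ} (h : toR ℝ v ∈ Om) (hT : Psd T) : 0 ≤ tr T (ppoly_c * v) := by
  have e : toR ℝ (ppoly_c * v) = ppoly_c * toR ℝ v := by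
    funext l
    rcases l with i | ⟨i, k⟩ <;> fin_cases i <;> simp [ppoly_c, mkJ, toR]
  have : (0 : ℝ) ≤ (tr T (ppoly_c * v) : ℚ) := by
    rw [← tr_toR, e]
    refine psd_lim (b := tr (toR ℝ T) (ed 0)) fun s hs => ?_
    rw [← tr_smul_right, ← tr_add_right]
    have h1 := mul_pos hs (Om.dg_pos h 1)
    have h2 := mul_pos hs (Om.dg_sharp_pos h 0)
    rw [dg_sharp_0] at h2
    refine hT _ ⟨?_, ?_, ?_⟩ <;>
      simp [ppoly_mul, ed, dg_sharp_2, nrm_eq, onorm_zero, omul_zero_right, oip_zero_left] <;>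
      linarith
  exact_mod_cast this

theorem ppoly_sum {α : Type} (s : Finset α) (Y : α → Ix → ℚ) :
    yc (∑ a ∈ s, Y a) = ∑ a ∈ s, yc (Y a) := by
  funext l
  simp only [yc, tr_sum_right, Finset.sum_apply]

/-- For a rational `Y = jac d0 d1 d2 u0 u1 u2` in `Sieg` the parameters are rational and
`Y = d0 • jac 1 (1/8) (1/64) u0 u1 u2 + (d1 - d0/8) • jac 0 1 (1/8) u0 0 0 + (d2 - d1/8) • ed 2`.
Apply `cpt_cone` to the points `jac 1 (1/8) (1/64) u0 u1 u2 - ε • one3` and to the points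
`jac 1 1 (1/8) u0 0 0`, then kill the first row and column. -/
theorem cone_poly : cone.Poly := by
  classical
  have hC := ppoly_cpt
  obtain ⟨F1, h1, k1⟩ := cpt_cone ((hC.prod (hC.prod hC)).image (ppoly_cont 1 (1 / 8) (1 / 64)))
    isOpen_Om (by
    rintro _ ⟨u, -, rfl⟩
    exact jac_mem one_pos (by norm_num) (by norm_num) _ _ _)
  obtain ⟨F2, h2, k2⟩ := cpt_cone ((hC.prod ((isCompact_singleton (x := 0)).prod
    (isCompact_singleton (x := 0)))).image (ppoly_cont 1 1 (1 / 8))) isOpen_Om (by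
    rintro _ ⟨u, -, rfl⟩
    exact jac_mem one_pos one_pos (by norm_num) _ _ _)
  choose! ε hε hε' using fun v (h : v ∈ F1) => ppoly_eps (h1 v h)
  refine ⟨F1 ⊕ F2 ⊕ Unit, inferInstance, yc one3,
    Sum.elim (fun v => yc (v.1 - ε v.1 • one3))
      (Sum.elim (fun v => yc (ppoly_c * v.1)) fun _ => yc (ed 2)),
    yc_mem_Om.2 (toR_one3 (F := ℝ) ▸ one3_mem), ?_, fun y hy => ?_⟩
  · rintro (v | v | v) T hT <;> simp only [Sum.elim_inl, Sum.elim_inr, ip_yc]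
    · exact hε' v.1 v.2 _ hT
    · exact ppoly_kill (h2 v.1 v.2) hT
    · rw [tr_ed]
      exact Psd.dg_nonneg hT 2
  obtain ⟨d0, d1, d2, u0, u1, u2, p0, p1, p2, n0, n1, n2, e⟩ := hy
  obtain ⟨a0, a1, a2, w0, w1, w2, rfl, rfl, rfl, rfl, rfl, rfl⟩ :=
    ppoly_rat e p0.ne' (by linarith : 0 < d1).ne'
  rw [← ppoly_toR] at e
  obtain ⟨w, hw, eA⟩ := k1 (jac 1 (1 / 8) (1 / 64) w0 w1 w2) ⟨(_, _, _), ⟨n0, n1, n2⟩, by
    have := ppoly_toR 1 (1 / 8) (1 / 64) w0 w1 w2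
    push_cast at this
    exact this.symm⟩
  obtain ⟨z, hz, eB⟩ := k2 (jac 1 1 (1 / 8) w0 0 0) ⟨(_, 0, 0), ⟨n0, rfl, rfl⟩, by
    have := ppoly_toR 1 1 (1 / 8) w0 0 0
    simp only [Pi.zero_apply] at this
    push_cast at this
    exact this.symm⟩
  have q0 : 0 < a0 := by exact_mod_cast p0
  have q1 : a0 ≤ 8 * a1 := by exact_mod_cast p1
  have q2 : a1 ≤ 8 * a2 := by exact_mod_cast p2
  have hl : 0 < ∑ v ∈ F1, w v * ε v := by
    refine Finset.sum_pos' (fun v h => mul_nonneg (hw v) (hε v h).le) ?_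
    by_contra hc
    push Not at hc
    have h0 : jac 1 (1 / 8) (1 / 64) w0 w1 w2 = 0 := by
      rw [eA]
      refine Finset.sum_eq_zero fun v h => ?_
      rw [le_antisymm (nonpos_of_mul_nonpos_left (hc v h) (hε v h)) (hw v), zero_smul]
    have := dg_jac_0 1 (1 / 8) (1 / 64) w0 w1 w2
    rw [h0] at this
    exact zero_ne_one this
  refine ⟨a0 * ∑ v ∈ F1, w v * ε v, Sum.elim (fun v => a0 * w v.1)
    (Sum.elim (fun v => (a1 - a0 / 8) * z v.1) fun _ => a2 - a1 / 8), mul_pos q0 hl, ?_, ?_⟩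
  · rintro (v | v | v) <;> simp only [Sum.elim_inl, Sum.elim_inr]
    · exact mul_nonneg q0.le (hw _)
    · exact mul_nonneg (by linarith) (hz _)
    · linarith
  have e1 : jac a0 a1 a2 w0 w1 w2 = a0 • jac 1 (1 / 8) (1 / 64) w0 w1 w2 +
      (a1 - a0 / 8) • (ppoly_c * jac 1 1 (1 / 8) w0 0 0) + (a2 - a1 / 8) • ed 2 := by
    rw [ppoly_cjac]
    simp only [jac]
    module
  rw [← yc_pt y, toR_inj e, e1, eA, eB]
  simp only [Fintype.sum_sum_type, Sum.elim_inl, Sum.elim_inr, ← yc_smul, ← ppoly_sum, ← yc_add,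
    Finset.univ_unique, Finset.sum_singleton]
  congr 1
  rw [Finset.sum_coe_sort F1 fun v => (a0 * w v) • (v - ε v • one3),
    Finset.sum_coe_sort F2 fun v => ((a1 - a0 / 8) * z v) • (ppoly_c * v), ← add_assoc,
    ← add_assoc, Finset.mul_sum, Finset.mul_sum, Finset.sum_smul, ← Finset.sum_add_distrib,
    Finset.smul_sum, Finset.smul_sum]
  congr 2
  · exact Finset.sum_congr rfl fun v _ => by module
  · exact Finset.sum_congr rfl fun v _ => by rw [mul_smul_comm, smul_smul]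

end Pool.Agent.E7
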