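import Pool.Agent.Lib.MP_7e5527_ag.EF.GMain
import Pool.Agent.Lib.MP_7e5527_ag.EF.PCore
import Pool.Agent.Lib.MP_7e5527_ag.EF.PPoly
import Pool.Agent.Lib.MP_7e5527_ag.EF.C5

/-! Block C: points of the Hecke orbit on a hypersurface. -/

open MvPowerSeries

noncomputable section

namespace Pool.Agent.E7

variable {p m : ℕ} [Fact p.Prime] {e : ℂ_[p] ≃+* ℂ}

theorem cm_out (hm : 0 < m) {r : ℕ} (hr : r ≤ m) {q : (Ix → ℚ) → ℂ_[p]} {Y : Ix → ℚ}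
    (hq : Chr p q Y) (hY : toR ℝ Y ∈ Sieg) {ρ : Fin m → ℂ_[p] →+* ℂ_[p]}
    (hρ : ∀ i z, ‖ρ i z‖ = ‖z‖) {Z : Fin m → HH} (hZ : ∀ i, Mt e (ρ i ∘ q) (Z i))
    (hg : JG fun i => (Z i : Ix → ℂ)) {G : MvPolynomial Ix ℤ_[p]} (hG : G ≠ 0) {d : ℕ}
    {G' : MvPolynomial (Option Ix) ℤ_[p]} (hd : ∀ (j : ℤ_[p] →+* PS Ix ℂ)
      (x : Option Ix → PS Ix ℂ) (v : PS Ix ℂ), v * x none = 1 →
      G'.eval₂ j x * v ^ d = G.eval₂ j fun l => x (some l) * v) {a : (Ix → ℤ) → ℤ_[p]}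
    (ha : (fun T => UAP.zp p (a T)) = (TWE e).co (G'.eval₂ ((TWE e).cst.comp (UAP.zp p)) (fq e)))
    (h : POut r ρ (fun i => q (TT i)) a) : False := by
  obtain ⟨z, z0, z1, z2, z3⟩ := h
  obtain ⟨D, hD⟩ := c4_ld e
  choose Λ Λ' ζ φ a1 a2 a3 a4 a5 a6 a7 a8 using fun i =>
    hD _ Y (Z i) (hq.iso (hρ i)) hY (hZ i)
  have hj : Function.Injective ((e : ℂ_[p] →+* ℂ).comp (UAP.zp p)) := e.injective.comp (c5_inj p)
  have hy : ∀ i, C0 fun l => map (e : ℂ_[p] →+* ℂ) (z i l) := fun i l => by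
    rw [constantCoeff_map, z0 i l, map_zero]
  refine as_many Λ Λ' a2 a3 a4 (Algebra.adjoin ℂ (Set.range (xm fun i => (Z i : Ix → ℂ))))
    (fun i j => Algebra.subset_adjoin ⟨(i, j), by rw [a1]; rfl⟩)
    (H := MvPolynomial.map ((e : ℂ_[p] →+* ℂ).comp (UAP.zp p)) G) (r := r) ?_ hy
    (fun i h => z1 i (funext fun l => MvPowerSeries.ext fun ν => e.injective ?_)) hm
    (z2.map (e : ℂ_[p] →+* ℂ) (map (e : ℂ_[p] →+* ℂ)) fun c => map_C _ c) fun i => ?_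
  · simp only [a1]
    exact genv hm hr (fun i => (hZ i).good (hq.iso (hρ i)) hY) hg
      fun h => hG (MvPolynomial.map_injective _ hj (h.trans (map_zero _).symm))
  · have h1 := congrArg (coeff ν) (congrFun h l)
    rw [coeff_map] at h1
    exact h1.trans (map_zero e).symm
  · have h1 := hd (C.comp ((e : ℂ_[p] →+* ℂ).comp (UAP.zp p))) (fun o => φ i (fq e o)) _
      (Ring.inverse_mul_cancel _ (a7 i))
    have h2 : (φ i).comp ((TWE e).cst.comp (UAP.zp p)) =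
        C.comp ((e : ℂ_[p] →+* ℂ).comp (UAP.zp p)) := RingHom.ext fun c => a6 i _
    have h3 := MvPolynomial.eval₂_comp_left (φ i) ((TWE e).cst.comp (UAP.zp p)) (fq e) G'
    rw [h2, a5, ← ha] at h3
    rw [funext (a8 i), MvPolynomial.aeval_def, MvPolynomial.eval₂_map]
    refine (congrArg _ (h1.symm.trans (congrArg (· * _) h3.symm))).trans ?_
    rw [map_mul, ← map_sb (z0 i)]
    exact mul_eq_zero_of_left ((congrArg _ (z3 i)).trans (map_zero _)) _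

theorem c_main [NeZero m] (hm : 783 ≤ m)
    {x : Fin m → Ix → ℂ} {q : Fin m → (Ix → ℚ) → ℂ_[p]} (hx : ∀ i, x i ∈ HH ∧ TqI e (q i) (x i) ∧
      ∃ ρ : ℂ_[p] →+* ℂ_[p], (∀ z, ‖ρ z‖ = ‖z‖) ∧ q i = ρ ∘ q 0) (hg : JG x) {k : ℤ}
    {F : (Ix → ℂ) → ℂ} {a : (Ix → ℚ) → ℂ} (hF : IsMF k F a) (h0 : ∃ Z ∈ HH, F Z ≠ 0) :
    ∃ S : Set (Ix → ℂ), S.Finite ∧ S ⊆ HH ∧ ∀ Z, Hecke (x 0) Z → F Z = 0 →
      ∃ s ∈ S, ∃ γ ∈ Gam, Z = act γ s := by
  by_contra hn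
  choose hx hY ρ hρ hq using hx
  choose Y c hY hc ha hT using hY
  obtain ⟨g, hg1, hg2⟩ : ∃ g : ℕ → Gb, (∀ n, g n ∈ GG ∧ F (act (g n) (x 0)) = 0) ∧
      ∀ n n', n < n' → ¬∃ γ ∈ Gam, act (g n') (x 0) = act γ (act (g n) (x 0)) := by
    refine exists_seq_of_forall_finset_exists (fun g : Gb => g ∈ GG ∧ F (act g (x 0)) = 0)
      (fun g g' => ¬∃ γ ∈ Gam, act g' (x 0) = act γ (act g (x 0))) fun s hs => ?_
    by_contra h1
    push Not at h1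
    refine hn ⟨(fun g => act g (x 0)) '' s, s.finite_toSet.image _, ?_, fun Z hZ hV => ?_⟩
    · rintro _ ⟨g, hg, rfl⟩
      exact (act_spec (hs g hg).1 (hx 0)).2.1
    · obtain ⟨g, hg, rfl⟩ := hZ.exists_act (hx 0)
      obtain ⟨g', hg', h1⟩ := h1 g ⟨hg, hV⟩
      exact ⟨_, ⟨g', hg', rfl⟩, h1⟩
  choose γ hγ A cA B hA hS hM using fun n =>
    c2_pt (hY 0) (hc 0) (x := ⟨x 0, hx 0⟩) (hT 0) (hg1 n).1
  have h1 : ∀ n, act (g n) (x 0) ∈ HH := fun n => (act_spec (hg1 n).1 (hx 0)).2.1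
  have h2 : ∀ n, act (γ n * g n) (x 0) = act (γ n) (act (g n) (x 0)) := fun n =>
    act_mul (Gam_le (hγ n)) (hg1 n).1 (hx 0)
  have h3 : ∀ n, act (γ n) (act (g n) (x 0)) ∈ HH := fun n => (act_spec (Gam_le (hγ n)) (h1 n)).2.1
  simp only [h2] at hM
  have hC := fun n => (hY 0).qt e (hA n) (B n)
  obtain ⟨H, H0, H1⟩ := c3_rel e (F := res F) ⟨hF.mf, hF.inv_Gam.mono Gam2_le⟩ fun h => by
    obtain ⟨Z, hZ, h0⟩ := h0
    exact h0 (congrFun h ⟨Z, hZ⟩)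
  obtain ⟨G, φ, G0, G1⟩ := c3_desc hC (fun n => qt_alg (ha 0) _ _) hM H0 fun n => by
    refine H1 _ ?_ (by simpa only [ext, ofC_coe] using ((hM n).good (hC n) (hS n)).2.1)
    have h4 := congrFun (hF.inv_Gam _ (hγ n)) ⟨_, h1 n⟩
    rw [sl, show res F ⟨_, h1 n⟩ = 0 from (hg1 n).2] at h4
    exact (mul_eq_zero.1 h4).resolve_left (zpow_ne_zero _ (act_spec (Gam_le (hγ n)) (h1 n)).1)
  obtain ⟨d, G', hd⟩ := c1_hom G
  obtain ⟨ψ, hψ⟩ : ∃ ψ : ℕ → ℕ, StrictMono (φ ∘ ψ) := by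
    obtain ⟨ψ, -, h⟩ := Filter.strictMono_subseq_of_tendsto_atTop φ.injective.nat_tendsto_atTop
    exact ⟨ψ, h⟩
  obtain ⟨D, D1, D2⟩ := c5_pd (hY 0) (ha 0) (fun n => hA (φ (ψ n))) (fun n => hS (φ (ψ n)))
    (B := fun n => B (φ (ψ n))) (c5_int e G') (fun n => by
      have h4 : evq e (qt e (q 0) (A (φ (ψ n))) (B (φ (ψ n)))) ThF ≠ 0 := fun h => by
        have := norm_evq_ThF e (hC (φ (ψ n)))
        rw [h, norm_zero] at this
        exact zero_ne_one this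
      have h5 := hd _ (UAP.zp p) (fun o => evR e (hC (φ (ψ n))) (fq e o)) _ (inv_mul_cancel₀ h4)
      have h6 := MvPolynomial.eval₂_comp_left (evR e (hC (φ (ψ n))))
        ((TWE e).cst.comp (UAP.zp p)) (fq e) G'
      have h7 : (evR e (hC (φ (ψ n)))).comp ((TWE e).cst.comp (UAP.zp p)) = UAP.zp p :=
        RingHom.ext fun c => by
          change evq e _ (algebraMap ℂ Fn (e _)) = _
          rw [Algebra.algebraMap_eq_smul_one, evq_smul e (hC _) ⟨_, GoodC.one⟩, evq_one e (hC _),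
            mul_one, e.symm_apply_apply]
      rw [h7] at h6
      refine h6.trans ((mul_eq_zero.1 (h5.trans (Eq.trans ?_ (G1 (ψ n))))).resolve_right
        (pow_ne_zero _ (inv_ne_zero h4)))
      refine congrArg (MvPolynomial.eval₂ _ · G) (funext fun l => ?_)
      rw [SR.xc, ← evq_eq e (hC _), ← evq_eq e (hC _), div_eq_mul_inv]
      rfl)
    (c5_fib (fun n => hC _) (fun n => hS _) (fun n => hM _) fun n n' h ⟨δ, hδ, h4⟩ => by
      rw [coe_ofC (h3 _), coe_ofC (h3 _)] at h4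
      have g1 := Gam_le (hγ (φ (ψ n')))
      refine hg2 (φ (ψ n)) (φ (ψ n')) (hψ h) ⟨(γ (φ (ψ n')))⁻¹ * (δ * γ (φ (ψ n))),
        mul_mem (inv_mem (hγ _)) (mul_mem hδ (hγ _)), ?_⟩
      rw [act_mul (inv_mem g1) (Gam_le (mul_mem hδ (hγ _))) (h1 _),
        act_mul (Gam_le hδ) (Gam_le (hγ _)) (h1 _), ← h4, ← act_mul (inv_mem g1) g1 (h1 _),
        inv_mul_cancel, act_one])
  obtain ⟨n, hO⟩ := pcore cone_poly D (Nat.pos_of_neZero m) hρ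
  rw [D1] at hO
  choose g' g1 g2 using fun i => c2_conj (ρ := ρ i) (q := q 0) (hq i ▸ hY i) (hc i)
    (x := ⟨x i, hx i⟩) (hq i ▸ hT i) (hA (φ (ψ n))) (B (φ (ψ n)))
  refine cm_out (Nat.pos_of_neZero m) (le_trans (by simp) hm) (hC _) (hS _) hρ g2 ?_ G0
    (hd _) D2 hO
  simp only [fun i => coe_ofC (act_spec (g1 i) (hx i)).2.1]
  exact hg.act hx g1

end Pool.Agent.E7
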