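import Pool.Agent.Lib.MP_7e5527_ag.EF.FamE

/-! A separable equation for an algebraic germ. -/

open Filter Topology Polynomial

noncomputable section

namespace Pool.Agent.E7

theorem fa1_an {f : ℂ → ℂ} (hf : AnalyticAt ℂ f 0) (P : ℂ[X][X]) :
    AnalyticAt ℂ (fun s => P.evalEval s (f s)) 0 := by
  induction P using Polynomial.induction_on' with
  | add p q hp hq => simpa only [evalEval_add] using hp.fun_add hq
  | monomial n a =>
    simp only [← C_mul_X_pow_eq_monomial, evalEval_mul, evalEval_C, evalEval_pow, evalEval_X]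
    exact (a.differentiable.analyticAt 0).mul (hf.pow n)

/-- The polynomials that kill the germ. -/
def fa1_I (f : ℂ → ℂ) : Ideal ℂ[X][X] where
  carrier := {P | ∀ᶠ s in 𝓝 (0 : ℂ), P.evalEval s (f s) = 0}
  zero_mem' := by simp
  add_mem' := fun h1 h2 => (h1.and h2).mono fun s h => by rw [evalEval_add, h.1, h.2, add_zero]
  smul_mem' := fun c P h => h.mono fun s h => by rw [smul_eq_mul, evalEval_mul, h, mul_zero]

/-- A prime element `P` of the prime ideal of the germ is separable over the fraction field. -/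
theorem exists_sep {f : ℂ → ℂ} (hf : AnalyticAt ℂ f 0) (h : AlgG f) :
    ∃ (P : Polynomial (Polynomial ℂ)) (d : Polynomial ℂ), d ≠ 0 ∧
      (∀ᶠ s in 𝓝 (0 : ℂ), P.evalEval s (f s) = 0) ∧ ∀ s, d.eval s ≠ 0 →
        P.leadingCoeff.eval s ≠ 0 ∧
          ∀ c, P.evalEval s c = 0 → P.derivative.evalEval s c ≠ 0 := by
  have hI : (fa1_I f).IsPrime := ⟨(Ideal.ne_top_iff_one _).2 fun q => by
      simpa using Eventually.self_of_nhds q, fun {P Q} q => by
    refine ((fa1_an hf P).eventually_eq_zero_or_eventually_ne_zero).imp_right fun h1 => ?_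
    refine ((fa1_an hf Q).frequently_zero_iff_eventually_zero).1 (Eventually.frequently ?_)
    filter_upwards [h1, Eventually.filter_mono nhdsWithin_le_nhds q] with s h2 h3
    rw [evalEval_mul] at h3
    exact (mul_eq_zero.1 h3).resolve_left h2⟩
  obtain ⟨P0, h0, h1⟩ := h
  obtain ⟨P, h2, h3⟩ := hI.exists_mem_prime_of_ne_bot
    ((Submodule.ne_bot_iff _).2 ⟨P0, h1, h0⟩)
  have n0 : P.natDegree ≠ 0 := fun q => h3.ne_zero (by
    rw [eq_C_of_natDegree_eq_zero q] at h2 ⊢
    have h4 : ∀ᶠ s in 𝓝 (0 : ℂ), (P.coeff 0).eval s = 0 :=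
      Eventually.mono h2 fun s hs => by rwa [evalEval_C] at hs
    rw [eq_zero_of_infinite_isRoot _ (infinite_of_mem_nhds 0 h4), map_zero])
  have inj := IsFractionRing.injective ℂ[X] (FractionRing ℂ[X])
  have : CharZero (FractionRing ℂ[X]) := algebraRat.charZero _
  have h4 := ((h3.irreducible.isPrimitive n0).irreducible_iff_irreducible_map_fraction_map
    (K := FractionRing ℂ[X])).1 h3.irreducible
  have h5 := resultant_ne_zero _ _ h4.separable
  rw [derivative_map, natDegree_map_eq_of_injective inj, natDegree_map_eq_of_injective inj,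
    resultant_map_map] at h5
  obtain ⟨A, B, -, -, h6⟩ := exists_mul_add_mul_eq_C_resultant P P.derivative le_rfl le_rfl
    (Or.inl n0)
  refine ⟨P, P.resultant P.derivative * P.leadingCoeff,
    mul_ne_zero (fun q => h5 (by rw [q, map_zero])) (leadingCoeff_ne_zero.2 h3.ne_zero), h2,
    fun s hs => ?_⟩
  rw [eval_mul, mul_ne_zero_iff] at hs
  refine ⟨hs.2, fun c e1 e2 => hs.1 ?_⟩
  rw [← evalEval_C s c, ← h6, evalEval_add, evalEval_mul, evalEval_mul, e1, e2, zero_mul, zero_mul,
    add_zero]

end Pool.Agent.E7
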