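import Pool.Agent.Lib.MP_7e5527_ag.EF.FamE

/-! Simple roots move analytically; roots are locally bounded. -/

open Filter Topology Polynomial

noncomputable section

namespace Pool.Agent.E7

theorem fa2a_sm (P : Polynomial (Polynomial ℂ)) :
    ContDiff ℂ ⊤ fun z : ℂ × ℂ => P.evalEval z.1 z.2 := by
  induction P using Polynomial.induction_on' with
  | add p q hp hq => simpa only [evalEval_add] using hp.add hq
  | monomial n a =>
    simpa only [← C_mul_X_pow_eq_monomial, evalEval_mul, evalEval_C, evalEval_pow, evalEval_X,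
      Function.comp_def, coe_aeval_eq_eval] using
      ((a.contDiff_aeval (𝕜 := ℂ) ⊤).comp contDiff_fst).mul (contDiff_snd.pow n)

/-- The implicit function theorem. -/
theorem root_branch (P : Polynomial (Polynomial ℂ)) {s c : ℂ} (h : P.evalEval s c = 0)
    (h' : P.derivative.evalEval s c ≠ 0) : ∃ ρ : ℂ → ℂ, AnalyticAt ℂ ρ s ∧
      ∀ᶠ z in 𝓝 (s, c), (P.evalEval z.1 z.2 = 0 ↔ z.2 = ρ z.1) := by
  have h1 := (fa2a_sm P).contDiffAt (x := (s, c))
  have h2 := (h1.differentiableAt (by simp)).hasFDerivAt.comp c (hasFDerivAt_prodMk_right s c)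
  have h3 := ((P.map (evalRingHom s)).hasDerivAt c).hasFDerivAt
  simp only [derivative_map, map_evalRingHom_eval] at h3
  have h4 : (fderiv ℂ (fun z : ℂ × ℂ => P.evalEval z.1 z.2) (s, c) ∘L
      .inr ℂ ℂ ℂ).IsInvertible := by
    rw [h2.unique h3]
    exact ⟨ContinuousLinearEquiv.unitsEquivAut ℂ (Units.mk0 _ h'), by ext; simp⟩
  refine ⟨_, (h1.contDiffAt_implicitFunction (by simp) h4).analyticAt, ?_⟩
  filter_upwards [h1.eventually_apply_eq_iff_implicitFunction (by simp) h4] with z hz
  rw [← h]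
  exact hz.trans eq_comm

/-- The bound of Cauchy. -/
theorem root_bdd (P : Polynomial (Polynomial ℂ)) {s : ℂ} (h : P.leadingCoeff.eval s ≠ 0) :
    ∃ R : ℝ, ∀ᶠ t in 𝓝 s, ∀ c, P.evalEval t c = 0 → ‖c‖ ≤ R := by
  have hg : ContinuousAt (fun t : ℂ => (∑ i ∈ Finset.range P.natDegree, ‖(P.coeff i).eval t‖) /
      ‖P.leadingCoeff.eval t‖ + 1) s :=
    ((continuous_finsetSum _ fun i _ => (P.coeff i).continuous.norm).continuousAt.div
      P.leadingCoeff.continuous.norm.continuousAt (norm_ne_zero_iff.2 h)).add continuousAt_const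
  refine ⟨_, (hg.eventually (eventually_le_nhds (lt_add_one _))).mp
    ((P.leadingCoeff.continuous.continuousAt.eventually_ne h).mono fun t ht hR c hc =>
      le_trans ?_ hR)⟩
  have h1 := leadingCoeff_map_of_leadingCoeff_ne_zero (evalRingHom t) (p := P) ht
  have h2 := IsRoot.norm_lt_cauchyBound (p := P.map (evalRingHom t)) (a := c)
    (leadingCoeff_ne_zero.1 (h1 ▸ ht)) (by rwa [IsRoot, map_evalRingHom_eval])
  rw [cauchyBound, h1, natDegree_map_of_leadingCoeff_ne_zero (evalRingHom t) ht] at h2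
  have h3 : ((Finset.range P.natDegree).sup fun i => ‖(P.map (evalRingHom t)).coeff i‖₊) ≤
      ∑ i ∈ Finset.range P.natDegree, ‖(P.coeff i).eval t‖₊ :=
    Finset.sup_le fun i hi => by
      rw [coeff_map]
      exact Finset.single_le_sum (f := fun i => ‖(P.coeff i).eval t‖₊) (fun _ _ => zero_le) hi
  simpa using NNReal.coe_le_coe.2
    (h2.le.trans (add_le_add_left (div_le_div_of_nonneg_right h3 zero_le) 1))

end Pool.Agent.E7
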