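import Pool.Agent.Lib.MP_7e5527_ag.EF.FamA1
import Pool.Agent.Lib.MP_7e5527_ag.EF.FamA2

/-! The cover defined by finitely many algebraic germs. -/

open Filter Topology Polynomial

noncomputable section

namespace Pool.Agent.E7

theorem fa3_cont (P : Polynomial (Polynomial ℂ)) :
    Continuous fun z : ℂ × ℂ => P.evalEval z.1 z.2 := by
  induction P using Polynomial.induction_on' with
  | add p q hp hq => simp only [evalEval_add]; exact hp.add hq
  | monomial n a =>
    simp only [← C_mul_X_pow_eq_monomial, evalEval_mul, evalEval_pow, evalEval_C, evalEval_X]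
    exact (a.continuous.comp continuous_fst).mul (continuous_snd.pow n)

/-- `S` is `0` and the roots of the `d b`; `Y` is cut out by the `P b` over the complement. -/
theorem exists_etl {B : Type*} [Fintype B] {f : ℂ → B → ℂ} (hf : AnalyticAt ℂ f 0)
    (h : ∀ b, AlgG fun s => f s b) : ∃ (S : Set ℂ) (Y : Set (ℂ × (B → ℂ))),
      (0 : ℂ) ∈ S ∧ Etl S Y ∧ ∀ᶠ s in 𝓝[≠] (0 : ℂ), (s, f s) ∈ Y := by
  choose P d hd h1 h2 using fun b => exists_sep (analyticAt_pi_iff.1 hf b) (h b)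
  let S : Set ℂ := insert 0 (⋃ b, {s | (d b).IsRoot s})
  have hS : S.Finite := (Set.finite_iUnion fun b => finite_setOfPred_isRoot (hd b)).insert 0
  have hne : ∀ s ∉ S, ∀ b, (d b).eval s ≠ 0 := fun s hs b e =>
    hs (Or.inr (Set.mem_iUnion.2 ⟨b, e⟩))
  have hop : ∀ s ∉ S, ∀ᶠ t in 𝓝 s, t ∉ S := fun s hs => hS.isClosed.isOpen_compl.mem_nhds hs
  have hc : ∀ b, Continuous fun z : ℂ × (B → ℂ) => (z.1, z.2 b) := fun b => by fun_prop
  refine ⟨S, {y | y.1 ∉ S ∧ ∀ b, (P b).evalEval y.1 (y.2 b) = 0}, Or.inl rfl,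
    ⟨hS, fun y hy => hy.1, fun y hy => ?_, fun s hs => ?_, fun y hy hn => ?_⟩, ?_⟩
  · choose ρ h3 h4 using fun b =>
      root_branch (P b) (hy.2 b) ((h2 b _ (hne _ hy.1 b)).2 _ (hy.2 b))
    refine ⟨fun t b => ρ b t, analyticAt_pi_iff.2 h3, ?_⟩
    filter_upwards [continuous_fst.continuousAt.eventually (hop _ hy.1),
      eventually_all.2 fun b => (hc b).continuousAt.eventually (h4 b)] with z h5 h6
    exact ⟨fun h7 => funext fun b => (h6 b).1 (h7.2 b),
      fun h7 => ⟨h5, fun b => (h6 b).2 (congrFun h7 b)⟩⟩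
  · choose R hR using fun b => root_bdd (P b) (h2 b _ (hne _ hs b)).1
    refine ⟨∑ b, |R b|, ?_⟩
    filter_upwards [eventually_all.2 hR] with t ht c hc'
    refine (pi_norm_le_iff_of_nonneg (Finset.sum_nonneg fun _ _ => abs_nonneg _)).2 fun b => ?_
    exact ((ht b _ (hc'.2 b)).trans (le_abs_self _)).trans
      (Finset.single_le_sum (f := fun b => |R b|) (fun _ _ => abs_nonneg _) (Finset.mem_univ b))
  · obtain ⟨b, hb⟩ := not_forall.1 fun h3 => hn ⟨hy, h3⟩
    filter_upwards [((fa3_cont (P b)).comp (hc b)).continuousAt.eventually_ne hb] with z h3 h4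
    exact h3 (h4.2 b)
  · have h3 : ∀ᶠ s in 𝓝[≠] (0 : ℂ), s ∉ S := by
      have h4 : (S \ {0})ᶜ ∈ 𝓝 (0 : ℂ) :=
        hS.sdiff.isClosed.isOpen_compl.mem_nhds fun h5 => h5.2 rfl
      filter_upwards [self_mem_nhdsWithin, mem_nhdsWithin_of_mem_nhds h4] with s h5 h6 h7
      exact h6 ⟨h7, h5⟩
    filter_upwards [h3, mem_nhdsWithin_of_mem_nhds (eventually_all.2 h1)] with s h4 h5
    exact ⟨h4, h5⟩

end Pool.Agent.E7
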