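import Pool.Agent.Lib.MP_7e5527_ag.EF.FamE

/-! The points on local sections form an analytic covering. -/

open Filter Topology

noncomputable section

namespace Pool.Agent.E7

variable {W E G : Type*} [NormedAddCommGroup W] [NormedSpace ℂ W] [NormedAddCommGroup E]
  [NormedSpace ℂ E] [Group G]
  {act : G → E → E} {Γ : Subgroup G} {U : Set E} {Ψ : E → W} {S : Set ℂ} {Y : Set (ℂ × W)}

omit [NormedAddCommGroup W] [NormedSpace ℂ W] in
theorem Sec.pt {v : ℂ × E} (h : v ∈ Sec U Ψ Y) : v.2 ∈ U ∧ (v.1, Ψ v.2) ∈ Y := by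
  obtain ⟨σ, e, h⟩ := h
  rw [← e]
  exact h.self_of_nhds.2

theorem Prp.sec_mem (h : Prp act Γ U Ψ) {g : G} (hg : g ∈ Γ) {v : ℂ × E} (hv : v ∈ Sec U Ψ Y) :
    (v.1, act g v.2) ∈ Sec U Ψ Y := by
  obtain ⟨σ, e, hv⟩ := hv
  refine ⟨fun t => act g (σ t), congrArg (act g) e, hv.mono fun t ht =>
    ⟨(h.dif g hg _ ht.2.1).comp t ht.1, h.mem g hg _ ht.2.1, ?_⟩⟩
  rw [h.inv g hg _ ht.2.1]
  exact ht.2.2

theorem Prp.cont (h : Prp act Γ U Ψ) (s : ℂ) {e : E} (he : e ∈ U) :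
    Tendsto (fun z : ℂ × E => (z.1, Ψ z.2)) (𝓝 (s, e)) (𝓝 (s, Ψ e)) :=
  (continuousAt_fst.prodMk ((h.hol e he).continuousAt.comp_of_eq continuousAt_snd rfl) :
    ContinuousAt (fun z : ℂ × E => (z.1, Ψ z.2)) (s, e))

theorem Prp.near [CompleteSpace W] (h : Prp act Γ U Ψ) (hY : Etl S Y) {s : ℂ} {e : E}
    (he : e ∈ U) (hy : (s, Ψ e) ∈ Y) : ∃ (σ : ℂ → E) (ρ : ℂ → W), σ s = e ∧
      (∀ᶠ t in 𝓝 s, DifferentiableAt ℂ σ t ∧ DifferentiableAt ℂ ρ t ∧ σ t ∈ U ∧ (t, ρ t) ∈ Y) ∧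
      ∀ᶠ z in 𝓝 (s, e), (z.1, Ψ z.2) ∈ Y → Ψ z.2 = ρ z.1 ∧ z.2 = σ z.1 := by
  obtain ⟨ξ, x1, x2⟩ := h.left e he
  obtain ⟨ρ, r1, r2⟩ := hY.loc _ hy
  have r0 : Ψ e = ρ s := r2.self_of_nhds.1 hy
  have rc : Tendsto ρ (𝓝 s) (𝓝 (Ψ e)) := r0 ▸ r1.continuousAt
  have e0 : ξ (ρ s) = e := r0 ▸ x2.self_of_nhds
  have d : ∀ᶠ t in 𝓝 s, DifferentiableAt ℂ (fun t => ξ (ρ t)) t ∧ DifferentiableAt ℂ ρ t := by
    filter_upwards [r1.eventually_analyticAt, rc.eventually x1] with t h1 h2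
    exact ⟨h2.comp t h1.differentiableAt, h1.differentiableAt⟩
  refine ⟨fun t => ξ (ρ t), ρ, e0, ?_, ?_⟩
  · have c : Tendsto (fun t => ξ (ρ t)) (𝓝 s) (𝓝 e) := e0 ▸ d.self_of_nhds.1.continuousAt
    filter_upwards [d, c.eventually (h.op.mem_nhds he), (tendsto_id.prodMk_nhds rc).eventually r2]
      with t h1 h2 h3
    exact ⟨h1.1, h1.2, h2, h3.2 rfl⟩
  · have c : Tendsto Prod.snd (𝓝 (s, e)) (𝓝 e) := continuousAt_snd
    filter_upwards [(h.cont s he).eventually r2, c.eventually x2] with z h1 h2 h3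
    have h4 : Ψ z.2 = ρ z.1 := h1.1 h3
    exact ⟨h4, by rw [← h4, h2]⟩

theorem Prp.ext1 [CompleteSpace W] (h : Prp act Γ U Ψ) (hY : Etl S Y) {s : ℂ} (hs : s ∉ S) {e : E}
    (he : e ∈ U) : ∃ r : ℝ, 0 < r ∧ ∀ᶠ z in 𝓝 (s, e), z ∈ Sec U Ψ Y → ∃ σ : ℂ → E,
      DifferentiableOn ℂ σ (Metric.ball s r) ∧ σ z.1 = z.2 ∧
        ∀ t ∈ Metric.ball s r, (t, σ t) ∈ Sec U Ψ Y := by
  by_cases hy : (s, Ψ e) ∈ Y
  swap
  · exact ⟨1, one_pos, ((h.cont s he).eventually (hY.cl _ hs hy)).mono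
      fun z h1 h2 => absurd (Sec.pt h2).2 h1⟩
  obtain ⟨σ, ρ, -, h1, h2⟩ := h.near hY he hy
  obtain ⟨r, hr, h1⟩ := Metric.eventually_nhds_iff_ball.1 h1
  have c : Tendsto Prod.fst (𝓝 (s, e)) (𝓝 s) := continuousAt_fst
  refine ⟨r, hr, ?_⟩
  filter_upwards [h2.eventually_nhds, c.eventually (Metric.ball_mem_nhds s hr)] with z h3 h4 hz
  have d : DifferentiableOn ℂ σ (Metric.ball s r) := fun t ht => (h1 t ht).1.differentiableWithinAt
  refine ⟨σ, d, (h3.self_of_nhds (Sec.pt hz).2).2.symm, ?_⟩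
  obtain ⟨σ', e', h5⟩ := hz
  have c' : Tendsto (fun t => (t, σ' t)) (𝓝 z.1) (𝓝 z) := by
    have := continuousAt_id.prodMk h5.self_of_nhds.1.continuousAt
    rwa [ContinuousAt, id, e'] at this
  have a1 : AnalyticOnNhd ℂ (fun t => Ψ (σ t)) (Metric.ball s r) :=
    DifferentiableOn.analyticOnNhd (fun t ht =>
      ((h.hol _ (h1 t ht).2.2.1).comp t (h1 t ht).1).differentiableWithinAt) Metric.isOpen_ball
  have a2 : AnalyticOnNhd ℂ ρ (Metric.ball s r) :=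
    DifferentiableOn.analyticOnNhd (fun t ht => (h1 t ht).2.1.differentiableWithinAt)
      Metric.isOpen_ball
  have k := a1.eqOn_of_preconnected_of_eventuallyEq a2 (convex_ball s r).isPreconnected h4 (by
    filter_upwards [c'.eventually h3, h5] with t h6 h7
    obtain ⟨h8, h9⟩ := h6 h7.2.2
    rw [← h8, ← show σ' t = σ t from h9])
  refine fun t ht => ⟨σ, rfl, mem_of_superset (Metric.isOpen_ball.mem_nhds ht) fun t' ht' =>
    ⟨(h1 t' ht').1, (h1 t' ht').2.2.1, ?_⟩⟩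
  rw [show Ψ (σ t') = ρ t' from k ht']
  exact (h1 t' ht').2.2.2

theorem Prp.cvg [CompleteSpace W] (h : Prp act Γ U Ψ) (hY : Etl S Y) :
    Cvg act Γ S (Sec U Ψ Y) where
  fin := hY.fin
  base v hv := hY.base _ (Sec.pt hv).2
  mem g hg v hv := h.sec_mem hg hv
  dif g hg v hv := h.dif g hg _ (Sec.pt hv).1
  one v hv := h.one _ (Sec.pt hv).1
  mul g hg g' hg' v hv := h.mul g hg g' hg' _ (Sec.pt hv).1
  uniq v hv := by
    obtain ⟨σ, ρ, -, -, h2⟩ := h.near hY (Sec.pt hv).1 (Sec.pt hv).2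
    refine ⟨_, h2, fun z hz z' hz' e => Prod.ext e ?_⟩
    rw [(hz.2 (Sec.pt hz.1).2).2, (hz'.2 (Sec.pt hz'.1).2).2, e]
  fib s := by
    by_cases hs : s ∈ S
    · exact ⟨∅, Set.finite_empty, fun e he => absurd hs (hY.base _ (Sec.pt he).2)⟩
    obtain ⟨R, hR⟩ := hY.bdd s hs
    obtain ⟨K, hK, hU, hp⟩ := h.prop R
    refine ⟨K ∩ {e | (s, Ψ e) ∈ Y}, ?_, fun e he => ?_⟩
    · refine hK.induction_on (p := fun A => (A ∩ {e | (s, Ψ e) ∈ Y}).Finite) (by simp)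
        (fun A B hAB hB => hB.subset (Set.inter_subset_inter_left _ hAB))
        (fun A B hA hB => by rw [Set.union_inter_distrib_right]; exact hA.union hB) fun e he => ?_
      have c : Tendsto (fun e' : E => (s, e')) (𝓝 e) (𝓝 (s, e)) :=
        tendsto_const_nhds.prodMk_nhds tendsto_id
      by_cases hy : (s, Ψ e) ∈ Y
      · obtain ⟨σ, ρ, -, -, h2⟩ := h.near hY (hU he) hy
        exact ⟨_, mem_nhdsWithin_of_mem_nhds (c.eventually h2),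
          (Set.finite_singleton (σ s)).subset fun e' he' => (he'.1 he'.2).2⟩
      · exact ⟨_, mem_nhdsWithin_of_mem_nhds
          (c.eventually ((h.cont s (hU he)).eventually (hY.cl _ hs hy))),
          Set.finite_empty.subset fun e' he' => he'.1 he'.2⟩
    · obtain ⟨g, hg, h1⟩ := hp e (Sec.pt he).1 (hR.self_of_nhds _ (Sec.pt he).2)
      exact ⟨g, hg, h1, (Sec.pt (h.sec_mem hg he)).2⟩
  unif s hs := by
    obtain ⟨R, hR⟩ := hY.bdd s hs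
    obtain ⟨K, hK, hU, hp⟩ := h.prop R
    have k : ∀ᶠ x : ℝ × ℂ in 𝓝 (0, s), ∀ e ∈ K, (x.2, e) ∈ Sec U Ψ Y → ∃ σ : ℂ → E,
        DifferentiableOn ℂ σ (Metric.ball s x.1) ∧ σ x.2 = e ∧
          ∀ t ∈ Metric.ball s x.1, (t, σ t) ∈ Sec U Ψ Y := by
      refine hK.eventually_forall_of_forall_eventually fun e he => ?_
      obtain ⟨r, hr, h1⟩ := h.ext1 hY hs (hU he)
      have c1 : Tendsto (fun z : (ℝ × ℂ) × E => (z.1.2, z.2)) (𝓝 ((0, s), e)) (𝓝 (s, e)) :=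
        (by fun_prop : ContinuousAt (fun z : (ℝ × ℂ) × E => (z.1.2, z.2)) ((0, s), e))
      have c2 : Tendsto (fun z : (ℝ × ℂ) × E => z.1.1) (𝓝 ((0, s), e)) (𝓝 0) :=
        (by fun_prop : ContinuousAt (fun z : (ℝ × ℂ) × E => z.1.1) ((0, s), e))
      filter_upwards [c1.eventually h1, c2.eventually (gt_mem_nhds hr)] with z h2 h3 h4
      obtain ⟨σ, h5, h6, h7⟩ := h2 h4
      exact ⟨σ, h5.mono (Metric.ball_subset_ball h3.le), h6,
        fun t ht => h7 t (Metric.ball_subset_ball h3.le ht)⟩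
    have c : Tendsto Prod.snd (𝓝 ((0 : ℝ), s)) (𝓝 s) := continuousAt_snd
    obtain ⟨ε, hε, k⟩ := Metric.eventually_nhds_iff.1 (k.and (c.eventually hR))
    refine ⟨ε / 2, half_pos hε, fun v hv hb => ?_⟩
    obtain ⟨k1, k2⟩ := k (y := (ε / 2, v.1)) (by
      rw [Prod.dist_eq, Real.dist_0_eq_abs, abs_of_pos (half_pos hε)]
      exact max_lt (half_lt_self hε) ((Metric.mem_ball.1 hb).trans (half_lt_self hε)))
    obtain ⟨g, hg, h1⟩ := hp _ (Sec.pt hv).1 (k2 _ (Sec.pt hv).2)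
    obtain ⟨σ, h2, h3, h4⟩ := k1 _ h1 (h.sec_mem hg hv)
    refine ⟨fun t => act g⁻¹ (σ t), fun t ht => (h.dif _ (Γ.inv_mem hg) _
      (Sec.pt (h4 t ht)).1).comp_differentiableWithinAt t (h2 t ht), ?_,
      fun t ht => h.sec_mem (Γ.inv_mem hg) (h4 t ht)⟩
    show act g⁻¹ (σ v.1) = v.2
    rw [show σ v.1 = act g v.2 from h3, ← h.mul _ (Γ.inv_mem hg) _ hg _ (Sec.pt hv).1,
      inv_mul_cancel, h.one _ (Sec.pt hv).1]

end Pool.Agent.E7
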