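import Pool.Agent.Lib.MP_7e5527_ag.EF.FamV
import Pool.Agent.Lib.MP_7e5527_ag.EF.FamCov
import Pool.Agent.Lib.MP_7e5527_ag.EF.FamA3

/-! The family of finite type generated by an algebraic arc. -/

open UpperHalfPlane Filter Topology

noncomputable section

namespace Pool.Agent.E7

variable {E G B : Type*} [NormedAddCommGroup E] [NormedSpace ℂ E] [Group G]
  [Fintype B] {act : G → E → E} {Γ : Subgroup G} {U : Set E} {Ψ : E → B → ℂ}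

/-- The family over the punctured line. -/
theorem Prp.fam0 (hP : Prp act Γ U Ψ) {h : ℂ → E}
    (hh : ∀ᶠ s in 𝓝 (0 : ℂ), DifferentiableAt ℂ h s ∧ h s ∈ U)
    (alg : ∀ b, AlgG fun s => Ψ (h s) b) : ∃ V ⊆ U, ∃ Δ ≤ Γ, Fam act V Δ ∧
      (∀ᶠ s in 𝓝[≠] (0 : ℂ), h s ∈ V) ∧ ∀ φ : E → ℂ, (∀ v ∈ V, DifferentiableAt ℂ φ v) →
        (∀ᶠ s in 𝓝 (0 : ℂ), φ (h s) = 0) → ∀ v ∈ V, φ v = 0 := by
  obtain ⟨S, Y, -, hY, h1⟩ := exists_etl (f := fun s => Ψ (h s))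
    (Complex.analyticAt_iff_eventually_differentiableAt.2 (hh.mono fun s hs =>
      (hP.hol _ hs.2).comp s hs.1)) alg
  have hC := hP.cvg hY
  obtain ⟨r, hr, h2⟩ := Metric.eventually_nhds_iff_ball.1
    (hh.and (eventually_nhdsWithin_iff.1 h1))
  have o : IsOpen (Metric.ball (0 : ℂ) r \ {0}) := Metric.isOpen_ball.sdiff isClosed_singleton
  have h3 : ∀ s ∈ Metric.ball (0 : ℂ) r \ {0}, (s, h s) ∈ Sec U Ψ Y := fun s hs =>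
    ⟨h, rfl, mem_of_superset (o.mem_nhds hs) fun t ht =>
      ⟨(h2 t ht.1).1.1, (h2 t ht.1).1.2, (h2 t ht.1).2 ht.2⟩⟩
  obtain ⟨⟨l, l1, l2⟩, -⟩ := exists_disc0 hr
  have d := l1.comp (φ := fun s => (s, h s))
    (fun s hs => differentiableAt_id.prodMk (h2 s hs.1).1.1) h3
  obtain ⟨V, hV, Δ, hΔ, hb, hF, hs⟩ := hC.fam (d.mem I)
  have h4 : ∀ᶠ s in 𝓝[≠] (0 : ℂ), (s, h s) ∈ V := l2.mono fun s ⟨τ, e⟩ =>
    e ▸ (hs _ d I hb).mem τ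
  refine ⟨ContinuousLinearMap.snd ℂ ℂ E '' V, ?_, Δ, hΔ, hF.map _ fun _ _ _ _ => rfl,
    h4.mono fun s hs => ⟨_, hs, rfl⟩, fun φ p1 p2 => ?_⟩
  · rintro _ ⟨v, hv, rfl⟩
    exact (Sec.pt (hV hv)).1
  · obtain ⟨s, s1, s2, s3⟩ := (h4.and ((p2.eventually_nhds.filter_mono nhdsWithin_le_nhds).and
      (sdiff_mem_nhdsWithin_compl (Metric.ball_mem_nhds 0 hr) {0}))).exists
    rintro _ ⟨v, hv, rfl⟩
    refine hC.ident hV hF (φ := fun z => φ z.2)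
      (fun z hz => (p1 _ ⟨z, hz, rfl⟩).comp z differentiableAt_snd) s1 ?_ v hv
    have c : Tendsto Prod.fst (𝓝 (s, h s)) (𝓝 s) := continuousAt_fst
    filter_upwards [hC.graph (h2 s s3.1).1.1.continuousAt (mem_of_superset (o.mem_nhds s3) h3),
      c.eventually s2] with z z1 z2 z3
    rw [z1 (hV z3), z2]

theorem Prp.fam [CompleteSpace E] (hP : Prp act Γ U Ψ) {h : ℂ → E} (hh : AnalyticAt ℂ h 0)
    (h0 : h 0 ∈ U) (alg : ∀ b, AlgG fun s => Ψ (h s) b) : ∃ V ⊆ U, ∃ Δ ≤ Γ, Fam act V Δ ∧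
      (∀ᶠ s in 𝓝 (0 : ℂ), h s ∈ V) ∧ ∀ φ : E → ℂ, (∀ v ∈ V, DifferentiableAt ℂ φ v) →
        (∀ᶠ s in 𝓝 (0 : ℂ), φ (h s) = 0) → ∀ v ∈ V, φ v = 0 := by
  have h1 : ∀ᶠ s in 𝓝 (0 : ℂ), DifferentiableAt ℂ h s ∧ h s ∈ U :=
    (Complex.analyticAt_iff_eventually_differentiableAt.1 hh).and
      (hh.continuousAt.eventually (hP.op.mem_nhds h0))
  obtain ⟨V, hV, Δ, hΔ, hF, h2, h3⟩ := hP.fam0 h1 alg
  obtain ⟨r, hr, h4⟩ := Metric.eventually_nhds_iff_ball.1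
    (h1.and (eventually_nhdsWithin_iff.1 h2))
  obtain ⟨-, l, l1, l2, ⟨τ0, l3⟩, τ1, l4⟩ := exists_disc0 hr
  have m : ∀ δ ∈ Δ, ∀ s ∈ Metric.ball (0 : ℂ) r,
      act δ (h s) ∈ V ∪ (fun δ => act δ (h 0)) '' Δ := fun δ hδ s hs => by
    by_cases e : s = 0
    · exact Or.inr ⟨δ, hδ, by rw [e]⟩
    · exact Or.inl (hF.stab δ hδ _ ((h4 s hs).2 e))
  have d : ∀ δ ∈ Δ, Dsc (V ∪ (fun δ => act δ (h 0)) '' Δ) fun τ => act δ (h (l τ)) := fun δ hδ =>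
    l1.comp (φ := fun s => act δ (h s))
      (fun s hs => (hP.dif δ (hΔ hδ) _ (h4 s hs).1.2).comp s (h4 s hs).1.1) (m δ hδ)
  have k : ∀ v ∈ V ∪ (fun δ => act δ (h 0)) '' Δ, ∃ w ∈ V, ∀ p : E → Prop,
      (∀ F, Dsc (V ∪ (fun δ => act δ (h 0)) '' Δ) F → ∀ τ τ', p (F τ) → p (F τ')) →
        (p v ↔ p w) := by
    rintro v (hv | ⟨δ, hδ, rfl⟩)
    · exact ⟨v, hv, fun _ _ => Iff.rfl⟩
    · refine ⟨_, hF.stab δ hδ _ ((h4 _ (l1.mem τ1)).2 l4), fun p hp => ?_⟩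
      have := hp _ (d δ hδ)
      rw [← l3]
      exact ⟨this τ0 τ1, this τ1 τ0⟩
  have hU : V ∪ (fun δ => act δ (h 0)) '' Δ ⊆ U := by
    rintro v (hv | ⟨δ, hδ, rfl⟩)
    exacts [hV hv, hP.mem δ (hΔ hδ) _ h0]
  refine ⟨V ∪ (fun δ => act δ (h 0)) '' Δ, hU, Δ, hΔ, ⟨fun p hp v hv v' hv' q => ?_, ?_, ?_⟩, ?_,
    fun φ p1 p2 => ?_⟩
  · obtain ⟨w, w1, w2⟩ := k v hv
    obtain ⟨w', w1', w2'⟩ := k v' hv'
    exact (w2' p hp).2 (hF.conn p (fun F hD => hp F (hD.mono Set.subset_union_left)) w w1 w' w1'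
      ((w2 p hp).1 q))
  · rintro δ hδ v (hv | ⟨δ', hδ', rfl⟩)
    · exact Or.inl (hF.stab δ hδ v hv)
    · exact Or.inr ⟨δ * δ', Δ.mul_mem hδ hδ', hP.mul _ (hΔ hδ) _ (hΔ hδ') _ h0⟩
  · obtain ⟨S, s1, s2, η, hη, s3⟩ := hF.cof
    refine ⟨insert (fun τ => act 1 (h (l τ))) S, s1.insert _, ?_, min η τ0.im,
      lt_min hη τ0.im_pos, ?_⟩
    · rintro F (rfl | hS)
      · refine ⟨d 1 Δ.one_mem, 1, Δ.one_mem, fun σ => ?_⟩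
        simp only [l2, hP.one _ (hU ((d 1 Δ.one_mem).mem σ))]
      · exact ⟨(s2 F hS).1.mono Set.subset_union_left, (s2 F hS).2⟩
    · rintro v (hv | ⟨δ, hδ, rfl⟩)
      · obtain ⟨δ, hδ, F, hS, τ, t1, t2⟩ := s3 v hv
        exact ⟨δ, hδ, F, Or.inr hS, τ, (min_le_left _ _).trans t1, t2⟩
      · refine ⟨δ⁻¹, Δ.inv_mem hδ, _, Or.inl rfl, τ0, min_le_right _ _, ?_⟩
        rw [l3, ← hP.mul _ (hΔ (Δ.inv_mem hδ)) _ (hΔ hδ) _ h0, inv_mul_cancel]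
  · filter_upwards [Metric.ball_mem_nhds 0 hr] with s hs
    rw [← hP.one _ (h4 s hs).1.2]
    exact m 1 Δ.one_mem s hs
  · have z := h3 φ (fun v hv => p1 v (Or.inl hv)) p2
    rintro v (hv | ⟨δ, hδ, rfl⟩)
    · exact z v hv
    · have c : ContinuousAt (fun s => φ (act δ (h s))) 0 :=
        (p1 _ (Or.inr ⟨δ, hδ, rfl⟩)).continuousAt.comp_of_eq
          ((hP.dif δ (hΔ hδ) _ h0).continuousAt.comp hh.continuousAt) rfl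
      exact tendsto_nhds_unique (c.tendsto.mono_left nhdsWithin_le_nhds)
        (tendsto_const_nhds.congr' (h2.mono fun s hs => (z _ (hF.stab δ hδ _ hs)).symm))

end Pool.Agent.E7
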