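import Pool.Agent.Lib.MP_7e5527_ag.EL.MLiou

/-! Families of finite type swept out by holomorphic discs, and their Liouville property. -/

open UpperHalfPlane

noncomputable section

namespace Pool.Agent.E7

variable {T T' G : Type*} [NormedAddCommGroup T] [NormedSpace ℂ T] [NormedAddCommGroup T']
  [NormedSpace ℂ T'] [Group G]

/-- A holomorphic map from the half plane with values in `V`. -/
structure Dsc (V : Set T) (F : ℍ → T) : Prop where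
  hol : DifferentiableOn ℂ (F ∘ ofComplex) {z | 0 < z.im}
  mem : ∀ τ, F τ ∈ V

/-- `V` is connected by discs, stable under `Δ`, and covered modulo `Δ` by the upper parts of
finitely many discs that are periodic modulo `Δ`. -/
structure Fam (act : G → T → T) (V : Set T) (Δ : Subgroup G) : Prop where
  conn : ∀ p : T → Prop, (∀ F, Dsc V F → ∀ τ τ', p (F τ) → p (F τ')) →
    ∀ v ∈ V, ∀ v' ∈ V, p v → p v'
  stab : ∀ δ ∈ Δ, ∀ v ∈ V, act δ v ∈ V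
  cof : ∃ S : Set (ℍ → T), S.Finite ∧
    (∀ F ∈ S, Dsc V F ∧ ∃ δ ∈ Δ, ∀ σ, F ((1 : ℝ) +ᵥ σ) = act δ (F σ)) ∧
    ∃ η : ℝ, 0 < η ∧ ∀ v ∈ V, ∃ δ ∈ Δ, ∃ F ∈ S, ∃ τ : ℍ, η ≤ τ.im ∧ act δ v = F τ

theorem famd_box (η : ℝ) (hη : 0 < η) :
    IsCompact {σ : ℍ | |σ.re| ≤ 1 ∧ η ≤ σ.im ∧ σ.im ≤ 1} := by
  rw [isEmbedding_coe.isCompact_iff]
  have e : ((↑) : ℍ → ℂ) '' {σ : ℍ | |σ.re| ≤ 1 ∧ η ≤ σ.im ∧ σ.im ≤ 1} =
      Complex.reProdIm (Set.Icc (-1) 1) (Set.Icc η 1) := by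
    ext z
    rw [Complex.mem_reProdIm, Set.mem_Icc, ← abs_le, Set.mem_Icc]
    constructor
    · rintro ⟨σ, h, rfl⟩
      exact h
    · intro h
      exact ⟨⟨z, hη.trans_le h.2.1⟩, h, rfl⟩
  rw [e]
  exact isCompact_Icc.reProdIm isCompact_Icc

theorem famd_per {α : Type*} {w : ℍ → α} (h : ∀ σ, w ((1 : ℝ) +ᵥ σ) = w σ) (n : ℤ) (σ : ℍ) :
    w ((n : ℝ) +ᵥ σ) = w σ := by
  induction n using Int.induction_on with
  | zero => simp
  | succ n ih => rw [Int.cast_add, Int.cast_one, add_comm, add_vadd, h, ih]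
  | pred n ih =>
    rw [← h, ← add_vadd, Int.cast_sub, Int.cast_one, add_sub_cancel, ih]

theorem Sub.cont {v : ℍ → ℝ} (h : Sub v) : Continuous v := by
  obtain ⟨φ, hφ, -⟩ := h
  have e : v = fun τ => (φ.1 τ).re := funext fun τ => by rw [hφ]; rfl
  rw [e]
  exact Complex.continuous_re.comp (SmH.continuous φ)

theorem Fam.liouville {act : G → T → T} {V : Set T} {Δ : Subgroup G} (h : Fam act V Δ)
    {u : T → ℝ} (hi : ∀ δ ∈ Δ, ∀ v ∈ V, u (act δ v) = u v)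
    (hs : ∀ F, Dsc V F → Sub fun τ => u (F τ))
    (hg : ∀ F, Dsc V F → ∀ ε : ℝ, 0 < ε → ∃ C, ∀ σ : ℍ, |σ.re| ≤ 1 → 1 ≤ σ.im →
      u (F σ) ≤ C + ε * σ.im) : ∀ v ∈ V, ∀ v' ∈ V, u v = u v' := by
  obtain ⟨S, hS, hT, η, hη, hc⟩ := h.cof
  intro v hv v' hv'
  have hη' : 0 < min η 1 := lt_min hη one_pos
  have hB := famd_box _ hη'
  have hI : I ∈ {σ : ℍ | |σ.re| ≤ 1 ∧ min η 1 ≤ σ.im ∧ σ.im ≤ 1} := by simp
  have ex : ∀ F ∈ S, ∃ τ0, ∀ τ : ℍ, η ≤ τ.im → u (F τ) ≤ u (F τ0) := by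
    intro F hF
    obtain ⟨hD, δ, hδ, hp⟩ := hT F hF
    have hp' : ∀ σ, u (F ((1 : ℝ) +ᵥ σ)) = u (F σ) := fun σ => by rw [hp, hi δ hδ _ (hD.mem σ)]
    obtain ⟨τ0, -, h0⟩ := hB.exists_isMaxOn ⟨I, hI⟩ (hs F hD).cont.continuousOn
    refine ⟨τ0, fun τ hτ => ?_⟩
    rcases le_total 1 τ.im with h1 | h1
    · exact cusp_max (hs F hD) hp' (hg F hD) (m := u (F τ0))
        (fun σ a b => h0 ⟨a, b ▸ min_le_right _ _, b.le⟩) h1
    · rw [← famd_per (w := fun σ => u (F σ)) hp' (-⌊τ.re⌋) τ]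
      refine h0 ⟨?_, ?_, ?_⟩
      · rw [vadd_re, Int.cast_neg, neg_add_eq_sub, Int.self_sub_floor, abs_le]
        exact ⟨by linarith [Int.fract_nonneg τ.re], (Int.fract_lt_one _).le⟩
      · rw [vadd_im]
        exact (min_le_left _ _).trans hτ
      · rwa [vadd_im]
  choose! t ht using ex
  obtain ⟨-, -, F1, hF1, -⟩ := hc v hv
  obtain ⟨F0, hF0, h0⟩ := Set.exists_max_image S (fun F => u (F (t F))) hS ⟨F1, hF1⟩
  have hm : ∀ w ∈ V, u w ≤ u (F0 (t F0)) := by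
    intro w hw
    obtain ⟨δ, hδ, F, hF, τ, hτ, e⟩ := hc w hw
    rw [← hi δ hδ w hw, e]
    exact (ht F hF τ hτ).trans (h0 F hF)
  have key := h.conn (fun w => u w = u (F0 (t F0))) (fun F hF τ τ' e => by
    rw [← e]
    exact strong_max (hs F hF) (fun σ => e ▸ hm _ (hF.mem σ)) τ') _ ((hT F0 hF0).1.mem (t F0))
  rw [key v hv rfl, key v' hv' rfl]

theorem Fam.liouville_hol {act : G → T → T} {V : Set T} {Δ : Subgroup G} (h : Fam act V Δ)
    {φ : T → ℂ} (hi : ∀ δ ∈ Δ, ∀ v ∈ V, φ (act δ v) = φ v)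
    (hh : ∀ F, Dsc V F → DifferentiableOn ℂ ((fun τ => φ (F τ)) ∘ ofComplex) {z | 0 < z.im})
    (hp : ∀ v ∈ V, 0 < (φ v).im) : ∀ v ∈ V, ∀ v' ∈ V, φ v = φ v' := by
  have h1 : ∀ v ∈ V, 1 ≤ (φ v + Complex.I).im := fun v hv => by
    have := hp v hv
    simp only [Complex.add_im, Complex.I_im]
    linarith
  have h0 : ∀ v ∈ V, φ v + Complex.I ≠ 0 := fun v hv e => by
    have := h1 v hv
    rw [e, Complex.zero_im] at this
    linarith
  have hd : ∀ F, Dsc V F → DifferentiableOn ℂ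
      ((fun τ => (φ (F τ) + Complex.I)⁻¹) ∘ ofComplex) {z | 0 < z.im} := fun F hF =>
    ((hh F hF).add_const Complex.I).inv fun z _ => h0 _ (hF.mem _)
  have hc := h.liouville (u := fun v => Complex.normSq (φ v + Complex.I)⁻¹)
    (fun d hd v hv => by simp only [hi d hd v hv]) (fun F hF => by
      let ψ : SmH := ⟨_, hol_mem (hd F hF)⟩
      refine ⟨ψ * star ψ, fun τ => mliou_mul_star ψ τ, fun τ => ?_⟩
      rw [mliou_lap (D2_hol (hd F hF)), mliou_mul_star]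
      exact Complex.normSq_nonneg _) (fun F hF ε hε => ⟨1, fun σ _ _ => by
      have e : 1 ≤ Complex.normSq (φ (F σ) + Complex.I) := by
        have := h1 _ (hF.mem σ)
        rw [Complex.normSq_apply]
        nlinarith [mul_self_nonneg (φ (F σ) + Complex.I).re]
      have e2 := mul_pos hε σ.im_pos
      have e3 := inv_le_one_of_one_le₀ e
      rw [map_inv₀]
      linarith⟩)
  intro v hv v' hv'
  refine (h.conn (fun w => φ w = φ v) (fun F hF τ τ' e => ?_) v hv v' hv' rfl).symm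
  let ψ : SmH := ⟨_, hol_mem (hd F hF)⟩
  have k2 : D2 ψ = 0 := D2_hol (hd F hF)
  have k0 := (D_of_const (φ := ψ * star ψ) fun σ σ' => by
    rw [mliou_mul_star, mliou_mul_star]
    exact congrArg _ (hc _ (hF.mem _) _ (hF.mem _))).2
  have k1 : D1 ψ = 0 := Subtype.ext (funext fun σ => by
    have e := mliou_mul_star (D1 ψ) σ
    rw [← mliou_lap k2, k0, map_zero] at e
    exact Complex.normSq_eq_zero.1 (Complex.ofReal_eq_zero.1 e.symm))
  have k := const_of_D k1 k2 τ' τ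
  rw [← e]
  simpa [ψ] using k

theorem Dsc.map {V : Set T} {F : ℍ → T} (h : Dsc V F) (L : T →L[ℂ] T') :
    Dsc (L '' V) fun τ => L (F τ) :=
  ⟨L.differentiable.comp_differentiableOn h.hol, fun τ => ⟨_, h.mem τ, rfl⟩⟩

theorem Fam.map {act : G → T → T} {act' : G → T' → T'} {V : Set T} {Δ : Subgroup G}
    (h : Fam act V Δ) (L : T →L[ℂ] T') (hL : ∀ δ ∈ Δ, ∀ v ∈ V, L (act δ v) = act' δ (L v)) :
    Fam act' (L '' V) Δ where
  conn := by
    rintro p hp _ ⟨v, hv, rfl⟩ _ ⟨v', hv', rfl⟩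
    exact h.conn (fun w => p (L w)) (fun F hF => hp _ (hF.map L)) v hv v' hv'
  stab := by
    rintro δ hδ _ ⟨v, hv, rfl⟩
    exact ⟨_, h.stab δ hδ v hv, hL δ hδ v hv⟩
  cof := by
    obtain ⟨S, hS, hT, η, hη, hc⟩ := h.cof
    refine ⟨(fun F τ => L (F τ)) '' S, hS.image _, ?_, η, hη, ?_⟩
    · rintro _ ⟨F, hF, rfl⟩
      obtain ⟨hD, δ, hδ, e⟩ := hT F hF
      exact ⟨hD.map L, δ, hδ, fun σ => by simp only [e, hL δ hδ _ (hD.mem σ)]⟩
    · rintro _ ⟨v, hv, rfl⟩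
      obtain ⟨δ, hδ, F, hF, τ, hτ, e⟩ := hc v hv
      exact ⟨δ, hδ, _, ⟨F, hF, rfl⟩, τ, hτ, by simp only [← e, hL δ hδ v hv]⟩

end Pool.Agent.E7
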