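import Pool.Agent.Lib.MP_7e5527_ag.EF.FamE

/-! The line minus a finite set is covered by finitely many punctured discs. -/

open UpperHalfPlane Filter Topology

noncomputable section

namespace Pool.Agent.E7

open Function.Periodic in
theorem fdisc_dsc {V : Set ℂ} (φ : ℂ → ℂ) (hφ : ∀ w, w ≠ 0 → DifferentiableAt ℂ φ w)
    (hV : ∀ w, w ≠ 0 → ‖w‖ < 1 → φ w ∈ V) : Dsc V (fun τ : ℍ => φ (qParam 1 τ)) ∧
      ∀ σ : ℍ, φ (qParam 1 ((1 : ℝ) +ᵥ σ : ℍ)) = φ (qParam 1 σ) := by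
  refine ⟨⟨fun z hz => ?_, fun τ => hV _ (qParam_ne_zero _) (norm_qParam_lt_one one_pos τ.im_pos)⟩,
    fun σ => congrArg φ ?_⟩
  · have h : DifferentiableAt ℂ (φ ∘ qParam 1) z :=
      (hφ _ (qParam_ne_zero z)).comp z (differentiable_qParam z)
    refine h.differentiableWithinAt.congr (fun y hy => ?_) ?_
    · simp only [Function.comp, ofComplex_apply_of_im_pos hy]
    · simp only [Function.comp, ofComplex_apply_of_im_pos hz]
  · rw [coe_vadd, qParam, qParam, ← Complex.exp_periodic (2 * Real.pi * Complex.I * σ / (1 : ℝ))]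
    exact congrArg _ (by push_cast; ring)

open Function.Periodic in
theorem fdisc_surj {w : ℂ} (h0 : w ≠ 0) (h1 : ‖w‖ ≤ 1 / 2) :
    ∃ τ : ℍ, Real.log 2 / (2 * Real.pi) ≤ τ.im ∧ qParam 1 τ = w := by
  have h2 : Real.log 2 / (2 * Real.pi) ≤ (invQParam 1 w).im := by
    have h3 := Real.log_le_log (norm_pos_iff.2 h0) h1
    rw [one_div, Real.log_inv] at h3
    rw [im_invQParam, div_mul_eq_mul_div]
    exact div_le_div_of_nonneg_right (by linarith) (by positivity)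
  exact ⟨⟨invQParam 1 w, lt_of_lt_of_le (div_pos (Real.log_pos one_lt_two) (by positivity)) h2⟩, h2,
    qParam_right_inv one_ne_zero h0⟩

theorem fdisc_aff {c s : ℂ} {ρ : ℝ} (hρ : 0 < ρ) (h0 : s ≠ c) (h1 : ‖s - c‖ ≤ ρ / 2) :
    ∃ τ : ℍ, Real.log 2 / (2 * Real.pi) ≤ τ.im ∧ c + ρ * Function.Periodic.qParam 1 τ = s := by
  have h2 : (ρ : ℂ) ≠ 0 := Complex.ofReal_ne_zero.2 hρ.ne'
  obtain ⟨τ, h3, h4⟩ := fdisc_surj (div_ne_zero (sub_ne_zero.2 h0) h2) (by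
    rw [norm_div, Complex.norm_of_nonneg hρ.le, div_le_iff₀ hρ]
    linarith)
  exact ⟨τ, h3, by rw [h4, mul_div_cancel₀ _ h2, add_sub_cancel]⟩

theorem fdisc_loc {S : Set ℂ} (hS : S.Finite) (x : ℂ) : ∃ (c : ℂ) (ρ : ℝ), 0 < ρ ∧
    (∀ w : ℂ, w ≠ 0 → ‖w‖ < 1 → c + ρ * w ∈ Sᶜ) ∧
    {s | s ∉ S → s ≠ c ∧ ‖s - c‖ ≤ ρ / 2} ∈ 𝓝 x := by
  obtain ⟨ε, hε, h⟩ := Metric.isOpen_iff.1 (hS.sdiff (t := {x})).isClosed.isOpen_compl x (by simp)
  have h1 : ∀ w : ℂ, ‖w‖ < 1 → ‖((ε / 2 : ℝ) : ℂ) * w‖ < ε / 2 := fun w hw => by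
    rw [norm_mul, Complex.norm_of_nonneg (half_pos hε).le]
    exact mul_lt_of_lt_one_right (half_pos hε) hw
  have h2 : ‖((ε / 8 : ℝ) : ℂ)‖ = ε / 8 := Complex.norm_of_nonneg (by positivity)
  by_cases hx : x ∈ S
  · refine ⟨x, ε / 2, half_pos hε, fun w h0 hw hs => h ?_ ⟨hs, fun e => ?_⟩,
      mem_of_superset (Metric.ball_mem_nhds x (half_pos (half_pos hε))) fun s hs hs' =>
        ⟨fun e => hs' (e ▸ hx), (mem_ball_iff_norm.1 hs).le⟩⟩
    · rw [mem_ball_iff_norm, add_sub_cancel_left]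
      linarith [h1 w hw]
    · exact mul_ne_zero (Complex.ofReal_ne_zero.2 (half_pos hε).ne') h0 (add_eq_left.1 e)
  · refine ⟨x + (ε / 8 : ℝ), ε / 2, half_pos hε, fun w _ hw hs => h ?_ ⟨hs, fun e => hx (e ▸ hs)⟩,
      mem_of_superset (Metric.ball_mem_nhds x (by positivity : 0 < ε / 8)) fun s hs _ => ?_⟩
    · rw [mem_ball_iff_norm, add_assoc, add_sub_cancel_left]
      linarith [h1 w hw, norm_add_le ((ε / 8 : ℝ) : ℂ) (((ε / 2 : ℝ) : ℂ) * w)]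
    · rw [mem_ball_iff_norm] at hs
      refine ⟨fun e => ?_, ?_⟩
      · rw [e, add_sub_cancel_left, h2] at hs
        exact hs.false
      · rw [← sub_sub]
        linarith [norm_sub_le (s - x) ((ε / 8 : ℝ) : ℂ)]

/-- The maps are `c + ρ * q τ` and `R / q τ` with `q = Function.Periodic.qParam 1`. -/
theorem exists_discs {S : Set ℂ} (hS : S.Finite) : ∃ L : Set (ℍ → ℂ), L.Finite ∧
    (∀ l ∈ L, Dsc Sᶜ l ∧ ∀ σ, l ((1 : ℝ) +ᵥ σ) = l σ) ∧
    ∃ η : ℝ, 0 < η ∧ ∀ s ∉ S, ∃ l ∈ L, ∃ τ : ℍ, η ≤ τ.im ∧ l τ = s := by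
  obtain ⟨R, hR, h⟩ := hS.isBounded.subset_ball_lt 0 0
  choose c ρ h0 h1 h2 using fdisc_loc hS
  obtain ⟨t, -, ht⟩ := (isCompact_closedBall (0 : ℂ) (2 * R)).elim_nhds_subcover _ fun x _ => h2 x
  have hR' : (R : ℂ) ≠ 0 := Complex.ofReal_ne_zero.2 hR.ne'
  refine ⟨insert (fun τ : ℍ => R / Function.Periodic.qParam 1 τ)
    ((fun x (τ : ℍ) => c x + ρ x * Function.Periodic.qParam 1 τ) '' t),
    (t.finite_toSet.image _).insert _, ?_, Real.log 2 / (2 * Real.pi),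
    div_pos (Real.log_pos one_lt_two) (by positivity), fun s hs => ?_⟩
  · rintro l (rfl | ⟨x, -, rfl⟩)
    · refine fdisc_dsc (fun w => R / w) (fun w hw => by fun_prop (disch := exact hw))
        fun w hw hw' hs => ?_
      have h3 := mem_ball_zero_iff.1 (h hs)
      rw [norm_div, Complex.norm_of_nonneg hR.le, div_lt_iff₀ (norm_pos_iff.2 hw)] at h3
      nlinarith
    · exact fdisc_dsc (fun w => c x + ρ x * w) (fun w _ => by fun_prop) (h1 x)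
  · by_cases h3 : ‖s‖ ≤ 2 * R
    · obtain ⟨x, hx, h4⟩ := Set.mem_iUnion₂.1 (ht (mem_closedBall_zero_iff.2 h3))
      exact ⟨_, .inr ⟨x, hx, rfl⟩, fdisc_aff (h0 x) (h4 hs).1 (h4 hs).2⟩
    · have h4 : 0 < ‖s‖ := by linarith [not_le.1 h3]
      obtain ⟨τ, h5, h6⟩ := fdisc_surj (div_ne_zero hR' (norm_pos_iff.1 h4)) (by
        rw [norm_div, Complex.norm_of_nonneg hR.le, div_le_iff₀ h4]
        linarith [not_le.1 h3])
      exact ⟨_, .inl rfl, τ, h5, by simp only [h6, div_div_cancel₀ hR']⟩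

/-- A periodic disc in a punctured ball whose image is a punctured neighbourhood, and a periodic
disc in the ball through the centre. -/
theorem exists_disc0 {r : ℝ} (hr : 0 < r) :
    (∃ l : ℍ → ℂ, Dsc (Metric.ball 0 r \ {0}) l ∧ ∀ᶠ s in 𝓝[≠] (0 : ℂ), ∃ τ, l τ = s) ∧
    ∃ l : ℍ → ℂ, Dsc (Metric.ball 0 r) l ∧ (∀ σ, l ((1 : ℝ) +ᵥ σ) = l σ) ∧
      (∃ τ, l τ = 0) ∧ ∃ τ, l τ ≠ 0 := by
  have h1 : ∀ w : ℂ, ‖w‖ < 1 → ‖((r / 2 : ℝ) : ℂ) * w‖ < r / 2 := fun w hw => by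
    rw [norm_mul, Complex.norm_of_nonneg (half_pos hr).le]
    exact mul_lt_of_lt_one_right (half_pos hr) hw
  have h2 : ‖((r / 8 : ℝ) : ℂ)‖ = r / 8 := Complex.norm_of_nonneg (by positivity)
  have h3 : ((r / 8 : ℝ) : ℂ) ≠ 0 := Complex.ofReal_ne_zero.2 (by positivity)
  constructor
  · refine ⟨_, (fdisc_dsc (V := Metric.ball 0 r \ {0}) (fun w => 0 + (r / 2 : ℝ) * w)
      (fun w _ => by fun_prop) fun w h0 hw => ⟨?_, ?_⟩).1, ?_⟩
    · rw [mem_ball_zero_iff, zero_add]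
      linarith [h1 w hw]
    · rw [zero_add]
      exact mul_ne_zero (Complex.ofReal_ne_zero.2 (half_pos hr).ne') h0
    · filter_upwards [self_mem_nhdsWithin, mem_nhdsWithin_of_mem_nhds
        (Metric.ball_mem_nhds (0 : ℂ) (half_pos (half_pos hr)))] with s hs hs'
      exact (fdisc_aff (half_pos hr) hs (mem_ball_iff_norm.1 hs').le).imp fun _ => And.right
  · obtain ⟨h4, h5⟩ := fdisc_dsc (V := Metric.ball 0 r) (fun w => (r / 8 : ℝ) + (r / 2 : ℝ) * w)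
      (fun w _ => by fun_prop) fun w _ hw => by
        rw [mem_ball_zero_iff]
        linarith [h1 w hw, norm_add_le ((r / 8 : ℝ) : ℂ) (((r / 2 : ℝ) : ℂ) * w)]
    refine ⟨_, h4, h5, (fdisc_aff (half_pos hr) h3.symm ?_).imp fun _ => And.right, ?_⟩
    · rw [zero_sub, norm_neg]
      linarith
    · obtain ⟨τ, -, h6⟩ := fdisc_aff (c := (r / 8 : ℝ)) (s := -(r / 8 : ℝ)) (half_pos hr)
        (fun e => h3 (self_eq_neg.1 e.symm)) (by
          linarith [norm_sub_le (-((r / 8 : ℝ) : ℂ)) ((r / 8 : ℝ) : ℂ), norm_neg ((r / 8 : ℝ) : ℂ)])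
      exact ⟨τ, h6.trans_ne (neg_ne_zero.2 h3)⟩

end Pool.Agent.E7
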