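import Pool.Agent.Lib.MP_7e5527_ag.EF.FamD

/-! Algebraic germs, finite unramified covers of a punctured line, and their analytic lifts. -/

open UpperHalfPlane Filter Topology

noncomputable section

namespace Pool.Agent.E7

/-- The germ of `f` at `0` is algebraic over the polynomials. -/
def AlgG (f : ℂ → ℂ) : Prop :=
  ∃ P : Polynomial (Polynomial ℂ), P ≠ 0 ∧ ∀ᶠ s in 𝓝 (0 : ℂ), P.evalEval s (f s) = 0

variable {W E G : Type*} [NormedAddCommGroup W] [NormedSpace ℂ W] [NormedAddCommGroup E]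
  [NormedSpace ℂ E] [Group G]

/-- `Y` is a finite unramified cover of the complement of `S`. -/
structure Etl (S : Set ℂ) (Y : Set (ℂ × W)) : Prop where
  fin : S.Finite
  base : ∀ y ∈ Y, y.1 ∉ S
  loc : ∀ y ∈ Y, ∃ ρ : ℂ → W, AnalyticAt ℂ ρ y.1 ∧ ∀ᶠ z in 𝓝 y, (z ∈ Y ↔ z.2 = ρ z.1)
  bdd : ∀ s ∉ S, ∃ R : ℝ, ∀ᶠ t in 𝓝 s, ∀ c, (t, c) ∈ Y → ‖c‖ ≤ R
  cl : ∀ y : ℂ × W, y.1 ∉ S → y ∉ Y → ∀ᶠ z in 𝓝 y, z ∉ Y

/-- `C` is an analytic covering of the complement of `S`, with finite fibres modulo `Γ`. -/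
structure Cvg (act : G → E → E) (Γ : Subgroup G) (S : Set ℂ) (C : Set (ℂ × E)) : Prop where
  fin : S.Finite
  base : ∀ v ∈ C, v.1 ∉ S
  unif : ∀ s ∉ S, ∃ r : ℝ, 0 < r ∧ ∀ v ∈ C, v.1 ∈ Metric.ball s r → ∃ σ : ℂ → E,
    DifferentiableOn ℂ σ (Metric.ball s r) ∧ σ v.1 = v.2 ∧ ∀ t ∈ Metric.ball s r, (t, σ t) ∈ C
  uniq : ∀ v ∈ C, ∃ N ∈ 𝓝 v, Set.InjOn Prod.fst (C ∩ N)
  mem : ∀ g ∈ Γ, ∀ v ∈ C, (v.1, act g v.2) ∈ C
  dif : ∀ g ∈ Γ, ∀ v ∈ C, DifferentiableAt ℂ (act g) v.2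
  one : ∀ v ∈ C, act 1 v.2 = v.2
  mul : ∀ g ∈ Γ, ∀ g' ∈ Γ, ∀ v ∈ C, act (g * g') v.2 = act g (act g' v.2)
  fib : ∀ s, ∃ F : Set E, F.Finite ∧ ∀ e, (s, e) ∈ C → ∃ g ∈ Γ, act g e ∈ F

/-- The action on the second factor. -/
def actP (act : G → E → E) (g : G) (v : ℂ × E) : ℂ × E := (v.1, act g v.2)

/-- An action by holomorphic maps on an open set, with an invariant map that is locally
injective and proper modulo the action. -/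
structure Prp (act : G → E → E) (Γ : Subgroup G) (U : Set E) (Ψ : E → W) : Prop where
  op : IsOpen U
  mem : ∀ g ∈ Γ, ∀ e ∈ U, act g e ∈ U
  dif : ∀ g ∈ Γ, ∀ e ∈ U, DifferentiableAt ℂ (act g) e
  one : ∀ e ∈ U, act 1 e = e
  mul : ∀ g ∈ Γ, ∀ g' ∈ Γ, ∀ e ∈ U, act (g * g') e = act g (act g' e)
  hol : ∀ e ∈ U, DifferentiableAt ℂ Ψ e
  inv : ∀ g ∈ Γ, ∀ e ∈ U, Ψ (act g e) = Ψ e
  left : ∀ e ∈ U, ∃ ξ : W → E, (∀ᶠ w in 𝓝 (Ψ e), DifferentiableAt ℂ ξ w) ∧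
    ∀ᶠ e' in 𝓝 e, ξ (Ψ e') = e'
  prop : ∀ R : ℝ, ∃ K, IsCompact K ∧ K ⊆ U ∧ ∀ e ∈ U, ‖Ψ e‖ ≤ R → ∃ g ∈ Γ, act g e ∈ K

/-- Points on a local section. -/
def Sec (U : Set E) (Ψ : E → W) (Y : Set (ℂ × W)) : Set (ℂ × E) :=
  {v | ∃ σ : ℂ → E, σ v.1 = v.2 ∧
    ∀ᶠ t in 𝓝 v.1, DifferentiableAt ℂ σ t ∧ σ t ∈ U ∧ (t, Ψ (σ t)) ∈ Y}

theorem hol_cont {F : ℍ → E} (h : DifferentiableOn ℂ (F ∘ ofComplex) {z | 0 < z.im}) :
    Continuous F := by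
  have := h.continuousOn.comp_continuous continuous_coe fun τ => τ.im_pos
  simpa [Function.comp_def] using this

theorem Dsc.cont {V : Set E} {F : ℍ → E} (h : Dsc V F) : Continuous F := hol_cont h.hol

theorem Dsc.mono {V V' : Set E} {F : ℍ → E} (h : Dsc V F) (hV : V ⊆ V') : Dsc V' F :=
  ⟨h.hol, fun τ => hV (h.mem τ)⟩

theorem Dsc.comp {V : Set E} {V' : Set W} {F : ℍ → E} (h : Dsc V F) {φ : E → W}
    (hφ : ∀ v ∈ V, DifferentiableAt ℂ φ v) (hV : ∀ v ∈ V, φ v ∈ V') : Dsc V' fun τ => φ (F τ) :=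
  ⟨fun z hz => DifferentiableAt.comp_differentiableWithinAt (f := F ∘ ofComplex) z
    (hφ _ (h.mem _)) (h.hol z hz), fun τ => hV _ (h.mem τ)⟩

theorem dsc_const {V : Set E} {v : E} (h : v ∈ V) : Dsc V fun _ => v :=
  ⟨differentiableOn_const v, fun _ => h⟩

theorem AlgG.inv {f : ℂ → ℂ} (h : AlgG f) (h0 : ∀ᶠ s in 𝓝 (0 : ℂ), f s ≠ 0) :
    AlgG fun s => (f s)⁻¹ := by
  obtain ⟨P, hP, h⟩ := h
  refine ⟨P.reverse, by rwa [Ne, Polynomial.reverse_eq_zero], ?_⟩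
  filter_upwards [h, h0] with s h1 h2
  let _ := invertibleOfNonzero h2
  rw [← Polynomial.eval₂_evalRingHom] at h1
  rw [← Polynomial.eval₂_evalRingHom, ← invOf_eq_inv]
  exact (Polynomial.eval₂_reverse_eq_zero_iff _ _ _).2 h1

end Pool.Agent.E7
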