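import Pool.Agent.Lib.MP_7e5527_ag.EF.FamE

/-! Holomorphic discs lift uniquely to an analytic covering. -/

open UpperHalfPlane Filter Topology

noncomputable section

namespace Pool.Agent.E7

variable {E G : Type*} [NormedAddCommGroup E] [NormedSpace ℂ E] [Group G]
  {act : G → E → E} {Γ : Subgroup G} {S : Set ℂ} {C : Set (ℂ × E)}

theorem Cvg.eq_of (h : Cvg act Γ S C) {X : Type*} [TopologicalSpace X] [PreconnectedSpace X]
    {F F' : X → ℂ × E} (c : Continuous F) (c' : Continuous F') (m : ∀ x, F x ∈ C)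
    (m' : ∀ x, F' x ∈ C) (e : ∀ x, (F x).1 = (F' x).1) {x0 : X} (e0 : F x0 = F' x0) : F = F' := by
  have hc : IsClopen {x | F x = F' x} := by
    refine ⟨isClosed_eq c c', isOpen_iff_mem_nhds.2 fun x hx => ?_⟩
    obtain ⟨N, hN, hi⟩ := h.uniq _ (m x)
    have hN' : N ∈ 𝓝 (F' x) := by rwa [← show F x = F' x from hx]
    filter_upwards [c.continuousAt hN, c'.continuousAt hN'] with y h1 h2
    exact hi ⟨m y, h1⟩ ⟨m' y, h2⟩ (e y)
  funext x
  have := hc.eq_univ ⟨x0, e0⟩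
  exact (this ▸ Set.mem_univ x : x ∈ {x | F x = F' x})

theorem Cvg.lift_eq (h : Cvg act Γ S C) {F F' : ℍ → ℂ × E} (hF : Dsc C F) (hF' : Dsc C F')
    (e : ∀ τ, (F τ).1 = (F' τ).1) {τ0 : ℍ} (e0 : F τ0 = F' τ0) : F = F' :=
  h.eq_of hF.cont hF'.cont hF.mem hF'.mem e e0

theorem Cvg.sec_eq (h : Cvg act Γ S C) {s : ℂ} {r : ℝ} {σ σ' : ℂ → E}
    (c : ContinuousOn σ (Metric.ball s r)) (c' : ContinuousOn σ' (Metric.ball s r))
    (m : ∀ t ∈ Metric.ball s r, (t, σ t) ∈ C) (m' : ∀ t ∈ Metric.ball s r, (t, σ' t) ∈ C)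
    {t0 : ℂ} (h0 : t0 ∈ Metric.ball s r) (e : σ t0 = σ' t0) {t : ℂ} (ht : t ∈ Metric.ball s r) :
    σ t = σ' t := by
  have := Subtype.preconnectedSpace (convex_ball s r).isPreconnected
  have k := h.eq_of (X := Metric.ball s r) (F := fun x => (x.1, σ x)) (F' := fun x => (x.1, σ' x))
    (continuous_subtype_val.prodMk c.domRestrict) (continuous_subtype_val.prodMk c'.domRestrict)
    (fun x => m _ x.2) (fun x => m' _ x.2) (fun _ => rfl) (x0 := ⟨t0, h0⟩) (by simp [e])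
  exact congrArg Prod.snd (congrFun k ⟨t, ht⟩)

/-- Near a point of a local section, `C` is the graph of the section. -/
theorem Cvg.graph (h : Cvg act Γ S C) {σ : ℂ → E} {s : ℂ} (c : ContinuousAt σ s)
    (m : ∀ᶠ t in 𝓝 s, (t, σ t) ∈ C) : ∀ᶠ z in 𝓝 (s, σ s), z ∈ C → z.2 = σ z.1 := by
  obtain ⟨N, hN, hi⟩ := h.uniq _ m.self_of_nhds
  have h1 : ∀ᶠ t in 𝓝 s, (t, σ t) ∈ C ∩ N := m.and ((continuousAt_id.prodMk c) hN)
  have h2 : Tendsto Prod.fst (𝓝 (s, σ s)) (𝓝 s) := continuous_fst.continuousAt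
  filter_upwards [hN, h2.eventually h1] with z h3 h4 h5
  exact congrArg Prod.snd (hi ⟨h5, h3⟩ h4 rfl)

theorem Cvg.cov (h : Cvg act Γ S C) (hne : C.Nonempty) :
    IsCoveringMapOn (fun v : C => v.1.1) Sᶜ := by
  intro s hs
  obtain ⟨r, hr, hu⟩ := h.unif s hs
  have s0 : s ∈ Metric.ball s r := Metric.mem_ball_self hr
  obtain ⟨J, hJ⟩ : ∃ J : Set E, J = {e | (s, e) ∈ C} := ⟨_, rfl⟩
  have mJ : ∀ e, e ∈ J ↔ (s, e) ∈ C := fun e => by rw [hJ]; rfl
  let _ : TopologicalSpace J := ⊥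
  have : DiscreteTopology J := ⟨rfl⟩
  refine IsEvenlyCovered.to_isEvenlyCovered_preimage (I := J) ?_
  rcases isEmpty_or_nonempty J with hJ0 | hJ0
  · refine .of_preimage_eq_empty _ (Metric.ball_mem_nhds s hr)
      (Set.eq_empty_of_forall_notMem fun v hv => ?_)
    obtain ⟨σ, -, -, h3⟩ := hu v v.2 hv
    exact hJ0.false ⟨σ s, (mJ _).2 (h3 s s0)⟩
  choose σ d e m using fun i : J => hu (s, i.1) ((mJ _).1 i.2) s0
  have : Nonempty (ℂ → C) := ⟨fun _ => ⟨_, hne.some_mem⟩⟩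
  have cf : Continuous fun v : C => v.1.1 := continuous_fst.comp continuous_subtype_val
  refine .of_trivialization (t := Metric.isOpen_ball.trivializationDiscrete
    (fun i => {v : C | v.1.1 ∈ Metric.ball s r ∧ v.1.2 = σ i v.1.1}) (Metric.ball s r)
    (fun i W hW => ⟨fun o => (o.preimage cf).inter ?_, fun o => ?_⟩) (fun i => ?_) (fun i => ?_)
    ?_ ?_) s0
  · refine isOpen_iff_mem_nhds.2 fun v hv => ?_
    have b := Metric.isOpen_ball.mem_nhds hv.1
    have g := h.graph ((d i).continuousOn.continuousAt b) (mem_of_superset b (m i))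
    rw [← hv.2] at g
    filter_upwards [cf.continuousAt b, continuous_subtype_val.continuousAt g] with z h1 h2
    exact ⟨h1, h2 z.2⟩
  · obtain ⟨O, hO, eO⟩ := isOpen_induced_iff.1 o
    refine isOpen_iff_mem_nhds.2 fun t ht => ?_
    have b := Metric.isOpen_ball.mem_nhds (hW ht)
    have h1 : (t, σ i t) ∈ O := by
      have : (⟨_, m i t (hW ht)⟩ : C) ∈ Subtype.val ⁻¹' O := by
        rw [eO]
        exact ⟨ht, hW ht, rfl⟩
      exact this
    filter_upwards [b, (continuousAt_id.prodMk ((d i).continuousOn.continuousAt b))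
      (hO.mem_nhds h1)] with t' h2 h3
    have : (⟨_, m i t' h2⟩ : C) ∈ Subtype.val ⁻¹' O := h3
    rw [eO] at this
    exact this.1
  · intro v hv v' hv' q
    exact Subtype.ext (Prod.ext q (by rw [hv.2, hv'.2, show v.1.1 = v'.1.1 from q]))
  · intro t ht
    exact ⟨⟨_, m i t ht⟩, ⟨ht, rfl⟩, rfl⟩
  · intro i j hij
    refine Set.disjoint_left.2 fun v hi hj => hij (Subtype.ext ?_)
    have := h.sec_eq (d i).continuousOn (d j).continuousOn (m i) (m j) hi.1
      (hi.2.symm.trans hj.2) s0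
    exact (e i).symm.trans (this.trans (e j))
  · intro v hv
    obtain ⟨σ', h1, h2, h3⟩ := hu v v.2 hv
    refine Set.mem_iUnion.2 ⟨⟨σ' s, (mJ _).2 (h3 s s0)⟩, hv, ?_⟩
    rw [← h2]
    exact h.sec_eq h1.continuousOn (d _).continuousOn h3 (m _) s0 (e ⟨σ' s, _⟩).symm hv

theorem Cvg.lift (h : Cvg act Γ S C) {l : ℍ → ℂ} (hl : Dsc Sᶜ l) {τ0 : ℍ} {v : ℂ × E}
    (hv : v ∈ C) (e : l τ0 = v.1) : ∃ F, Dsc C F ∧ F τ0 = v ∧ ∀ τ, (F τ).1 = l τ := by
  obtain ⟨F, ⟨h1, h2⟩, -⟩ := (h.cov ⟨v, hv⟩).existsUnique_continuousMap_lifts ⟨l, hl.cont⟩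
    (a₀ := τ0) (e₀ := ⟨v, hv⟩) e.symm hl.mem
  have h3 : ∀ τ, (F τ).1.1 = l τ := congrFun h2
  refine ⟨fun τ => F τ, ⟨fun z hz => ?_, fun τ => (F τ).2⟩, congrArg Subtype.val h1, h3⟩
  obtain ⟨r, hr, hu⟩ := h.unif _ (hl.mem (ofComplex z))
  have s0 := Metric.mem_ball_self (x := l (ofComplex z)) hr
  obtain ⟨σ, d, e1, m⟩ := hu _ (F (ofComplex z)).2 (by rwa [h3])
  have b := Metric.isOpen_ball.mem_nhds s0
  have g := h.graph (d.continuousOn.continuousAt b) (mem_of_superset b m)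
  have e2 : (l (ofComplex z), σ (l (ofComplex z))) = (F (ofComplex z)).1 := by
    rw [← h3, e1]
  rw [e2] at g
  have c : ContinuousAt (fun w => (F (ofComplex w)).1) z :=
    (continuous_subtype_val.comp F.continuous).continuousAt.comp
      (contMDiffAt_ofComplex (n := 0) hz).continuousAt
  have d1 := (hl.hol z hz).differentiableAt (isOpen_upperHalfPlaneSet.mem_nhds hz)
  refine ((d1.prodMk ((d.differentiableAt b).comp z d1)).congr_of_eventuallyEq
    ?_).differentiableWithinAt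
  filter_upwards [c g] with w hw
  exact Prod.ext (h3 _) ((hw (F _).2).trans (congrArg σ (h3 _)))

end Pool.Agent.E7
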