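import Pool.Agent.Lib.MP_7e5527_ag.E7.PsiM

/-! The ratios of the class sums are local coordinates where the Jacobian does not vanish. -/

open Filter Topology

noncomputable section

namespace Pool.Agent.E7

/-- The good open set. -/
def U0 : Set (Ix → ℂ) := {Z | Z ∈ HH ∧ ext ThF Z ≠ 0 ∧ ext JacF Z ≠ 0}

/-- The coordinates. -/
def xr (Z : Ix → ℂ) : Ix → ℂ := fun i => ext (Thi i) Z / ext ThF Z

theorem left_ext (F : Fn) {Z : Ix → ℂ} (hZ : Z ∈ HH) : ext F Z = F ⟨Z, hZ⟩ := by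
  simp [ext, ofC, hZ]

theorem left_ker {Z : HH} (hT : ThF Z ≠ 0) (hJ : JacF Z ≠ 0) {v : Ix → ℂ}
    (hv : ∀ i, fderiv ℂ (ext (Thi i)) Z v * ThF Z = Thi i Z * fderiv ℂ (ext ThF) Z v) :
    v = 0 := by
  have hd : ((Pi.evalRingHom (fun _ : HH => ℂ) Z).mapMatrix
      (Wr.brM dl (fun _ => 4) (FF Thi))).det ≠ 0 := by
    rw [← RingHom.map_det, Pi.evalRingHom_apply]
    rwa [JacF, Wr.br] at hJ
  have hr : Matrix.vecMul (fun o : Option Ix =>
      o.elim (-(∑ l, dl l ThF Z * yc v l) / (4 * ThF Z)) (yc v))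
      ((Pi.evalRingHom (fun _ : HH => ℂ) Z).mapMatrix (Wr.brM dl (fun _ => 4) (FF Thi))) = 0 := by
    funext c
    have e : ∀ F : Fn, (∑ l, dl l F Z * yc v l) * ThF Z = F Z * ∑ l, dl l ThF Z * yc v l →
        -(∑ l, dl l ThF Z * yc v l) / (4 * ThF Z) * (4 * F Z) + ∑ l, yc v l * dl l F Z = 0 := by
      intro F hF
      rw [Finset.sum_congr rfl fun l _ => mul_comm (yc v l) (dl l F Z)]
      field_simp
      linear_combination hF
    simp only [Matrix.vecMul, dotProduct, Fintype.sum_option]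
    rcases c with _ | i
    · exact e ThF (mul_comm _ _)
    · refine e (Thi i) (mul_left_cancel₀ Complex.two_pi_I_ne_zero ?_)
      have := hv i
      rw [fderiv_ext, fderiv_ext] at this
      linear_combination this
  have h0 := Matrix.eq_zero_of_vecMul_eq_zero hd hr
  have h1 : yc v = 0 := funext fun l => congrFun h0 (some l)
  rw [← pt_yc v, h1, pt]
  simp

/-- A vector in the kernel of the derivative gives a relation between the rows of `Wr.brM`
(`fderiv_ext`); then the inverse function theorem. -/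
theorem xr_inv {Z : Ix → ℂ} (h : Z ∈ U0) : ∃ ξ : (Ix → ℂ) → Ix → ℂ,
    (∀ᶠ w in 𝓝 (xr Z), DifferentiableAt ℂ ξ w) ∧ (∀ᶠ Z' in 𝓝 Z, ξ (xr Z') = Z') ∧
      ∀ᶠ w in 𝓝 (xr Z), xr (ξ w) = w := by
  obtain ⟨hZ, hT, hJ⟩ := h
  have c : ∀ {F : Fn}, Gd F → ContDiffAt ℂ 1 (ext F) Z := fun hF =>
    (hF.isHol.contDiffAt (isOpen_HH.mem_nhds hZ)).of_le (by exact_mod_cast le_top)
  have cT := c ThF_mf.gd
  have ci := fun i => c (F := Thi i) ⟨_, (Thi_spec i).1⟩
  have hx : ContDiffAt ℂ 1 xr Z := contDiffAt_pi.2 fun i => (ci i).div cT hT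
  have hD := (hx.differentiableAt one_ne_zero).hasFDerivAt
  have hinj : Function.Injective (fderiv ℂ xr Z : (Ix → ℂ) →ₗ[ℂ] Ix → ℂ) := by
    refine (injective_iff_map_eq_zero _).2 fun v hv => ?_
    refine left_ker (Z := ⟨Z, hZ⟩) (left_ext ThF hZ ▸ hT) (left_ext JacF hZ ▸ hJ) fun i => ?_
    have e : ext (Thi i) =ᶠ[𝓝 Z] fun W => xr W i * ext ThF W := by
      filter_upwards [cT.continuousAt.eventually_ne hT] with W hW
      rw [xr, div_mul_cancel₀ _ hW]
    have h1 := ((hasFDerivAt_pi'.1 hD i).mul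
      (cT.differentiableAt one_ne_zero).hasFDerivAt).congr_of_eventuallyEq e
    have h2 : fderiv ℂ xr Z v = 0 := hv
    rw [← left_ext ThF hZ, ← left_ext (Thi i) hZ]
    show fderiv ℂ (ext (Thi i)) Z v * _ = _ * fderiv ℂ (ext ThF) Z v
    rw [h1.fderiv]
    simp [h2, xr]
    field_simp
  let D : (Ix → ℂ) ≃L[ℂ] Ix → ℂ := (LinearEquiv.ofInjectiveEndo _ hinj).toContinuousLinearEquiv
  have hD' : HasFDerivAt xr (D : (Ix → ℂ) →L[ℂ] Ix → ℂ) Z := hD
  have hs := hx.hasStrictFDerivAt' hD' one_ne_zero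
  refine ⟨hx.localInverse hD' one_ne_zero, ?_, hs.eventually_left_inverse,
    hs.eventually_right_inverse⟩
  filter_upwards [(hx.to_localInverse hD' one_ne_zero).eventually (by simp)] with w hw
  exact hw.differentiableAt one_ne_zero

end Pool.Agent.E7
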