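import Pool.Agent.Lib.MP_7e5527_ag.EL.RD

/-! Forms of level one that control a form of higher level. -/

noncomputable section

namespace Pool.Agent.E7

/-- Among `n + 1` integers one is far from all of `n` complex numbers. -/
theorem pr3_far {τ : Type} [Fintype τ] (f : τ → ℂ) :
    ∃ a : Fin (Fintype.card τ + 1), ∀ t, 1 / 2 ≤ ‖f t - ((a : ℕ) : ℂ)‖ := by
  by_contra hc
  push Not at hc
  choose s hs using hc
  obtain ⟨a, b, hab, e⟩ := Fintype.exists_ne_map_eq_of_card_lt s (by simp)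
  have h1 := hs a
  have h2 := hs b
  rw [← e] at h2
  have h3 : ‖((a : ℕ) : ℂ) - ((b : ℕ) : ℂ)‖ < 1 := by
    have e2 : ((a : ℕ) : ℂ) - ((b : ℕ) : ℂ) =
        (f (s a) - ((b : ℕ) : ℂ)) - (f (s a) - ((a : ℕ) : ℂ)) := by ring
    rw [e2]
    have := norm_sub_le (f (s a) - ((b : ℕ) : ℂ)) (f (s a) - ((a : ℕ) : ℂ))
    linarith
  have e3 : ((a : ℕ) : ℂ) - ((b : ℕ) : ℂ) = ((((a : ℕ) : ℤ) - ((b : ℕ) : ℤ) : ℤ) : ℂ) := by
    push_cast; ring
  rw [e3, Complex.norm_intCast, ← Int.cast_abs, ← Int.cast_one, Int.cast_lt] at h3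
  have h4 := abs_lt.1 h3
  exact hab (Fin.ext (by omega))

/-- A bound for all the products bounds every factor. -/
theorem pr3_bound {τ : Type} [Fintype τ] (f : τ → ℂ) (t0 : τ) {R : ℝ}
    (h : ∀ a : Fin (Fintype.card τ + 1), ‖∏ t, (f t - ((a : ℕ) : ℂ))‖ ≤ R) :
    ‖f t0‖ ≤ 2 ^ Fintype.card τ * |R| + Fintype.card τ + 1 := by
  classical
  obtain ⟨a, ha⟩ := pr3_far f
  have h1 := h a
  rw [norm_prod, ← Finset.mul_prod_erase _ _ (Finset.mem_univ t0)] at h1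
  have h2 : (1 / 2 : ℝ) ^ Fintype.card τ ≤
      ∏ t ∈ Finset.univ.erase t0, ‖f t - ((a : ℕ) : ℂ)‖ := by
    calc (1 / 2 : ℝ) ^ Fintype.card τ ≤ (1 / 2 : ℝ) ^ (Finset.univ.erase t0).card :=
          pow_le_pow_of_le_one (by norm_num) (by norm_num) (Finset.card_le_univ _)
      _ = ∏ _t ∈ Finset.univ.erase t0, (1 / 2 : ℝ) := (Finset.prod_const _).symm
      _ ≤ _ := Finset.prod_le_prod (fun _ _ => by norm_num) fun t _ => ha t
  have h3 : ‖f t0 - ((a : ℕ) : ℂ)‖ * (1 / 2 : ℝ) ^ Fintype.card τ ≤ |R| :=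
    ((mul_le_mul_of_nonneg_left h2 (norm_nonneg _)).trans h1).trans (le_abs_self R)
  have h4 : ‖f t0 - ((a : ℕ) : ℂ)‖ ≤ 2 ^ Fintype.card τ * |R| := by
    have h5 : (0 : ℝ) < 2 ^ Fintype.card τ := by positivity
    rw [one_div, inv_pow, ← div_eq_mul_inv, div_le_iff₀ h5] at h3
    linarith
  have h6 : ‖((a : ℕ) : ℂ)‖ ≤ Fintype.card τ := by
    rw [Complex.norm_natCast]
    exact_mod_cast Nat.lt_succ_iff.1 a.2
  have h7 := norm_add_le (f t0 - ((a : ℕ) : ℂ)) ((a : ℕ) : ℂ)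
  rw [sub_add_cancel] at h7
  linarith

/-- `N a` is the product of `sl 4 (rep t) F0 - a • ThF` over the cosets of the stabiliser. -/
theorem exists_norms {F0 : Fn} (h : MF 4 F0) : ∃ (n : ℕ) (N : Fin (n + 1) → Fn),
    (∀ a, MF (n * 4) (N a) ∧ Inv Gam (n * 4) (N a)) ∧ ∀ R : ℝ, ∃ C : ℝ, 0 < C ∧ ∀ Z : HH,
      ThF Z ≠ 0 → (∀ a, ‖N a Z / ThF Z ^ n‖ ≤ R) → ‖F0 Z‖ ≤ C * ‖ThF Z‖ := by
  have hD := stabF_le 4 (fun _ : Unit => F0)
  have hi : Inv (stabF 4 (fun _ : Unit => F0)) 4 F0 := fun δ hδ => hδ.2 ()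
  obtain ⟨τ, _, ⟨T⟩⟩ := exists_trans hD (stabF_index 4 _ fun _ => h.2)
  have hw : ((Fintype.card τ : ℕ) : ℤ) * 4 = ∑ _t : τ, (4 : ℤ) := by simp
  refine ⟨Fintype.card τ, fun a => ∏ t, (sl 4 (T.rep t) F0 + (-((a : ℕ) : ℂ)) • ThF),
    fun a => ⟨?_, fun g hg => ?_⟩, fun R => ⟨2 ^ Fintype.card τ * |R| + Fintype.card τ + 1,
      by positivity, fun Z hZ hR => ?_⟩⟩
  · rw [hw]
    exact MF.prod _ fun t _ => (h.slash (Gam_le (T.mem t))).add (ThF_mf.smul _)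
  · obtain ⟨σ, hσ⟩ := T.perm g hg
    beta_reduce
    rw [hw, sl_prod (Gam_le hg),
      ← Equiv.prod_comp σ fun t => sl 4 (T.rep t) F0 + (-((a : ℕ) : ℂ)) • ThF]
    refine Finset.prod_congr rfl fun t _ => ?_
    obtain ⟨δ, hδ, e⟩ := hσ t
    rw [sl_add, sl_smul, ThF_inv g hg, ← sl_mul 4 (Gam_le (T.mem t)) (Gam_le hg), e,
      sl_mul 4 (Gam_le (hD hδ)) (Gam_le (T.mem _)), hi δ hδ]
  · obtain ⟨t0, δ, hδ, e⟩ := T.cover 1 (one_mem _)
    have e0 : sl 4 (T.rep t0) F0 = F0 := by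
      have := sl_mul 4 (Gam_le (hD hδ)) (Gam_le (T.mem t0)) F0
      rw [← e, sl_one, hi δ hδ] at this
      exact this.symm
    have hb := pr3_bound (fun t => sl 4 (T.rep t) F0 Z / ThF Z) t0 (R := R) fun a => by
      have e1 : ∏ t, (sl 4 (T.rep t) F0 Z / ThF Z - ((a : ℕ) : ℂ)) =
          (∏ t, (sl 4 (T.rep t) F0 + (-((a : ℕ) : ℂ)) • ThF)) Z / ThF Z ^ Fintype.card τ := by
        have e2 : ThF Z ^ Fintype.card τ = ∏ _t : τ, ThF Z := by simp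
        rw [Finset.prod_apply, e2, ← Finset.prod_div_distrib]
        refine Finset.prod_congr rfl fun t _ => ?_
        rw [Pi.add_apply, Pi.smul_apply, smul_eq_mul]
        field_simp
        ring
      rw [e1]
      exact hR a
    rw [e0, norm_div, div_le_iff₀ (norm_pos_iff.2 hZ)] at hb
    exact hb

end Pool.Agent.E7
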