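import Pool.Agent.Lib.MP_7e5527_ag.EF.PR2
import Pool.Agent.Lib.MP_7e5527_ag.EF.PR3
import Pool.Agent.Lib.MP_7e5527_ag.EF.Left
import Pool.Agent.Lib.MP_7e5527_ag.EO.DSup

/-! Properness: bounded ratios of forms force compactness modulo the group. -/

noncomputable section

namespace Pool.Agent.E7

theorem ext_act {k : ℤ} {F : Fn} {g : Gb} (hg : g ∈ GG) {Z : Ix → ℂ} (hZ : Z ∈ HH) :
    ext F (act g Z) = jf g Z ^ k * ext (sl k g F) Z := by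
  rw [ext, ext, sl, coe_ofC hZ, ← mul_assoc, zpow_neg,
    mul_inv_cancel₀ (zpow_ne_zero k (act_spec hg hZ).1), one_mul]

/-- The ratio of a form by a power of `ThF`, at a translate. -/
theorem ratio_act {w : ℕ} {F : Fn} {γ : Gb} (hγ : γ ∈ Gam) {Z : Ix → ℂ} (hZ : Z ∈ HH) :
    ext F (act γ Z) / ext ThF (act γ Z) ^ w = ext (sl (w * 4) γ F) Z / ext ThF Z ^ w := by
  have h := (act_spec (Gam_le hγ) hZ).1
  rw [ext_act (k := w * 4) (Gam_le hγ) hZ, ext_act (k := 4) (Gam_le hγ) hZ, ThF_inv γ hγ, mul_pow,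
    ← zpow_natCast, ← zpow_mul, mul_comm (4 : ℤ), mul_div_mul_left _ _ (zpow_ne_zero _ h)]

theorem U0.act_mem {γ : Gb} (hγ : γ ∈ Gam2) {Z : Ix → ℂ} (h : Z ∈ U0) : act γ Z ∈ U0 := by
  have hg := Gam_le (Gam2_le hγ)
  obtain ⟨h1, h2, -⟩ := act_spec hg h.1
  refine ⟨h2, ?_, fun e => ?_⟩
  · rw [ext_act (k := 4) hg h.1, ThF_inv γ (Gam2_le hγ)]
    exact mul_ne_zero (zpow_ne_zero _ h1) h.2.1
  · have := ext_act (k := 260) (F := JacF ^ 2) hg h.1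
    rw [JacF_m2.2 γ hγ] at this
    exact mul_ne_zero (zpow_ne_zero _ h1) (pow_ne_zero 2 h.2.2)
      (this.symm.trans ((pow_eq_zero_iff two_ne_zero).2 e))

theorem FF_mf (a : Option Ix) : MF 4 (FF Thi a) := by
  cases a
  exacts [ThF_mf, (Thi_spec _).2]

theorem prm_decay {γ : Gb} (hγ : γ ∈ Gam) {η : ℝ} (hη : 0 < η) : ∃ L : ℝ, ∀ Z ∈ HH, ∀ Y,
    NearS Z Y → η ≤ ‖ext (sl 260 γ (JacF ^ 2)) Z‖ → dg Y 2 ≤ L := by
  have g : ∀ a, Gd (sl 4 γ (FF Thi a)) := fun a => (FF_mf a).1 γ hγ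
  obtain ⟨L, hL⟩ := near_decay (br_mem GQ (fun i _ hF => GQ.dl_mem i hF) (fun _ => 4) g)
    (fun T hT => br_pos _ g hT 2) (Real.sqrt_pos.2 hη)
  refine ⟨L, fun Z hZ Y h1 h2 => hL (ofC Z) Y (by rwa [coe_ofC hZ]) ?_⟩
  have e : 2 * (∑ _a : Option Ix, (4 : ℤ) + 18) = 260 := by
    simp [Finset.card_univ, Fintype.card_option]
  rw [← e, JacF, sl_br_sq hγ _ fun a => (FF_mf a).gd.isHol, ext, Pi.pow_apply, norm_pow] at h2
  exact Real.sqrt_le_iff.2 ⟨norm_nonneg _, h2⟩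

theorem proper : ∃ (n : ℕ) (N : Fin (n + 1) → Fn), (∀ a, M2 (n * 4) (N a)) ∧ ∀ R : ℝ,
    ∃ K, IsCompact K ∧ K ⊆ U0 ∧ ∀ Z ∈ U0, (∀ a, ‖ext (N a) Z / ext ThF Z ^ n‖ ≤ R) →
      ‖(ext (JacF ^ 2) Z / ext ThF Z ^ 65)⁻¹‖ ≤ R → ∃ γ ∈ Gam2, act γ Z ∈ K := by
  obtain ⟨F0, f1, f2⟩ := exists_F0
  obtain ⟨n, N, n1, n2⟩ := exists_norms f1
  obtain ⟨C, hC⟩ := fund2
  obtain ⟨τ, _, ⟨T⟩⟩ := exists_trans Gam2_le Gam2_index
  refine ⟨n, N, fun a => ⟨(n1 a).1, (n1 a).2.mono Gam2_le⟩, fun R => ?_⟩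
  obtain ⟨c, hc, n3⟩ := n2 R
  have p1 : 0 < (2 * c)⁻¹ := by positivity
  have p2 : 0 < (2 * c)⁻¹ ^ 65 / (|R| + 1) := by positivity
  choose L hL using fun t => prm_decay (T.mem t) p2
  choose K k1 k2 k3 using fun t => near_cpt C (L t)
  have cx : ∀ {F : Fn}, Gd F → ∀ t, ContinuousOn (fun Z => ‖ext F Z‖) (K t) := fun h t =>
    (h.isHol.continuousOn.mono (k2 t)).norm
  refine ⟨⋃ t, act (T.rep t) '' (K t ∩ (fun Z => ‖ext ThF Z‖) ⁻¹' Set.Ici (2 * c)⁻¹ ∩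
    (K t ∩ (fun Z => ‖ext (sl 260 (T.rep t) (JacF ^ 2)) Z‖) ⁻¹'
      Set.Ici ((2 * c)⁻¹ ^ 65 / (|R| + 1)))), isCompact_iUnion fun t => ?_, ?_,
    fun Z hZ h1 h2 => ?_⟩
  · refine IsCompact.image_of_continuousOn ((k1 t).of_isClosed_subset
      (((cx ThF_mf.gd t).preimage_isClosed_of_isClosed (k1 t).isClosed isClosed_Ici).inter
      ((cx (JacF_m2.1.1 _ (T.mem t)) t).preimage_isClosed_of_isClosed (k1 t).isClosed isClosed_Ici))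
      fun Z h => h.1.1) fun Z h =>
        (differentiableAt_act (Gam_le (T.mem t)) (k2 t h.1.1)).continuousAt.continuousWithinAt
  · refine Set.iUnion_subset fun t => ?_
    rintro _ ⟨Z, ⟨⟨z1, z2⟩, -, z3⟩, rfl⟩
    have hg := Gam_le (T.mem t)
    obtain ⟨h1, h2, -⟩ := act_spec hg (k2 t z1)
    refine ⟨h2, ?_, fun e => ?_⟩
    · rw [ext_act (k := 4) hg (k2 t z1), ThF_inv _ (T.mem t)]
      exact mul_ne_zero (zpow_ne_zero _ h1) (norm_pos_iff.1 (p1.trans_le z2))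
    · exact mul_ne_zero (zpow_ne_zero _ h1) (norm_pos_iff.1 (p2.trans_le z3))
        ((ext_act (k := 260) (F := JacF ^ 2) hg (k2 t z1)).symm.trans
          ((pow_eq_zero_iff two_ne_zero).2 e))
  · obtain ⟨γ, hγ, c1, Y, c2⟩ := hC Z hZ.1
    obtain ⟨t, δ, hδ, e⟩ := T.cover _ (Gam.inv_mem hγ)
    obtain ⟨j1, j2, -⟩ := act_spec (Gam_le hγ) hZ.1
    have e1 : act γ⁻¹ (act γ Z) = Z := by
      rw [← act_mul (Gam_le (Gam.inv_mem hγ)) (Gam_le hγ) hZ.1, inv_mul_cancel, act_one]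
    have t0 : ext ThF (act γ Z) ≠ 0 := by
      rw [ext_act (k := 4) (Gam_le hγ) hZ.1, ThF_inv γ hγ]
      exact mul_ne_zero (zpow_ne_zero _ j1) hZ.2.1
    have t1 : (2 * c)⁻¹ ≤ ‖ext ThF (act γ Z)‖ := by
      have a := (f2 (ofC (act γ Z)) Y (by rwa [coe_ofC j2])).trans (n3 _ t0 fun a => by
        have := h1 a
        rwa [← (n1 a).2 γ hγ, ← ratio_act hγ hZ.1] at this)
      rw [inv_le_iff_one_le_mul₀ (by positivity)]
      unfold ext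
      linarith
    have t2 : (2 * c)⁻¹ ^ 65 / (|R| + 1) ≤ ‖ext (sl 260 (T.rep t) (JacF ^ 2)) (act γ Z)‖ := by
      have a := ratio_act (w := 65) (F := JacF ^ 2) (Gam.inv_mem hγ) j2
      rw [e1, e, show ((65 : ℕ) : ℤ) * 4 = 260 by norm_num, sl_mul _ (Gam_le (Gam2_le hδ))
        (Gam_le (T.mem t)), JacF_m2.2 δ hδ] at a
      have a0 : ext (sl 260 (T.rep t) (JacF ^ 2)) (act γ Z) ≠ 0 := fun q => by
        rw [q, zero_div] at a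
        exact div_ne_zero (pow_ne_zero 2 hZ.2.2) (pow_ne_zero _ hZ.2.1) a
      rw [a, inv_div, norm_div, div_le_iff₀ (norm_pos_iff.2 a0), norm_pow] at h2
      rw [div_le_iff₀ (by positivity)]
      have b1 := pow_le_pow_left₀ p1.le t1 65
      have b2 := mul_le_mul_of_nonneg_right ((le_abs_self R).trans (le_add_of_nonneg_right
        zero_le_one)) (norm_nonneg (ext (sl 260 (T.rep t) (JacF ^ 2)) (act γ Z)))
      generalize (2 * c)⁻¹ ^ 65 = x at b1 ⊢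
      generalize ‖ext ThF (act γ Z)‖ ^ 65 = y at b1 h2
      linarith
    have m := k3 t _ Y c1 c2 (hL t _ j2 Y c2 t2)
    refine ⟨δ⁻¹, Gam2.inv_mem hδ, Set.mem_iUnion.2 ⟨t, _, ⟨⟨m, t1⟩, m, t2⟩, ?_⟩⟩
    rw [← act_mul (Gam_le (T.mem t)) (Gam_le hγ) hZ.1, eq_inv_mul_iff_mul_eq.2 e.symm,
      inv_mul_cancel_right]

end Pool.Agent.E7
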