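import Pool.Agent.Lib.MP_7e5527_ag.EF.FamAbs
import Pool.Agent.Lib.MP_7e5527_ag.EF.PRM

/-! The family generated by an algebraic arc in a product of tube domains. -/

open Filter Topology

noncomputable section

namespace Pool.Agent.E7

/-- The action on a product of domains, trivial on the extra coordinates. -/
def actF {ι A : Type} (δ : ι → Gb) (v : (ι → Ix → ℂ) × (A → ℂ)) : (ι → Ix → ℂ) × (A → ℂ) :=
  (fun i => act (δ i) (v.1 i), v.2)

theorem isOpen_U0 : IsOpen U0 := by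
  have h : ∀ {F : Fn}, IsHol F → IsOpen (HH ∩ ext F ⁻¹' {0}ᶜ) := fun h =>
    h.continuousOn.isOpen_inter_preimage isOpen_HH isOpen_compl_singleton
  have e : U0 = (HH ∩ ext ThF ⁻¹' {0}ᶜ) ∩ (HH ∩ ext JacF ⁻¹' {0}ᶜ) :=
    Set.ext fun _ => ⟨fun h => ⟨⟨h.1, h.2.1⟩, h.1, h.2.2⟩, fun h => ⟨h.1.1, h.1.2, h.2.2⟩⟩
  rw [e]
  exact (h ThF_mf.gd.isHol).inter (h (Gd.isHol (GZ_le JacF_mem)))

/-- The ratio of a form by a power of `ThF`. -/
def rat (w : ℕ) (F : Fn) (Z : Ix → ℂ) : ℂ := ext F Z / ext ThF Z ^ w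

theorem rat_dif {w : ℕ} {F : Fn} (h : M2 (w * 4) F) {Z : Ix → ℂ} (hZ : Z ∈ U0) :
    DifferentiableAt ℂ (rat w F) Z :=
  (h.1.gd.isHol.differentiableAt hZ.1).mul
    (((ThF_mf.gd.isHol.differentiableAt hZ.1).pow w).inv (pow_ne_zero _ hZ.2.1))

theorem rat_act {w : ℕ} {F : Fn} (h : M2 (w * 4) F) {γ : Gb} (hγ : γ ∈ Gam2) {Z : Ix → ℂ}
    (hZ : Z ∈ U0) : rat w F (act γ Z) = rat w F Z := by
  rw [rat, ratio_act (Gam2_le hγ) hZ.1, h.2 γ hγ, rat]

theorem rat_jac {Z : Ix → ℂ} (hZ : Z ∈ U0) : rat 65 (JacF ^ 2) Z ≠ 0 :=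
  div_ne_zero (pow_ne_zero 2 hZ.2.2) (pow_ne_zero _ hZ.2.1)

theorem m2_one (i : Ix) : M2 ((1 : ℕ) * 4) (Thi i) := by simpa using Thi_m2 i

theorem m2_jac : M2 ((65 : ℕ) * 4) (JacF ^ 2) := by
  rw [show ((65 : ℕ) : ℤ) * 4 = 260 by norm_num]
  exact JacF_m2

/-- The invariant coordinates on one factor. -/
def psi1 {n : ℕ} (N : Fin (n + 1) → Fn) (Z : Ix → ℂ) : Option (Ix ⊕ Fin (n + 1)) → ℂ :=
  fun o => o.elim (rat 65 (JacF ^ 2) Z)⁻¹
    (Sum.elim (fun i => rat 1 (Thi i) Z) fun a => rat n (N a) Z)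

theorem exists_prp : ∃ (n : ℕ) (N : Fin (n + 1) → Fn), (∀ a, M2 (n * 4) (N a)) ∧
    Prp act Gam2 U0 (psi1 N) := by
  obtain ⟨n, N, h1, h2⟩ := proper
  have hG : ∀ g ∈ Gam2, g ∈ GG := fun g hg => Gam_le (Gam2_le hg)
  refine ⟨n, N, h1, isOpen_U0, fun g hg e he => U0.act_mem hg he,
    fun g hg e he => differentiableAt_act (hG g hg) he.1, fun e _ => act_one e,
    fun g hg g' hg' e he => act_mul (hG g hg) (hG g' hg') he.1,
    fun e he => differentiableAt_pi.2 ?_, fun g hg e he => funext ?_, fun e he => ?_, fun R => ?_⟩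
  · rintro (_ | i | a)
    exacts [(rat_dif m2_jac he).inv (rat_jac he), rat_dif (m2_one i) he, rat_dif (h1 a) he]
  · rintro (_ | i | a)
    exacts [congrArg (·⁻¹) (rat_act m2_jac hg he), rat_act (m2_one i) hg he,
      rat_act (h1 a) hg he]
  · obtain ⟨ξ, x1, x2, -⟩ := xr_inv he
    have e1 : ∀ Z, (fun i => psi1 N Z (some (.inl i))) = xr Z := fun Z =>
      funext fun i => by simp [psi1, rat, xr]
    have d : Differentiable ℂ fun (w : Option (Ix ⊕ Fin (n + 1)) → ℂ) i => w (some (.inl i)) := by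
      fun_prop
    refine ⟨fun w => ξ fun i => w (some (.inl i)), ?_, by simpa only [e1] using x2⟩
    rw [← e1] at x1
    filter_upwards [(d.continuous.tendsto _).eventually x1] with w hw
    exact hw.comp w (d w)
  · obtain ⟨K, k1, k2, k3⟩ := h2 R
    exact ⟨K, k1, k2, fun e he q => k3 e he
      (fun a => (norm_le_pi_norm (psi1 N e) (some (.inr a))).trans q)
      ((norm_le_pi_norm (psi1 N e) none).trans q)⟩

/-- Products, with extra coordinates. -/
theorem Prp.pi {ι A B E G : Type} [Fintype ι] [Fintype A] [Fintype B] [NormedAddCommGroup E]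
    [NormedSpace ℂ E] [Group G] {act : G → E → E} {Γ : Subgroup G} {U : Set E} {Ψ : E → B → ℂ}
    (h : Prp act Γ U Ψ) :
    Prp (fun (δ : ι → G) (v : (ι → E) × (A → ℂ)) => (fun i => act (δ i) (v.1 i), v.2))
      (Subgroup.pi Set.univ fun _ => Γ) {v | ∀ i, v.1 i ∈ U}
      fun v => Sum.elim (fun x : ι × B => Ψ (v.1 x.1) x.2) v.2 := by
  have p : ∀ i, Differentiable ℂ fun v : (ι → E) × (A → ℂ) => v.1 i := fun i => by fun_prop
  refine ⟨?_, fun g hg v hv i => h.mem _ (hg i trivial) _ (hv i), fun g hg v hv => ?_,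
    fun v hv => Prod.ext (funext fun i => h.one _ (hv i)) rfl,
    fun g hg g' hg' v hv => Prod.ext
      (funext fun i => h.mul _ (hg i trivial) _ (hg' i trivial) _ (hv i)) rfl,
    fun v hv => differentiableAt_pi.2 ?_, fun g hg v hv => funext ?_, fun v hv => ?_, fun R => ?_⟩
  · rw [Set.ofPred_forall]
    exact isOpen_iInter_of_finite fun i => h.op.preimage (p i).continuous
  · exact (differentiableAt_pi.2 fun i =>
      (h.dif _ (hg i trivial) _ (hv i)).comp v (p i v)).prodMk differentiableAt_snd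
  · rintro (x | a)
    · exact differentiableAt_pi.1 ((h.hol _ (hv x.1)).comp v (p x.1 v)) x.2
    · exact differentiableAt_pi.1 differentiableAt_snd a
  · rintro (x | a)
    exacts [congrFun (h.inv _ (hg x.1 trivial) _ (hv x.1)) x.2, rfl]
  · choose ξ x1 x2 using fun i => h.left _ (hv i)
    have d : ∀ i, Differentiable ℂ fun (w : (ι × B) ⊕ A → ℂ) b => w (.inl (i, b)) := fun i => by
      fun_prop
    refine ⟨fun w => (fun i => ξ i fun b => w (.inl (i, b)), fun a => w (.inr a)), ?_, ?_⟩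
    · filter_upwards [eventually_all.2 fun i => ((d i).continuous.tendsto _).eventually (x1 i)]
        with w hw
      exact (differentiableAt_pi.2 fun i => (hw i).comp w (d i w)).prodMk (by fun_prop)
    · filter_upwards [eventually_all.2 fun i => ((p i).continuous.tendsto _).eventually (x2 i)]
        with w hw
      exact Prod.ext (funext hw) rfl
  · obtain ⟨K, k1, k2, k3⟩ := h.prop R
    refine ⟨(Set.pi Set.univ fun _ => K) ×ˢ Metric.closedBall 0 R,
      (isCompact_univ_pi fun _ => k1).prod (isCompact_closedBall _ _),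
      fun v hv i => k2 (hv.1 i trivial), fun v hv q => ?_⟩
    have r0 := (norm_nonneg _).trans q
    rw [pi_norm_le_iff_of_nonneg r0] at q
    choose g g1 g2 using fun i => k3 _ (hv i)
      ((pi_norm_le_iff_of_nonneg r0).2 fun b => q (.inl (i, b)))
    exact ⟨g, fun i _ => g1 i, fun i _ => g2 i, mem_closedBall_zero_iff.2
      ((pi_norm_le_iff_of_nonneg r0).2 fun a => q (.inr a))⟩

theorem exists_fam {ι A : Type} [Fintype ι] [Fintype A] {h : ℂ → ι → Ix → ℂ} {c : ℂ → A → ℂ}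
    (hh : AnalyticAt ℂ h 0) (hc : AnalyticAt ℂ c 0) (h0 : ∀ i, h 0 i ∈ U0)
    (alg : ∀ i (w : ℕ) (G : Fn), M2 (w * 4) G →
      AlgG fun s => ext G (h s i) / ext ThF (h s i) ^ w)
    (algc : ∀ a, AlgG fun s => c s a) :
    ∃ (V : Set ((ι → Ix → ℂ) × (A → ℂ))) (Δ : Subgroup (ι → Gb)),
      Δ ≤ Subgroup.pi Set.univ (fun _ => Gam2) ∧ Fam actF V Δ ∧ (∀ v ∈ V, ∀ i, v.1 i ∈ U0) ∧
      (∀ᶠ s in 𝓝 (0 : ℂ), (h s, c s) ∈ V) ∧
      ∀ φ : (ι → Ix → ℂ) × (A → ℂ) → ℂ, (∀ v ∈ V, DifferentiableAt ℂ φ v) →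
        (∀ᶠ s in 𝓝 (0 : ℂ), φ (h s, c s) = 0) → ∀ v ∈ V, φ v = 0 := by
  obtain ⟨n, N, h1, h2⟩ := exists_prp
  obtain ⟨V, hV, Δ, hΔ, h3⟩ := (h2.pi (ι := ι) (A := A)).fam (hh.prod hc) h0 (by
    rintro (⟨i, _ | j | a⟩ | a)
    · refine (alg i 65 _ m2_jac).inv ?_
      filter_upwards [(continuous_apply i).continuousAt.comp hh.continuousAt
        (isOpen_U0.mem_nhds (h0 i))] with s hs
      exact rat_jac hs
    exacts [alg i 1 _ (m2_one j), alg i n _ (h1 a), algc a])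
  exact ⟨V, Δ, hΔ, h3.1, hV, h3.2⟩

end Pool.Agent.E7
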