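import Pool.Agent.Lib.MP_7e5527_ag.EF.FamLift
import Pool.Agent.Lib.MP_7e5527_ag.EF.FamDisc

/-! A component of an analytic covering is a family of finite type. -/

open UpperHalfPlane Filter Topology

noncomputable section

namespace Pool.Agent.E7

section
variable {T : Type*} [NormedAddCommGroup T] [NormedSpace ℂ T] {C : Set T} {b v w : T}

/-- The class of `b` for the equivalence generated by the discs in `C`. -/
def Cls (C : Set T) (b : T) : Set T :=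
  {v | ∀ p : T → Prop, (∀ F, Dsc C F → ∀ τ τ', p (F τ) → p (F τ')) → p b → p v}

theorem cls_self : b ∈ Cls C b := fun _ _ h => h

theorem cls_sub (hb : b ∈ C) : Cls C b ⊆ C :=
  fun _ hv => hv (· ∈ C) (fun _ hF _ τ' _ => hF.mem τ') hb

theorem cls_sat {F : ℍ → T} (hF : Dsc C F) {τ : ℍ} (h : F τ ∈ Cls C b) : Dsc (Cls C b) F :=
  ⟨hF.hol, fun τ' p hp h0 => hp F hF τ τ' (h p hp h0)⟩

theorem cls_symm (h : v ∈ Cls C b) : b ∈ Cls C v := fun p hp =>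
  h (fun x => p x → p b) (fun F hF τ τ' h1 h2 => h1 (hp F hF τ' τ h2)) id

theorem cls_trans (h : v ∈ Cls C b) (h' : w ∈ Cls C v) : w ∈ Cls C b :=
  fun p hp h0 => h' p hp (h p hp h0)

theorem cls_map {φ : T → T} (hφ : ∀ x ∈ C, DifferentiableAt ℂ φ x) (hm : ∀ x ∈ C, φ x ∈ C)
    (h : v ∈ Cls C b) : φ v ∈ Cls C (φ b) :=
  fun p hp => h (fun x => p (φ x)) fun _ hF => hp _ (hF.comp hφ hm)

theorem cls_conn (p : T → Prop) (hp : ∀ F, Dsc (Cls C b) F → ∀ τ τ', p (F τ) → p (F τ'))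
    (hv : v ∈ Cls C b) (hw : w ∈ Cls C b) (h : p v) : p w :=
  (cls_trans (cls_symm hv) hw (fun x => x ∈ Cls C b ∧ p x) (fun F hF τ τ' h1 =>
    ⟨(cls_sat hF h1.1).mem τ', hp F (cls_sat hF h1.1) τ τ' h1.2⟩) ⟨hv, h⟩).2

theorem Dsc.aff {F : ℍ → T} (h : Dsc C F) (m : ℍ → ℍ) (a c : ℂ)
    (hm : ∀ τ, (m τ : ℂ) = a * τ + c) : Dsc C fun τ => F (m τ) := by
  refine ⟨?_, fun τ => h.mem _⟩
  have d : DifferentiableOn ℂ (fun z : ℂ => a * z + c) {z | 0 < z.im} := by fun_prop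
  refine (h.hol.comp d fun z hz => ?_).congr fun z hz => ?_
  · have := (m ⟨z, hz⟩).im_pos
    rwa [← coe_im, hm] at this
  · rw [Function.comp_apply, ofComplex_apply_of_im_pos hz, Function.comp_apply, Function.comp_apply,
      show a * z + c = m ⟨z, hz⟩ from (hm ⟨z, hz⟩).symm, ofComplex_apply]

theorem Dsc.vadd {F : ℍ → T} (h : Dsc C F) (x : ℝ) : Dsc C fun τ => F (x +ᵥ τ) :=
  h.aff _ 1 x fun τ => by rw [coe_vadd, one_mul, add_comm]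

end

variable {E G : Type*} [NormedAddCommGroup E] [NormedSpace ℂ E] [Group G]
  {act : G → E → E} {Γ : Subgroup G} {S : Set ℂ} {C : Set (ℂ × E)}

theorem Cvg.difP (h : Cvg act Γ S C) {g : G} (hg : g ∈ Γ) (v : ℂ × E) (hv : v ∈ C) :
    DifferentiableAt ℂ (actP act g) v :=
  differentiableAt_fst.prodMk ((h.dif g hg v hv).comp v differentiableAt_snd)

theorem Cvg.mulP (h : Cvg act Γ S C) {g g' : G} (hg : g ∈ Γ) (hg' : g' ∈ Γ) {v : ℂ × E}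
    (hv : v ∈ C) : actP act (g * g') v = actP act g (actP act g' v) :=
  Prod.ext rfl (h.mul g hg g' hg' v hv)

theorem Cvg.invP (h : Cvg act Γ S C) {g : G} (hg : g ∈ Γ) {v : ℂ × E} (hv : v ∈ C) :
    actP act g⁻¹ (actP act g v) = v := by
  rw [← h.mulP (Γ.inv_mem hg) hg hv, inv_mul_cancel]
  exact Prod.ext rfl (h.one v hv)

theorem Cvg.clsP (h : Cvg act Γ S C) {g : G} (hg : g ∈ Γ) {b v : ℂ × E} (hv : v ∈ Cls C b) :
    actP act g v ∈ Cls C (actP act g b) := cls_map (h.difP hg) (h.mem g hg) hv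

/-- The stabiliser of a class. -/
def Cvg.stb (h : Cvg act Γ S C) {b : ℂ × E} (hb : b ∈ C) : Subgroup G where
  carrier := {g | g ∈ Γ ∧ actP act g b ∈ Cls C b}
  one_mem' := ⟨Γ.one_mem, by
    rw [show actP act 1 b = b from Prod.ext rfl (h.one b hb)]
    exact cls_self⟩
  mul_mem' := fun {g g'} h1 h2 => ⟨Γ.mul_mem h1.1 h2.1, by
    rw [h.mulP h1.1 h2.1 hb]
    exact cls_trans h1.2 (h.clsP h1.1 h2.2)⟩
  inv_mem' := fun {g} h1 => ⟨Γ.inv_mem h1.1, by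
    have := h.clsP (Γ.inv_mem h1.1) h1.2
    rw [h.invP h1.1 hb] at this
    exact cls_symm this⟩

theorem Cvg.reps (h : Cvg act Γ S C) {b : ℂ × E} (hb : b ∈ C) (s : ℂ) : ∃ R : Set (ℂ × E),
    R.Finite ∧ (∀ r ∈ R, r ∈ Cls C b ∧ r.1 = s) ∧
      ∀ v ∈ Cls C b, v.1 = s → ∃ δ ∈ h.stb hb, actP act δ v ∈ R := by
  obtain ⟨F, hF, h1⟩ := h.fib s
  have ex : ∀ f ∈ {f ∈ F | ∃ w ∈ Cls C b, w.1 = s ∧ ∃ g ∈ Γ, act g w.2 = f},
      ∃ w ∈ Cls C b, w.1 = s ∧ ∃ g ∈ Γ, act g w.2 = f := fun f hf => hf.2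
  choose! w w1 w2 w3 using ex
  refine ⟨w '' {f ∈ F | ∃ w ∈ Cls C b, w.1 = s ∧ ∃ g ∈ Γ, act g w.2 = f},
    (hF.subset (Set.sep_subset _ _)).image w, ?_, fun v hv e => ?_⟩
  · rintro _ ⟨f, hf, rfl⟩
    exact ⟨w1 f hf, w2 f hf⟩
  · obtain ⟨g, hg, h2⟩ := h1 v.2 (e ▸ cls_sub hb hv)
    have hf : act g v.2 ∈ {f ∈ F | ∃ w ∈ Cls C b, w.1 = s ∧ ∃ g ∈ Γ, act g w.2 = f} :=
      ⟨h2, v, hv, e, g, hg, rfl⟩
    obtain ⟨g', hg', h3⟩ := w3 _ hf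
    have e1 : actP act (g'⁻¹ * g) v = w (act g v.2) := by
      rw [h.mulP (Γ.inv_mem hg') hg (cls_sub hb hv), ← h.invP hg' (cls_sub hb (w1 _ hf))]
      exact congrArg _ (Prod.ext (e.trans (w2 _ hf).symm) h3.symm)
    have hm := Γ.mul_mem (Γ.inv_mem hg') hg
    exact ⟨_, ⟨hm, cls_trans (e1 ▸ w1 _ hf) (cls_symm (h.clsP hm hv))⟩, _, hf, e1.symm⟩

theorem Cvg.per (h : Cvg act Γ S C) {b : ℂ × E} (hb : b ∈ C) {F : ℍ → ℂ × E}
    (hF : Dsc (Cls C b) F) (hp : ∀ σ, (F ((1 : ℝ) +ᵥ σ)).1 = (F σ).1) :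
    ∃ N : ℕ, 0 < N ∧ ∃ δ ∈ h.stb hb, ∀ σ, F ((N : ℝ) +ᵥ σ) = actP act δ (F σ) := by
  obtain ⟨R, hR, -, h1⟩ := h.reps hb (F I).1
  have hn : ∀ (n : ℕ) σ, (F ((n : ℝ) +ᵥ σ)).1 = (F σ).1 := fun n σ => by
    simpa using famd_per (w := fun σ => (F σ).1) hp n σ
  choose δ d1 d2 using fun n : ℕ => h1 _ (hF.mem ((n : ℝ) +ᵥ I)) (hn n I)
  obtain ⟨m, n, hmn, e⟩ := Set.Finite.exists_lt_map_eq_of_forall_mem d2 hR
  have hC := hF.mono (cls_sub hb)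
  have hδ := (h.stb hb).mul_mem ((h.stb hb).inv_mem (d1 n)) (d1 m)
  have k := h.lift_eq (hC.vadd n) ((hC.vadd m).comp (h.difP hδ.1) (h.mem _ hδ.1))
    (fun τ => (hn n τ).trans (hn m τ).symm) (τ0 := I) (by
      rw [h.mulP (Γ.inv_mem (d1 n).1) (d1 m).1 (hC.mem _), e, h.invP (d1 n).1 (hC.mem _)])
  refine ⟨n - m, Nat.sub_pos_of_lt hmn, _, hδ, fun σ => ?_⟩
  have := congrFun k ((-(m : ℝ)) +ᵥ σ)
  rwa [← add_vadd, ← add_vadd, add_neg_cancel, zero_vadd, ← sub_eq_add_neg,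
    ← Nat.cast_sub hmn.le] at this

theorem Cvg.fam (h : Cvg act Γ S C) {b : ℂ × E} (hb : b ∈ C) : ∃ V ⊆ C, ∃ Δ ≤ Γ, b ∈ V ∧
    Fam (actP act) V Δ ∧ ∀ F, Dsc C F → ∀ τ, F τ ∈ V → Dsc V F := by
  refine ⟨Cls C b, cls_sub hb, h.stb hb, fun _ h => h.1, cls_self,
    ⟨fun p hp v hv w hw => cls_conn p hp hv hw, fun δ hδ v hv => cls_trans hδ.2 (h.clsP hδ.1 hv),
      ?_⟩, fun F hF τ => cls_sat hF⟩
  obtain ⟨L, hL, h1, η, hη, h2⟩ := exists_discs h.fin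
  choose R r1 r2 r3 using h.reps hb
  have hP : (⋃ l ∈ L, (fun r => (l, r)) '' R (l I)).Finite := hL.biUnion fun l _ => (r1 _).image _
  obtain ⟨P, eP⟩ : ∃ P, P = ⋃ l ∈ L, (fun r => (l, r)) '' R (l I) := ⟨_, rfl⟩
  have mP : ∀ x, x ∈ P ↔ x.1 ∈ L ∧ x.2 ∈ R (x.1 I) := fun x => by
    rw [eP, Set.mem_iUnion₂]
    constructor
    · rintro ⟨l, hl, r, hr, rfl⟩
      exact ⟨hl, hr⟩
    · exact fun hx => ⟨_, hx.1, _, hx.2, rfl⟩
  rw [← eP] at hP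
  have ex : ∀ x ∈ P, ∃ (F : ℍ → ℂ × E) (N : ℕ), Dsc (Cls C b) F ∧ F I = x.2 ∧
      (∀ τ, (F τ).1 = x.1 τ) ∧ 0 < N ∧
      ∃ δ ∈ h.stb hb, ∀ σ, F ((N : ℝ) +ᵥ σ) = actP act δ (F σ) := by
    intro x hx
    obtain ⟨x1, x2⟩ := (mP x).1 hx
    obtain ⟨F, f1, f2, f3⟩ := h.lift (h1 _ x1).1 (cls_sub hb (r2 _ _ x2).1) (r2 _ _ x2).2.symm
    have f4 := cls_sat f1 (f2 ▸ (r2 _ _ x2).1)
    obtain ⟨N, hN⟩ := h.per hb f4 fun σ => by rw [f3, f3, (h1 _ x1).2]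
    exact ⟨F, N, f4, f2, f3, hN⟩
  choose! F N f1 f2 f3 f4 f5 using ex
  obtain ⟨M, hM⟩ := (hP.image N).bddAbove
  have p1 : ∀ x, (0 : ℝ) < max (N x : ℝ) 1 := fun x => lt_max_of_lt_right one_pos
  have p2 : ∀ x ∈ P, max (N x : ℝ) 1 = N x := fun x hx => max_eq_left (by exact_mod_cast f4 x hx)
  refine ⟨(fun x σ => F x ((⟨_, p1 x⟩ : {t : ℝ // 0 < t}) • σ)) '' P, hP.image _, ?_,
    η / (M + 1), by positivity, fun v hv => ?_⟩
  · rintro _ ⟨x, hx, rfl⟩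
    obtain ⟨δ, d1, d2⟩ := f5 x hx
    refine ⟨(f1 x hx).aff _ (max (N x : ℝ) 1 : ℝ) 0 fun τ => by
      rw [coe_pos_real_smul, add_zero, Complex.real_smul], δ, d1, fun σ => ?_⟩
    rw [← d2]
    refine congrArg _ (UpperHalfPlane.ext ?_)
    simp only [coe_pos_real_smul, coe_vadd, p2 x hx, Complex.real_smul]
    push_cast
    ring
  · obtain ⟨l, hl, τ, t1, t2⟩ := h2 _ (h.base _ (cls_sub hb hv))
    obtain ⟨F', g1, g2, g3⟩ := h.lift (h1 _ hl).1 (cls_sub hb hv) t2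
    obtain ⟨δ, d1, d2⟩ := r3 (l I) _ ((cls_sat g1 (g2 ▸ hv)).mem I) (g3 I)
    have hx : (l, actP act δ (F' I)) ∈ P := (mP _).2 ⟨hl, d2⟩
    have k := h.lift_eq (g1.comp (h.difP d1.1) (h.mem _ d1.1)) ((f1 _ hx).mono (cls_sub hb))
      (fun σ => (g3 σ).trans (f3 _ hx σ).symm) (f2 _ hx).symm
    refine ⟨δ, d1, _, ⟨_, hx, rfl⟩, (⟨_, inv_pos.2 (p1 (l, actP act δ (F' I)))⟩ :
      {t : ℝ // 0 < t}) • τ, ?_, ?_⟩
    · have q : max (N (l, actP act δ (F' I)) : ℝ) 1 ≤ M + 1 := by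
        rw [p2 _ hx]
        exact le_trans (by exact_mod_cast hM ⟨_, hx, rfl⟩) (le_add_of_nonneg_right zero_le_one)
      rw [pos_real_im, div_eq_inv_mul]
      exact mul_le_mul (inv_anti₀ (p1 _) q) t1 hη.le (inv_pos.2 (p1 _)).le
    · rw [← g2]
      refine (congrFun k τ).trans (congrArg _ (UpperHalfPlane.ext ?_))
      rw [coe_pos_real_smul, coe_pos_real_smul, smul_inv_smul₀ (p1 _).ne']

theorem hol_zero {φ : ℍ → ℂ} (h : DifferentiableOn ℂ (φ ∘ ofComplex) {z | 0 < z.im}) {τ : ℍ}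
    (h0 : ∀ᶠ z in 𝓝 (τ : ℂ), φ (ofComplex z) = 0) (σ : ℍ) : φ σ = 0 := by
  have := (h.analyticOnNhd isOpen_upperHalfPlaneSet).eqOn_zero_of_preconnected_of_eventuallyEq_zero
    (convex_halfSpace_im_gt 0).isPreconnected τ.im_pos h0 σ.im_pos
  simpa using this

theorem tendsto_ofC (τ : ℍ) : Tendsto ofComplex (𝓝 (τ : ℂ)) (𝓝 τ) := by
  have := (contMDiffAt_ofComplex (n := 0) τ.im_pos).continuousAt
  rwa [ContinuousAt, ofComplex_apply] at this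

theorem Cvg.ident (h : Cvg act Γ S C) {V : Set (ℂ × E)} (hV : V ⊆ C)
    {Δ : Subgroup G} (hF : Fam (actP act) V Δ) {φ : ℂ × E → ℂ}
    (hφ : ∀ v ∈ V, DifferentiableAt ℂ φ v) {b : ℂ × E} (hb : b ∈ V)
    (h0 : ∀ᶠ z in 𝓝 b, z ∈ V → φ z = 0) : ∀ v ∈ V, φ v = 0 := by
  intro v hv
  refine (hF.conn (fun w => ∀ᶠ z in 𝓝 w, z ∈ V → φ z = 0) (fun F hD τ τ' h1 => ?_)
    b hb v hv h0).self_of_nhds hv
  have z0 := hol_zero (hD.comp (V' := Set.univ) hφ fun _ _ => trivial).hol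
    (((hD.cont.continuousAt.tendsto.comp (tendsto_ofC τ)).eventually h1).mono
      fun z hz => hz (hD.mem _))
  have dl := (hD.comp (V' := Set.univ) (φ := Prod.fst) (fun _ _ => differentiableAt_fst)
    fun _ _ => trivial).hol
  rcases (dl.analyticAt
    (isOpen_upperHalfPlaneSet.mem_nhds τ'.im_pos)).eventually_constant_or_nhds_le_map_nhds with c | c
  · have k := hol_zero (φ := fun σ => (F σ).1 - (F τ').1) (τ := τ') (dl.sub_const _)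
      (c.mono fun z hz => by simpa [sub_eq_zero] using hz)
    have e := h.lift_eq (hD.mono hV) (dsc_const (hV (hD.mem τ'))) (fun σ => sub_eq_zero.1 (k σ))
      (τ0 := τ') rfl
    rwa [← show F τ = F τ' from congrFun e τ]
  · obtain ⟨N, hN, hi⟩ := h.uniq _ (hV (hD.mem τ'))
    have h2 : ∀ᶠ s in 𝓝 (F τ').1, ∃ σ, F σ ∈ N ∧ (F σ).1 = s := by
      rw [Function.comp_apply, ofComplex_apply] at c
      refine c (mem_map.2 ?_)
      filter_upwards [(hD.cont.continuousAt.tendsto.comp (tendsto_ofC τ')) hN] with z hz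
      exact ⟨_, hz, rfl⟩
    filter_upwards [hN, continuousAt_fst.tendsto.eventually h2] with z h3 h4 h5
    obtain ⟨σ, h6, h7⟩ := h4
    rw [← hi ⟨hV (hD.mem σ), h6⟩ ⟨hV h5, h3⟩ h7]
    exact z0 σ

end Pool.Agent.E7
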