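import Pool.Agent.Lib.MP_7e5527_ag.EF.MJG
import Pool.Agent.Lib.MP_7e5527_ag.EL.MQ1

/-! Functions on the group that are polynomial after clearing the automorphy factors. -/

noncomputable section

namespace Pool.Agent.E7

variable {m k k' : ℕ} {u : Fin m → Ix → ℂ} {f f' : (Fin m → Gb) → ℂ}

/-- `f` becomes a homogeneous polynomial after clearing the automorphy factors at `u`. -/
def G7P (u : Fin m → Ix → ℂ) (k : ℕ) (f : (Fin m → Gb) → ℂ) : Prop :=
  ∃ (D : ℕ) (ψ : (Fin m → Gb) → ℂ), HF (m * D + k) ψ ∧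
    ∀ g : Fin m → Gb, (∀ i, jf (g i) (u i) ≠ 0) → ψ g = (∏ i, jf (g i) (u i)) ^ D * f g

theorem g7_prod (l : Fin m → W →ₗ[ℂ] ℂ) (v : Fin m → W) :
    HF m fun g : Fin m → Gb => ∏ i, l i (g i (v i)) := by
  simpa using HF.prod Finset.univ (d := fun _ => 1) fun i _ => HF.lin i (l i) (v i)

theorem g7_jf (u : Fin m → Ix → ℂ) (D : ℕ) :
    HF (m * D) fun g : Fin m → Gb => (∏ i, jf (g i) (u i)) ^ D := by
  induction D with
  | zero => simpa using HF.const 1
  | succ D ih =>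
    simp only [pow_succ, Nat.mul_succ]
    exact ih.mul (g7_prod (fun _ => LinearMap.fst ℂ _ _) fun i => rr (u i))

theorem HF.g7p (h : HF k f) : G7P u k f := ⟨0, f, by simpa using h, fun g _ => by simp⟩

theorem G7P.add (h : G7P u k f) (h' : G7P u k f') : G7P u k fun g => f g + f' g := by
  obtain ⟨D, ψ, h1, h2⟩ := h
  obtain ⟨D', ψ', h3, h4⟩ := h'
  have e1 : m * D + k + m * D' = m * (D + D') + k := by ring
  have e2 : m * D' + k + m * D = m * (D + D') + k := by ring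
  refine ⟨D + D', _, (e1 ▸ h1.mul (g7_jf u D')).add (e2 ▸ h3.mul (g7_jf u D)), fun g hg => ?_⟩
  simp only [h2 g hg, h4 g hg]
  ring

theorem G7P.mul (h : G7P u k f) (h' : G7P u k' f') : G7P u (k + k') fun g => f g * f' g := by
  obtain ⟨D, ψ, h1, h2⟩ := h
  obtain ⟨D', ψ', h3, h4⟩ := h'
  have e1 : m * D + k + (m * D' + k') = m * (D + D') + (k + k') := by ring
  refine ⟨D + D', _, e1 ▸ h1.mul h3, fun g hg => ?_⟩
  simp only [h2 g hg, h4 g hg]
  ring

theorem G7P.sum {α : Type} (S : Finset α) {f : α → (Fin m → Gb) → ℂ}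
    (h : ∀ a, G7P u k (f a)) : G7P u k fun g => ∑ a ∈ S, f a g := by
  classical
  induction S using Finset.induction_on with
  | empty => simpa using (HF.zero k).g7p
  | insert a S ha ih =>
    simp only [Finset.sum_insert ha]
    exact (h a).add ih

theorem g7p_coord (u : Fin m → Ix → ℂ) (i : Fin m) (l : Ix) : G7P u 0 fun g => aM g u i l := by
  have h := g7_prod (Function.update (fun _ => LinearMap.fst ℂ _ _) i
    ((LinearMap.proj l).comp ((LinearMap.fst ℂ _ _).comp (LinearMap.snd ℂ _ _))))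
    fun i => rr (u i)
  refine ⟨1, _, by rwa [mul_one, add_zero], fun g hg => ?_⟩
  rw [pow_one, ← Finset.mul_prod_erase _ _ (Finset.mem_univ i),
    ← Finset.mul_prod_erase _ _ (Finset.mem_univ i), Function.update_self,
    Finset.prod_congr rfl fun j hj => by rw [Function.update_of_ne (Finset.ne_of_mem_erase hj)]]
  have := hg i
  change (g i (rr (u i))).2.1 l * ∏ j ∈ _, jf (g j) (u j) =
    _ * ((jf (g i) (u i))⁻¹ * (g i (rr (u i))).2.1 l)
  field_simp

theorem g7p_poly (u : Fin m → Ix → ℂ) (Z : Fin m × Ix → ℂ) (P : MvPolynomial (Fin m × Ix) ℂ) :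
    G7P u 0 fun g => MvPolynomial.eval (fun q => aM g u q.1 q.2 - Z q) P := by
  induction P using MvPolynomial.induction_on with
  | C c => simpa using (HF.const c).g7p
  | add p q hp hq => simpa using hp.add hq
  | mul_X p q hp =>
    simp only [map_mul, MvPolynomial.eval_X, sub_eq_add_neg] at hp ⊢
    exact hp.mul ((g7p_coord u q.1 q.2).add (HF.const _).g7p)

theorem g7_bil (i : Fin m) (B : W →ₗ[ℂ] W →ₗ[ℂ] ℂ) (v v' : W) :
    HF 2 fun g : Fin m → Gb => B (g i v) (g i v') := by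
  have e : (fun g : Fin m → Gb => B (g i v) (g i v')) =
      fun g => ∑ a, bW.coord a (g i v) * B (bW a) (g i v') := funext fun g => by
    conv_lhs => rw [← bW.sum_repr (g i v), map_sum, LinearMap.sum_apply]
    simp only [map_smul, LinearMap.smul_apply, smul_eq_mul, Module.Basis.coord_apply]
  rw [e]
  exact HF.sum _ fun a _ => (HF.lin i _ v).mul (HF.lin i _ v')

/-- The polynomial functions that vanish on `Δ` vanish on the derived group. -/
def G7D (Δ : Subgroup (Fin m → Gb)) : Prop :=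
  (∀ δ ∈ Δ, ∀ i, δ i ∈ Gam2) ∧ ∀ (d : ℕ) (ψ : (Fin m → Gb) → ℂ), HF d ψ → (∀ δ ∈ Δ, ψ δ = 0) →
    ∀ g : Fin m → Gb, (∀ i, g i ∈ G0) → ψ g = 0

variable {Δ : Subgroup (Fin m → Gb)}

theorem G7D.zero (h : G7D Δ) (hu : ∀ i, u i ∈ HH) (hf : G7P u k f) (h0 : ∀ δ ∈ Δ, f δ = 0)
    {g : Fin m → Gb} (hg : ∀ i, g i ∈ G0) (hj : ∀ i, jf (g i) (u i) ≠ 0) : f g = 0 := by
  obtain ⟨D, ψ, h1, h2⟩ := hf
  have h3 := h.2 _ ψ h1 (fun δ hδ => by
    rw [h2 δ fun i => (act_spec (Gam_le (Gam2_le (h.1 δ hδ i))) (hu i)).1, h0 δ hδ, mul_zero]) g hg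
  rw [h2 g hj] at h3
  exact (mul_eq_zero.1 h3).resolve_left (pow_ne_zero _ (Finset.prod_ne_zero_iff.2 fun i _ => hj i))

theorem g7_nE (B : Ix → ℂ) : nE B ∈ G0 := Subgroup.subset_closure (Or.inl ⟨B, rfl⟩)

theorem g7_funext {σ : Type} (Z : σ → ℂ) {P : MvPolynomial σ ℂ}
    (h : ∀ B : σ → ℂ, MvPolynomial.eval (fun q => B q - Z q) P = 0) : P = 0 :=
  MvPolynomial.funext fun B => by simpa using h (B + Z)

/-- The orbits of `Δ` are Zariski dense. -/
theorem G7D.dense (h : G7D Δ) (hu : ∀ i, u i ∈ HH) {Z : Fin m × Ix → ℂ}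
    {P : MvPolynomial (Fin m × Ix) ℂ}
    (h0 : ∀ δ ∈ Δ, MvPolynomial.eval (fun q => aM δ u q.1 q.2 - Z q) P = 0) : P = 0 := by
  refine g7_funext Z fun B => ?_
  have h1 := h.zero hu (g7p_poly u Z P) h0 (g := fun i => nE ((fun l => B (i, l)) - u i))
    (fun i => g7_nE _) fun i => one_ne_zero
  simpa [aM, act_nE] using h1

end Pool.Agent.E7
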