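import Pool.Agent.Lib.MP_7e5527_ag.EL.GD

/-! The derived group of the group of similitudes. -/

noncomputable section

namespace Pool.Agent.E7

theorem nE_mem_G0 (B : Ix → ℂ) : nE B ∈ G0 := Subgroup.subset_closure (Or.inl ⟨B, rfl⟩)

theorem nP_mem_G0 (B : Ix → ℂ) : nP B ∈ G0 := Subgroup.subset_closure (Or.inr ⟨B, rfl⟩)

theorem G0_le {H : Subgroup Gb} (hn : ∀ B, nE B ∈ H) (hp : ∀ B, nP B ∈ H) : G0 ≤ H := by
  refine (Subgroup.closure_le _).2 ?_
  rintro _ (⟨B, rfl⟩ | ⟨B, rfl⟩)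
  exacts [hn B, hp B]

theorem mg_dE (s t : ℂˣ) : G0 ≤ cj (dE s t) G0 :=
  G0_le (fun B => mem_cj.2 (dE_nE s t B ▸ nE_mem_G0 _))
    fun B => mem_cj.2 (dE_nP s t B ▸ nP_mem_G0 _)

theorem dE_mem_G0 (a : ℂˣ) : dE a a⁻¹ ∈ G0 := by
  have h : nrm (one3 : Ix → ℂ) ≠ 0 := by rw [stab_nrm_one3]; exact one_ne_zero
  have e : dE a a⁻¹ = wB one3 * (dE 1 a * (wB one3)⁻¹ * (dE 1 a)⁻¹) := by
    rw [← mul_assoc, ← mul_assoc, wB_dE h, dE_inv, ← dE_mul, inv_one, mul_one, one_mul]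
  rw [e]
  exact mul_mem (wB_mem_G0 _) (mem_cj.1 (mg_dE 1 a (inv_mem (wB_mem_G0 _))))

theorem scE_mul (s t : ℂˣ) : scE (s * t) = scE s * scE t :=
  LinearEquiv.ext fun v => by
    rw [LinearEquiv.mul_apply, scE_apply, scE_apply, scE_apply, Units.val_mul, mul_smul]

theorem scE_one : scE 1 = 1 := LinearEquiv.ext fun v => (scE_apply 1 v).trans (one_smul ℂ v)

theorem scE_inv (s : ℂˣ) : scE s⁻¹ = (scE s)⁻¹ :=
  eq_inv_of_mul_eq_one_left (by rw [← scE_mul, inv_mul_cancel, scE_one])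

/-- Every similitude is the product of a scalar and of unipotent elements. -/
theorem GE_scal {g : Gb} (hg : g ∈ GE) : ∃ s, scE s * g ∈ G0 := by
  let H : Subgroup Gb :=
    { carrier := {g | ∃ s, scE s * g ∈ G0}
      one_mem' := ⟨1, by rw [scE_one, one_mul]; exact one_mem _⟩
      mul_mem' := by
        rintro g k ⟨s, hs⟩ ⟨t, ht⟩
        refine ⟨s * t, ?_⟩
        have := mul_mem hs ht
        rwa [mul_assoc, ← mul_assoc g, ← scE_comm, mul_assoc, ← mul_assoc, ← scE_mul] at this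
      inv_mem' := by
        rintro g ⟨s, hs⟩
        refine ⟨s⁻¹, ?_⟩
        have := inv_mem hs
        rwa [mul_inv_rev, ← scE_inv, ← scE_comm] at this }
  have le : G0 ≤ H := fun g hg => ⟨1, by rwa [scE_one, one_mul]⟩
  refine GE_le (H := H) (fun B => le (nE_mem_G0 B)) (fun B => le (nP_mem_G0 B)) (fun s t => ?_) hg
  obtain ⟨z, hz⟩ := IsAlgClosed.exists_pow_nat_eq ((s * t : ℂˣ) : ℂ) (n := 2) (by norm_num)
  have h0 : z ≠ 0 := fun h => (s * t).ne_zero (by rw [← hz, h, zero_pow two_ne_zero])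
  obtain ⟨u, hu⟩ : ∃ u : ℂˣ, u ^ 2 = s * t := ⟨Units.mk0 z h0, Units.ext hz⟩
  refine ⟨u⁻¹ ^ 3, ?_⟩
  have e : u⁻¹ * t = (u⁻¹ * s)⁻¹ := by
    rw [eq_inv_iff_mul_eq_one, mul_mul_mul_comm, mul_comm t, ← hu, ← pow_two, ← mul_pow,
      inv_mul_cancel, one_pow]
  rw [← dE_self, ← dE_mul, e]
  exact dE_mem_G0 _

theorem G0_le_comm : G0 ≤ ⁅GE, GE⁆ := by
  let u : ℂˣ := Units.mk0 2 two_ne_zero
  have e : ∀ B : Ix → ℂ, (2 : ℂ) • B = B + B := fun B => two_smul ℂ B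
  have hn : ∀ B, nE B ∈ ⁅GE, GE⁆ := fun B => by
    have := Subgroup.commutator_mem_commutator (dE_mem_GE 1 u) (nE_mem_GE B)
    rwa [commutatorElement_def, dE_nE, Units.val_one, div_one, Units.val_mk0, e, nE_add,
      mul_inv_cancel_right] at this
  refine G0_le hn fun B => ?_
  have := Subgroup.commutator_mem_commutator wE_mem_GE (nE_mem_GE B)
  rw [commutatorElement_def] at this
  simpa only [inv_mul_cancel_right, nP] using mul_mem this (hn B)

theorem mg_comm : ⁅GE, GE⁆ = G0 := by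
  refine le_antisymm (Subgroup.commutator_le.2 fun g hg k hk => ?_) G0_le_comm
  obtain ⟨s, hs⟩ := GE_scal hg
  obtain ⟨t, ht⟩ := GE_scal hk
  have c : ∀ (s : ℂˣ) (g k : Gb), scE s * g * k * (scE s * g)⁻¹ = g * k * g⁻¹ := fun s g k => by
    rw [mul_inv_rev, mul_assoc (scE s), mul_assoc (scE s), scE_comm]
    group
  have := mul_mem (mul_mem (mul_mem hs ht) (inv_mem hs)) (inv_mem ht)
  rw [c, mul_assoc, mul_assoc, ← mul_assoc (scE t * k), c] at this
  simpa only [commutatorElement_def, mul_assoc] using this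

end Pool.Agent.E7
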