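import Pool.Agent.Lib.MP_7e5527_ag.EF.Defs
import Pool.Agent.Lib.MP_7e5527_ag.EF.MG
import Pool.Agent.Lib.MP_7e5527_ag.EL.SE1
import Pool.Agent.Lib.MP_7e5527_ag.EL.ME1

/-! Jointly generic points, homogeneous functions. -/

noncomputable section

namespace Pool.Agent.E7

open MvPolynomial

variable {m d d' : ℕ} {φ φ' : (Fin m → Gb) → ℂ}

theorem blk_mul (g g' : Fin m → Gb) : blk (g * g') = blk g * blk g' := by
  simp only [blk, Pi.mul_apply, mat_mul, Matrix.blockDiagonal_mul]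

theorem blk_one : blk (1 : Fin m → Gb) = 1 := by
  simp only [blk, Pi.one_apply, mat_one]
  exact Matrix.blockDiagonal_one

theorem blk_apply (g : Fin m → Gb) (i : Fin m) (a b : Wx) : blk g (a, i) (b, i) = mat (g i) a b :=
  Matrix.blockDiagonal_apply_eq _ _ _ _

theorem HF.const (c : ℂ) : HF 0 fun _ : Fin m → Gb => c :=
  ⟨C c, isHomogeneous_C _ c, fun _ => (eval_C _).symm⟩

theorem HF.zero (d : ℕ) : HF d fun _ : Fin m → Gb => 0 :=
  ⟨0, isHomogeneous_zero _ _ d, fun _ => (map_zero _).symm⟩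

theorem HF.add (h : HF d φ) (h' : HF d φ') : HF d fun g => φ g + φ' g := by
  obtain ⟨P, h1, h2⟩ := h
  obtain ⟨Q, h3, h4⟩ := h'
  exact ⟨P + Q, h1.add h3, fun g => by rw [map_add, ← h2, ← h4]⟩

theorem HF.mul (h : HF d φ) (h' : HF d' φ') : HF (d + d') fun g => φ g * φ' g := by
  obtain ⟨P, h1, h2⟩ := h
  obtain ⟨Q, h3, h4⟩ := h'
  exact ⟨P * Q, h1.mul h3, fun g => by rw [map_mul, ← h2, ← h4]⟩

theorem HF.sum {α : Type} (S : Finset α) {φ : α → (Fin m → Gb) → ℂ} (h : ∀ a ∈ S, HF d (φ a)) :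
    HF d fun g => ∑ a ∈ S, φ a g := by
  choose! P h1 h2 using h
  exact ⟨∑ a ∈ S, P a, IsHomogeneous.sum _ _ _ h1, fun g => by
    rw [map_sum]
    exact Finset.sum_congr rfl fun a ha => h2 a ha g⟩

theorem HF.prod {α : Type} (S : Finset α) {d : α → ℕ} {φ : α → (Fin m → Gb) → ℂ}
    (h : ∀ a ∈ S, HF (d a) (φ a)) : HF (∑ a ∈ S, d a) fun g => ∏ a ∈ S, φ a g := by
  choose! P h1 h2 using h
  exact ⟨∏ a ∈ S, P a, IsHomogeneous.prod _ _ _ h1, fun g => by
    rw [map_prod]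
    exact Finset.prod_congr rfl fun a ha => h2 a ha g⟩

theorem HF.congr (h : HF d φ) (hd : d = d') (e : ∀ g, φ g = φ' g) : HF d' φ' :=
  hd ▸ (funext e : φ = φ') ▸ h

theorem HF.const_mul (c : ℂ) (h : HF d φ) : HF d fun g => c * φ g :=
  ((HF.const c).mul h).congr (zero_add d) fun _ => rfl

theorem HF.neg (h : HF d φ) : HF d fun g => -φ g :=
  (h.const_mul (-1)).congr rfl fun _ => neg_one_mul _

theorem HF.sub (h : HF d φ) (h' : HF d φ') : HF d fun g => φ g - φ' g :=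
  (h.add h'.neg).congr rfl fun _ => (sub_eq_add_neg _ _).symm

theorem HF.pow (h : HF d φ) (n : ℕ) : HF (n * d) fun g => φ g ^ n := by
  induction n with
  | zero => exact (HF.const 1).congr (zero_mul d).symm fun _ => (pow_zero _).symm
  | succ n ih => exact (ih.mul h).congr (Nat.succ_mul n d).symm fun _ => (pow_succ _ _).symm

theorem HF.entry (i : Fin m) (a b : Wx) : HF 1 fun g : Fin m → Gb => mat (g i) a b :=
  ⟨X ((a, i), (b, i)), isHomogeneous_X _ _, fun g => by rw [eval_X, blk_apply]⟩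

theorem HF.lin (i : Fin m) (l : W →ₗ[ℂ] ℂ) (v : W) : HF 1 fun g : Fin m → Gb => l (g i v) := by
  refine (HF.sum Finset.univ fun a _ => HF.sum Finset.univ fun b _ =>
    (HF.entry i a b).const_mul (l (bW a) * crd v b)).congr rfl fun g => ?_
  conv_rhs => rw [← bW.sum_repr (g i v), map_sum]
  refine Finset.sum_congr rfl fun a _ => ?_
  have e : bW.repr (g i v) a = ∑ b, mat (g i) a b * crd v b := (congrFun (mt_crd (g i) v) a).symm
  rw [map_smul, smul_eq_mul, e, Finset.sum_mul]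
  exact Finset.sum_congr rfl fun b _ => by ring

theorem comm_GE : ⁅GE, GE⁆ = G0 := mg_comm

theorem comm_GEm : ⁅GEm m, GEm m⁆ = Subgroup.pi Set.univ fun _ => G0 := by
  rw [GEm, Subgroup.commutator_pi_pi_of_finite, comm_GE]

theorem G0_conj {k g : Gb} (hk : k ∈ GE) (hg : g ∈ G0) : k * g * k⁻¹ ∈ G0 := by
  have h1 := Subgroup.commutator_mem_commutator hk (G0_le_GE hg)
  rw [comm_GE, commutatorElement_def] at h1
  simpa only [inv_mul_cancel_right] using mul_mem h1 hg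

theorem JG.iff {x : Fin m → Ix → ℂ} : JG x ↔ ∀ H : Subgroup (Fin m → Gb), St.QCl blk H →
    (∀ z, (fun i => hg (x i) z) ∈ H) → ∀ g : Fin m → Gb, (∀ i, g i ∈ G0) → g ∈ H := by
  rw [JG, comm_GEm, MTm, St.MT, le_sInf_iff]
  exact ⟨fun h H h1 h2 g h3 => h H ⟨h1, h2⟩ fun i _ => h3 i,
    fun h H hH g h3 => h H hH.1 hH.2 g fun i => h3 i trivial⟩

theorem mjg_rat {g : Fin m → Gb} (h : ∀ i, g i ∈ GG) :
    ∃ a : Matrix (Wx × Fin m) (Wx × Fin m) ℚ, blk g = a.map (↑) := by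
  choose a ha using fun i => (ratM_GG (h i)).exists_map
  exact ⟨Matrix.blockDiagonal a, by
    rw [Matrix.blockDiagonal_map _ _ Rat.cast_zero, blk, funext ha]⟩

theorem qcl_conj {H : Subgroup (Fin m → Gb)} (h : St.QCl blk H) {k : Fin m → Gb}
    (hk : ∀ i, k i ∈ GG) : St.QCl blk (H.comap (MulAut.conj k).toMonoidHom) := by
  obtain ⟨S, hS⟩ := h
  obtain ⟨a, ha⟩ := mjg_rat hk
  obtain ⟨b, hb⟩ := mjg_rat (g := k⁻¹) fun i => inv_mem (hk i)
  refine ⟨bind₁ (fun y : (Wx × Fin m) × Wx × Fin m =>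
    (a.map C * Matrix.of (fun i j => X (i, j)) * b.map C : Matrix (Wx × Fin m) (Wx × Fin m)
      (MvPolynomial ((Wx × Fin m) × Wx × Fin m) ℚ)) y.1 y.2) '' S, fun g => ?_⟩
  rw [show g ∈ H.comap (MulAut.conj k).toMonoidHom ↔ k * g * k⁻¹ ∈ H from Iff.rfl, hS,
    Set.forall_mem_image]
  refine forall_congr' fun P => forall_congr' fun _ => ?_
  rw [aeval_bind₁, blk_mul, blk_mul, ha, hb]
  simp [Matrix.mul_apply, -Prod.forall]

theorem JG.act {x : Fin m → Ix → ℂ} (h : JG x) (hx : ∀ i, x i ∈ HH) {g : Fin m → Gb}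
    (hg : ∀ i, g i ∈ GG) : JG fun i => act (g i) (x i) := by
  refine JG.iff.2 fun H h1 h2 k hk => ?_
  have := JG.iff.1 h _ (qcl_conj h1 hg) (fun z => by
    have := h2 z
    simp only [hg_act (hg _) (hx _)] at this
    exact this) (g⁻¹ * k * g⁻¹⁻¹) fun i => G0_conj (inv_mem (GG_le_GE (hg i))) (hk i)
  have e : g * (g⁻¹ * k * g⁻¹⁻¹) * g⁻¹ = k := by group
  exact e ▸ this

theorem qcl_slot {H : Subgroup Gb} (h : QCl H) (i : Fin m) :
    St.QCl blk (H.comap (Pi.evalMonoidHom (fun _ => Gb) i)) := by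
  obtain ⟨S, hS⟩ := h
  refine ⟨rename (fun y : Wx × Wx => ((y.1, i), (y.2, i))) '' S, fun g => ?_⟩
  rw [Subgroup.mem_comap, hS, Set.forall_mem_image]
  refine forall_congr' fun P => forall_congr' fun _ => ?_
  simp only [aeval_rename, Function.comp_def, blk_apply]
  rfl

theorem MT_eq_GE {Z : Ix → ℂ} (h : G0 ≤ MT Z) : MT Z = GE := by
  refine (MT_le_GE Z).antisymm fun g hg => ?_
  have h1 : GE ≤ cj (gZ Z) (MT Z) :=
    GE_le (fun B => mem_cj.2 (h (G0_conj (gZ_mem_GE Z) (nE_mem_G0 B))))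
      (fun B => mem_cj.2 (h (G0_conj (gZ_mem_GE Z) (G0_conj wE_mem_GE (nE_mem_G0 B)))))
      fun s t => mem_cj.2 (dE_mem_MT Z s t)
  have h2 := mem_cj.1 (h1 (mul_mem (mul_mem (inv_mem (gZ_mem_GE Z)) hg) (gZ_mem_GE Z)))
  simpa [mul_assoc] using h2

theorem JG.gen {x : Fin m → Ix → ℂ} (h : JG x) (i : Fin m) : MT (x i) = GE :=
  MT_eq_GE (le_sInf fun _ hH g hg => JG.iff.1 h _ (qcl_slot hH.1 i) hH.2 (fun _ => g) fun _ => hg)

end Pool.Agent.E7
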