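import Pool.Agent.Lib.MP_7e5527_ag.EF.MF
import Pool.Agent.Lib.MP_7e5527_ag.EF.MJG

/-! Block M: the monodromy group is Zariski dense. -/

open Filter Topology

noncomputable section

namespace Pool.Agent.E7

variable {m : ℕ}

theorem mono_m {V : Set (Fin m → Ix → ℂ)} {D : Subgroup (Fin m → Gb)} (hF : Fam aM V D)
    (hD : ∀ δ ∈ D, ∀ i, δ i ∈ Gam) (hV : ∀ v ∈ V, ∀ i, v i ∈ HH) {v0 : Fin m → Ix → ℂ}
    (h0 : v0 ∈ V) (hg : JG v0) (hn : ∀ i, ∃ v ∈ V, v i ≠ v0 i) {d : ℕ} {φ : (Fin m → Gb) → ℂ}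
    (hφ : HF d φ) (hz : ∀ δ ∈ D, φ δ = 0) {g : Fin m → Gb} (hg0 : ∀ i, g i ∈ G0) : φ g = 0 := by
  obtain ⟨P, hP, e⟩ := hφ
  obtain ⟨L, hL⟩ := hom_form hP
  have h3 : ∀ H : Subgroup (Fin m → Gb), St.QCl blkI H → (∀ z, (fun i => E7.hg (v0 i) z) ∈ H) →
      ∀ g : Fin m → Gb, (∀ i, g i ∈ G0) → g ∈ H := fun H k1 k2 g k3 =>
    (sInf_le (s := {H | St.QCl blk H ∧ ∀ z, (fun i => E7.hg (v0 i) z) ∈ H}) ⟨k1, k2⟩ : MTm v0 ≤ H)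
      (hg (comm_GEm ▸ fun i _ => k3 i))
  have h1 := span_blk hD d fun _ c _ hχ => fix_of_gen hF hV hD h0 h3 hn c hχ hg0
  have h2 : Submodule.span ℂ ((fun γ => Rp (Fin d) (blkI γ)) '' D) ≤ LinearMap.ker L := by
    refine Submodule.span_le.2 ?_
    rintro _ ⟨δ, hδ, rfl⟩
    exact (hL _).symm.trans ((e δ).symm.trans (hz δ hδ))
  exact (e g).trans ((hL _).trans (h2 h1))

end Pool.Agent.E7
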