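import Pool.Agent.Lib.MP_7e5527_ag.EF.GvA
import Pool.Agent.Lib.MP_7e5527_ag.EF.GvB
import Pool.Agent.Lib.MP_7e5527_ag.EF.FamMain
import Pool.Agent.Lib.MP_7e5527_ag.EF.MMain

/-! The relations that hold on a formal branch hold on a dense orbit. -/

open MvPowerSeries Filter Topology

noncomputable section

namespace Pool.Agent.E7

section

variable {I σ : Type} [Fintype I] [DecidableEq I] {Z : I → ℂ}

theorem g7_aev {x : σ → (I → ℂ) → ℂ} (hx : ∀ j, AnalyticAt ℂ (x j) Z) (P : MvPolynomial σ ℂ) :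
    AnalyticAt ℂ (fun W => MvPolynomial.eval (fun j => x j W) P) Z ∧
      tyG (fun W => MvPolynomial.eval (fun j => x j W) P) Z =
        MvPolynomial.aeval (fun j => tyG (x j) Z) P := by
  induction P using MvPolynomial.induction_on with
  | C c =>
    simp only [MvPolynomial.eval_C, MvPolynomial.aeval_C]
    exact ⟨analyticAt_const, tyG_const c Z⟩
  | add p q hp hq =>
    simp only [map_add]
    exact ⟨hp.1.add hq.1, (tyG_add hp.1 hq.1).trans (by rw [hp.2, hq.2])⟩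
  | mul_X p j hp =>
    simp only [map_mul, MvPolynomial.eval_X, MvPolynomial.aeval_X]
    exact ⟨hp.1.mul (hx j), (tyG_mul hp.1 (hx j)).trans (by rw [hp.2])⟩

omit [DecidableEq I] in
theorem g7_var (q : I) (Z W : I → ℂ) : AnalyticAt ℂ (fun W : I → ℂ => W q - Z q) W :=
  ((ContinuousLinearMap.proj (R := ℂ) (φ := fun _ : I => ℂ) q).analyticAt W).sub analyticAt_const

theorem g7_X (q : I) (Z : I → ℂ) : tyG (fun W : I → ℂ => W q - Z q) Z = X q := by
  have h := tyG_add (g7_var q Z Z) (analyticAt_const (v := Z q))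
  rw [tyG_const, show ((fun W : I → ℂ => W q - Z q) + fun _ => Z q) = fun W => W q from
    funext fun W => sub_add_cancel _ _, tyG_var, add_comm] at h
  exact (add_right_cancel h).symm

theorem g7_poly (Z : I → ℂ) (P : MvPolynomial I ℂ) :
    tyG (fun W => MvPolynomial.eval (fun q => W q - Z q) P) Z = P := by
  rw [(g7_aev (fun q => g7_var q Z Z) P).2]
  simp only [g7_X]
  induction P using MvPolynomial.induction_on with
  | C c => simp [MvPowerSeries.algebraMap_apply]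
  | add p q hp hq => simp [hp, hq]
  | mul_X p j hp => simp [hp]

end

variable {m : ℕ} {Z : Fin m → Ix → ℂ}

/-- The coordinates on the product. -/
def g7x (q : Fin m × Ix) (W : Fin m × Ix → ℂ) : ℂ := xr (fun l => W (q.1, l)) q.2

theorem g7x_an (hZ : ∀ i, Z i ∈ U0) (q : Fin m × Ix) :
    AnalyticAt ℂ (g7x q) fun q => Z q.1 q.2 :=
  an_ren (F := fun W => xr W q.2) (g7_xr_an (hZ q.1) q.2)

theorem g7_xm (hZ : ∀ i, Z i ∈ U0) : xm Z = fun q => tyG (g7x q) fun q => Z q.1 q.2 := by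
  funext q
  rw [xm, g7_xg (hZ q.1)]
  exact (tyG_ren (F := fun W => xr W q.2) (Z := fun q => Z q.1 q.2) (g7_xr_an (hZ q.1) q.2)).symm

/-- Analytic at the good points. -/
def G7A (F : (Fin m × Ix → ℂ) → ℂ) : Prop :=
  ∀ u : Fin m → Ix → ℂ, (∀ i, u i ∈ U0) → AnalyticAt ℂ F fun q => u q.1 q.2

theorem g7_fam {L A : Type} [Field L] [Fintype A] (hZ : ∀ i, Z i ∈ U0) (hg : JG Z) (i0 : Fin m)
    (φ : PS (Fin m × Ix) ℂ →+* L) (hX : ∀ i, ∃ l, φ (X (i, l)) ≠ 0)
    (hc : Con φ Set.univ ≤ Con φ (Algebra.adjoin ℂ (Set.range (xm Z)))) (c : A → L)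
    (ha : ∀ a, IsAlgebraic ((Algebra.adjoin ℂ (Set.range (xm Z))).toSubring.map φ) (c a))
    {G0 : (Fin m × Ix → ℂ) → ℂ} {G : A → (Fin m × Ix → ℂ) → ℂ} (hG0 : G7A G0)
    (hG : ∀ a, G7A (G a)) (hn : φ (tyG G0 fun q => Z q.1 q.2) +
      ∑ a, c a * φ (tyG (G a) fun q => Z q.1 q.2) ≠ 0) :
    ∃ (Δ : Subgroup (Fin m → Gb)) (u : Fin m → Ix → ℂ) (d : ℂ) (c' : A → ℂ), G7D Δ ∧
      (∀ i, u i ∈ U0) ∧ (∀ δ ∈ Δ, ∀ i, aM δ u i ∈ U0) ∧ d ≠ 0 ∧
      d * G0 (fun q => u q.1 q.2) + ∑ a, c' a * G a (fun q => u q.1 q.2) ≠ 0 ∧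
      ∀ (F0 : (Fin m × Ix → ℂ) → ℂ) (F : A → (Fin m × Ix → ℂ) → ℂ), G7A F0 → (∀ a, G7A (F a)) →
        φ (tyG F0 fun q => Z q.1 q.2) + ∑ a, c a * φ (tyG (F a) fun q => Z q.1 q.2) = 0 →
        ∀ δ ∈ Δ, d * F0 (fun q => aM δ u q.1 q.2) +
          ∑ a, c' a * F a (fun q => aM δ u q.1 q.2) = 0 := by
  choose l hl using hX
  have hJ : IsUnit (jacS (xm Z)).det :=
    jac_prod (x := fun i => xg (Z i)) fun i => g7_jac (hZ i)
  have hx := g7_xm hZ
  rw [hx] at hJ hc ha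
  obtain ⟨h, d, c', a1, a2, a3, a4, a5, a6, a7, a8, a9, a10⟩ := arc_germ φ (g7x_an hZ) hJ
    ⟨_, hl i0⟩ hc c ha (J := Option (Fin m))
    (fun j => j.elim G0 fun i W => W (i, l i) - Z i (l i))
    (fun j a => j.elim (G a) fun _ _ => 0)
    (fun j => by
      cases j
      exacts [hG0 Z hZ, g7_var _ (fun q : Fin m × Ix => Z q.1 q.2) _])
    (fun j a => by
      cases j
      exacts [hG a Z hZ, analyticAt_const])
    (fun j => by
      cases j with
      | none => exact hn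
      | some i =>
        simpa [tyG_const, g7_X (i, l i) fun q : Fin m × Ix => Z q.1 q.2] using hl i)
  obtain ⟨V, Δ, v1, v2, v3, v4, v5⟩ := exists_fam (h := fun t i l => h t (i, l))
    (c := fun t (o : Option A) => o.elim (d t) (c' t))
    (analyticAt_pi_iff.2 fun i => analyticAt_pi_iff.2 fun l => analyticAt_pi_iff.1 a1 (i, l))
    (analyticAt_pi_iff.2 fun o => by
      cases o
      exacts [a2, analyticAt_pi_iff.1 a3 _])
    (fun i => by rw [a4]; exact hZ i)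
    (fun i w G hG => by
      obtain ⟨b1, b2⟩ := g7_alg (hZ i) hG
      refine a8 _ (an_ren (Z := fun q : Fin m × Ix => Z q.1 q.2) b1) ?_
      rw [tyG_ren (Z := fun q : Fin m × Ix => Z q.1 q.2) b1, ← hx]
      exact algS_le (fun j => self_mem_algS (x := xm Z) (i, j)) (algS_map (RingHom.id ℂ)
        (rename (Prod.mk i) : PS Ix ℂ →ₐ[ℂ] PS (Fin m × Ix) ℂ).toRingHom
        (fun c => AlgHom.commutes _ c)
        (rename_injective ⟨Prod.mk i, Prod.mk_right_injective i⟩) b2))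
    (fun o => by
      cases o
      exacts [a9, a10 _])
  have v6 := v4.filter_mono (nhdsWithin_le_nhds (s := {0}ᶜ))
  have hD : G7D Δ := ⟨fun δ hδ i => v1 hδ i trivial, fun k ψ b1 b2 g b3 =>
    mono_m (v0 := Z) (v2.map (ContinuousLinearMap.fst ℂ _ _) fun _ _ _ _ => rfl)
      (fun δ hδ i => Gam2_le (v1 hδ i trivial)) (by
        rintro _ ⟨v, hv, rfl⟩ i
        exact (v3 v hv i).1) ⟨_, v4.self_of_nhds, by rw [a4]; rfl⟩ hg (fun i => by
        obtain ⟨t, t1, t2⟩ := (v6.and (a7 (some i))).exists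
        refine ⟨_, ⟨_, t1, rfl⟩, fun e => t2 ?_⟩
        have e' : h t (i, l i) = Z i (l i) := congrFun e (l i)
        simp only [Option.elim_some, e', sub_self, mul_zero, Finset.sum_const_zero, add_zero])
      b1 b2 b3⟩
  obtain ⟨t, ⟨t1, t2⟩, t3⟩ := ((v6.and a5).and (a7 none)).exists
  have t4 : ∀ δ ∈ Δ, (aM δ fun i l => h t (i, l), fun o : Option A => o.elim (d t) (c' t)) ∈ V :=
    fun δ hδ => (v2.stab δ hδ _ t1 :)
  refine ⟨Δ, fun i l => h t (i, l), d t, c' t, hD, v3 _ t1, fun δ hδ => v3 _ (t4 δ hδ), t2, t3,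
    fun F0 F f0 f e δ hδ => ?_⟩
  refine v5 (fun v => v.2 none * F0 (fun q => v.1 q.1 q.2) +
      ∑ a, v.2 (some a) * F a fun q => v.1 q.1 q.2) (fun v hv => ?_)
      (a6 F0 F (f0 Z hZ) (fun a => f a Z hZ) e) _ (t4 δ hδ)
  have b0 : DifferentiableAt ℂ (fun v : (Fin m → Ix → ℂ) × (Option A → ℂ) =>
      fun q : Fin m × Ix => v.1 q.1 q.2) v := by fun_prop
  have b1 : ∀ o, DifferentiableAt ℂ (fun v : (Fin m → Ix → ℂ) × (Option A → ℂ) => v.2 o) v :=
    fun o => by fun_prop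
  exact ((b1 _).fun_mul ((f0 _ (v3 v hv)).differentiableAt.comp v b0)).fun_add
    (DifferentiableAt.fun_sum fun a _ =>
      (b1 _).fun_mul ((f a _ (v3 v hv)).differentiableAt.comp v b0))

end Pool.Agent.E7
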