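import Pool.Agent.Lib.MP_7e5527_ag.EF.GvC
import Pool.Agent.Lib.MP_7e5527_ag.EF.GvD

/-! Block GenV: the genericity condition at a jointly generic point. -/

open MvPowerSeries Filter Topology

noncomputable section

namespace Pool.Agent.E7

section

variable {m : ℕ} {Z : Fin m → Ix → ℂ} {L : Type} [Field L] {φ : PS (Fin m × Ix) ℂ →+* L}

theorem g7a_poly (Z : Fin m × Ix → ℂ) (P : MvPolynomial (Fin m × Ix) ℂ) :
    G7A fun W => MvPolynomial.eval (fun q => W q - Z q) P := fun _ _ =>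
  (g7_aev (fun q => g7_var q Z _) P).1

theorem g7a_const (c : ℂ) : G7A (m := m) fun _ => c := fun _ _ => analyticAt_const

/-- No polynomial vanishes on the branch. -/
theorem g7_one (hZ : ∀ i, Z i ∈ U0) (hg : JG Z) (i0 : Fin m) (hX : ∀ i, ∃ l, φ (X (i, l)) ≠ 0)
    (hc : Con φ Set.univ ≤ Con φ (Algebra.adjoin ℂ (Set.range (xm Z))))
    {P : MvPolynomial (Fin m × Ix) ℂ} (h : φ P = 0) : P = 0 := by
  obtain ⟨Δ, u, d, c', h1, h2, -, h3, -, h4⟩ := g7_fam hZ hg i0 φ hX hc (A := Empty) Empty.elim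
    (fun a => a.elim) (g7a_const 1) (G := Empty.elim) (fun a => a.elim) (by simp [tyG_const])
  refine h1.dense (fun i => (h2 i).1) (Z := fun q => Z q.1 q.2) fun δ hδ => ?_
  simpa [h3] using h4 _ Empty.elim (g7a_poly _ P) (fun a => a.elim)
    (by rw [g7_poly, h]; simp) δ hδ

/-- No coordinate is algebraic. -/
theorem g7_two (hZ : ∀ i, Z i ∈ U0) (hg : JG Z) (hX : ∀ i, ∃ l, φ (X (i, l)) ≠ 0)
    (hc : Con φ Set.univ ≤ Con φ (Algebra.adjoin ℂ (Set.range (xm Z)))) (q : Fin m × Ix) :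
    ¬IsAlgebraic ((Algebra.adjoin ℂ (Set.range (xm Z))).toSubring.map φ) (φ (X q)) := by
  intro h
  obtain ⟨Δ, u, d, c', h1, h2, -, h3, -, h4⟩ := g7_fam hZ hg q.1 φ hX hc (A := Unit)
    (fun _ => φ (X q)) (fun _ => h) (g7a_const 1) (fun _ => g7a_const 0) (by simp [tyG_const])
  have h5 := h4 _ _ (fun _ _ => g7_var q (fun q => Z q.1 q.2) _) (fun _ => g7a_const (-1))
    (by rw [g7_X q fun q => Z q.1 q.2]; simp [tyG_const])
  refine MvPolynomial.X_ne_zero q (h1.dense (fun i => (h2 i).1) (Z := fun q => u q.1 q.2)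
    fun δ hδ => mul_left_cancel₀ h3 ?_)
  have h6 := h5 1 (one_mem _)
  simp only [aM, Pi.one_apply, act_one] at h6
  rw [MvPolynomial.eval_X]
  linear_combination h5 δ hδ - h6

theorem g7_der {A : Type} [Fintype A] (c : A → ℂ) {F : A → (Fin m × Ix → ℂ) → ℂ}
    (hF : ∀ a, G7A (F a)) {u : Fin m → Ix → ℂ} (hu : ∀ i, u i ∈ U0) :
    DifferentiableAt ℂ (fun W : Fin m → Ix → ℂ => ∑ a, c a * F a fun q => W q.1 q.2) u ∧
      ∀ b, fderiv ℂ (fun W : Fin m → Ix → ℂ => ∑ a, c a * F a fun q => W q.1 q.2) u b =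
        ∑ a, c a * ∑ q, dG q (F a) (fun q => u q.1 q.2) * b q.1 q.2 := by
  let π : (Fin m → Ix → ℂ) →L[ℂ] Fin m × Ix → ℂ :=
    .pi fun q => (ContinuousLinearMap.proj (R := ℂ) (φ := fun _ : Ix => ℂ) q.2).comp
      (ContinuousLinearMap.proj (R := ℂ) (φ := fun _ : Fin m => Ix → ℂ) q.1)
  have h := HasFDerivAt.fun_sum (u := Finset.univ) fun a _ =>
    ((hF a u hu).differentiableAt.hasFDerivAt.comp u π.hasFDerivAt).const_mul (c a)
  refine ⟨h.differentiableAt, fun b => (DFunLike.congr_fun h.fderiv b).trans ?_⟩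
  rw [sum_apply]
  refine Finset.sum_congr rfl fun a _ => congrArg (c a * ·) ?_
  refine (LinearMap.pi_apply_eq_sum_univ (fderiv ℂ (F a) _).toLinearMap (π b)).trans
    (Finset.sum_congr rfl fun q _ => (mul_comm _ _).trans ?_)
  exact congrArg (fderiv ℂ (F a) _ · * _) (funext fun j => by simp [Pi.single_apply, eq_comm])

/-- A form with algebraic coefficients kills no polynomial vector field. -/
theorem g7_three (hZ : ∀ i, Z i ∈ U0) (hg : JG Z) (hX : ∀ i, ∃ l, φ (X (i, l)) ≠ 0)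
    (hc : Con φ Set.univ ≤ Con φ (Algebra.adjoin ℂ (Set.range (xm Z)))) {n : ℕ}
    (g : Fin n → Algebra.adjoin ℂ (Set.range (xm Z))) {c : Fin n → L}
    (ha : ∀ a, IsAlgebraic ((Algebra.adjoin ℂ (Set.range (xm Z))).toSubring.map φ) (c a))
    {q : Fin m × Ix} (hq : ∑ a, c a * φ (pderiv ℂ q (g a)) ≠ 0)
    {v : Fin m × Ix → MvPolynomial (Fin m × Ix) ℂ}
    (hv : ∑ q, (∑ a, c a * φ (pderiv ℂ q (g a))) * φ (v q) = 0) : v q = 0 := by
  choose p hp using fun a => (Algebra.adjoin_range_eq_range_aeval ℂ (xm Z)).le (g a).2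
  obtain ⟨F, f1, f2, f3⟩ : ∃ F : Fin n → (Fin m × Ix → ℂ) → ℂ, (∀ a, G7A (F a)) ∧
      (∀ a, tyG (F a) (fun q => Z q.1 q.2) = g a) ∧ ∀ a (W W' : Fin m → Ix → ℂ),
        (∀ i, xr (W i) = xr (W' i)) → F a (fun q => W q.1 q.2) = F a fun q => W' q.1 q.2 :=
    ⟨fun a W => MvPolynomial.eval (fun q => g7x q W) (p a),
      fun a u hu => (g7_aev (g7x_an hu) _).1,
      fun a => (g7_aev (g7x_an hZ) _).2.trans (by rw [← g7_xm hZ]; exact hp a),
      fun a W W' e => congrArg (MvPolynomial.eval · (p a)) (funext fun q => congrFun (e q.1) q.2)⟩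
  have f4 : ∀ q a, G7A (dG q (F a)) := fun q a u hu => dG_an (f1 a u hu) q
  have f5 : ∀ q a, tyG (dG q (F a)) (fun q => Z q.1 q.2) = pderiv ℂ q (g a) := fun q a => by
    rw [← f2, tyG_der (f1 a Z hZ)]
  obtain ⟨Δ, u, d, c', h1, h2, h3, -, h4, h5⟩ := g7_fam hZ hg q.1 φ hX hc c ha (g7a_const 0) (f4 q)
    (by simpa only [f5, tyG_const, map_zero, zero_add] using hq)
  have h6 := h5 _ (fun a W => ∑ q, dG q (F a) W *
      MvPolynomial.eval (fun q => W q - Z q.1 q.2) (v q)) (g7a_const 0)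
    (fun a u hu => Finset.univ.analyticAt_fun_sum fun q _ =>
      (f4 q a u hu).fun_mul (g7a_poly _ (v q) u hu)) (by
      rw [tyG_const, map_zero, map_zero, zero_add, ← hv]
      simp only [Finset.sum_mul]
      rw [Finset.sum_comm]
      refine Finset.sum_congr rfl fun a _ => ?_
      have e := map_sum (tyH fun q : Fin m × Ix => Z q.1 q.2)
        (fun q => (⟨_, f4 q a Z hZ⟩ : AnG _) *
        ⟨_, g7a_poly (fun q => Z q.1 q.2) (v q) Z hZ⟩) Finset.univ
      simp only [map_mul] at e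
      rw [show tyG _ _ = _ from (congrArg (tyG · _) (funext fun W => by
        rw [AddSubmonoidClass.coe_finsetSum, Finset.sum_apply]; rfl)).trans e, map_sum,
        Finset.mul_sum]
      refine Finset.sum_congr rfl fun q _ => ?_
      rw [map_mul, mul_assoc, ← f5, ← g7_poly (fun q => Z q.1 q.2) (v q)]
      rfl)
  refine h1.cov (fun i => (h2 i).1) (g7_der c' f1 h2).1 (fun δ hδ W hW =>
    Finset.sum_congr rfl fun a _ => congrArg _ (f3 a _ _ fun i => g7_xr_act (h1.1 δ hδ i) (hW i)))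
    (Z := fun q => Z q.1 q.2) (fun δ hδ => ?_) (i := q.1) (b0 := Pi.single q.2 1) ?_ q.2
  · rw [(g7_der c' f1 (h3 δ hδ)).2]
    simpa only [mul_zero, zero_add] using h6 δ hδ
  · rw [(g7_der c' f1 h2).2]
    rw [mul_zero, zero_add] at h4
    refine fun e => h4 (Eq.trans (Finset.sum_congr rfl fun a _ => congrArg _ ?_) e)
    rw [Finset.sum_eq_single q (fun q' _ hq' => ?_) fun h => absurd (Finset.mem_univ q) h]
    · simp
    · by_cases e1 : q'.1 = q.1
      · have e2 : q'.2 ≠ q.2 := fun e2 => hq' (Prod.ext e1 e2)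
        simp [e1, e2]
      · simp [e1]

theorem g7_coe {σ L : Type} [Field L] (φ : PS σ ℂ →+* L) (P : MvPolynomial σ ℂ) :
    φ P = P.eval₂ (φ.comp C) fun q => φ (X q) := by
  induction P using MvPolynomial.induction_on with
  | C c => simp
  | add p q hp hq => simp [hp, hq]
  | mul_X p j hp => simp [hp]

theorem g7_dep [Algebra ℂ L] {x : Ix → L} {H : MvPolynomial Ix ℂ} (hH : H ≠ 0)
    (h : MvPolynomial.aeval x H = 0) : Dep ℂ 26 x := fun s hs => by
  have h1 : Function.Bijective s := (Fintype.bijective_iff_injective_and_card s).2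
    ⟨fun i j e => hs.injective (congrArg x e), by simp⟩
  exact hH (algebraicIndependent_iff.1
    ((algebraicIndependent_equiv (Equiv.ofBijective s h1)).1 hs) H h)

end

theorem genv {m r : ℕ} (hm : 0 < m) (hr : r ≤ m) {Z : Fin m → Ix → ℂ} (hZ : ∀ i, Z i ∈ U0)
    (hg : JG Z)
    {H : MvPolynomial Ix ℂ} (hH : H ≠ 0) :
    GenV r (Algebra.adjoin ℂ (Set.range (xm Z)))
      {f | ∃ i, f = rename (Prod.mk i) (MvPolynomial.aeval (xg (Z i)) H)} := by
  intro L _ φ hX hc hV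
  refine ⟨?_, fun n g c ω ha hω => ?_⟩
  · obtain ⟨s⟩ : Nonempty (Fin (r + m * 26) ↪ Fin m × Ix) :=
      Function.Embedding.nonempty_of_card_le (by simp; omega)
    refine ⟨m * 26, s, fun Q hQ => MvPolynomial.rename_injective s s.injective ?_, fun g => ?_⟩
    · rw [map_zero]
      exact g7_one hZ hg ⟨0, hm⟩ hX hc (by rw [g7_coe, MvPolynomial.eval₂_rename]; exact hQ)
    · let : Algebra ℂ L := (φ.comp C).toAlgebra
      let ψ : PS (Fin m × Ix) ℂ →ₐ[ℂ] L := { φ with commutes' := fun _ => rfl }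
      have h1 : Dep ℂ (m * 26) fun q : Fin m × Ix => ψ (xm Z (q.1, q.2)) :=
        Dep.pi (z := fun i j => ψ (xm Z (i, j))) fun i => g7_dep hH (by
          rw [← hV _ ⟨i, rfl⟩]
          exact (MvPolynomial.comp_aeval_apply _ (ψ.comp (rename (Prod.mk i))) H).symm)
      refine dep_iff.1 (h1.alg (y := fun a => φ (g a)) fun a => ?_) id
      obtain ⟨p, hp⟩ := (Algebra.adjoin_range_eq_range_aeval ℂ (xm Z)).le (g a).2
      rw [← show MvPolynomial.aeval (xm Z) p = g a from hp]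
      exact (MvPolynomial.comp_aeval_apply _ ψ p).symm ▸ Algebra.adjoin_le
        (Set.range_subset_iff.2 self_mem_algS)
        ((Algebra.adjoin_range_eq_range_aeval ℂ _).ge ⟨p, rfl⟩)
  · by_cases h0 : ω = 0
    · exact Or.inl (h0 ▸ zero_mem _)
    obtain ⟨q, hq⟩ := Function.ne_iff.1 h0
    refine Or.inr ⟨MvPolynomial.X q, 1, by simp, by simpa using g7_two hZ hg hX hc q,
      fun v hv _ => ?_⟩
    simp only [hω] at hq hv
    have h1 := g7_three hZ hg hX hc g ha hq hv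
    refine Finset.sum_eq_zero fun q' _ => ?_
    by_cases e : q' = q
    · simp [e, h1]
    · simp [pderiv_X, e]

end Pool.Agent.E7
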