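import Pool.Agent.Lib.MP_7e5527_ag.EF.RF
import Pool.Agent.Lib.MP_7e5527_ag.EF.Left
import Pool.Agent.Lib.MP_7e5527_ag.EF.Defs
import Pool.Agent.Lib.MP_7e5527_ag.EA.CF
import Pool.Agent.Lib.MP_7e5527_ag.EO.DMain
import Pool.Agent.Lib.MP_7e5527_ag.EL.A1
import Pool.Agent.Lib.MP_a47f92_an.G.Osg

/-! The germs of the coordinates and of the quotients of forms. -/

open MvPowerSeries Filter Topology

noncomputable section

namespace Pool.Agent.E7

variable {Z : Ix → ℂ}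

theorem g7_an {F : Fn} (h : Gd F) (hZ : Z ∈ HH) : AnalyticAt ℂ (ext F) Z :=
  Lib.MP_a47f92_an.Osg.analyticOnNhd_of_differentiableOn isOpen_HH
    (fun _ hW => (h.isHol.differentiableAt hW).differentiableWithinAt) Z hZ

theorem g7_xr_an (hZ : Z ∈ U0) (j : Ix) : AnalyticAt ℂ (fun W => xr W j) Z :=
  (g7_an (Thi_m2 j).1.gd hZ.1).fun_div (g7_an ThF_mf.gd hZ.1) hZ.2.1

theorem g7_xg (hZ : Z ∈ U0) : xg Z = fun j => tyG (fun W => xr W j) Z := by
  funext j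
  have h0 := g7_an ThF_mf.gd hZ.1
  have h1 : ext (Thi j) =ᶠ[𝓝 Z] (fun W => xr W j) * ext ThF := by
    filter_upwards [h0.continuousAt.eventually_ne hZ.2.1] with W hW
    exact (div_mul_cancel₀ _ hW).symm
  have h2 : IsUnit (tyG (ext ThF) Z) :=
    isUnit_iff_constantCoeff.2 (by rw [tyG_zero]; exact hZ.2.1.isUnit)
  change tyG (ext (Thi j)) Z * Ring.inverse (tyG (ext ThF) Z) = _
  rw [tyG_congr h1, tyG_mul (g7_xr_an hZ j) h0, Ring.mul_inverse_cancel_right _ _ h2]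

theorem g7_jac (hZ : Z ∈ U0) : IsUnit (jacS (xg Z)).det := by
  obtain ⟨ξ, h1, h2, -⟩ := xr_inv hZ
  have hx := g7_xr_an hZ
  have h3 : DifferentiableAt ℂ xr Z := differentiableAt_pi.2 fun j => (hx j).differentiableAt
  have h4 : LinearMap.toMatrix' (fderiv ℂ (fun W j => xr W j) Z).toLinearMap =
      (jacS fun j => tyG (fun W => xr W j) Z).map constantCoeff := by
    ext j l
    rw [LinearMap.toMatrix'_apply, Matrix.map_apply, jacS, Matrix.of_apply, tyG_der (hx j),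
      tyG_zero, fderiv_pi fun j => (hx j).differentiableAt]
    rfl
  have h5 : (fderiv ℂ ξ (xr Z)).comp (fderiv ℂ xr Z) = ContinuousLinearMap.id ℂ _ := by
    rw [← fderiv_comp Z h1.self_of_nhds h3, ← fderiv_id (x := Z)]
    exact Filter.EventuallyEq.fderiv_eq h2
  rw [g7_xg hZ, isUnit_det_ps, ← h4, LinearMap.det_toMatrix']
  refine IsUnit.of_mul_eq_one_right (LinearMap.det (fderiv ℂ ξ (xr Z)).toLinearMap) ?_
  rw [← LinearMap.det_comp, ← LinearMap.det_id (A := ℂ) (M := Ix → ℂ)]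
  exact congrArg (fun f : (Ix → ℂ) →L[ℂ] Ix → ℂ => LinearMap.det f.toLinearMap) h5

theorem g7_inv {k : ℤ} {F : Fn} {δ : Gb} (hδ : δ ∈ GG) (h : sl k δ F = F) (hZ : Z ∈ HH) :
    ext F (act δ Z) = jf δ Z ^ k * ext F Z := by
  have h1 := congrFun h ⟨Z, hZ⟩
  rw [ext, ext, ofC_eq hZ, ← h1, sl, ← mul_assoc, ← zpow_add₀ (act_spec hδ hZ).1, add_neg_cancel,
    zpow_zero, one_mul]

theorem g7_xr_act {δ : Gb} (hδ : δ ∈ Gam2) (hZ : Z ∈ HH) : xr (act δ Z) = xr Z := by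
  have h := Gam_le (Gam2_le hδ)
  funext j
  rw [xr, xr, g7_inv h (ThF_m2.2 δ hδ) hZ, g7_inv h ((Thi_m2 j).2 δ hδ) hZ,
    mul_div_mul_left _ _ (zpow_ne_zero _ (act_spec h hZ).1)]

/-- A relation between a quotient of forms and the coordinates. -/
theorem g7_rel {w : ℕ} {G : Fn} (hG : M2 (w * 4) G) :
    ∃ P : Polynomial (MvPolynomial Ix ℂ), P ≠ 0 ∧ ∀ W ∈ HH, ext ThF W ≠ 0 →
      P.eval₂ (MvPolynomial.aeval (xr W) : _ →ₐ[ℂ] ℂ).toRingHom (ext G W / ext ThF W ^ w) = 0 := by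
  obtain ⟨e, -⟩ := exists_equiv_ker 2 (Int.castRingHom _) (Int.castRingHom _) fun r => by simp
  obtain ⟨D0, hD⟩ := gfh e Gam2_le Gam2_index 4
  have hf : ∀ o, M2 4 (FF Thi o) := fun o => by
    cases o
    exacts [ThF_m2, Thi_m2 _]
  obtain ⟨R, h0, ⟨L, hL⟩, -, hR⟩ := (hD (FF Thi) w G
    (fun o => ⟨(hf o).1, (hf o).2, (hf o).1.mem_GZ (hf o).2⟩) hG.1 hG.2 (hG.1.mem_GZ hG.2)).1
  let D : MvPolynomial (Option Ix) ℂ →ₐ[ℂ] MvPolynomial Ix ℂ :=
    MvPolynomial.aeval fun o => o.elim 1 MvPolynomial.X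
  refine ⟨R.map D.toRingHom, fun h => h0 (Polynomial.ext fun j => by_contra fun hj => ?_),
    fun W hW hT => ?_⟩
  · obtain ⟨d, -, hd⟩ := hL j hj
    exact hj (FS.cf2_deh hd ((Polynomial.coeff_map _ _).symm.trans
      (congrArg (Polynomial.coeff · j) h)))
  · have h2 := congrArg (fun G => (ext ThF W)⁻¹ ^ L * Pi.evalRingHom (fun _ : HH => ℂ) (ofC W) G) hR
    have h3 : (Pi.evalRingHom (fun _ : HH => ℂ) (ofC W)).comp
        (MvPolynomial.eval₂Hom (algebraMap ℂ Fn) (FF Thi)) =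
        (MvPolynomial.aeval fun o => ext (FF Thi o) W : _ →ₐ[ℂ] ℂ).toRingHom :=
      MvPolynomial.ringHom_ext (fun r => by simp) fun l => by simp [ext]
    simp only [map_zero, mul_zero, Polynomial.hom_eval₂, h3] at h2
    rw [Polynomial.eval₂_map, ← h2, Polynomial.eval₂_eq_sum, Polynomial.eval₂_eq_sum,
      Polynomial.sum, Polynomial.sum, Finset.mul_sum]
    refine Finset.sum_congr rfl fun j hj => ?_
    obtain ⟨d, rfl, hd⟩ := hL j (Polynomial.mem_support_iff.1 hj)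
    have h4 : MvPolynomial.aeval (xr W) (D (R.coeff j)) =
        (ext ThF W)⁻¹ ^ d * MvPolynomial.aeval (fun o => ext (FF Thi o) W) (R.coeff j) := by
      rw [← wrc2_scale hd, MvPolynomial.comp_aeval_apply]
      refine congrArg (fun v => MvPolynomial.aeval v (R.coeff j)) (funext fun o => ?_)
      cases o with
      | none => simp [FF, hT]
      | some i => simp [FF, xr, div_eq_inv_mul]
    refine (congrArg (· * _) h4).trans ?_
    change _ = _ * (MvPolynomial.aeval (fun o => ext (FF Thi o) W) (R.coeff j) * ext G W ^ j)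
    rw [div_eq_mul_inv, ← inv_pow]
    ring

theorem g7_alg (hZ : Z ∈ U0) {w : ℕ} {G : Fn} (hG : M2 (w * 4) G) :
    AnalyticAt ℂ (fun W => ext G W / ext ThF W ^ w) Z ∧
      tyG (fun W => ext G W / ext ThF W ^ w) Z ∈ algS ℂ (xg Z) := by
  have h0 := g7_an ThF_mf.gd hZ.1
  have h1 : AnalyticAt ℂ (fun W => ext G W / ext ThF W ^ w) Z :=
    (g7_an hG.1.gd hZ.1).fun_div (h0.fun_pow w) (pow_ne_zero _ hZ.2.1)
  obtain ⟨P, p0, p1⟩ := g7_rel hG
  refine ⟨h1, algS_root (P := P) (fun e => p0 ((Polynomial.map_eq_zero_iff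
    (indep_of_jac (g7_jac hZ))).1 e)) ?_⟩
  let x : Ix → AnG Z := fun j => ⟨_, g7_xr_an hZ j⟩
  have h2 := Polynomial.hom_eval₂ P (MvPolynomial.aeval x : _ →ₐ[ℂ] AnG Z).toRingHom
    (tyH Z).toRingHom ⟨_, h1⟩
  have h3 : (tyH Z).toRingHom.comp (MvPolynomial.aeval x : _ →ₐ[ℂ] AnG Z).toRingHom =
      (MvPolynomial.aeval (xg Z) : _ →ₐ[ℂ] PS Ix ℂ).toRingHom :=
    congrArg AlgHom.toRingHom ((MvPolynomial.comp_aeval x (tyH Z)).trans (by rw [g7_xg hZ]; rfl))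
  rw [h3] at h2
  refine h2.symm.trans ((tyG_congr (G := fun _ => 0) ?_).trans ((tyG_const 0 Z).trans (map_zero _)))
  filter_upwards [h0.continuousAt.eventually_ne hZ.2.1, isOpen_HH.mem_nhds hZ.1] with W w1 w2
  let ε : AnG Z →ₐ[ℂ] ℂ := (Pi.evalAlgHom ℂ (fun _ => ℂ) W).comp (AnG Z).val
  refine (Polynomial.hom_eval₂ P _ ε.toRingHom _).trans (Eq.trans ?_ (p1 W w2 w1))
  exact congrArg (fun f : _ →ₐ[ℂ] ℂ => P.eval₂ f.toRingHom _) (MvPolynomial.comp_aeval x ε)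

end Pool.Agent.E7
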