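import Pool.Agent.Lib.MP_7e5527_ag.EF.GvB
import Pool.Agent.Lib.MP_7e5527_ag.EL.GD
import Pool.Agent.Lib.MP_7e5527_ag.EL.SC3
import Pool.Agent.Lib.MP_7e5527_ag.EL.ME1

/-! Invariant covector fields along a dense orbit kill no polynomial vector field. -/

open Filter Topology

noncomputable section

namespace Pool.Agent.E7

theorem g7_comm {g k : Gb} (hg : g ∈ GE) (hk : k ∈ GE) : g * k * g⁻¹ * k⁻¹ ∈ G0 :=
  comm_GE ▸ Subgroup.commutator_mem_commutator hg hk

theorem g7_conj {g n : Gb} (hg : g ∈ GE) (hn : n ∈ G0) : g * n * g⁻¹ ∈ G0 := by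
  simpa using mul_mem (g7_comm hg (G0_le_GE hn)) hn

theorem g7_tor {g : Gb} (hg : g ∈ GE) : ∃ s t, dE s t * g ∈ G0 := by
  let H : Subgroup Gb :=
    { carrier := {g | ∃ s t, dE s t * g ∈ G0}
      one_mem' := ⟨1, 1, by rw [dE_one, one_mul]; exact one_mem _⟩
      mul_mem' := by
        rintro a b ⟨s, t, h⟩ ⟨s', t', h'⟩
        refine ⟨s' * s, t' * t, ?_⟩
        simpa [dE_mul, mul_assoc] using mul_mem (g7_conj (dE_mem_GE s' t') h) h'
      inv_mem' := by
        rintro a ⟨s, t, h⟩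
        refine ⟨s⁻¹, t⁻¹, ?_⟩
        simpa [← dE_inv, mul_assoc] using g7_conj (inv_mem (dE_mem_GE s t)) (inv_mem h) }
  have h : ∀ n ∈ G0, n ∈ H := fun n hn => ⟨1, 1, by rwa [dE_one, one_mul]⟩
  exact GE_le (H := H) (fun B => h _ (g7_nE B)) (fun B => h _ (g7_conj wE_mem_GE (g7_nE B)))
    (fun s t => ⟨s⁻¹, t⁻¹, by rw [← dE_inv, inv_mul_cancel]; exact one_mem _⟩) hg

theorem g7_dE (s : ℂˣ) : dE s s⁻¹ ∈ G0 := by
  simpa [wE_dE, dE_inv, ← dE_mul] using g7_comm wE_mem_GE (dE_mem_GE 1 s)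

theorem g7_r0 (s t : ℂˣ) : dE s t r0 = (s : ℂ) ^ 3 • r0 := by simp [dE_apply, r0]

/-- The stabiliser of the first axis acts irreducibly on the cotangent space. -/
theorem g7_levi {C b : Ix → ℂ} (hC : C ≠ 0) {c : ℂ} (h : ∀ k ∈ G0, ∀ t : ℂ, t ≠ 0 →
    k r0 = t • r0 → t * tr (k (0, 0, C, 0)).2.2.1 b = c) : b = 0 := by
  let K : Submodule ℂ (Ix → ℂ) :=
    { carrier := {b | ∀ k ∈ G0, ∀ t : ℂ, t ≠ 0 → k r0 = t • r0 → tr (k (0, 0, C, 0)).2.2.1 b = 0}
      add_mem' := fun ha hb k hk t ht e => by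
        rw [tr_add_right, ha k hk t ht e, hb k hk t ht e, add_zero]
      zero_mem' := fun _ _ _ _ _ => tr_zero_right _
      smul_mem' := fun a x hx k hk t ht e => by rw [tr_smul_right, hx k hk t ht e, mul_zero] }
  have hb : b ∈ K := fun k hk t ht e => by
    have h1 := h k hk t ht e
    have h2 := h _ (mul_mem (g7_dE (Units.mk0 2 two_ne_zero)) hk) (t * 2 ^ 3) (by simpa using ht)
      (by rw [LinearEquiv.mul_apply, e, map_smul, g7_r0, smul_smul]; rfl)
    rw [LinearEquiv.mul_apply, dE_apply, tr_smul_left] at h2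
    simp only [Units.val_mk0, Units.val_inv_eq_inv_val] at h2
    refine mul_left_cancel₀ (mul_ne_zero three_ne_zero ht) ?_
    linear_combination h2 - h1
  refine (irred K fun A c hA X hX k hk t ht e => ?_).elim (fun e => by rwa [e] at hb) fun e => ?_
  swap
  · refine absurd (eq_of_tr fun T => ?_) hC
    rw [tr_zero_left]
    exact (e ▸ Submodule.mem_top : T ∈ K) 1 (one_mem _) 1 one_ne_zero (one_smul _ _).symm
  · obtain ⟨g, g1, g2⟩ := hA.exists_Lv
    obtain ⟨A', a1, a2, -⟩ := hA.exists_adj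
    obtain ⟨s, s', hs⟩ := g7_tor (inv_mem g1)
    have h1 := hX _ (mul_mem hs hk) (t * s ^ 3) (by simpa using ht) (by
      rw [LinearEquiv.mul_apply, LinearEquiv.mul_apply, e, map_smul, g2.inv.r0_eq, map_smul, g7_r0,
        smul_smul])
    rw [LinearEquiv.mul_apply, LinearEquiv.mul_apply, dE_apply, tr_smul_left] at h1
    have h2 : k (0, 0, C, 0) = g (g⁻¹ (k (0, 0, C, 0))) := (g.apply_symm_apply _).symm
    rw [h2, sa3_apply hA g2 a2, a1, (mul_eq_zero.1 h1).resolve_left (by simp), mul_zero]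

theorem g7_sy (C Z Z' : Ix → ℂ) : sy (nE Z (0, 0, C, 0)) (rr Z') = tr C (Z' - Z) := by
  have h : rr Z' = nE Z (rr (Z' - Z)) := by rw [nE_rr, sub_add_cancel]
  rw [h, sy_nE]
  simp [sy, rr, tr_zero_left]

theorem g7_eL (B b : Ix → ℂ) : eL b (rr B) = nE B (0, b, 0, 0) := by
  simp [eL_apply, nE_apply, nfun, rr, cross_comm B, tr_zero_left, tr_comm b]

/-- The transport of a covector. -/
theorem g7_cov {γ : Gb} (hγ : γ ∈ Gam) {u : Ix → ℂ} (hu : u ∈ HH) (C b : Ix → ℂ) :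
    tr C (fderiv ℂ (act γ⁻¹) (act γ u) b) = sy (γ (nE u (0, 0, C, 0))) (eL b (γ (rr u))) := by
  have h0 := Gam_le hγ
  obtain ⟨a1, a2, a3⟩ := act_spec h0 hu
  have a4 : act γ⁻¹ (act γ u) = u := by rw [← act_mul (inv_mem h0) h0 hu, inv_mul_cancel, act_one]
  have a5 : jf γ⁻¹ (act γ u) * jf γ u = 1 := by rw [← jf_mul _ h0 hu, inv_mul_cancel, jf_one]
  generalize act γ u = w at *
  have hy : HasDerivAt (fun t : ℂ => w + t • b) b 0 := by
    simpa using ((hasDerivAt_id (0 : ℂ)).smul_const b).const_add w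
  have e0 : w + (0 : ℂ) • b = w := by rw [zero_smul, add_zero]
  let S := mq1_sy (γ (nE u (0, 0, C, 0)))
  have h1 : HasDerivAt (fun t : ℂ => S (rr (w + t • b))) (S (eL b (rr w))) 0 := by
    have e : (fun t : ℂ => S (rr (w + t • b))) = fun t => S (rr w) + t * S (eL b (rr w)) +
        t ^ 2 * S (((1 / 2 : ℂ) • eL b ^ 2) (rr w)) + t ^ 3 * S (((1 / 6 : ℂ) • eL b ^ 3) (rr w)) :=
      funext fun t => by
        rw [← nE_rr, ← LinearEquiv.coe_coe, nE_eq, eL_smul]
        simp only [smul_pow, LinearMap.add_apply, LinearMap.smul_apply, map_add, map_smul,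
          smul_eq_mul, Module.End.one_apply]
        ring
    rw [e]
    simpa using ((((hasDerivAt_id (0 : ℂ)).mul_const _).const_add _).fun_add
      ((hasDerivAt_pow 2 (0 : ℂ)).mul_const _)).fun_add ((hasDerivAt_pow 3 (0 : ℂ)).mul_const _)
  have h2 := (differentiableAt_act (inv_mem h0) a2).hasFDerivAt.comp_hasDerivAt_of_eq 0 hy e0.symm
  have h3 : HasDerivAt (fun t : ℂ => tr C (act γ⁻¹ (w + t • b) - u))
      (tr C (fderiv ℂ (act γ⁻¹) w b)) 0 := by
    simp only [tr_eq_sum]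
    exact HasDerivAt.fun_sum fun l _ => (hasDerivAt_pi.1 (h2.sub_const u) l).const_mul _
  have h4 := (((polyFn_jf γ⁻¹).differentiable w).hasFDerivAt.comp_hasDerivAt_of_eq 0 hy
    e0.symm).fun_mul h3
  have h5 := h1.unique (h4.congr_of_eventuallyEq ?_)
  · simp only [Function.comp, e0, a4, sub_self, tr_zero_right, mul_zero, zero_add] at h5
    rw [a3, map_smul]
    refine Eq.trans ?_ (map_smul S _ _).symm
    rw [h5, smul_eq_mul, ← mul_assoc, mul_comm (jf γ u), a5, one_mul]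
  · filter_upwards [hy.continuousAt.eventually (isOpen_HH.mem_nhds (e0.symm ▸ a2 : _ + _ ∈ HH))] with t ht
    have h6 := sy_GamL hγ (nE u (0, 0, C, 0)) (γ⁻¹ (rr (w + t • b)))
    rw [show γ (γ⁻¹ (rr (w + t • b))) = _ from γ.apply_symm_apply _,
      (act_spec (inv_mem h0) ht).2.2, ← one_smul ℂ (nE u _), sy_smul, one_mul, g7_sy,
      one_smul] at h6
    exact h6

theorem g7_tr (f : (Ix → ℂ) →ₗ[ℂ] ℂ) : ∃ C, ∀ b, f b = tr C b := by
  refine ⟨fun l => (wt l : ℂ)⁻¹ * f (Pi.single l 1), fun b => ?_⟩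
  rw [tr_eq_sum, LinearMap.pi_apply_eq_sum_univ]
  refine Finset.sum_congr rfl fun l _ => ?_
  have h : (wt l : ℂ) ≠ 0 := by rcases l with i | a <;> simp [wt]
  rw [mul_inv_cancel_left₀ h, smul_eq_mul, mul_comm]
  exact congrArg (f · * _) (funext fun j => by simp [Pi.single_apply, eq_comm])

variable {m : ℕ} {u : Fin m → Ix → ℂ} {Δ : Subgroup (Fin m → Gb)}

theorem G7D.cov (h : G7D Δ) (hu : ∀ i, u i ∈ HH) {Φ : (Fin m → Ix → ℂ) → ℂ}
    (hΦ : DifferentiableAt ℂ Φ u) (hi : ∀ δ ∈ Δ, ∀ W, (∀ i, W i ∈ HH) → Φ (aM δ W) = Φ W)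
    {Z : Fin m × Ix → ℂ} {v : Fin m × Ix → MvPolynomial (Fin m × Ix) ℂ}
    (h0 : ∀ δ ∈ Δ, fderiv ℂ Φ (aM δ u)
      (fun i l => MvPolynomial.eval (fun q => aM δ u q.1 q.2 - Z q) (v (i, l))) = 0)
    {i : Fin m} {b0 : Ix → ℂ} (h1 : fderiv ℂ Φ u (Pi.single i b0) ≠ 0) (l : Ix) :
    v (i, l) = 0 := by
  choose C hC using fun i => g7_tr ((fderiv ℂ Φ u).toLinearMap ∘ₗ
    LinearMap.single ℂ (fun _ : Fin m => Ix → ℂ) i)
  have h2 : ∀ b, fderiv ℂ Φ u b = ∑ i, tr (C i) (b i) := fun b => by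
    conv_lhs => rw [← Finset.univ_sum_single b, map_sum]
    exact Finset.sum_congr rfl fun i _ => hC i _
  have hf : G7P u 2 fun g => ∑ i, sy (g i (nE (u i) (0, 0, C i, 0))) (eL
      (fun l => MvPolynomial.eval (fun q => aM g u q.1 q.2 - Z q) (v (i, l))) (g i (rr (u i)))) := by
    refine G7P.sum _ fun i => ?_
    have e : ∀ (b : Ix → ℂ) (X Y : W), sy X (eL b Y) = ∑ l, b l * sy X (eL (Pi.single l 1) Y) :=
      fun b X Y => by
        let f : (Ix → ℂ) →ₗ[ℂ] ℂ :=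
          { toFun b := mq1_sy X (eL b Y)
            map_add' a b := by rw [eL_add, LinearMap.add_apply, map_add]
            map_smul' a b := by rw [eL_smul, LinearMap.smul_apply, map_smul]; rfl }
        refine (LinearMap.pi_apply_eq_sum_univ f b).trans (Finset.sum_congr rfl fun l _ => ?_)
        exact congrArg (b l * f ·) (funext fun j => by simp [Pi.single_apply, eq_comm])
    simp only [e (fun l => MvPolynomial.eval _ (v (i, l)))]
    exact G7P.sum _ fun l => (g7p_poly u Z _).mul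
      (g7_bil i (mq1_sy.compl₂ (eL (Pi.single l 1))) _ _).g7p
  have h3 := fun g => h.zero hu hf (g := g) fun δ hδ => by
    have d0 := fun i => Gam2_le (h.1 δ hδ i)
    have d1 := fun i => Gam_le (d0 i)
    have d2 : ∀ i, aM δ u i ∈ HH := fun i => (act_spec (d1 i) (hu i)).2.1
    have d3 : aM δ⁻¹ (aM δ u) = u := funext fun i => by
      rw [aM, aM, Pi.inv_apply, ← act_mul (inv_mem (d1 i)) (d1 i) (hu i), inv_mul_cancel, act_one]
    have d4 : HasFDerivAt (aM δ⁻¹) _ (aM δ u) := hasFDerivAt_pi.2 fun i =>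
      (differentiableAt_act (inv_mem (d1 i)) (d2 i)).hasFDerivAt.comp (aM δ u)
        (hasFDerivAt_apply i (aM δ u))
    have d5 : Φ =ᶠ[𝓝 (aM δ u)] Φ ∘ aM δ⁻¹ := by
      filter_upwards [eventually_all.2 fun i => (continuous_apply i).continuousAt.eventually
        (isOpen_HH.mem_nhds (d2 i))] with W hW
      exact (hi _ (inv_mem hδ) W hW).symm
    refine Eq.trans ?_ (h0 δ hδ)
    rw [(((d3.symm ▸ hΦ.hasFDerivAt :
      HasFDerivAt Φ (fderiv ℂ Φ u) _).comp _ d4).congr_of_eventuallyEq d5).fderiv,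
      ContinuousLinearMap.comp_apply, h2]
    exact Finset.sum_congr rfl fun i _ => (g7_cov (d0 i) (hu i) _ _).symm
  refine g7_funext Z fun B => congrFun (g7_levi (C := C i)
    (b := fun l => MvPolynomial.eval (fun q => B q - Z q) (v (i, l)))
    (c := -∑ j ∈ Finset.univ.erase i, tr (C j) fun l =>
      MvPolynomial.eval (fun q => B q - Z q) (v (j, l)))
    (fun e => h1 ((hC i b0).trans (by rw [e, tr_zero_left]))) fun k hk t ht e => ?_) l
  obtain ⟨κ, τ, k1, k2, k3, k4, k5, k6⟩ : ∃ (κ : Fin m → Gb) (τ : Fin m → ℂ), (∀ j, κ j ∈ G0) ∧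
      (∀ j, τ j ≠ 0) ∧ (∀ j, κ j r0 = τ j • r0) ∧ κ i = k ∧ τ i = t ∧
        ∀ j, j ≠ i → κ j = 1 ∧ τ j = 1 := by
    refine ⟨Function.update 1 i k, Function.update 1 i t, fun j => ?_, fun j => ?_, fun j => ?_,
      by simp, by simp, fun j hj => by simp [hj]⟩ <;> by_cases hj : j = i <;> simp [*]
  have e1 : ∀ j, (nE (fun l => B (j, l)) * κ j * nE (-u j)) (rr (u j)) =
      τ j • rr fun l => B (j, l) := fun j => by
    rw [LinearEquiv.mul_apply, LinearEquiv.mul_apply, nE_rr, add_neg_cancel, rr_zero, k3, map_smul,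
      ← rr_zero, nE_rr, zero_add]
  have h4 := h3 (fun j => nE (fun l => B (j, l)) * κ j * nE (-u j))
    (fun j => mul_mem (mul_mem (g7_nE _) (k1 j)) (g7_nE _))
    fun j => by rw [(act_of_eq (k2 j) (e1 j)).1]; exact k2 j
  have e2 : ∀ j b, sy ((nE (fun l => B (j, l)) * κ j * nE (-u j)) (nE (u j) (0, 0, C j, 0)))
      (eL b (τ j • rr fun l => B (j, l))) = τ j * tr (κ j (0, 0, C j, 0)).2.2.1 b := fun j b => by
    rw [← LinearEquiv.mul_apply, nE_neg, inv_mul_cancel_right, LinearEquiv.mul_apply, map_smul,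
      g7_eL, ← map_smul, sy_nE]
    simp [sy, tr_zero_right, tr_smul_right]
  simp only [aM, fun j => (act_of_eq (k2 j) (e1 j)).2, e1, e2] at h4
  rw [← Finset.add_sum_erase _ _ (Finset.mem_univ i), k4, k5, Finset.sum_congr rfl fun j hj => by
    rw [(k6 j (Finset.ne_of_mem_erase hj)).1, (k6 j (Finset.ne_of_mem_erase hj)).2, one_mul]] at h4
  exact eq_neg_of_add_eq_zero_left h4

end Pool.Agent.E7
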