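import Pool.Agent.Lib.MP_7e5527_ag.EL.MVh1

/-! Tensor products of families of matrices. -/

open UpperHalfPlane Matrix
open scoped ComplexOrder

noncomputable section

namespace Pool.Agent.E7

section Ring

variable {A : Type} [CommRing A] {ι κ : Type} [Fintype ι] [DecidableEq ι] [Fintype κ]
  [DecidableEq κ]

/-- The derived representation for a family of matrices. -/
def dP (X : κ → Matrix ι ι A) : Matrix (κ → ι) (κ → ι) A :=
  ∑ k : κ, tp (Function.update (fun _ => 1) k (X k))

theorem tp_one : tp (fun _ : κ => (1 : Matrix ι ι A)) = 1 := Rp_one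

omit [Fintype ι] [DecidableEq ι] [DecidableEq κ] in
theorem tp_map {B : Type} [CommRing B] (φ : A →+* B) (G : κ → Matrix ι ι A) :
    (tp G).map φ = tp fun k => (G k).map φ := by
  ext a b
  simp only [tp, of_apply, Matrix.map_apply, map_prod]

theorem dP_map {B : Type} [CommRing B] (φ : A →+* B) (X : κ → Matrix ι ι A) :
    (dP X).map φ = dP fun k => (X k).map φ := by
  ext a b
  simp only [dP, Matrix.map_apply, Matrix.sum_apply, mte1_upd, map_sum, map_mul, map_prod,
    Matrix.one_apply, apply_ite φ, map_one, map_zero]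

omit [Fintype ι] [DecidableEq ι] [DecidableEq κ] in
theorem tp_star [StarRing A] (G : κ → Matrix ι ι A) : (tp G)ᴴ = tp fun k => (G k)ᴴ := by
  ext a b
  simp only [tp, of_apply, conjTranspose_apply, star_prod]

omit [Fintype ι] [DecidableEq ι] [DecidableEq κ] in
theorem tp_smul (c : κ → A) (G : κ → Matrix ι ι A) :
    tp (fun k => c k • G k) = (∏ k, c k) • tp G := by
  ext a b
  simp only [tp, of_apply, Matrix.smul_apply, smul_eq_mul, Finset.prod_mul_distrib]

theorem dP_add (X Y : κ → Matrix ι ι A) : dP (fun k => X k + Y k) = dP X + dP Y := by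
  ext a b
  simp only [dP, Matrix.add_apply, Matrix.sum_apply, mte1_upd, add_mul, Finset.sum_add_distrib]

theorem dP_smul (c : A) (X : κ → Matrix ι ι A) : dP (fun k => c • X k) = c • dP X := by
  ext a b
  simp only [dP, Matrix.smul_apply, Matrix.sum_apply, mte1_upd, smul_eq_mul, mul_assoc,
    Finset.mul_sum]

theorem dP_zero : dP (fun _ : κ => (0 : Matrix ι ι A)) = 0 := by
  simpa using dP_smul (κ := κ) 0 fun _ => (0 : Matrix ι ι A)

theorem dP_conj {G G' : κ → Matrix ι ι A} (h : ∀ k, G k * G' k = 1) (X : κ → Matrix ι ι A) :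
    dP (fun k => G k * X k * G' k) = tp G * dP X * tp G' := by
  simp only [dP, Finset.mul_sum, Finset.sum_mul, ← tp_mul]
  refine Finset.sum_congr rfl fun k _ => congrArg _ (funext fun l => ?_)
  rcases eq_or_ne l k with rfl | e
  · simp
  · simp [e, h]

theorem tp_deriv [Algebra ℂ A] (D : Derivation ℂ A A) {G Θ : κ → Matrix ι ι A}
    (h : ∀ k, (G k).map D = G k * Θ k) : (tp G).map D = tp G * dP Θ := by
  have e : ∀ k : κ, tp G * tp (Function.update (fun _ => 1) k (Θ k)) =
      tp (Function.update G k ((G k).map D)) := fun k => by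
    rw [← tp_mul]
    refine congrArg _ (funext fun l => ?_)
    rcases eq_or_ne l k with rfl | e
    · simp [h]
    · simp [e]
  ext a b
  simp only [dP, Finset.mul_sum, e, Matrix.sum_apply, mte1_upd]
  simp only [tp, Matrix.map_apply, of_apply, mte1_leib]

omit [Fintype ι] [DecidableEq ι] [DecidableEq κ] in
theorem hom_tp {deg : ι → ℕ} {G : κ → Matrix ι ι A} (h : ∀ k, Hom deg 0 (G k)) :
    Hom (tdeg deg) 0 (tp G) := by
  intro a b e
  by_contra hn
  refine e (Finset.sum_congr rfl fun k _ => ?_)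
  by_contra e'
  exact hn (Finset.prod_eq_zero (Finset.mem_univ k) (h k _ _ e'))

omit [Fintype ι] in
theorem hom_dP {deg : ι → ℕ} {n : ℕ} {X : κ → Matrix ι ι A} (h : ∀ k, Hom deg n (X k)) :
    Hom (tdeg deg) n (dP X) := by
  intro a b e
  rw [dP, Matrix.sum_apply]
  refine Finset.sum_eq_zero fun k _ => ?_
  by_contra hn
  have h1 : ∀ l, deg (a l) = deg (b l) + if l = k then n else 0 := fun l => by
    by_contra e'
    refine hn (Finset.prod_eq_zero (Finset.mem_univ l) ?_)
    rcases eq_or_ne l k with rfl | hl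
    · rw [Function.update_self]
      exact h _ _ _ (by simpa using e')
    · rw [Function.update_of_ne hl]
      exact one_apply_ne fun e2 => e' (by simp [hl, e2])
  exact e (by simp [tdeg, h1, Finset.sum_add_distrib])

/-- Tensor product of a family of vectors. -/
def pvP (v : κ → ι → A) : (κ → ι) → A := fun a => ∏ k, v k (a k)

omit [DecidableEq ι] in
theorem tp_pvP (G : κ → Matrix ι ι A) (v : κ → ι → A) :
    tp G *ᵥ pvP v = pvP fun k => G k *ᵥ v k := by
  ext a
  simp only [tp, pvP, of_apply, mulVec, dotProduct, ← Finset.prod_mul_distrib,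
    Finset.prod_univ_sum, Fintype.piFinset_univ]

omit [Fintype ι] [DecidableEq ι] [DecidableEq κ] in
theorem pvP_smul (c : κ → A) (v : κ → ι → A) : pvP (fun k => c k • v k) = (∏ k, c k) • pvP v := by
  ext a
  simp [pvP, Finset.prod_mul_distrib]

end Ring

variable {ι κ : Type} [Fintype ι] [DecidableEq ι] [Fintype κ] [DecidableEq κ]

theorem posDef_tp {G : κ → Matrix ι ι ℂ} (h : ∀ k, (G k).PosDef) : (tp G).PosDef := by
  have h1 : IsUnit (tp G) := by
    choose u hu using fun k => (h k).isUnit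
    obtain rfl : G = fun k => (u k).1 := funext fun k => (hu k).symm
    exact ⟨⟨tp fun k => (u k).1, tp fun k => (u k).2,
      by rw [← tp_mul]; simp only [Units.val_inv]; exact tp_one,
      by rw [← tp_mul]; simp only [Units.inv_val]; exact tp_one⟩, rfl⟩
  refine (PosSemidef.posDef_iff_isUnit ?_).2 h1
  have hB : ∀ k, ∃ B : Matrix ι ι ℂ, G k = Bᴴ * B := fun k => by
    open scoped MatrixOrder in
    obtain ⟨B, hB⟩ := CStarAlgebra.nonneg_iff_eq_star_mul_self.mp (h k).posSemidef.nonneg
    exact ⟨B, hB⟩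
  choose B hB using hB
  rw [show G = fun k => (B k)ᴴ * B k from funext hB, tp_mul, ← tp_star]
  exact posSemidef_conjTranspose_mul_self _

/-- The tensor product of a family of variations with the same grading. -/
theorem vhs_tprod (V : κ → Vhs ι) {d : ι → ℕ} (hd : ∀ k, (V k).deg = d) : ∃ T : Vhs (κ → ι),
    T.deg = tdeg d ∧ T.Q = tp (fun k => (V k).Q) ∧ ∀ τ, mv T.G τ = tp (fun k => mv (V k).G τ) ∧
      mv T.G' τ = tp fun k => mv (V k).G' τ := by
  have m : ∀ (G : κ → Matrix ι ι SmH) τ, mv (tp G) τ = tp fun k => mv (G k) τ := fun G τ =>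
    tp_map (evS SmH τ).toRingHom G
  have e : ∀ τ, (mv (tp fun k => (V k).G) τ)ᴴ * tp (fun k => (V k).Q) * mv (tp fun k => (V k).G) τ =
      tp fun k => (mv (V k).G τ)ᴴ * (V k).Q * mv (V k).G τ := fun τ => by
    rw [m, tp_star, tp_mul, tp_mul]
  exact ⟨⟨tdeg d, tp fun k => (V k).G, tp fun k => (V k).G', dP fun k => (V k).Θ,
    tp fun k => (V k).Q, by rw [← tp_mul]; simp only [Vhs.inv]; exact tp_one,
    tp_deriv D1 fun k => (V k).d1, hom_dP fun k => hd k ▸ (V k).hom,
    by rw [tp_star]; simp only [Vhs.herm],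
    fun τ => (e τ).symm ▸ hom_tp fun k => hd k ▸ (V k).blk τ,
    fun τ => by
      rw [e, ← Rp_sg, Rp, ← tp_mul]
      exact posDef_tp fun k => hd k ▸ (V k).pos τ⟩, rfl, rfl, fun τ => ⟨m _ τ, m _ τ⟩⟩

end Pool.Agent.E7
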