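import Pool.Agent.Lib.MP_7e5527_ag.EF.MA
import Pool.Agent.Lib.MP_7e5527_ag.EL.MT
import Pool.Agent.Lib.MP_7e5527_ag.EL.St

/-! Semi-invariant tensors for a product of copies of the group, and their stabiliser. -/

open Matrix

noncomputable section

namespace Pool.Agent.E7

variable {μ κ : Type} [Fintype κ] [DecidableEq κ]

/-- The representation of a product of copies of the group on tensors whose index `k` has the
colour `c k`. -/
def Tp (c : κ → μ) (g : μ → Gb) : Matrix (κ → Wx) (κ → Wx) ℂ := tp fun k => mat (g (c k))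

/-- The block diagonal representation. -/
def blkI [DecidableEq μ] (g : μ → Gb) : Matrix (Wx × μ) (Wx × μ) ℂ :=
  Matrix.blockDiagonal fun i => mat (g i)

/-- The product of copies of `GE`. -/
def GEP (μ : Type) : Subgroup (μ → Gb) := Subgroup.pi Set.univ fun _ => GE

theorem mem_GEP {g : μ → Gb} : g ∈ GEP μ ↔ ∀ i, g i ∈ GE :=
  ⟨fun h i => h i trivial, fun h i _ => h i⟩

/-- The embedding of the factor `i`. -/
def slot [DecidableEq μ] (i : μ) : Gb →* μ → Gb := MonoidHom.mulSingle (fun _ => Gb) i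

theorem slot_apply [DecidableEq μ] (i j : μ) (g : Gb) : slot i g j = if j = i then g else 1 :=
  Pi.mulSingle_apply i g j

theorem mem_of_slot [Finite μ] [DecidableEq μ] {H : Subgroup (μ → Gb)} {g : μ → Gb}
    (h : ∀ i, slot i (g i) ∈ H) : g ∈ H :=
  Subgroup.pi_mem_of_mulSingle_mem g h

theorem Tp_one (c : κ → μ) : Tp c 1 = 1 := by
  simp only [Tp, Pi.one_apply, mat_one]
  exact tp_one

theorem Tp_mul (c : κ → μ) (g g' : μ → Gb) : Tp c (g * g') = Tp c g * Tp c g' := by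
  simp only [Tp, Pi.mul_apply, mat_mul, tp_mul]

theorem Tp_inv_mul (c : κ → μ) (g : μ → Gb) : Tp c g⁻¹ * Tp c g = 1 := by
  rw [← Tp_mul, inv_mul_cancel, Tp_one]

theorem Tp_mul_inv (c : κ → μ) (g : μ → Gb) : Tp c g * Tp c g⁻¹ = 1 := by
  rw [← Tp_mul, mul_inv_cancel, Tp_one]

theorem Tp_scE (c : κ → μ) (s : μ → ℂˣ) :
    Tp c (fun i => scE (s i)) = (∏ k, (s (c k) : ℂ)) • (1 : Matrix (κ → Wx) (κ → Wx) ℂ) := by
  simp only [Tp, mat_scE, tp_smul, tp_one]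

/-- The tensors on which `Λ` acts by `χ`. -/
def TchP (c : κ → μ) (Λ : Subgroup (μ → Gb)) (χ : (μ → Gb) → ℂ) :
    Submodule ℂ ((κ → Wx) → ℂ) where
  carrier := {t | ∀ γ ∈ Λ, Tp c γ *ᵥ t = χ γ • t}
  add_mem' := fun h h' γ hγ => by rw [mulVec_add, h γ hγ, h' γ hγ, smul_add]
  zero_mem' := fun γ _ => by rw [mulVec_zero, smul_zero]
  smul_mem' := fun c t h γ hγ => by rw [mulVec_smul, h γ hγ, smul_comm]

theorem stabP_inv {c : κ → μ} {U : Submodule ℂ ((κ → Wx) → ℂ)} {g : μ → Gb}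
    (h : ∀ t ∈ U, Tp c g *ᵥ t ∈ U) : ∀ t ∈ U, Tp c g⁻¹ *ᵥ t ∈ U := by
  have e : ∀ u, Tp c g⁻¹ *ᵥ Tp c g *ᵥ u = u := fun u => by
    rw [mulVec_mulVec, Tp_inv_mul, one_mulVec]
  let f : U →ₗ[ℂ] U := (mulVecLin (Tp c g)).restrict h
  have hf : Function.Injective f := fun u v huv => Subtype.ext (by
    have h1 : Tp c g *ᵥ (u : (κ → Wx) → ℂ) = Tp c g *ᵥ (v : (κ → Wx) → ℂ) :=
      congrArg Subtype.val huv
    rw [← e u, h1, e])
  intro t ht
  obtain ⟨u, hu⟩ := LinearMap.injective_iff_surjective.1 hf ⟨t, ht⟩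
  have h1 : Tp c g *ᵥ (u : (κ → Wx) → ℂ) = t := congrArg Subtype.val hu
  rw [← h1, e]
  exact u.2

/-- The stabiliser of a space of tensors. -/
def StabP (c : κ → μ) (U : Submodule ℂ ((κ → Wx) → ℂ)) : Subgroup (μ → Gb) where
  carrier := {g | ∀ t ∈ U, Tp c g *ᵥ t ∈ U}
  one_mem' := fun t ht => by rwa [Tp_one, one_mulVec]
  mul_mem' := fun h h' t ht => by
    rw [Tp_mul, ← mulVec_mulVec]
    exact h _ (h' t ht)
  inv_mem' := stabP_inv

/-- The elements that fix every tensor of a space. -/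
def FixP (c : κ → μ) (U : Submodule ℂ ((κ → Wx) → ℂ)) : Subgroup (μ → Gb) where
  carrier := {g | ∀ t ∈ U, Tp c g *ᵥ t = t}
  one_mem' := fun t _ => by rw [Tp_one, one_mulVec]
  mul_mem' := fun h h' t ht => by rw [Tp_mul, ← mulVec_mulVec, h' t ht, h t ht]
  inv_mem' := fun {g} h t ht => by
    conv_lhs => rw [← h t ht]
    rw [mulVec_mulVec, Tp_inv_mul, one_mulVec]

theorem FixP.conj {c : κ → μ} {U : Submodule ℂ ((κ → Wx) → ℂ)} {g k : μ → Gb}
    (hk : k ∈ StabP c U) (hg : g ∈ FixP c U) : k * g * k⁻¹ ∈ FixP c U := fun t ht => by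
  rw [Tp_mul, Tp_mul, ← mulVec_mulVec, ← mulVec_mulVec, hg _ (inv_mem hk t ht), mulVec_mulVec,
    Tp_mul_inv, one_mulVec]

theorem scE_mem_StabP (c : κ → μ) (U : Submodule ℂ ((κ → Wx) → ℂ)) (s : μ → ℂˣ) :
    (fun i => scE (s i)) ∈ StabP c U := fun t ht => by
  rw [Tp_scE, smul_mulVec, one_mulVec]
  exact U.smul_mem _ ht

omit [DecidableEq κ] in
theorem mb_cast (q : κ → Matrix Wx Wx ℚ) (a b : κ → Wx) :
    tp (fun k => (q k).map (Rat.castHom ℂ)) a b = (tp q a b : ℚ) := by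
  rw [← tp_map]
  rfl

theorem qcl_stabP [Fintype μ] [DecidableEq μ] (c : κ → μ) {Λ : Subgroup (μ → Gb)}
    (h : ∀ γ ∈ Λ, ∀ i, γ i ∈ GG) {χ : (μ → Gb) → ℂ} (hχ : ∀ γ ∈ Λ, χ γ = 1 ∨ χ γ = -1) :
    St.QCl blkI (StabP c (TchP c Λ χ)) := by
  have hq : ∀ γ : Λ, ∃ (q : μ → Matrix Wx Wx ℚ) (r : ℚ),
      (∀ i, mat (γ.1 i) = (q i).map (Rat.castHom ℂ)) ∧ χ γ = r := fun γ => by
    choose q hq using fun i => ratM_GG (h γ γ.2 i)
    have h1 : ∀ i, mat (γ.1 i) = (Matrix.of (q i)).map (Rat.castHom ℂ) := fun i =>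
      Matrix.ext (hq i)
    rcases hχ γ γ.2 with h2 | h2
    · exact ⟨_, 1, h1, by simpa using h2⟩
    · exact ⟨_, -1, h1, by simpa using h2⟩
  choose q r hq hr using hq
  let M : Λ × (κ → Wx) → (κ → Wx) → ℚ := fun i b =>
    tp (fun k => q i.1 (c k)) i.2 b - if i.2 = b then r i.1 else 0
  have hM : ∀ t : (κ → Wx) → ℂ, t ∈ TchP c Λ χ ↔ ∀ i, ∑ b, (M i b : ℂ) * t b = 0 := fun t => by
    have e : ∀ i : Λ × (κ → Wx), ∑ b, (M i b : ℂ) * t b =
        (Tp c i.1 *ᵥ t) i.2 - χ i.1 * t i.2 := fun i => by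
      simp only [M, Tp, hq, hr, mulVec, dotProduct, mb_cast, Rat.cast_sub, sub_mul,
        Finset.sum_sub_distrib, apply_ite (fun x : ℚ => (x : ℂ)), Rat.cast_zero, ite_mul, zero_mul,
        Finset.sum_ite_eq, Finset.mem_univ, if_true]
    simp only [e, sub_eq_zero]
    exact ⟨fun ht i => congrFun (ht i.1 i.1.2) i.2, fun ht γ hγ => funext fun a => ht (⟨γ, hγ⟩, a)⟩
  refine ⟨{P | ∀ g ∈ StabP c (TchP c Λ χ), MvPolynomial.aeval (fun y => blkI g y.1 y.2) P = 0},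
    fun g => ⟨fun hg P hP => hP g hg, fun hg t ht => ?_⟩⟩
  refine Submodule.span_induction (p := fun t _ => Tp c g *ᵥ t ∈ TchP c Λ χ) ?_ ?_ ?_ ?_
    (span_rat_sol M ((hM t).1 ht))
  · rintro _ ⟨u, rfl, hu⟩
    have hu' : (fun a => (u a : ℂ)) ∈ TchP c Λ χ := (hM _).2 fun i => by exact_mod_cast hu i
    refine (hM _).2 fun i => ?_
    have e : ∀ k : μ → Gb, MvPolynomial.aeval (fun y : (Wx × μ) × Wx × μ => blkI k y.1 y.2)
        (∑ b, MvPolynomial.C (M i b) * ∑ a : κ → Wx,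
          (∏ l, MvPolynomial.X ((b l, c l), (a l, c l))) *
          MvPolynomial.C (u a) : MvPolynomial ((Wx × μ) × Wx × μ) ℚ) =
        ∑ b, (M i b : ℂ) * (Tp c k *ᵥ fun a => (u a : ℂ)) b := fun k => by
      simp only [map_sum, map_mul, map_prod, MvPolynomial.aeval_X, MvPolynomial.aeval_C, eq_ratCast,
        blkI, blockDiagonal_apply_eq]
      rfl
    rw [← e]
    exact hg _ fun k hk => (e k).trans ((hM _).1 (hk _ hu') i)
  · rw [mulVec_zero]
    exact zero_mem _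
  · intro x y _ _ hx hy
    rw [mulVec_add]
    exact add_mem hx hy
  · intro a x _ hx
    rw [mulVec_smul]
    exact Submodule.smul_mem _ _ hx

end Pool.Agent.E7
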