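import Pool.Agent.Lib.MP_7e5527_ag.EF.MB
import Pool.Agent.Lib.MP_7e5527_ag.EF.FamD
import Pool.Agent.Lib.MP_7e5527_ag.EL.MFix

/-! The theorem of the fixed part for a family in a product of tubes. -/

open UpperHalfPlane Matrix

noncomputable section

namespace Pool.Agent.E7

variable {μ κ : Type} [Fintype κ] [DecidableEq κ]

/-- The action on a product of tubes. -/
def aP (g : μ → Gb) (Z : μ → Ix → ℂ) : μ → Ix → ℂ := fun i => act (g i) (Z i)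

/-- The part of degree `q` of a tensor for the Hodge structure of `Z`. -/
def sP (c : κ → μ) (Z : μ → Ix → ℂ) (q : ℕ) (t : (κ → Wx) → ℂ) : (κ → Wx) → ℂ :=
  sec (tdeg deg) (Tp c fun i => gZ (Z i)) (Tp c (fun i => gZ (Z i))⁻¹) q t

/-- Its norm. -/
def uP (c : κ → μ) (Z : μ → Ix → ℂ) (q : ℕ) (t : (κ → Wx) → ℂ) : ℝ :=
  hn (Rp κ QW) q (sP c Z q t)

theorem uP_sub (c : κ → μ) {f : ℍ → μ → Ix → ℂ} (h : ∀ i, HM fun τ => f τ i) (q : ℕ)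
    (t : (κ → Wx) → ℂ) (h0 : ∀ τ, ∀ r < q, sP c (f τ) r t = 0) :
    (∀ τ, 0 ≤ uP c (f τ) q t) ∧ Sub (fun τ => Real.log (1 + uP c (f τ) q t)) ∧
      ((∀ τ τ', uP c (f τ) q t = uP c (f τ') q t) → ∀ τ τ', sP c (f τ) q t = sP c (f τ') q t) := by
  choose V e1 e2 e3 using fun i => exists_vhs (h i)
  obtain ⟨T, f1, f2, f3⟩ := vhs_tprod (fun k => V (c k)) fun k => e1 (c k)
  have e : ∀ r τ, T.s r t τ = sP c (f τ) r t := fun r τ => by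
    rw [Vhs.s, f1, (f3 τ).1, (f3 τ).2]
    simp only [(e3 _ τ).1, (e3 _ τ).2]
    rfl
  have := vhs_sub T q t fun τ r hr => (e r τ).trans (h0 τ r hr)
  simp only [e, f2, e2] at this
  exact this

theorem uP_growth (c : κ → μ) {f : ℍ → μ → Ix → ℂ} (h : ∀ i, HM fun τ => f τ i) (q : ℕ)
    (t : (κ → Wx) → ℂ) :
    ∃ (C : ℝ) (n : ℕ), ∀ σ : ℍ, |σ.re| ≤ 1 → 1 ≤ σ.im → uP c (f σ) q t ≤ C * σ.im ^ n := by
  have e : ∀ i, ∃ G G' : Matrix Wx Wx Pg, ∀ τ, mv G τ = mat (gZ (f τ i)) ∧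
      mv G' τ = mat (gZ (f τ i))⁻¹ := fun i => by
    obtain ⟨C, hC⟩ := (h i).strip
    obtain ⟨Zb, U, -, e⟩ := exists_frame Pg (f := fun τ => f τ i)
      (fun l => ⟨C, 1, fun σ h1 h2 => (norm_le_pi_norm _ l).trans (by simpa using (hC σ h1 h2).1)⟩)
      ⟨C, 3, fun σ h1 h2 => (hC σ h1 h2).2⟩
    exact ⟨_, _, e⟩
  choose G G' e using e
  let s : (κ → Wx) → Pg := sec (tdeg deg) (tp fun k => G (c k)) (tp fun k => G' (c k)) q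
    fun a => algebraMap ℂ Pg (t a)
  have hs : ∀ σ a, evS Pg σ (s a) = sP c (f σ) q t a := fun σ => congrFun <| by
    refine (sec_map (evS Pg σ : Pg →+* ℂ) _ _ _ _ _).trans ?_
    rw [tp_map, tp_map, sP, Tp, Tp]
    simp only [Pi.inv_apply, ← (e _ σ).1, ← (e _ σ).2, RingHom.coe_coe, AlgHom.commutes]
    rfl
  obtain ⟨D, n, hD⟩ := ((-1) ^ q * (star s ⬝ᵥ (Rp κ QW).map (algebraMap ℂ Pg) *ᵥ s) : Pg).2
  refine ⟨D, n, fun σ h1 h2 => le_trans ?_ (hD σ h1 h2)⟩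
  refine (Complex.re_le_norm _).trans (le_of_eq (congrArg _ ?_))
  rw [← evS_apply]
  simp only [dotProduct, mulVec, map_mul, map_pow, map_neg, map_one, map_sum, Pi.star_apply,
    evS_star, hs, map_apply, AlgHom.commutes, Algebra.algebraMap_self, RingHom.id_apply]

theorem sP_act (c : κ → μ) {γ : μ → Gb} (h : ∀ i, γ i ∈ GG) {Z : μ → Ix → ℂ} (hZ : ∀ i, Z i ∈ HH)
    (q : ℕ) (t : (κ → Wx) → ℂ) :
    sP c (aP γ Z) q (Tp c γ *ᵥ t) = Tp c γ *ᵥ sP c Z q t := by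
  refine sec_equiv _ (Tp_mul_inv _ _) (Tp_mul_inv _ _) ?_ q t
  rw [Tp, Tp, Tp, ← tp_mul, ← tp_mul]
  exact hom_tp fun k => gZ_equiv (h _) (hZ _)

theorem uP_act (c : κ → μ) {γ : μ → Gb} (h : ∀ i, γ i ∈ Gam) {Z : μ → Ix → ℂ}
    (hZ : ∀ i, Z i ∈ HH) (q : ℕ) {t : (κ → Wx) → ℂ} {r : ℂ} (hr : r = 1 ∨ r = -1)
    (ht : Tp c γ *ᵥ t = r • t) : uP c (aP γ Z) q t = uP c Z q t := by
  have e := sP_act c (fun i => Gam_le (h i)) hZ q t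
  rw [ht, sP, sec_smul, ← sP] at e
  have e1 : hn (Rp κ QW) q (Tp c γ *ᵥ sP c Z q t) = uP c Z q t := by
    rw [hn, star_mulVec, mulVec_mulVec, ← dotProduct_mulVec, mulVec_mulVec, Tp, tp_star, Rp,
      ← tp_mul, ← tp_mul]
    simp only [← mul_assoc, QW_Gam (h _)]
    rfl
  rw [← e1, ← e, uP, hn, hn]
  rcases hr with rfl | rfl
  · rw [one_smul]
  · rw [neg_one_smul, star_neg, mulVec_neg, neg_dotProduct, dotProduct_neg, neg_neg]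

theorem hgP_sum (c : κ → μ) (Z : μ → Ix → ℂ) (z : ℂˣ) : ∃ (s : Finset ℕ) (r : ℕ → ℂ),
    ∀ t : (κ → Wx) → ℂ, Tp c (fun i => hg (Z i) z) *ᵥ t = ∑ q ∈ s, r q • sP c Z q t := by
  let r : ℕ → ℂ := fun q => ((z : ℂ) ^ 3) ^ Fintype.card κ * (((star z : ℂˣ) : ℂ) / z) ^ q
  have e : Tp c (fun _ => dE z (star z)) = diagonal fun a => r (tdeg deg a) := by
    rw [Tp, ← Rp, mat_dE', Rp_diagonal]
    simp only [r, tdeg, Finset.prod_mul_distrib, Finset.prod_const, Finset.card_univ,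
      Finset.prod_pow_eq_pow_sum]
  refine ⟨Finset.univ.image (tdeg deg : (κ → Wx) → ℕ), r, fun t => ?_⟩
  rw [show (fun i => hg (Z i) z) = (fun i => gZ (Z i)) * (fun _ => dE z (star z)) *
    (fun i => gZ (Z i))⁻¹ from rfl, Tp_mul, Tp_mul, e, sum_pr, ← mulVec_mulVec, ← mulVec_mulVec,
    sum_mulVec, mulVec_sum]
  simp only [smul_mulVec, mulVec_smul, sP, sec]

variable [Fintype μ] {V : Set (μ → Ix → ℂ)} {Δ : Subgroup (μ → Gb)}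

theorem Dsc.hm (hV : ∀ Z ∈ V, ∀ i, Z i ∈ HH) {F : ℍ → μ → Ix → ℂ} (h : Dsc V F) (i : μ) :
    HM fun τ => F τ i :=
  ⟨differentiableOn_pi.1 h.hol i, fun τ => hV _ (h.mem τ) i⟩

theorem lowestP (h : Fam aP V Δ) (hV : ∀ Z ∈ V, ∀ i, Z i ∈ HH) (hΔ : ∀ γ ∈ Δ, ∀ i, γ i ∈ Gam)
    {c : κ → μ} {χ : (μ → Gb) → ℂ} (hχ : ∀ γ ∈ Δ, χ γ = 1 ∨ χ γ = -1) {t : (κ → Wx) → ℂ}
    (ht : t ∈ TchP c Δ χ) {q : ℕ} (h0 : ∀ Z ∈ V, ∀ r < q, sP c Z r t = 0) {Z0 : μ → Ix → ℂ}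
    (hZ : Z0 ∈ V) : ∃ s ∈ TchP c Δ χ, ∀ Z ∈ V, sP c Z q t = s := by
  have p := fun F (hF : Dsc V F) => uP_sub c (hF.hm hV) q t fun τ => h0 _ (hF.mem τ)
  have key := h.liouville (u := fun Z => Real.log (1 + uP c Z q t))
    (fun γ hγ Z hZ => by simp only [uP_act c (hΔ γ hγ) (hV Z hZ) q (hχ γ hγ) (ht γ hγ)])
    (fun F hF => (p F hF).2.1)
    (fun F hF ε hε => by
      obtain ⟨C, n, hC⟩ := uP_growth c (hF.hm hV) q t
      obtain ⟨D, hD⟩ := mfix_log (C := C) (n := n) hε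
      exact ⟨D, fun σ h1 h2 => hD _ _ h2 ((p F hF).1 _) (hC σ h1 h2)⟩)
  have hc : ∀ Z ∈ V, sP c Z q t = sP c Z0 q t := fun Z hZ' =>
    h.conn (fun w => sP c w q t = sP c Z0 q t) (fun F hF τ τ' e => by
      obtain ⟨p1, -, p3⟩ := p F hF
      exact (p3 (fun σ σ' => add_left_cancel (Real.log_injOn_pos
        (show (0 : ℝ) < _ by linarith [p1 σ]) (show (0 : ℝ) < _ by linarith [p1 σ'])
        (key _ (hF.mem σ) _ (hF.mem σ')))) τ' τ).trans e) Z0 hZ Z hZ' rfl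
  refine ⟨sP c Z0 q t, fun γ hγ => ?_, hc⟩
  rw [← sP_act c (fun i => Gam_le (hΔ γ hγ i)) (hV _ hZ), ht γ hγ, ← hc _ (h.stab γ hγ _ hZ)]
  exact sec_smul _ _ _ _ _ _

theorem fixed_partP (h : Fam aP V Δ) (hV : ∀ Z ∈ V, ∀ i, Z i ∈ HH)
    (hΔ : ∀ γ ∈ Δ, ∀ i, γ i ∈ Gam) {c : κ → μ} {χ : (μ → Gb) → ℂ}
    (hχ : ∀ γ ∈ Δ, χ γ = 1 ∨ χ γ = -1) {t : (κ → Wx) → ℂ} (ht : t ∈ TchP c Δ χ)
    {Z0 : μ → Ix → ℂ} (hZ : Z0 ∈ V) (q : ℕ) : ∃ s ∈ TchP c Δ χ, ∀ Z ∈ V, sP c Z q t = s := by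
  induction q using Nat.strong_induction_on with
  | _ q ih =>
    choose! s hs hs' using ih
    have e : ∀ Z ∈ V, ∀ r, sP c Z r (t - ∑ k ∈ Finset.range q, s k) =
        sP c Z r t - if r < q then s r else 0 := by
      intro Z hZ' r
      have e1 : ∀ k ∈ Finset.range q, sP c Z r (s k) = if r = k then s k else 0 := by
        intro k hk
        rw [← hs' k (Finset.mem_range.1 hk) Z hZ']
        exact sec_sec _ (Tp_inv_mul _ _) _ _ _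
      rw [sP, sec_sub, sec_sum]
      refine congrArg _ ((Finset.sum_congr rfl e1).trans ?_)
      simp
    obtain ⟨u, hu, hu'⟩ := lowestP h hV hΔ hχ (q := q) (sub_mem ht (Submodule.sum_mem _ fun k hk =>
      hs k (Finset.mem_range.1 hk))) (fun Z hZ' r hr => by
        rw [e Z hZ', if_pos hr, hs' r hr Z hZ', sub_self]) hZ
    exact ⟨u, hu, fun Z hZ' => by rw [← hu' Z hZ', e Z hZ', if_neg (lt_irrefl q), sub_zero]⟩

theorem hg_stabP (h : Fam aP V Δ) (hV : ∀ Z ∈ V, ∀ i, Z i ∈ HH)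
    (hΔ : ∀ γ ∈ Δ, ∀ i, γ i ∈ Gam) {c : κ → μ} {χ : (μ → Gb) → ℂ}
    (hχ : ∀ γ ∈ Δ, χ γ = 1 ∨ χ γ = -1) {Z : μ → Ix → ℂ} (hZ : Z ∈ V) (z : ℂˣ) :
    (fun i => hg (Z i) z) ∈ StabP c (TchP c Δ χ) := by
  intro t ht
  obtain ⟨s, r, e⟩ := hgP_sum c Z z
  rw [e]
  refine Submodule.sum_mem _ fun q _ => Submodule.smul_mem _ _ ?_
  obtain ⟨u, hu, hu'⟩ := fixed_partP h hV hΔ hχ ht hZ q
  rwa [hu' Z hZ]

/-- If the monodromy is scalar in one factor, the family is constant in this factor. -/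
theorem const_of_scalarP (h : Fam aP V Δ) (hV : ∀ Z ∈ V, ∀ i, Z i ∈ HH)
    (hΔ : ∀ γ ∈ Δ, ∀ i, γ i ∈ Gam) {i : μ}
    (hs : ∀ γ ∈ Δ, ∃ r : ℂ, mat (γ i) = r • (1 : Matrix Wx Wx ℂ)) :
    ∀ Z ∈ V, ∀ Z' ∈ V, Z i = Z' i := by
  have hi : ∀ γ ∈ Δ, ∀ Z ∈ V, aP γ Z i = Z i := by
    intro γ hγ Z hZ
    obtain ⟨r, hr⟩ := hs γ hγ
    have e : γ i (rr (Z i)) = r • rr (Z i) := by
      apply bW.repr.injective
      apply Finsupp.ext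
      refine congrFun (show crd _ = crd _ from ?_)
      rw [crd_smul, ← LinearEquiv.coe_coe, ← mt_crd, ← mat_eq, hr, smul_mulVec, one_mulVec]
    have h0 : r ≠ 0 := by
      rintro rfl
      exact (act_spec (Gam_le (hΔ γ hγ i)) (hV Z hZ i)).1 (by rw [jf, e]; simp)
    exact (act_of_eq h0 e).2
  intro Z hZ Z' hZ'
  rw [← pt_yc (Z i), ← pt_yc (Z' i)]
  refine congrArg _ (funext fun j => ?_)
  refine h.liouville_hol (φ := fun Z => yc (Z i) j) (fun γ hγ Z hZ => by simp only [hi γ hγ Z hZ])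
    (fun F hF => ?_) (fun Z hZ => ?_) Z hZ Z' hZ'
  · simp only [yc, tr_eq_sum, Function.comp_def]
    exact DifferentiableOn.fun_sum fun l _ =>
      (differentiableOn_pi.1 (hF.hm hV i).hol l).const_mul _
  · rw [yc, im_tr]
    exact (psd_TT j).pos (TT_ne_zero j) (hV Z hZ i)

end Pool.Agent.E7
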