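import Pool.Agent.Lib.MP_7e5527_ag.EF.MB
import Pool.Agent.Lib.MP_7e5527_ag.EL.MLie

/-! Invariant subspaces for one factor of a product of copies of the group. -/

open Matrix

noncomputable section

namespace Pool.Agent.E7

variable {μ κ : Type} [Fintype κ] [DecidableEq κ]

open Polynomial in
/-- A matrix coefficient of a one parameter group, as a polynomial. -/
def mdq (B : κ → Ix → ℂ) (w t : (κ → Wx) → ℂ) : ℂ[X] :=
  (fun a => C (w a)) ⬝ᵥ tp (fun k => NM fun l => C (B k l) * X) *ᵥ fun a => C (t a)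

open Polynomial in
theorem md_eval (B : κ → Ix → ℂ) (w t : (κ → Wx) → ℂ) (c : ℂ) :
    (mdq B w t).eval c = w ⬝ᵥ tp (fun k => mat (nE (c • B k))) *ᵥ t := by
  have h : (tp fun k => NM fun l => C (B k l) * X).map (aeval c : ℂ[X] →ₐ[ℂ] ℂ).toRingHom =
      tp fun k => mat (nE (c • B k)) := by
    rw [tp_map]
    refine congrArg _ (funext fun k => ?_)
    rw [← NM_eq]
    refine (NM_map (aeval c) _).trans (congrArg _ (funext fun l => ?_))
    rw [map_mul, aeval_C, aeval_X, mul_comm]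
    rfl
  rw [← h]
  simp [mdq, dotProduct, mulVec, eval_finsetSum]

theorem md_zero (B : κ → Ix → ℂ) (w t : (κ → Wx) → ℂ) : (mdq B w t).eval 0 = w ⬝ᵥ t := by
  simp only [md_eval, zero_smul, nE_zero, mat_one, tp_one, one_mulVec]

open Polynomial in
theorem md_der (B : κ → Ix → ℂ) (w t : (κ → Wx) → ℂ) :
    derivative (mdq B w t) = mdq B w (dP (fun k => mt (eL (B k))) *ᵥ t) := by
  have h := tp_deriv (κ := κ) _ fun k => NM_deriv (derivative' (R := ℂ)) fun l => C (B k l) * X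
  have h1 : (dP fun k => mt (eL (B k))).map (CAlgHom : ℂ →ₐ[ℂ] ℂ[X]).toRingHom =
      dP fun k => EM fun l => derivative' (R := ℂ) (C (B k l) * X) := by
    rw [dP_map]
    refine congrArg _ (funext fun k => ?_)
    rw [← EM_eq]
    refine (EM_map CAlgHom _).trans (congrArg _ (funext fun l => ?_))
    simp
  have h2 : (fun a => C ((dP (fun k => mt (eL (B k))) *ᵥ t) a)) =
      (dP fun k => mt (eL (B k))).map (CAlgHom : ℂ →ₐ[ℂ] ℂ[X]).toRingHom *ᵥ fun a => C (t a) := by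
    funext a
    simp [dotProduct, mulVec]
  rw [mdq, mdq, h2, mulVec_mulVec, h1, ← h]
  simp [dotProduct, mulVec]

theorem dP_stable (U : Submodule ℂ ((κ → Wx) → ℂ)) (B : κ → Ix → ℂ)
    (h : ∀ c : ℂ, ∀ t ∈ U, tp (fun k => mat (nE (c • B k))) *ᵥ t ∈ U) {t : (κ → Wx) → ℂ}
    (ht : t ∈ U) : dP (fun k => mt (eL (B k))) *ᵥ t ∈ U := by
  by_contra hn
  obtain ⟨φ, h1, h2⟩ := Submodule.exists_dual_map_eq_bot_of_notMem hn inferInstance
  have e : ∀ v, (fun a => φ fun j => if a = j then 1 else 0) ⬝ᵥ v = φ v := fun v => by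
    rw [LinearMap.pi_apply_eq_sum_univ φ v, dotProduct_comm]
    rfl
  have h3 : mdq B (fun a => φ fun j => if a = j then 1 else 0) t = 0 :=
    Polynomial.funext fun c => by
      rw [md_eval, e, Polynomial.eval_zero, ← Submodule.mem_bot ℂ, ← h2]
      exact Submodule.mem_map_of_mem (h c t ht)
  refine h1 ?_
  rw [← e, ← md_zero B, ← md_der, h3, map_zero, Polynomial.eval_zero]

theorem tp_fix (B : κ → Ix → ℂ) {t : (κ → Wx) → ℂ} (h : dP (fun k => mt (eL (B k))) *ᵥ t = 0) :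
    tp (fun k => mat (nE (B k))) *ᵥ t = t := by
  refine dotProduct_eq _ _ fun w => ?_
  have h1 : Polynomial.derivative (mdq B w t) = 0 := by
    rw [md_der, h]
    simp [mdq, dotProduct, mulVec]
  have h2 := md_eval B w t 1
  have h3 := md_zero B w t
  rw [Polynomial.eq_C_of_derivative_eq_zero h1, Polynomial.eval_C] at h2 h3
  simp only [one_smul] at h2
  rw [dotProduct_comm, dotProduct_comm t, ← h3, h2]

variable [DecidableEq μ]

/-- The derived representation of the factor `i`. -/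
def dI (c : κ → μ) (i : μ) (X : W →ₗ[ℂ] W) : Matrix (κ → Wx) (κ → Wx) ℂ :=
  dP fun k => if c k = i then mt X else 0

theorem dI_add (c : κ → μ) (i : μ) (X Y : W →ₗ[ℂ] W) : dI c i (X + Y) = dI c i X + dI c i Y := by
  have ha : mt (X + Y) = mt X + mt Y := map_add (LinearMap.toMatrix bW bW) X Y
  rw [dI, dI, dI, ← dP_add, ha]
  exact congrArg _ (funext fun k => by split_ifs <;> simp)

theorem dI_smul (c : κ → μ) (i : μ) (r : ℂ) (X : W →ₗ[ℂ] W) : dI c i (r • X) = r • dI c i X := by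
  have hs : mt (r • X) = r • mt X := map_smul (LinearMap.toMatrix bW bW) r X
  rw [dI, dI, ← dP_smul, hs]
  exact congrArg _ (funext fun k => by split_ifs <;> simp)

theorem dI_Ad (c : κ → μ) (i : μ) (g : μ → Gb) (X : W →ₗ[ℂ] W) (t : (κ → Wx) → ℂ) :
    dI c i (AdL (g i) X) *ᵥ t = Tp c g *ᵥ dI c i X *ᵥ Tp c g⁻¹ *ᵥ t := by
  rw [mulVec_mulVec, mulVec_mulVec, dI, dI, Tp, Tp,
    ← dP_conj (G' := fun k => mat (g⁻¹ (c k))) fun k => mat_mul_inv (g (c k))]
  refine congrArg (· *ᵥ t) (congrArg _ (funext fun k => ?_))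
  split_ifs with e
  · rw [mt_Ad, e, Pi.inv_apply]
  · rw [mul_zero, zero_mul]

theorem md_eL (c : κ → μ) (i : μ) (B : Ix → ℂ) :
    dI c i (eL B) = dP fun k => mt (eL (if c k = i then B else 0)) := by
  refine congrArg dP (funext fun k => ?_)
  split_ifs
  · rfl
  · rw [← EM_eq]
    simp [EM]

theorem md_nE (c : κ → μ) (i : μ) (r : ℂ) (B : Ix → ℂ) : Tp c (slot i (nE (r • B))) =
    tp fun k => mat (nE (r • if c k = i then B else 0)) := by
  refine congrArg tp (funext fun k => ?_)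
  rw [slot_apply]
  split_ifs with e
  · rfl
  · rw [smul_zero, nE_zero]

theorem normal_dichP (c : κ → μ) {Λ : Subgroup (μ → Gb)} (h : ∀ γ ∈ Λ, ∀ i, γ i ∈ GE)
    {χ : (μ → Gb) → ℂ} (hχ : ∀ γ ∈ Λ, χ γ = 1 ∨ χ γ = -1) (i : μ)
    (hS : ∀ g ∈ GE, slot i g ∈ StabP c (TchP c Λ χ)) :
    (∀ γ ∈ Λ, ∃ r : ℂ, mat (γ i) = r • (1 : Matrix Wx Wx ℂ)) ∨
      ∀ B, slot i (nE B) ∈ FixP c (TchP c Λ χ) := by
  have ha : ∀ X Y, mt (X + Y) = mt X + mt Y := map_add (LinearMap.toMatrix bW bW)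
  have hs : ∀ (c : ℂ) X, mt (c • X) = c • mt X := map_smul (LinearMap.toMatrix bW bW)
  have hA : ∀ (g : Gb) X t, dI c i (AdL g X) *ᵥ t = Tp c (slot i g) *ᵥ dI c i X *ᵥ
      Tp c (slot i g)⁻¹ *ᵥ t := fun g X t => by
    rw [← dI_Ad, slot_apply, if_pos rfl]
  let N : Submodule ℂ (W →ₗ[ℂ] W) :=
    { carrier := {X | X ∈ Lg ∧ (mt X).trace = 0 ∧ ∀ t ∈ TchP c Λ χ, dI c i X *ᵥ t = 0}
      add_mem' := fun h h' => ⟨add_mem h.1 h'.1, by rw [ha, trace_add, h.2.1, h'.2.1, add_zero],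
        fun t ht => by rw [dI_add, add_mulVec, h.2.2 t ht, h'.2.2 t ht, add_zero]⟩
      zero_mem' := by
        have : mt 0 = 0 := map_zero (LinearMap.toMatrix bW bW)
        exact ⟨zero_mem _, by rw [this, trace_zero], fun t _ => by
          rw [← zero_smul ℂ (0 : W →ₗ[ℂ] W), dI_smul, zero_smul, zero_mulVec]⟩
      smul_mem' := fun c X h => ⟨Lg.smul_mem c h.1, by rw [hs, trace_smul, h.2.1, smul_zero],
        fun t ht => by rw [dI_smul, smul_mulVec, h.2.2 t ht, smul_zero]⟩ }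
  have key : ∀ X ∈ Lg, (∀ t ∈ TchP c Λ χ, dI c i X *ᵥ t ∈ TchP c Λ χ) → ∀ γ ∈ Λ,
      AdL (γ i) X + (-1 : ℂ) • X ∈ N := by
    intro X hX hU γ hγ
    refine ⟨add_mem (Ad_mem (h γ hγ i) hX) (Lg.smul_mem _ hX), by
      rw [ha, hs, trace_add, trace_smul, trace_Ad]; simp, fun t ht => ?_⟩
    have h2 : χ γ * χ γ = 1 := by rcases hχ γ hγ with e | e <;> rw [e] <;> norm_num
    have h1 : Tp c γ⁻¹ *ᵥ t = χ γ • t := by
      have : Tp c γ⁻¹ *ᵥ Tp c γ *ᵥ (χ γ • t) = χ γ • t := by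
        rw [mulVec_mulVec, Tp_inv_mul, one_mulVec]
      rwa [mulVec_smul, ht γ hγ, smul_smul, h2, one_smul] at this
    rw [dI_add, dI_smul, add_mulVec, dI_Ad, h1, mulVec_smul, mulVec_smul,
      hU t ht γ hγ, smul_smul, h2, smul_mulVec]
    simp
  have he : ∀ B, ∀ t ∈ TchP c Λ χ, dI c i (eL B) *ᵥ t ∈ TchP c Λ χ := fun B t ht => by
    rw [md_eL]
    exact dP_stable _ _ (fun r => md_nE c i r B ▸ hS _ (nE_mem_GE _)) ht
  by_cases h0 : N = ⊥
  · refine Or.inl fun γ hγ => schur fun T => ?_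
    have z : ∀ X, AdL (γ i) X + (-1 : ℂ) • X ∈ N → AdL (γ i) X = X := fun X hX => by
      rw [h0, Submodule.mem_bot] at hX
      exact add_neg_eq_zero.1 ((congrArg _ (neg_one_smul ℂ X).symm).trans hX)
    refine ⟨by rw [← mat_mul, ← mat_mul, mlie_comm (z _ (key _ (eL_mem _) (he _) γ hγ))], ?_⟩
    have h1 := z _ (key _ (Ad_mem wE_mem_GE (eL_mem (toR ℂ T))) (fun t ht => by
      rw [hA]
      exact hS _ wE_mem_GE _ (he _ _ (inv_mem (hS _ wE_mem_GE) _ ht))) γ hγ)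
    have h2 : AdL (wE⁻¹ * γ i * wE) (eL (toR ℂ T)) = eL (toR ℂ T) := by
      refine LinearMap.ext fun v => ?_
      have := congrArg (wE⁻¹ : Gb) (LinearMap.congr_fun h1 (wE v))
      simpa [AdL] using this
    have h3 := mlie_comm h2
    rw [← mat_mul, ← mat_mul, nP]
    congr 1
    calc γ i * (wE * nE (toR ℂ T) * wE⁻¹) = wE * (wE⁻¹ * γ i * wE * nE (toR ℂ T)) * wE⁻¹ := by group
      _ = _ := by rw [h3]; group
  · refine Or.inr fun B t ht => ?_
    have := (lie_simple N (fun X hX => hX.1) (fun X hX => hX.2.1)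
      (fun g hg X hX => ⟨Ad_mem hg hX.1, by rw [trace_Ad, hX.2.1], fun u hu => by
        rw [hA, hX.2.2 _ (inv_mem (hS g hg) u hu), mulVec_zero]⟩) h0 B).2.2 t ht
    rw [md_eL] at this
    have e := md_nE c i 1 B
    simp only [one_smul] at e
    rw [e]
    exact tp_fix _ this

end Pool.Agent.E7
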