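import Pool.Agent.Lib.MP_7e5527_ag.EL.MPl

/-! A subspace is determined by a line in a tensor power: the case of any group. -/

open Matrix

noncomputable section

namespace Pool.Agent.E7

theorem pluckG {G n : Type} [Group G] [Fintype n] [DecidableEq n] (R : G → Matrix n n ℂ)
    (Rm : ∀ g k, R (g * k) = R g * R k) {Λ : Subgroup G} {D : ℕ} (hD : 0 < D)
    (h : ∀ γ ∈ Λ, ∀ x y, ∃ z : ℤ, (D : ℂ) * R γ x y = z) : ∃ (r : ℕ) (χ : G → ℂ),
    (∀ γ ∈ Λ, χ γ = 1 ∨ χ γ = -1) ∧ ∀ g : G, (∀ t : (Fin r → n) → ℂ,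
      (∀ γ ∈ Λ, Rp (Fin r) (R γ) *ᵥ t = χ γ • t) → Rp (Fin r) (R g) *ᵥ t = t) →
        R g ∈ Submodule.span ℂ (R '' Λ) := by
  let u : Matrix n n ℂ ≃ₗ[ℂ] (n × n → ℂ) := (LinearEquiv.curry ℂ ℂ _ _).symm
  obtain ⟨a, ha, hs, hi⟩ := Submodule.exists_fun_fin_finrank_span_eq ℂ (R '' Λ)
  generalize Module.finrank ℂ (Submodule.span ℂ (R '' Λ)) = r at a ha hs hi
  choose γ hγ e using ha
  obtain rfl : a = fun i => R (γ i) := (funext e).symm
  let A : G → Fin r → n × n → ℂ := fun g i y => R (g * γ i) y.1 y.2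
  have A1 : A 1 = fun i => u (R (γ i)) := by simp only [A, one_mul]; rfl
  obtain ⟨c, hc⟩ : ∃ c, pl (A 1) c ≠ 0 := pl_ne (A1 ▸ hi.map' u.toLinearMap u.ker)
  have act : ∀ g k (μ x : Fin r → n), pl (A (g * k)) (fun j => (x j, μ j)) =
      (Rp (Fin r) (R g) *ᵥ fun x' => pl (A k) fun j => (x' j, μ j)) x := fun g k μ x => by
    simp only [A, mul_assoc, Rm g]
    exact pl_Rp _ _ _ _
  have ex : ∀ g ∈ Λ, ∃ m : ℂ, ∀ c', pl (A g) c' = m * pl (A 1) c' := by
    intro g hg
    have : ∀ i, ∃ M : Fin r → ℂ, ∑ j, M j • R (γ j) = R (g * γ i) := fun i =>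
      (Submodule.mem_span_range_iff_exists_fun ℂ).1
        (hs ▸ Submodule.subset_span ⟨_, Λ.mul_mem hg (hγ i), rfl⟩)
    choose M hM using this
    refine ⟨(Matrix.of M).det, fun c' => ?_⟩
    rw [← pl_mul]
    congr 1
    ext i y
    simp [A, ← hM, Matrix.sum_apply]
  choose! χ hχ using ex
  have mul : ∀ g ∈ Λ, ∀ k ∈ Λ, χ (g * k) = χ g * χ k := by
    intro g hg k hk
    refine mul_right_cancel₀ hc ?_
    have e1 := act g k (fun j => (c j).2) fun j => (c j).1
    have e2 := act g 1 (fun j => (c j).2) fun j => (c j).1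
    simp only [hχ k hk, Prod.mk.eta, mul_one] at e1 e2
    rw [← hχ _ (Λ.mul_mem hg hk), e1, mul_comm (χ g), mul_assoc, ← hχ g hg, e2]
    simp only [Matrix.mulVec, dotProduct, Finset.mul_sum, mul_left_comm]
  have one : χ 1 = 1 := mul_right_cancel₀ hc (by rw [← hχ 1 Λ.one_mem, one_mul])
  have ne : ∀ g ∈ Λ, χ g ≠ 0 := fun g hg h0 => by
    have := mul g hg _ (Λ.inv_mem hg)
    rw [mul_inv_cancel, one, h0, zero_mul] at this
    exact one_ne_zero this
  have zp : ∀ g ∈ Λ, ∀ k : ℤ, χ (g ^ k) = χ g ^ k := by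
    intro g hg k
    induction k with
    | zero => simpa using one
    | succ k ih =>
      rw [_root_.zpow_add_one, mul _ (Λ.zpow_mem hg _) _ hg, ih, zpow_add_one₀ (ne g hg)]
    | pred k ih =>
      refine mul_right_cancel₀ (ne g hg) ?_
      rw [← mul _ (Λ.zpow_mem hg _) _ hg, ← _root_.zpow_add_one, ← zpow_add_one₀ (ne g hg),
        sub_add_cancel, ih]
  refine ⟨r, χ, fun g hg => sign_of_den hc (ne g hg) (M := D ^ r) (by positivity) fun k => ?_,
    fun g hg => ?_⟩
  · rw [← zp g hg, ← hχ _ (Λ.zpow_mem hg k)]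
    push_cast
    exact mpl_det (fun i y => h _ (Λ.mul_mem (Λ.zpow_mem hg k) (hγ i)) _ _) c
  · have e1 : pl (A g) = pl (A 1) := by
      ext c'
      have := congrFun (hg (fun x => pl (A 1) fun j => (x j, (c' j).2))
        fun k hk => funext fun x => by
          rw [← act, mul_one, hχ k hk]
          rfl) fun j => (c' j).1
      rwa [← act, mul_one] at this
    have e2 : ∀ i, R g * R (γ i) ∈ Submodule.span ℂ (R '' Λ) := fun i => by
      have := mem_span_of_pl e1 hc i
      rw [A1, show (fun i => u (R (γ i))) = u.toLinearMap ∘ fun i => R (γ i) from rfl,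
        Set.range_comp, ← Submodule.map_span, hs] at this
      obtain ⟨x, hx, e⟩ := this
      rwa [← Rm, ← u.injective (e.trans (show _ = u (R (g * γ i)) from rfl))]
    have e3 : ∀ x ∈ Submodule.span ℂ (Set.range fun i => R (γ i)),
        R g * x ∈ Submodule.span ℂ (R '' Λ) := by
      intro x hx
      obtain ⟨m, rfl⟩ := (Submodule.mem_span_range_iff_exists_fun ℂ).1 hx
      rw [Finset.mul_sum]
      exact Submodule.sum_mem _ fun i _ => by
        rw [Matrix.mul_smul]; exact Submodule.smul_mem _ _ (e2 i)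
    have := e3 (R 1) (hs ▸ Submodule.subset_span ⟨1, Λ.one_mem, rfl⟩)
    rwa [← Rm, mul_one] at this

theorem me_list {σ : Type} (s : Multiset σ) {d : ℕ} (h : s.card = d) :
    ∃ y : Fin d → σ, ∀ f : σ → ℂ, ∏ k, f (y k) = (s.map f).prod := by
  induction s using Quotient.ind with
  | _ l =>
    obtain rfl : l.length = d := h
    exact ⟨fun k => l[k.1], fun f => by simp⟩

/-- A homogeneous polynomial in the entries of a matrix is a linear form in its tensor power. -/
theorem hom_form {n : Type} {d : ℕ} {P : MvPolynomial (n × n) ℂ} (h : P.IsHomogeneous d) :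
    ∃ L : Matrix (Fin d → n) (Fin d → n) ℂ →ₗ[ℂ] ℂ, ∀ M : Matrix n n ℂ,
      MvPolynomial.eval (fun y => M y.1 y.2) P = L (Rp (Fin d) M) := by
  have e : ∀ s ∈ P.support, ∃ y : Fin d → n × n, ∀ f : n × n → ℂ,
      ∏ k, f (y k) = ∏ i ∈ s.support, f i ^ s i := fun s hs => by
    obtain ⟨y, hy⟩ := me_list s.toMultiset (d := d) (by
      rw [Finsupp.card_toMultiset, ← h (MvPolynomial.mem_support_iff.1 hs)]
      simp only [Finsupp.weight_apply, Pi.one_apply, smul_eq_mul, mul_one]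
      rfl)
    refine ⟨y, fun f => ?_⟩
    rw [hy, Finsupp.toMultiset_map, Finsupp.prod_toMultiset,
      Finsupp.prod_mapDomain_index (fun _ => pow_zero _) fun _ _ _ => pow_add _ _ _]
    rfl
  choose y hy using e
  refine ⟨∑ s ∈ P.support.attach, P.coeff s.1 • Matrix.entryLinearMap ℂ ℂ
    (fun k => (y s.1 s.2 k).1) fun k => (y s.1 s.2 k).2, fun M => ?_⟩
  rw [MvPolynomial.eval_eq, LinearMap.sum_apply, ← Finset.sum_attach]
  refine Finset.sum_congr rfl fun s _ => ?_
  rw [← hy s.1 s.2]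
  rfl

end Pool.Agent.E7
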