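import Pool.Agent.Lib.MP_7e5527_ag.EF.MC
import Pool.Agent.Lib.MP_7e5527_ag.EF.MD
import Pool.Agent.Lib.MP_7e5527_ag.EF.ME
import Pool.Agent.Lib.MP_7e5527_ag.EF.MG

/-! The semi-invariant tensors of the monodromy group are fixed by the derived group. -/

open Matrix

noncomputable section

namespace Pool.Agent.E7

variable {μ κ : Type} [Fintype κ] [DecidableEq κ] [Fintype μ] [DecidableEq μ]
  {V : Set (μ → Ix → ℂ)} {Δ : Subgroup (μ → Gb)}

theorem fix_of_gen (h : Fam aP V Δ) (hV : ∀ Z ∈ V, ∀ i, Z i ∈ HH)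
    (hΔ : ∀ γ ∈ Δ, ∀ i, γ i ∈ Gam) {Z0 : μ → Ix → ℂ} (h0 : Z0 ∈ V)
    (hg : ∀ H : Subgroup (μ → Gb), St.QCl blkI H → (∀ z, (fun i => hg (Z0 i) z) ∈ H) →
      ∀ g : μ → Gb, (∀ i, g i ∈ G0) → g ∈ H)
    (hn : ∀ i, ∃ Z ∈ V, Z i ≠ Z0 i) (c : κ → μ) {χ : (μ → Gb) → ℂ}
    (hχ : ∀ γ ∈ Δ, χ γ = 1 ∨ χ γ = -1) {g : μ → Gb} (hg0 : ∀ i, g i ∈ G0) :
    g ∈ FixP c (TchP c Δ χ) := by
  have h1 := hg _ (qcl_stabP c (fun γ hγ i => Gam_le (hΔ γ hγ i)) hχ) (hg_stabP h hV hΔ hχ h0)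
  refine mem_of_slot fun i => ?_
  have hS : ∀ k ∈ GE, slot i k ∈ StabP c (TchP c Δ χ) := fun k hk => by
    obtain ⟨s, hs⟩ := GE_scal hk
    have h2 := h1 (slot i (scE s * k)) fun j => by
      rw [slot_apply]
      split_ifs
      exacts [hs, one_mem _]
    have h3 : slot i (scE s) = fun j => scE (if j = i then s else 1) := funext fun j => by
      rw [slot_apply]
      split_ifs
      exacts [rfl, scE_one.symm]
    rw [map_mul, h3] at h2
    exact (Subgroup.mul_mem_cancel_left _ (scE_mem_StabP c _ _)).1 h2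
  rcases normal_dichP c (fun γ hγ j => GG_le_GE (Gam_le (hΔ γ hγ j))) hχ i hS with h2 | h2
  · obtain ⟨Z, hZ, e⟩ := hn i
    exact absurd (const_of_scalarP h hV hΔ h2 Z hZ Z0 h0) e
  · refine G0_le (H := (FixP c (TchP c Δ χ)).comap (slot i)) h2 (fun B => ?_) (hg0 i)
    rw [Subgroup.mem_comap, nP, map_mul, map_mul, map_inv]
    exact FixP.conj (hS _ wE_mem_GE) (h2 B)

theorem blkI_mul (g g' : μ → Gb) : blkI (g * g') = blkI g * blkI g' := by
  simp only [blkI, Pi.mul_apply, mat_mul, Matrix.blockDiagonal_mul]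

/-- The tensor power of the block representation is the sum of the coloured ones. -/
theorem Rp_blk (g : μ → Gb) (t : (κ → Wx × μ) → ℂ) (c : κ → μ) (a : κ → Wx) :
    (Rp κ (blkI g) *ᵥ t) (fun k => (a k, c k)) = (Tp c g *ᵥ fun b => t fun k => (b k, c k)) a := by
  simp only [mulVec, dotProduct, Rp, Tp, tp, of_apply]
  rw [← (Equiv.arrowProdEquivProdArrow _ _ _).symm.sum_comp, Fintype.sum_prod_type]
  refine Finset.sum_congr rfl fun b _ => ?_
  rw [Finset.sum_eq_single c (fun c' _ hc => ?_) (by simp)]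
  · simp only [blkI, Equiv.arrowProdEquivProdArrow_symm_apply, blockDiagonal_apply_eq]
    rfl
  · obtain ⟨k, hk⟩ := Function.ne_iff.1 hc
    exact mul_eq_zero_of_left (Finset.prod_eq_zero (Finset.mem_univ k)
      (blockDiagonal_apply_ne _ _ _ hk.symm)) _

theorem fix_blk {χ : (μ → Gb) → ℂ} {g : μ → Gb} (h : ∀ c : κ → μ, g ∈ FixP c (TchP c Δ χ))
    {t : (κ → Wx × μ) → ℂ} (ht : ∀ γ ∈ Δ, Rp κ (blkI γ) *ᵥ t = χ γ • t) :
    Rp κ (blkI g) *ᵥ t = t := funext fun x => by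
  have := h (fun k => (x k).2) (fun b => t fun k => (b k, (x k).2)) fun γ hγ => funext fun a => by
    rw [← Rp_blk, ht γ hγ]
    rfl
  exact (Rp_blk g t (fun k => (x k).2) fun k => (x k).1).trans (congrFun this _)

omit [Fintype μ] in
theorem mf_int (hΔ : ∀ γ ∈ Δ, ∀ i, γ i ∈ Gam) (d : ℕ) {γ : μ → Gb} (hγ : γ ∈ Δ)
    (x y : Fin d → Wx × μ) : ∃ z : ℤ, ((2 ^ d : ℕ) : ℂ) * Rp (Fin d) (blkI γ) x y = z := by
  have e : ∀ a b : Wx × μ, ∃ z : ℤ, 2 * blkI γ a b = z := fun a b => by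
    rw [blkI, blockDiagonal_apply]
    split_ifs
    · exact mat_int (hΔ γ hγ _) _ _
    · exact ⟨0, by simp⟩
  choose n hn using e
  refine ⟨∏ k, n (x k) (y k), ?_⟩
  simp only [Rp, tp, Matrix.of_apply, Int.cast_prod, ← hn, Finset.prod_mul_distrib,
    Finset.prod_const, Finset.card_univ, Fintype.card_fin, Nat.cast_pow, Nat.cast_ofNat]

theorem span_blk (hΔ : ∀ γ ∈ Δ, ∀ i, γ i ∈ Gam) {g : μ → Gb} (d : ℕ)
    (h : ∀ (r : ℕ) (c : Fin r × Fin d → μ) (χ : (μ → Gb) → ℂ), (∀ γ ∈ Δ, χ γ = 1 ∨ χ γ = -1) →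
      g ∈ FixP c (TchP c Δ χ)) :
    Rp (Fin d) (blkI g) ∈ Submodule.span ℂ ((fun γ => Rp (Fin d) (blkI γ)) '' Δ) := by
  let _ : DecidableEq (Wx × μ) := Classical.decEq _
  obtain ⟨r, χ, hχ, hp⟩ := pluckG (fun γ => Rp (Fin d) (blkI γ))
    (fun g k => by rw [blkI_mul, Rp_mul]) (Λ := Δ) (D := 2 ^ d) (by positivity)
    fun γ hγ => mf_int hΔ d hγ
  refine hp g fun t ht => funext fun x => ?_
  have := fix_blk (fun c => h r c χ hχ) (t := fun x' => t fun j k => x' (j, k))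
    fun γ hγ => funext fun y => by
      rw [Rp_curry, ht γ hγ]
      rfl
  exact (Rp_curry _ t fun y => x y.1 y.2).symm.trans (congrFun this _)

end Pool.Agent.E7
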