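import Pool.Agent.Lib.MP_7e5527_ag.EF.CMain
import Pool.Agent.Lib.MP_7e5527_ag.EF.AMain
import Pool.Agent.Lib.MP_7e5527_ag.EL.SH

/-! Assembly. -/

noncomputable section

namespace Pool.Agent.E7

theorem tq_iff {p : ℕ} [Fact p.Prime] (e : ℂ_[p] ≃+* ℂ) (q : (Ix → ℚ) → ℂ_[p]) (x : Ix → ℂ) :
    St.Tq e q x ↔ TqI e q x := by
  constructor
  · rintro ⟨Y, c, h1, h2, h3, h4, h5, h6⟩
    exact ⟨Y, c, ⟨h1, h3, h5⟩, h2, h4, fun k F a h => h6 k F a ((form_iff k F a).2 h)⟩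
  · rintro ⟨Y, c, h1, h2, h4, h6⟩
    exact ⟨Y, c, h1.mem, h2, h1.mul, h4, h1.norm, fun k F a h => h6 k F a ((form_iff k F a).1 h)⟩

theorem full_main (p : ℕ) [Fact p.Prime] :
    (∃ (e : ℂ_[p] ≃+* ℂ) (x : Fin 783 → Ix → ℂ), St.Cj e x) ∧
    ∀ (e : ℂ_[p] ≃+* ℂ) (x : Fin 783 → Ix → ℂ), St.Cj e x → ∀ k F a, Form k F a →
      (∃ Z ∈ HH, F Z ≠ 0) → ∃ S : Set (Ix → ℂ), S.Finite ∧ S ⊆ HH ∧ ∀ Z ∈ Sig (x 0), F Z = 0 →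
        (∀ a ∈ MT Z, ∀ b ∈ MT Z, a * b = b * a) ∨ ∃ s ∈ S, ∃ γ j, Mv γ s Z j := by
  refine ⟨?_, fun e x ⟨⟨q, hq⟩, hg⟩ k F a hF h0 => ?_⟩
  · obtain ⟨e, x, q, h1, h2⟩ := exists_cj p 783
    exact ⟨e, x, ⟨q, fun i => ⟨(h1 i).1, (tq_iff ..).2 (h1 i).2.1, (h1 i).2.2⟩⟩, h2⟩
  have hg' : JG x := hg
  obtain ⟨S, h1, h2, h3⟩ := c_main le_rfl
    (fun i => ⟨(hq i).1, (tq_iff ..).1 (hq i).2.1, (hq i).2.2⟩) hg' ((form_iff k F a).1 hF) h0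
  refine ⟨S, h1, h2, fun Z hZ hz => (sig_main (hq 0).1 (hg'.gen 0) hZ).imp_right fun hH => ?_⟩
  obtain ⟨s, hs, γ, hγ, rfl⟩ := h3 Z hH hz
  exact ⟨s, hs, γ, _, mv_of_Gam hγ (h2 hs)⟩

end Pool.Agent.E7
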