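import Pool.Agent.Lib.MP_7e5527_ag.EF.PSpl
import Pool.Agent.Lib.MP_7e5527_ag.E7.PA1
import Pool.Agent.Lib.MP_7e5527_ag.E7.PA2

/-! The sums over the limit classes vanish. -/

open Filter Topology

noncomputable section

namespace Pool.Agent.E7

variable {ι : Type} [Fintype ι] [DecidableEq ι] {p : ℕ} [Fact p.Prime] {Co : Cone ι}

open scoped Classical in
/-- As `pa_limit`, with `Cone.Poly.int`; the Noetherian ring is
`MvPolynomial (ι ⊕ ι ⊕ J) ℤ_[p]`, evaluated at `u k`, `(u k)⁻¹`, `ω k`. -/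
theorem pf_limit (hC : Co.Poly) (U : Filter ℕ) {q : ℕ → ι → ℂ_[p]} {y : ℕ → ι → ℚ}
    (hq : ∀ k, Pt p (q k) (y k)) (hy : ∀ k, y k ∈ Co.Sg) {a : (ι → ℤ) → ℤ_[p]}
    (ha : ∀ T, a T ≠ 0 → T ∈ Co.Lp) {J : Type} (χ : ℕ → (ι → ℤ) → ℂ_[p]) (cl : (ι → ℤ) → J)
    (rep : J → ι → ℤ) (hrep : ∀ j, cl (rep j) = j)
    (h1 : ∀ᶠ k in U, ∀ T T', cl T = cl T' → χ k T = χ k T')
    (h2 : ∀ T T', cl T ≠ cl T' → ∀ᶠ k in U, χ k T ≠ χ k T')
    (h3 : ∀ k T0, ∑' T, (if χ k T = χ k T0 then UAP.zp p (a T) * mon (q k) T else 0) = 0) :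
    ∀ᶠ k in U, ∀ j, ∑' T, (if cl T = j then UAP.zp p (a T) * mon (q k) T else 0) = 0 := by
  have hp : (0 : ℝ) < p := one_pos.trans one_lt_p
  obtain ⟨I, _, g, hg, hfin, hS⟩ := hC.int
  choose μ hμ0 hμ hyμ using fun k => hS _ (hy k)
  choose ω hω using fun k j => pa_norm (p := p) (μ k j)
  have hω0 : ∀ k j, ω k j ≠ 0 := fun k j => norm_pos_iff.1 (by rw [hω]; positivity)
  obtain ⟨u, hu⟩ : ∃ u : ℕ → ι → ℂ_[p], ∀ k, q k = fun i => u k i * ∏ j, ω k j ^ g j i :=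
    ⟨fun k i => q k i / ∏ j, ω k j ^ g j i, fun k => funext fun i =>
      (div_mul_cancel₀ _ (Finset.prod_ne_zero_iff.2 fun j _ => zpow_ne_zero _ (hω0 k j))).symm⟩
  have n1 : ∀ k i, ‖u k i‖ = 1 := fun k i => by
    have h5 := hq k i
    have e : ‖∏ j, ω k j ^ g j i‖ = (p : ℝ) ^ (-(y k i : ℝ)) := by
      rw [norm_prod, hyμ, Rat.cast_sum, ← Finset.sum_neg_distrib, Real.rpow_sum_of_pos hp]
      refine Finset.prod_congr rfl fun j _ => ?_
      rw [norm_zpow, hω, ← Real.rpow_intCast, ← Real.rpow_mul hp.le]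
      congr 1
      push_cast
      ring
    rw [hu, norm_mul, e] at h5
    exact (mul_eq_right₀ (by positivity)).1 h5
  have n2 : ∀ k j, ‖ω k j‖ ≤ 1 := fun k j => by
    rw [hω]
    refine Real.rpow_le_one_of_one_le_of_nonpos one_lt_p.le (neg_nonpos.2 ?_)
    exact_mod_cast hμ k j
  let φ : ℕ → MvPolynomial (ι ⊕ ι ⊕ I) ℤ_[p] →+* ℂ_[p] := fun k =>
    MvPolynomial.eval₂Hom (UAP.zp p)
      (Sum.elim (u k) (Sum.elim (fun i => (u k i)⁻¹) fun j => ω k (some j)))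
  let w : (ι → ℤ) → MvPolynomial (ι ⊕ ι ⊕ I) ℤ_[p] := fun T => MvPolynomial.C (a T) *
    ((∏ i, MvPolynomial.X (.inl i) ^ (T i).toNat * MvPolynomial.X (.inr (.inl i)) ^ (-T i).toNat) *
      ∏ j, MvPolynomial.X (.inr (.inr j)) ^ (ipZ T (g (some j))).toNat)
  have he : ∀ k T, φ k (w T) * ω k none ^ (ipZ T (g none)).toNat =
      UAP.zp p (a T) * mon (q k) T := by
    intro k T
    by_cases h0 : a T = 0
    · simp [w, h0]
    have hT := ha T h0
    have e1 : mon (fun i => ∏ j, ω k j ^ g j i) T = ∏ j, ω k j ^ (ipZ T (g j)).toNat := by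
      simp only [← zpow_natCast, Int.toNat_of_nonneg (hg _ T hT), ← mon_zpow (hω0 k _), mon,
        ← Finset.prod_zpow]
      exact Finset.prod_comm
    have e2 : ∀ i, u k i ^ (T i).toNat * (u k i)⁻¹ ^ (-T i).toNat = u k i ^ T i := fun i => by
      rw [inv_pow, ← zpow_natCast, ← zpow_natCast, ← zpow_neg,
        ← zpow_add₀ (norm_ne_zero_iff.1 (by rw [n1]; exact one_ne_zero)), ← sub_eq_add_neg,
        Int.toNat_sub_toNat_neg]
    rw [hu, mon_mul, e1, Fintype.prod_option]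
    simp only [φ, w, map_mul, map_prod, map_pow, MvPolynomial.eval₂Hom_C, MvPolynomial.eval₂Hom_X',
      Sum.elim_inl, Sum.elim_inr, e2, mon]
    ring
  have hφ : ∀ k f, ‖φ k f‖ ≤ 1 := fun k f => by
    induction f using MvPolynomial.induction_on with
    | C z =>
      rw [MvPolynomial.eval₂Hom_C, UAP.norm_zp]
      exact z.norm_le_one
    | add f f' h h' =>
      rw [map_add]
      exact (IsUltrametricDist.norm_add_le_max _ _).trans (max_le h h')
    | mul_X f i h =>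
      rw [map_mul, norm_mul, MvPolynomial.eval₂Hom_X']
      refine mul_le_one₀ h (norm_nonneg _) ?_
      rcases i with i | i | j
      · exact (n1 k i).le
      · exact (by rw [norm_inv, n1, inv_one] : ‖(u k i)⁻¹‖ = 1).le
      · exact n2 k _
  have key := pa_vanish U w (fun T => (ipZ T (g none)).toNat)
    (fun n => (hfin n).subset fun T hT => ⟨ha T fun h0 => hT.1 (by simp [w, h0]),
      hT.2 ▸ Int.self_le_toNat _⟩) φ (fun k => ω k none) χ cl rep hrep
    (h1.mono fun k hk => ⟨hφ k, by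
      rw [hω]
      refine Real.rpow_lt_one_of_one_lt_of_neg one_lt_p (neg_lt_zero.2 ?_)
      exact_mod_cast hμ0 k, hk, fun T0 => by simp only [he, h3]⟩) h2
  simpa only [he] using key

end Pool.Agent.E7
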