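import Pool.Agent.Lib.MP_7e5527_ag.EF.PLn2
import Pool.Agent.Lib.MP_7e5527_ag.EF.PLim
import Pool.Agent.Lib.MP_7e5527_ag.E7.PA

/-! The case of unbounded torsion cosets. -/

open Filter Topology

noncomputable section

namespace Pool.Agent.E7

variable {ι : Type} [Fintype ι] [DecidableEq ι] {p : ℕ} [Fact p.Prime] {Co : Cone ι} {κ : Type}
  {r m : ℕ} {ρ : Fin m → ℂ_[p] →+* ℂ_[p]}

open scoped Classical in
/-- As `pa_class`. -/
theorem PD.cls (D : PD p Co κ) (k : ℕ) {c : ι → ℂ_[p]} (hg : Good D.E (D.q k) c) (T0 : ι → ℤ) :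
    ∑' T, (if mon c T = mon c T0 then UAP.zp p (D.a T) * mon (D.q k) T else 0) = 0 := by
  obtain ⟨m, hm, h⟩ := D.kum k
  refine pa_filter (mon c) _ hm (fun T => ?_) (fun e => ?_) T0
  · rw [← pa_mon_pow]
    simp [mon, fun i => hg.pow_eq_one ((D.pt k).ne_zero i) (h i)]
  · obtain ⟨σ, h1, -, h3⟩ := hg e
    have h4 := iso_hasSum h1 ((D.nul k).summable' D.supp).hasSum
    rw [D.van, map_zero] at h4
    have e1 : (fun T => mon c T ^ e * (UAP.zp p (D.a T) * mon (D.q k) T)) =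
        fun T => σ (UAP.zp p (D.a T) * mon (D.q k) T) := by
      funext T
      simp only [map_mul, iso_zp h1, map_mon, h3, mon_mul, pa_mon_pow]
      ring
    rwa [e1]

/-- As `caseA`; finish with `Nul.line_class` and `Nul.pout_line`. -/
theorem pcaseA (hC : Co.Poly) (D : PD p Co κ) (f : ℕ → ℕ) (c : ℕ → ι → ℂ_[p])
    (hg : ∀ k, Good D.E (D.q (f k)) (c k)) (hc : ∀ k, ∃ i, c k i ^ k.factorial ≠ 1) (hr : 0 < r)
    (hρ : ∀ i, UAP.Iso (ρ i)) : ∃ n, POut r ρ (D.q n) D.a := by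
  classical
  obtain ⟨U, hU⟩ : ∃ U : Ultrafilter ℕ, (U : Filter ℕ) ≤ cofinite := ⟨_, hyperfilter_le_cofinite⟩
  have h0 : ∀ k i, c k i ≠ 0 := fun k i h => by
    obtain ⟨m, hm, h1⟩ := D.kum (f k)
    have := (hg k).pow_eq_one ((D.pt (f k)).ne_zero i) (h1 i)
    rw [h, zero_pow hm.ne'] at this
    exact zero_ne_one this
  obtain ⟨Λ, hΛ⟩ : ∃ Λ : Submodule ℤ (ι → ℤ), ∀ T, T ∈ Λ ↔
      ∀ᶠ k in (U : Filter ℕ), mon (c k) T = 1 :=
    ⟨{ carrier := {T | ∀ᶠ k in (U : Filter ℕ), mon (c k) T = 1}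
       add_mem' := fun h h' => (h.and h').mono fun k h => by rw [mon_add (h0 k), h.1, h.2, one_mul]
       zero_mem' := Eventually.of_forall fun k => mon_zero _
       smul_mem' := fun z T h => h.mono fun k h => by rw [pa_mon_smul, h, one_zpow] },
      fun _ => Iff.rfl⟩
  obtain ⟨a, ha, horth⟩ := pa_orth Λ fun N hN => by
    by_contra h
    push Not at h
    have h1 : ∀ᶠ k in (U : Filter ℕ), ∀ i, mon (c k) (Pi.single i N) = 1 :=
      eventually_all.2 fun i => (hΛ _).1 (h i)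
    have h2 : ∀ᶠ k in (U : Filter ℕ), N ≤ k :=
      (hU.trans Nat.cofinite_eq_atTop.le) (eventually_ge_atTop N)
    obtain ⟨k, h3, h4⟩ := (h1.and h2).exists
    obtain ⟨i, hi⟩ := hc k
    obtain ⟨e, he⟩ := Nat.dvd_factorial hN h4
    have h5 := h3 i
    rw [← mul_one (N : ℤ), ← smul_eq_mul, Pi.single_smul', pa_mon_smul, mon_single,
      zpow_natCast] at h5
    exact hi (by rw [he, pow_mul, h5, one_pow])
  have hm : ∀ k T T', mon (c k) T = mon (c k) (T - T') * mon (c k) T' := fun k T T' => by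
    rw [← mon_add (h0 k), sub_add_cancel]
  have h1 : ∀ᶠ k in (U : Filter ℕ), ∀ T ∈ Λ, mon (c k) T = 1 := by
    obtain ⟨s, hs⟩ := IsNoetherian.noetherian Λ
    refine ((eventually_all_finset s).2 fun T hT =>
      (hΛ T).1 (hs ▸ Submodule.subset_span hT)).mono fun k hk T hT => ?_
    rw [← hs] at hT
    induction hT using Submodule.span_induction with
    | mem T hT => exact hk T hT
    | zero => exact mon_zero _
    | add T T' _ _ h h' => rw [mon_add (h0 k), h, h', one_mul]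
    | smul z T _ h => rw [pa_mon_smul, h, one_zpow]
  have hrep : ∀ j : (ι → ℤ) ⧸ Λ, Submodule.Quotient.mk j.out = j := fun j => j.out_eq
  have h2 : ∀ᶠ k in (U : Filter ℕ), ∀ T T' : ι → ℤ,
      Submodule.Quotient.mk (p := Λ) T = Submodule.Quotient.mk T' → mon (c k) T = mon (c k) T' :=
    h1.mono fun k hk T T' h => by
      rw [hm k T T', hk _ ((Submodule.Quotient.eq Λ).1 h), one_mul]
  have h3 : ∀ T T' : ι → ℤ, Submodule.Quotient.mk (p := Λ) T ≠ Submodule.Quotient.mk T' →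
      ∀ᶠ k in (U : Filter ℕ), mon (c k) T ≠ mon (c k) T' := fun T T' h => by
    refine (Ultrafilter.eventually_not.2 fun h2 => h ((Submodule.Quotient.eq Λ).2
      ((hΛ _).2 h2))).mono fun k hk h3 => hk ?_
    rw [hm k T T'] at h3
    exact (mul_eq_right₀ (mon_ne_zero (h0 k) _)).1 h3
  obtain ⟨k, hk⟩ := (pf_limit hC (U : Filter ℕ) (fun k => D.pt (f k)) (fun k => D.sg (f k)) D.supp
    (fun k => mon (c k)) (Submodule.Quotient.mk (p := Λ)) Quotient.out hrep h2 h3
    fun k => D.cls (f k) (hg k)).exists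
  refine ⟨f k, (D.nul (f k)).pout_line D.supp hr hρ (c := fun l => (a l : ℂ_[p]))
    (fun h => ha (funext fun l => ?_)) ((D.nul (f k)).line_class D.supp a
      (Submodule.Quotient.mk (p := Λ)) Quotient.out (fun T => ?_) fun j => ?_)⟩
  · exact Int.cast_eq_zero.1 (congrFun h l)
  · rw [← sub_eq_zero, ← ipZ_sub]
    exact horth _ ((Submodule.Quotient.eq Λ).1 (hrep _).symm)
  · refine Eq.trans (tsum_congr fun T => ?_) (hk j)
    split_ifs <;> rfl

end Pool.Agent.E7
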