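import Pool.Agent.Lib.MP_7e5527_ag.EA.AX

/-! Exponentials of power series. -/

open MvPowerSeries Filter Topology

noncomputable section

namespace Pool.Agent.E7

variable {σ τ A A' : Type} [CommRing A] [CommRing A']

/-- `e` is the exponential of `z`. -/
structure IsExp (e z : PS σ A) : Prop where
  c1 : constantCoeff e = 1
  c0 : constantCoeff z = 0
  der : ∀ l, pderiv A l e = e * pderiv A l z

section
variable {e e' z z' : PS σ A}

/-- `odeu`. -/
theorem IsExp.unique [IsAddTorsionFree A] [Finite σ] (h : IsExp e z) (h' : IsExp e' z) :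
    e = e' := by
  refine sub_eq_zero.1 (odeu (fun _ : Unit => e - e')
    (fun _ => by simp only [map_sub, h.c1, h'.c1, sub_self]) (fun i a => ?_) ())
  rw [map_sub, h.der, h'.der, ← sub_mul]
  exact Ideal.mul_mem_right _ _ (Ideal.subset_span ⟨(), rfl⟩)

theorem isExp_one : IsExp (1 : PS σ A) 0 :=
  ⟨map_one _, map_zero _, fun l => by rw [pderiv_one, map_zero, mul_zero]⟩

theorem IsExp.mul (h : IsExp e z) (h' : IsExp e' z') : IsExp (e * e') (z + z') := by
  refine ⟨by rw [map_mul, h.c1, h'.c1, mul_one], by rw [map_add, h.c0, h'.c0, add_zero],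
    fun l => ?_⟩
  rw [Derivation.leibniz, h.der, h'.der, map_add, smul_eq_mul, smul_eq_mul]
  ring

theorem IsExp.pow (h : IsExp e z) (n : ℕ) : IsExp (e ^ n) (n * z) := by
  induction n with
  | zero => simpa using isExp_one
  | succ n ih =>
    rw [pow_succ, Nat.cast_succ, add_mul, one_mul]
    exact ih.mul h

theorem IsExp.prod {α : Type} (s : Finset α) {e z : α → PS σ A} (h : ∀ a ∈ s, IsExp (e a) (z a)) :
    IsExp (∏ a ∈ s, e a) (∑ a ∈ s, z a) := by
  induction s using Finset.cons_induction with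
  | empty => exact isExp_one
  | cons a s ha ih =>
    rw [Finset.prod_cons, Finset.sum_cons]
    exact (h a (Finset.mem_cons_self a s)).mul (ih fun b hb => h b (Finset.mem_cons_of_mem hb))

theorem IsExp.map (h : IsExp e z) (ρ : A →+* A') :
    IsExp (MvPowerSeries.map ρ e) (MvPowerSeries.map ρ z) := by
  have e : ∀ l (f : PS σ A), pderiv A' l (MvPowerSeries.map ρ f) =
      MvPowerSeries.map ρ (pderiv A l f) := fun l f => by
    ext ν
    rw [coeff_pderiv, coeff_map, coeff_map, coeff_pderiv, map_mul, map_add, map_natCast, map_one]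
  exact ⟨by rw [constantCoeff_map, h.c1, map_one], by rw [constantCoeff_map, h.c0, map_zero],
    fun l => by rw [e, e, h.der, map_mul]⟩

/-- `pderiv_sb`, `const_sb`. -/
theorem IsExp.sb [Finite σ] [Finite τ] (h : IsExp e z) {y : σ → PS τ A} (hy : C0 y) :
    IsExp (sb y e) (sb y z) := by
  cases nonempty_fintype σ
  refine ⟨(const_sb hy e).trans h.c1, (const_sb hy z).trans h.c0, fun l => ?_⟩
  simp only [pderiv_sb hy, h.der, map_mul, Finset.mul_sum, mul_assoc]

end

theorem isExp_exo {p : ℕ} [Fact p.Prime] [PC p A] [Finite σ] {b : PS σ A}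
    (hb : constantCoeff b = 0) : IsExp (exo p b) ((p : PS σ A) ^ 2 * b) := by
  refine ⟨ax1_const hb, by rw [map_mul, hb, mul_zero], fun l => ?_⟩
  rw [ax1_der hb, Derivation.leibniz, ax1_natder, smul_zero, add_zero, smul_eq_mul]
  ring

variable {k : Type} [Field k] [CharZero k]

/-- Integrate the logarithmic derivative. -/
theorem exists_isExp {e : PS Unit k} (h : constantCoeff e = 1) : ∃ z, IsExp e z := by
  obtain ⟨g, hg⟩ : ∃ g : PowerSeries k, e⁻¹ * pderiv k () e = g := ⟨_, rfl⟩
  have key : PowerSeries.derivative k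
      (PowerSeries.mk fun n => PowerSeries.coeff (n - 1) g / n) = g := by
    ext n
    rw [PowerSeries.coeff_derivative, PowerSeries.coeff_mk, Nat.add_sub_cancel, Nat.cast_succ,
      div_mul_cancel₀ _ (Nat.cast_add_one_ne_zero n)]
  refine ⟨PowerSeries.mk fun n => PowerSeries.coeff (n - 1) g / n, h,
    PowerSeries.constantCoeff_mk.trans (by simp), fun l => ?_⟩
  refine Eq.trans ?_ (congrArg (e * ·) (hg.trans key.symm))
  rw [← mul_assoc, MvPowerSeries.mul_inv_cancel e (h ▸ one_ne_zero), one_mul]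

variable {ι : Type} [Fintype ι]

/-- The series `exp (c · X)`. -/
def exT (c : ι → k) : PS ι k := fun ν => ∏ i, (c i ^ ν i / ((ν i).factorial : k))

theorem coeff_exT (c : ι → k) (ν : ι →₀ ℕ) :
    coeff ν (exT c) = ∏ i, (c i ^ ν i / ((ν i).factorial : k)) := rfl

theorem isExp_exT (c : ι → k) : IsExp (exT c) (∑ i, C (c i) * X i) := by
  classical
  refine ⟨?_, by simp, fun l => ?_⟩
  · rw [← coeff_zero_eq_constantCoeff_apply, coeff_exT]
    simp
  have e : pderiv k l (∑ i, C (c i) * X i : PS ι k) = C (c l) := by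
    rw [map_sum, Finset.sum_eq_single l] <;>
      simp +contextual [Derivation.leibniz, pderiv_X_self, pderiv_X_of_ne]
  ext ν
  rw [e, coeff_pderiv, coeff_mul_C, coeff_exT, coeff_exT, Fintype.prod_eq_mul_prod_compl l,
    Fintype.prod_eq_mul_prod_compl l, Finset.prod_congr rfl (g := fun i =>
      c i ^ ν i / ((ν i).factorial : k)) fun i hi => by
        rw [Finsupp.add_apply, Finsupp.single_eq_of_ne (by simpa using hi), add_zero],
    Finsupp.add_apply, Finsupp.single_eq_same, Nat.factorial_succ, Nat.cast_mul, Nat.cast_succ]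
  have := Nat.cast_add_one_ne_zero (R := k) (ν l)
  field_simp
  ring

theorem isExp_sb_exT [Finite τ] (c : ι → k) {z : ι → PS τ k} (hz : C0 z) :
    IsExp (sb z (exT c)) (∑ i, C (c i) * z i) := by
  have h := (isExp_exT c).sb hz
  simpa only [map_sum, map_mul, evx_C hz.ev, evx_X hz.ev] using h

theorem map_exT {k' : Type} [Field k'] [CharZero k'] (ρ : k →+* k') (c : ι → k) :
    MvPowerSeries.map ρ (exT c) = exT fun i => ρ (c i) := by
  ext ν
  simp only [coeff_map, coeff_exT, map_prod, map_div₀, map_pow, map_natCast]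

variable {p : ℕ} [Fact p.Prime]

/-- The exponential as a homomorphism on the maximal ideal. -/
def pexp_hom (p : ℕ) [Fact p.Prime] : Multiplicative (Ideal.span {(p : OC p)}).radical →* ℂ_[p] where
  toFun y := (exo p (y.toAdd : OC p) : OC p)
  map_one' := congrArg Subtype.val exo_zero
  map_mul' y y' := congrArg Subtype.val
    (exo_add (ev_pad p (Fin.forall_fin_two.2 ⟨y.toAdd.2, y'.toAdd.2⟩)))

/-- `exo_add`, both sides are multiplicative in `T`. -/
theorem exo_mon [DecidableEq ι] {d : ι → OC p} (hd : Sm d) (T : ι → ℤ) :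
    ((exo p (∑ i, (T i : OC p) * d i) : OC p) : ℂ_[p]) =
      mon (fun i => ((exo p (d i) : OC p) : ℂ_[p])) T := by
  have e := map_prod (pexp_hom p)
    (fun i => Multiplicative.ofAdd ⟨d i, pn_iff.2 (hd i)⟩ ^ T i) Finset.univ
  simp only [map_zpow] at e
  refine (congrArg (fun y : OC p => ((exo p y : OC p) : ℂ_[p])) ?_).trans e
  simp [toAdd_prod]

end Pool.Agent.E7
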