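import Pool.Agent.Lib.MP_7e5527_ag.EF.PSum
import Pool.Agent.Lib.MP_7e5527_ag.EA.GV

/-! Generic vanishing for sums. -/

open MvPowerSeries Filter Topology

noncomputable section

namespace Pool.Agent.E7

variable {p : ℕ} [Fact p.Prime] {U : Ultrafilter ℕ}

/-- As `GD.gv0`: `GG` is the `p`-adic sum of `C (α (x T)) * map β (V T)`; `up_lemma` over the
tensor product; `GD.lead` for constant series (`τ = Empty`). -/
theorem GD.gv1 {A : Type} [CommRing A] [PC p A] {An : ℕ → Type} [∀ n, CommRing (An n)]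
    [∀ n, PC p (An n)] {O : Type} [CommRing O] [Algebra (W0 p) O] (G : GD p U A An) (D : Dec p O)
    [PC p O] {α σ : Type} [Finite σ] {V : α → PS σ O} (hV : PNul p V) {a : ℕ → σ → ℤ_[p]}
    (ha : ∀ n i, (p : ℤ_[p]) ∣ a n i) {x : α → A} {xn : ∀ n, α → An n}
    (h : ∀ᶠ n in (U : Filter ℕ), (∀ T, G.i n (xn n T) = x T) ∧
      PSum p (fun T => jw p (G.ε n (xn n T)) * D.val (evz O (a n) (V T))) 0) :
    ∀ᶠ n in (U : Filter ℕ), ∀ (Λ : An n →+* OC p) (g : O →+* OC p),
      (∀ w, Λ (G.cn n w) = g (algebraMap (W0 p) O w)) →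
        PSum p (fun T => Λ (xn n T) * g (evz O (a n) (V T))) 0 := by
  obtain ⟨T, _, ⟨Y⟩⟩ := exists_te D G.c
  choose Tn _ hn using fun n => exists_te D (G.cn n)
  have Yn := fun n => (hn n).some
  have := Y.pc
  have := fun n => (Yn n).pc
  choose ι' h1 h2 using fun n => (Yn n).lift T (Y.α.comp (G.i n)) Y.β fun w =>
    (congrArg Y.α (G.ic n w)).trans (Y.comm w)
  choose lam h3 h4 using fun n => (Yn n).lift (OC p) ((jw p).comp (G.ε n)) D.val fun w =>
    (congrArg (jw p) (G.εc n w)).trans (D.alg w).symm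
  choose f hf using fun n => (((hV.map (evz O (a n))).map (Yn n).β).mul_left
    fun S => (Yn n).α (xn n S)).exists
  obtain ⟨GG, hG⟩ := ((hV.map (MvPowerSeries.map Y.β)).mul_left fun S => C (Y.α (x S))).exists
  have hm : ∀ᶠ n in (U : Filter ℕ), ι' n (f n) = evz T (a n) GG := by
    filter_upwards [h] with n hn
    have e0 := ev_pad p (gv2_zc (T := T) (ha n))
    have e1 := (hf n).map (ι' n)
    have e2 := hG.map (evz T (a n))
    have e3 : ∀ S, evz T (a n) (MvPowerSeries.map Y.β (V S)) = Y.β (evz O (a n) (V S)) :=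
      fun S => by
        rw [evx_map e0, evx_comp (ev_pad p (gv2_zc (ha n))) Y.β (by simpa only [zc_map] using e0)]
        simp only [zc_map]
        rfl
    simp only [map_mul, h1, h2, RingHom.comp_apply, hn.1] at e1
    simp only [map_mul, e3, evx_C e0, RingHom.id_apply] at e2
    exact e1.unique e2
  rcases up_lemma (N := T) (Y.tf G.tf) U GG ha with h5 | ⟨S, hS, e, b, h5, h6⟩
  · filter_upwards [hm, h5] with n e1 e2 Λ g hg
    obtain ⟨l, l1, l2⟩ := (Yn n).lift (OC p) Λ g hg
    have e3 : f n = 0 := by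
      rw [(Yn n).sum (f n)]
      refine Finset.sum_eq_zero fun i _ => ?_
      have e5 := (Yn n).co_map Y (h1 n) (h2 n) i (f n)
      rw [e1, e2, map_zero, eq_comm, map_eq_zero_iff _ (G.inj n)] at e5
      rw [e5, map_zero, zero_mul]
    simpa only [map_mul, l1, l2, e3, map_zero] using (hf n).map l
  · obtain ⟨n0, h0⟩ := Ultrafilter.nonempty_of_mem hS
    obtain ⟨Z, ⟨R0, hR⟩, h7⟩ := G.lead Y Yn ι' h1 h2 lam h3 h4 (τ := Empty) (fun n => C (f n))
      (e := e) (b := fun n => C (b n)) (b0 := C (b n0))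
      (fun e1 => (h5 n0 h0).2 (by
        simpa only [map_natCast, constantCoeff_C] using map_dvd constantCoeff e1)) (by
      filter_upwards [hm, hS] with n e1 e2
      refine ⟨by rw [map_C, e1, (h5 n e2).1, map_mul, map_pow, map_natCast], ?_⟩
      simpa only [map_natCast, map_sub] using map_dvd (C : T →+* PS Empty T) (h6 n e2 n0 h0))
    obtain ⟨n, ⟨c, F, hc, e1, -, e3⟩, e5⟩ := ((h7 R0 hR).and h).exists
    have e6 := (hf n).map (lam n)
    simp only [map_mul, h3, h4, RingHom.comp_apply] at e6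
    have e7 := congrArg (coeff R0) e1
    rw [map_C, e6.unique e5.2, map_zero, map_zero, coeff_C_mul] at e7
    exact (e3 (by rw [(mul_eq_zero.1 e7.symm).resolve_left hc, map_zero])).elim

end Pool.Agent.E7
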