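import Pool.Agent.Lib.MP_7e5527_ag.EA.AO

/-! Convergent sums in `p`-adic rings and in rings of power series. -/

open MvPowerSeries Filter Topology

noncomputable section

namespace Pool.Agent.E7

variable {α σ τ A A' : Type} [CommRing A] [CommRing A']

/-- The family `f` has the `p`-adic sum `s`. -/
def PSum (p : ℕ) (f : α → A) (s : A) : Prop :=
  ∀ k : ℕ, ∀ᶠ S in (atTop : Filter (Finset α)), (p : A) ^ k ∣ s - ∑ T ∈ S, f T

/-- The family tends to zero. -/
def PNul (p : ℕ) (f : α → A) : Prop := ∀ k : ℕ, {T | ¬ (p : A) ^ k ∣ f T}.Finite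

section
variable {p : ℕ} {f : α → A} {s s' : A}

theorem PSum.add_map (h : PSum p f s) (g : A →+ A') : PSum p (fun T => g (f T)) (g s) := by
  refine fun k => (h k).mono fun S ⟨c, hc⟩ => ⟨g c, ?_⟩
  rw [← map_sum, ← map_sub, hc, ← Nat.cast_pow, ← nsmul_eq_mul, map_nsmul, nsmul_eq_mul,
    Nat.cast_pow]

theorem PSum.map (h : PSum p f s) (g : A →+* A') : PSum p (fun T => g (f T)) (g s) :=
  h.add_map g.toAddMonoidHom

theorem PSum.unique [PC p A] (h : PSum p f s) (h' : PSum p f s') : s = s' := by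
  refine sub_eq_zero.1 (pc_sep p fun k => ?_)
  obtain ⟨S, h1, h2⟩ := ((h k).and (h' k)).exists
  have := h1.sub h2
  rwa [sub_sub_sub_cancel_right] at this

theorem PNul.exists [PC p A] (h : PNul p f) : ∃ s, PSum p f s := by
  classical
  have h1 : ∀ k S, (h k).toFinset ⊆ S →
      (p : A) ^ k ∣ ∑ T ∈ S, f T - ∑ T ∈ (h k).toFinset, f T := fun k S hS => by
    rw [← Finset.sum_sdiff_eq_sub hS]
    exact Finset.dvd_sum fun T hT =>
      not_not.1 fun e => (Finset.mem_sdiff.1 hT).2 ((h k).mem_toFinset.2 e)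
  obtain ⟨y, hy⟩ := pc_lim p (fun k => ∑ T ∈ (h k).toFinset, f T) fun k =>
    h1 k _ (Set.Finite.toFinset_mono fun T hT e => hT ((pow_dvd_pow _ k.le_succ).trans e))
  refine ⟨y, fun k => (eventually_ge_atTop (h k).toFinset).mono fun S hS => ?_⟩
  have := (hy k).sub (h1 k S hS)
  rwa [sub_sub_sub_cancel_right] at this

theorem PNul.map (h : PNul p f) (g : A →+* A') : PNul p fun T => g (f T) := by
  refine fun k => (h k).subset fun T hT e => hT ?_
  have := map_dvd g e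
  rwa [map_pow, map_natCast] at this

theorem PNul.mul_left (h : PNul p f) (g : α → A) : PNul p fun T => g T * f T := by
  exact fun k => (h k).subset fun T hT e => hT (e.mul_left _)

theorem PNul.mul_right (h : PNul p f) (g : α → A) : PNul p fun T => f T * g T := by
  exact fun k => (h k).subset fun T hT e => hT (e.mul_right _)

end

variable {p : ℕ} [Fact p.Prime]

theorem psum_tend {l : Filter α} {g : α → OC p} :
    (∀ k : ℕ, ∀ᶠ x in l, (p : OC p) ^ k ∣ g x) ↔ Tendsto (fun x => (g x : ℂ_[p])) l (𝓝 0) := by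
  have hp : (1 : ℝ) < p := Nat.one_lt_cast.2 (Fact.out : p.Prime).one_lt
  simp only [oc_pdvd, NormedAddGroup.tendsto_nhds_zero]
  refine ⟨fun h ε hε => ?_, fun h k => (h _ (by positivity)).mono fun _ => le_of_lt⟩
  obtain ⟨k, hk⟩ := exists_pow_lt_of_lt_one hε (inv_lt_one_of_one_lt₀ hp)
  exact (h k).mono fun x hx => hx.trans_lt (inv_pow (p : ℝ) k ▸ hk)

theorem psum_oc {f : α → OC p} {s : OC p} :
    PSum p f s ↔ HasSum (fun T => (f T : ℂ_[p])) (s : ℂ_[p]) := by
  simp only [PSum, dvd_sub_comm (b := s)]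
  rw [psum_tend]
  simp only [AddSubgroupClass.coe_sub, AddSubmonoidClass.coe_finsetSum]
  exact tendsto_sub_nhds_zero_iff

theorem pnul_oc {f : α → OC p} :
    PNul p f ↔ Tendsto (fun T => (f T : ℂ_[p])) cofinite (𝓝 0) := by
  rw [← psum_tend]
  exact forall_congr' fun k => eventually_cofinite.symm

/-- The coefficients of `F` are the sums of the coefficients. -/
def CSum (f : α → PS σ ℂ_[p]) (F : PS σ ℂ_[p]) : Prop :=
  ∀ ν, HasSum (fun T => coeff ν (f T)) (coeff ν F)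

theorem CSum.unique {f : α → PS σ ℂ_[p]} {F F' : PS σ ℂ_[p]} (h : CSum f F) (h' : CSum f F') :
    F = F' := MvPowerSeries.ext fun ν => (h ν).unique (h' ν)

theorem PSum.csum {f : α → PS σ (OC p)} {F : PS σ (OC p)} (h : PSum p f F) :
    CSum (fun T => MvPowerSeries.map (ov p) (f T)) (MvPowerSeries.map (ov p) F) := by
  intro ν
  simp only [coeff_map]
  exact psum_oc.1 (h.add_map (coeff ν).toAddMonoidHom)

theorem psum_sb [Finite σ] [Finite τ] {y : σ → PS τ A} (hy : C0 y) (ν : τ →₀ ℕ) :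
    ∃ (D : Finset (σ →₀ ℕ)) (c : (σ →₀ ℕ) → A), ∀ g : PS σ A,
      coeff ν (sb y g) = ∑ μ ∈ D, coeff μ g * c μ := by
  refine ⟨(Finsupp.finite_of_degree_lt (σ := σ) (ν.degree + 1)).toFinset,
    fun μ => coeff ν (μ.prod fun i e => y i ^ e), fun g => ?_⟩
  have h1 := hom_trunc (sb y) g (ν.degree + 1)
  rw [funext (evx_X hy.ev), show (sb y).comp C = C from RingHom.ext (evx_C hy.ev)] at h1
  have h2 := mem_X_pow.1 (Ideal.pow_right_mono (Ideal.span_le.2 (Set.range_subset_iff.2 fun i =>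
    pow_one (Ideal.span (Set.range (X : τ → PS τ A))) ▸ af2_c0 (hy i))) _ h1) ν (Nat.lt_succ_self _)
  rw [map_sub, sub_eq_zero] at h2
  rw [h2, truncTotal, truncFinset_apply, MvPolynomial.eval₂_sum, map_sum]
  exact Finset.sum_congr rfl fun μ _ => by rw [MvPolynomial.eval₂_monomial, coeff_C_mul]

/-- A coefficient of `sb y f` is a finite combination of coefficients of `f`. -/
theorem CSum.sb [Finite σ] [Finite τ] {f : α → PS σ ℂ_[p]} {F : PS σ ℂ_[p]}
    (h : CSum f F) {y : σ → PS τ ℂ_[p]} (hy : C0 y) : CSum (fun T => sb y (f T)) (sb y F) := by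
  intro ν
  obtain ⟨D, c, hc⟩ := psum_sb hy ν
  simp only [hc]
  exact hasSum_sum fun μ _ => (h μ).mul_right _

theorem CSum.map {f : α → PS σ ℂ_[p]} {F : PS σ ℂ_[p]} (h : CSum f F) {ρ : ℂ_[p] →+* ℂ_[p]}
    (hρ : UAP.Iso ρ) :
    CSum (fun T => MvPowerSeries.map ρ (f T)) (MvPowerSeries.map ρ F) := by
  intro ν
  simp only [coeff_map]
  exact (h ν).map ρ (AddMonoidHomClass.continuous_of_bound ρ 1 fun z => by rw [one_mul, hρ z])

theorem iso_zp {ρ : ℂ_[p] →+* ℂ_[p]} (hρ : UAP.Iso ρ) (z : ℤ_[p]) :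
    ρ (UAP.zp p z) = UAP.zp p z := by
  rw [← zc_oc, ← coe_resO ρ hρ, zc_map]

theorem iso_hasSum {ρ : ℂ_[p] →+* ℂ_[p]} (hρ : UAP.Iso ρ) {f : α → ℂ_[p]} {s : ℂ_[p]}
    (h : HasSum f s) : HasSum (fun T => ρ (f T)) (ρ s) :=
  h.map ρ (AddMonoidHomClass.continuous_of_bound ρ 1 fun z => by rw [one_mul, hρ z])

end Pool.Agent.E7
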