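import Pool.Agent.Lib.MP_7e5527_ag.EF.PSt
import Pool.Agent.Lib.MP_7e5527_ag.EF.PSum
import Pool.Agent.Lib.MP_7e5527_ag.EF.PExp
import Pool.Agent.Lib.MP_7e5527_ag.E7.PA1

/-! The Taylor series and its restriction to lines. -/

open MvPowerSeries Filter Topology

noncomputable section

namespace Pool.Agent.E7

variable {ι : Type} [Fintype ι] [DecidableEq ι] {p : ℕ} [Fact p.Prime] {Co : Cone ι}

/-- The monomials in `q` are small on the cone. -/
structure Nul (Co : Cone ι) (q : ι → ℂ_[p]) : Prop where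
  ne : ∀ i, q i ≠ 0
  le : ∀ T ∈ Co.Lp, ‖mon q T‖ ≤ 1
  lim : Tendsto (fun T : Co.Lp => mon q T) cofinite (𝓝 0)

/-- The terms of the series as integers. -/
def zcf (q : ι → ℂ_[p]) (a : (ι → ℤ) → ℤ_[p]) (T : ι → ℤ) : OC p :=
  toO (UAP.zp p (a T) * mon q T)

variable {q : ι → ℂ_[p]} {a : (ι → ℤ) → ℤ_[p]} {r m : ℕ} {ρ : Fin m → ℂ_[p] →+* ℂ_[p]}

theorem Pt.nul {y : ι → ℚ} (h : Pt p q y) (h0 : ∀ T ∈ Co.Lp, 0 ≤ ip T y)
    (hf : ∀ B : ℚ, {T | T ∈ Co.Lp ∧ ip T y ≤ B}.Finite) : Nul Co q := by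
  have hp : (1 : ℝ) < p := one_lt_p
  refine ⟨h.ne_zero, fun T hT => ?_, ?_⟩
  · rw [h.norm_mon]
    refine Real.rpow_le_one_of_one_le_of_nonpos hp.le (neg_nonpos.2 ?_)
    exact_mod_cast h0 T hT
  rw [NormedAddGroup.tendsto_nhds_zero]
  intro ε hε
  obtain ⟨N, hN⟩ := exists_pow_lt_of_lt_one hε (inv_lt_one_of_one_lt₀ hp)
  rw [Filter.eventually_cofinite]
  refine ((hf (N : ℚ)).preimage Subtype.val_injective.injOn).subset fun T hT => ?_
  refine ⟨T.2, ?_⟩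
  by_contra hc
  apply hT
  refine (h.norm_mon T).trans_lt (lt_of_le_of_lt ?_ hN)
  rw [inv_pow, ← Real.rpow_natCast, ← Real.rpow_neg (zero_le_one.trans hp.le)]
  refine Real.rpow_le_rpow_of_exponent_le hp.le (neg_le_neg ?_)
  exact_mod_cast (not_le.1 hc).le

theorem PD.nul {κ : Type} (D : PD p Co κ) (n : ℕ) : Nul Co (D.q n) :=
  (D.pt n).nul (fun _ hT => Co.ip_nonneg (Co.sub (D.sg n)) hT) (Co.fin _ (Co.sub (D.sg n)))

theorem Nul.of_norm (h : Nul Co q) {q' : ι → ℂ_[p]} (h' : ∀ i, ‖q' i‖ = ‖q i‖) : Nul Co q' := by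
  have e : ∀ T, ‖mon q' T‖ = ‖mon q T‖ := fun T => by
    simp only [mon, norm_prod, norm_zpow, h']
  refine ⟨fun i => norm_ne_zero_iff.1 (h' i ▸ norm_ne_zero_iff.2 (h.ne i)),
    fun T hT => (e T).trans_le (h.le T hT), ?_⟩
  have h1 := h.lim
  rw [tendsto_zero_iff_norm_tendsto_zero] at h1 ⊢
  simpa only [e] using h1

theorem Nul.iso (h : Nul Co q) {s : ℂ_[p] →+* ℂ_[p]} (hs : UAP.Iso s) :
    Nul Co fun i => s (q i) := h.of_norm fun _ => hs _

theorem pln_le (z : ℤ_[p]) (x : ℂ_[p]) : ‖UAP.zp p z * x‖ ≤ ‖x‖ := by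
  rw [norm_mul, UAP.norm_zp]
  exact mul_le_of_le_one_left (norm_nonneg _) z.norm_le_one

theorem Nul.tendsto (h : Nul Co q) (ha : ∀ T, a T ≠ 0 → T ∈ Co.Lp) :
    Tendsto (fun T => UAP.zp p (a T) * mon q T) cofinite (𝓝 0) := by
  have h1 := h.lim
  rw [NormedAddGroup.tendsto_nhds_zero] at h1 ⊢
  intro ε hε
  have h2 := h1 ε hε
  rw [Filter.eventually_cofinite] at h2 ⊢
  refine (h2.image Subtype.val).subset fun T hT => ?_
  have h3 : a T ≠ 0 := fun h0 => hT (by rwa [h0, map_zero, zero_mul, norm_zero])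
  exact ⟨⟨T, ha T h3⟩, fun h4 => hT ((pln_le _ _).trans_lt h4), rfl⟩

theorem Nul.coe_zcf (h : Nul Co q) (ha : ∀ T, a T ≠ 0 → T ∈ Co.Lp) (T : ι → ℤ) :
    (zcf q a T : ℂ_[p]) = UAP.zp p (a T) * mon q T := by
  refine coe_toO ?_
  by_cases h0 : a T = 0
  · rw [h0, map_zero, zero_mul, norm_zero]
    exact zero_le_one
  · exact (pln_le _ _).trans (h.le T (ha T h0))

theorem Nul.pnul (h : Nul Co q) (ha : ∀ T, a T ≠ 0 → T ∈ Co.Lp) : PNul p (zcf q a) :=
  pnul_oc.2 (by simpa only [h.coe_zcf ha] using h.tendsto ha)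

theorem Nul.summable (h : Nul Co q) (ha : ∀ T, a T ≠ 0 → T ∈ Co.Lp) {w : (ι → ℤ) → ℂ_[p]}
    {B : ℝ} (hw : ∀ T, ‖w T‖ ≤ B) : Summable fun T => UAP.zp p (a T) * mon q T * w T := by
  rw [NonarchimedeanAddGroup.summable_iff_tendsto_cofinite_zero]
  refine squeeze_zero_norm (a := fun T => ‖UAP.zp p (a T) * mon q T‖ * B) (fun T => ?_) ?_
  · rw [norm_mul]
    exact mul_le_mul_of_nonneg_left (hw T) (norm_nonneg _)
  · simpa only [norm_zero, zero_mul] using (h.tendsto ha).norm.mul_const B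

theorem Nul.summable' (h : Nul Co q) (ha : ∀ T, a T ≠ 0 → T ∈ Co.Lp) :
    Summable fun T => UAP.zp p (a T) * mon q T := by
  simpa only [mul_one] using h.summable ha (w := fun _ => 1) (B := 1) fun _ => norm_one.le

theorem Nul.ts_csum (h : Nul Co q) (ha : ∀ T, a T ≠ 0 → T ∈ Co.Lp) :
    CSum (fun T => C (UAP.zp p (a T) * mon q T) * exT fun i => (T i : ℂ_[p]))
      (TS q fun T => UAP.zp p (a T)) := by
  intro ν
  simp only [coeff_C_mul, coeff_exT]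
  refine (h.summable ha (B := ∏ i, ‖((ν i).factorial : ℂ_[p])‖⁻¹) fun T => ?_).hasSum
  rw [norm_prod]
  refine Finset.prod_le_prod (fun _ _ => norm_nonneg _) fun i _ => ?_
  rw [norm_div, norm_pow, div_eq_mul_inv]
  exact mul_le_of_le_one_left (inv_nonneg.2 (norm_nonneg _))
    (pow_le_one₀ (norm_nonneg _) (IsUltrametricDist.norm_intCast_le_one ℂ_[p] _))

theorem Nul.map_ts (h : Nul Co q) (ha : ∀ T, a T ≠ 0 → T ∈ Co.Lp) {s : ℂ_[p] →+* ℂ_[p]}
    (hs : UAP.Iso s) : MvPowerSeries.map s (TS q fun T => UAP.zp p (a T)) =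
      TS (fun l => s (q l)) fun T => UAP.zp p (a T) := by
  have h1 := (h.ts_csum ha).map hs
  simp only [map_mul, map_C, map_exT, iso_zp hs, map_mon, map_intCast] at h1
  refine h1.unique ?_
  simpa only [map_mul] using (h.iso hs).ts_csum ha

theorem pln_dep {α : Type} (hr : 0 < r) (c : α → ℂ_[p]) :
    Dep ℂ_[p] r fun q => (C (c q) * X () : PS Unit ℂ_[p]) := by
  intro s hs
  have h1 : (⟨0, by omega⟩ : Fin (r + 1)) ≠ ⟨1, by omega⟩ := by simp
  have h2 := hs.linearIndependent.comp ![⟨0, by omega⟩, ⟨1, by omega⟩]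
    (injective_pair_iff_ne.2 h1)
  have h3 : LinearIndependent ℂ_[p] ![(C (c (s ⟨0, by omega⟩)) * X () : PS Unit ℂ_[p]),
      C (c (s ⟨1, by omega⟩)) * X ()] := by
    refine Eq.mp (congrArg (fun v : Fin 2 → PS Unit ℂ_[p] => LinearIndependent ℂ_[p] v)
      (funext fun i => ?_)) h2
    fin_cases i <;> rfl
  have h4 := LinearIndependent.pair_iff.1 h3 (c (s ⟨1, by omega⟩)) (-c (s ⟨0, by omega⟩)) (by
    rw [smul_eq_C_mul, smul_eq_C_mul, map_neg]
    ring)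
  refine h3.ne_zero 1 ?_
  change C _ * X () = 0
  rw [h4.1, map_zero, zero_mul]

/-- As `Fr.Gp.out_of_line`, `zd2_dep`; the arcs are `ρ i (c) * t`. -/
theorem Nul.pout_line (h : Nul Co q) (ha : ∀ T, a T ≠ 0 → T ∈ Co.Lp) (hr : 0 < r)
    (hρ : ∀ i, UAP.Iso (ρ i)) {c : ι → ℂ_[p]} (hc : c ≠ 0)
    (h0 : sb (fun l => (C (c l) * X () : PS Unit ℂ_[p])) (TS q fun T => UAP.zp p (a T)) = 0) :
    POut r ρ q a := by
  refine ⟨fun i l => C (ρ i (c l)) * X (), fun i l => by simp, fun i h1 => hc (funext fun l => ?_),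
    pln_dep hr fun s : Fin m × ι => ρ s.1 (c s.2), fun i => ?_⟩
  · have h2 := congrArg (coeff (Finsupp.single () 1)) (congrFun h1 l)
    rwa [coeff_C_mul, coeff_X, if_pos rfl, mul_one, Pi.zero_apply, map_zero,
      _root_.map_eq_zero] at h2
  · have hb : C0 fun l => (C (c l) * X () : PS Unit ℂ_[p]) := fun l => by simp
    have h2 := congrArg (MvPowerSeries.map (ρ i)) h0
    rw [map_sb hb, h.map_ts ha (hρ i), map_zero] at h2
    simpa only [map_mul, map_C, map_X] using h2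

end Pool.Agent.E7
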