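import Pool.Agent.Lib.MP_7e5527_ag.EF.PLine
import Pool.Agent.Lib.MP_7e5527_ag.EA.AW

/-! The normal form of the points. -/

open MvPowerSeries Filter Topology

noncomputable section

namespace Pool.Agent.E7

variable {ι : Type} [Fintype ι] [DecidableEq ι] {p : ℕ} [Fact p.Prime] {t : ℕ} {J : Type}
  [Fintype J]

/-- The point with parameters `a`, `s`. -/
def VP (g : J → ι → ℤ) (l : Fin t → OC p) (a : ι × Fin t → ℤ_[p]) (s : J → ℤ_[p]) (i : ι) :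
    ℂ_[p] :=
  (exo p (∑ k, zc p (OC p) (a (i, k)) * l k) : OC p) * ∏ j, UAP.zp p (s j) ^ g j i

/-- The monomial `T` as a series in the parameters. -/
def VS {A : Type} [CommRing A] [PC p A] (g : J → ι → ℤ) (l : Fin t → A) (s : J → ℤ_[p])
    (T : ι → ℤ) : PS ((ι × Fin t) ⊕ J) A :=
  exo p (∑ i, ∑ k, C ((T i : A) * l k) * X (.inl (i, k))) *
    ∏ j, (C (zc p A (s j)) + X (.inr j)) ^ (ipZ T (g j)).toNat

/-- The arc in logarithmic coordinates. -/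
def VZ (g : J → ι → ℤ) (l : Fin t → OC p) (y : ι × Fin t → PS Unit ℂ_[p])
    (L : J → PS Unit ℂ_[p]) (i : ι) : PS Unit ℂ_[p] :=
  ∑ k, C ((p : ℂ_[p]) ^ 2 * l k) * y (i, k) + ∑ j, C (g j i : ℂ_[p]) * L j

/-- The normal form. -/
structure NF (Co : Cone ι) (U : Ultrafilter ℕ) (q : ℕ → ι → ℂ_[p]) (t : ℕ) (J : Type)
    [Fintype J] where
  g : J → ι → ℤ
  c : ι → ℂ_[p]
  l : Fin t → OC p
  a : ℕ → ι × Fin t → ℤ_[p]
  s : ℕ → J → ℤ_[p]
  ω : ℕ → ι → ℂ_[p]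
  g0 : ∀ j, ∀ T ∈ Co.Lp, 0 ≤ ipZ T (g j)
  nul : Nul Co c
  calg : ∀ i, IsAlgebraic ℚ_[p] (c i)
  lalg : ∀ k, IsAlgebraic ℚ_[p] (l k : ℂ_[p])
  ha : ∀ n x, (p : ℤ_[p]) ∣ a n x
  hs : ∀ n j, (p : ℤ_[p]) ∣ s n j
  s0 : ∀ n j, s n j ≠ 0
  root : ∀ n i, ∃ r : ℕ, ¬ p ∣ r ∧ ω n i ^ r = 1
  eq : ∀ᶠ n in (U : Filter ℕ), ∀ i, q n i = ω n i * c i * VP g l (a n) (s n) i

variable {g : J → ι → ℤ} {l : Fin t → OC p} {a a' : ι × Fin t → ℤ_[p]} {s s' : J → ℤ_[p]}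

theorem pnd_pn {z : ℤ_[p]} (h : (p : ℤ_[p]) ∣ z) : PN p (zc p (OC p) z) :=
  PN.map (Ideal.le_radical (Ideal.mem_span_singleton.2 h)) _

theorem pnd_zp {z : ℤ_[p]} (h : z ≠ 0) : UAP.zp p z ≠ 0 := by
  rwa [← norm_ne_zero_iff, UAP.norm_zp, norm_ne_zero_iff]

theorem pnd_mon {z : J → ℂ_[p]} (hz : ∀ j, z j ≠ 0) {T : ι → ℤ} (hT : ∀ j, 0 ≤ ipZ T (g j)) :
    mon (fun i => ∏ j, z j ^ g j i) T = ∏ j, z j ^ (ipZ T (g j)).toNat := by
  simp only [mon, ← Finset.prod_zpow]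
  rw [Finset.prod_comm]
  refine Finset.prod_congr rfl fun j _ => ?_
  rw [← zpow_natCast, Int.toNat_of_nonneg (hT j)]
  exact mon_zpow (hz j) (g j) T

omit [DecidableEq ι] in
theorem vp_sm (ha : ∀ x, (p : ℤ_[p]) ∣ a x) (l : Fin t → OC p) :
    Sm fun i => ∑ k, zc p (OC p) (a (i, k)) * l k := fun _ =>
  pn_iff.1 (Ideal.sum_mem _ fun _ _ => Ideal.mul_mem_right _ _ (pnd_pn (ha _)))

theorem vp_zero (g : J → ι → ℤ) (l : Fin t → OC p) (s : J → ℤ_[p]) (i : ι) :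
    VP g l 0 s i = ∏ j, UAP.zp p (s j) ^ g j i := by
  simp [VP, exo_zero]

theorem vp_sub (ha : ∀ x, (p : ℤ_[p]) ∣ a x) (ha' : ∀ x, (p : ℤ_[p]) ∣ a' x) (i : ι) :
    VP g l a s i =
      (exo p (∑ k, zc p (OC p) (a' (i, k)) * l k) : OC p) * VP g l (a - a') s i := by
  have h1 := vp_sm ha' l i
  have h2 := vp_sm (a := a - a') (fun x => dvd_sub (ha x) (ha' x)) l i
  have h3 := exo_add (p := p) (Sm.ev (y := ![∑ k, zc p (OC p) (a' (i, k)) * l k,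
    ∑ k, zc p (OC p) ((a - a') (i, k)) * l k]) (Fin.forall_fin_two.2 ⟨h1, h2⟩))
  rw [VP, VP, ← mul_assoc, ← MulMemClass.coe_mul, ← h3, ← Finset.sum_add_distrib]
  simp only [← add_mul, ← map_add, Pi.sub_apply, add_sub_cancel]

theorem vp_iso (ha : ∀ x, (p : ℤ_[p]) ∣ a x) {σ : ℂ_[p] →+* ℂ_[p]} (hσ : UAP.Iso σ) (i : ι) :
    σ (VP g l a s i) = VP g (fun k => resO σ hσ (l k)) a s i := by
  have h1 := vp_sm ha l i
  rw [VP, VP, map_mul, ← coe_resO σ hσ, exo_map (Sm.ev fun _ => h1) _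
    (Sm.ev fun _ => (hσ _).trans_lt h1)]
  simp only [map_sum, map_mul, zc_map, map_prod, map_zpow₀, iso_zp hσ]

/-- `ax1_evx`, `exo_mon`, `mon_zpow`. -/
theorem vs_ev {A : Type} [CommRing A] [PC p A] (φ : A →+* OC p) (l : Fin t → A)
    (ha : ∀ x, (p : ℤ_[p]) ∣ a x) (hs : ∀ j, (p : ℤ_[p]) ∣ s' j) (h0 : ∀ j, s j + s' j ≠ 0)
    {T : ι → ℤ} (hT : ∀ j, 0 ≤ ipZ T (g j)) :
    ((evx φ (fun x => zc p (OC p) (Sum.elim a s' x)) (VS g l s T) : OC p) : ℂ_[p]) =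
      mon (VP g (fun k => φ (l k)) a (s + s')) T := by
  have h : Ev fun x => zc p (OC p) (Sum.elim a s' x) :=
    ev_pad p fun x => pnd_pn (by rcases x with x | x; exacts [ha x, hs x])
  have e := exo_mon (vp_sm ha fun k => φ (l k)) T
  rw [VS, map_mul, ax1_evx h φ (by simp), MulMemClass.coe_mul]
  refine Eq.trans ?_ (mon_mul _ _ T).symm
  rw [← e, pnd_mon (fun j => pnd_zp (z := (s + s') j) (h0 j)) hT]
  simp only [map_sum, map_mul, map_prod, map_pow, map_add, evx_C h, evx_X h, zc_map, map_intCast,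
    Sum.elim_inl, Sum.elim_inr, Finset.mul_sum, Pi.add_apply, ← zc_oc]
  congr 3
  · exact Finset.sum_congr rfl fun i _ => Finset.sum_congr rfl fun k _ => by ring
  · simp

theorem vs_const {A : Type} [CommRing A] [PC p A] (g : J → ι → ℤ) (l : Fin t → A) (s : J → ℤ_[p])
    (T : ι → ℤ) : constantCoeff (VS g l s T) = ∏ j, zc p A (s j) ^ (ipZ T (g j)).toNat := by
  rw [VS, map_mul, ax1_const (by simp)]
  simp

/-- Both sides are `C _` times the exponential of the same series. -/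
theorem vs_arc {y : (ι × Fin t) ⊕ J → PS Unit ℂ_[p]} (hy : C0 y) (h0 : ∀ j, s j ≠ 0)
    {L : J → PS Unit ℂ_[p]} (hL : ∀ j, IsExp (1 + C (UAP.zp p (s j))⁻¹ * y (.inr j)) (L j))
    {T : ι → ℤ} (hT : ∀ j, 0 ≤ ipZ T (g j)) :
    C0 (VZ g l (fun x => y (.inl x)) L) ∧
    sb y (MvPowerSeries.map (ov p) (VS g l s T)) = C (mon (VP g l 0 s) T) *
      sb (VZ g l (fun x => y (.inl x)) L) (exT fun i => (T i : ℂ_[p])) := by
  have hz : C0 (VZ g l (fun x => y (.inl x)) L) := fun i => by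
    simp [VZ, hy _, (hL _).c0]
  refine ⟨hz, ?_⟩
  have h1 := (((isExp_exo (p := p) (b := ∑ i, ∑ k, C ((T i : OC p) * l k) *
    (X (.inl (i, k)) : PS ((ι × Fin t) ⊕ J) (OC p))) (by simp)).map (ov p)).sb hy).mul
    (IsExp.prod Finset.univ fun j _ => (hL j).pow (ipZ T (g j)).toNat)
  have h2 := isExp_sb_exT (fun i => (T i : ℂ_[p])) hz
  have h3 : ∀ j, (((ipZ T (g j)).toNat : ℕ) : PS Unit ℂ_[p]) =
      ∑ i, C (T i : ℂ_[p]) * C (g j i : ℂ_[p]) := fun j => by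
    rw [← Int.cast_natCast, Int.toNat_of_nonneg (hT j), ipZ]
    simp
  have h4 : ∀ j, C (UAP.zp p (s j)) + y (.inr j) =
      C (UAP.zp p (s j)) * (1 + C (UAP.zp p (s j))⁻¹ * y (.inr j)) := fun j => by
    rw [mul_add, mul_one, ← mul_assoc, ← map_mul, mul_inv_cancel₀ (pnd_zp (h0 j)), map_one, one_mul]
  rw [← h1.unique (Eq.mp (congrArg _ ?_) h2), funext (vp_zero g l s),
    pnd_mon (fun j => pnd_zp (h0 j)) hT, VS, map_mul, map_mul]
  · simp only [map_prod, map_pow, map_add, map_C, map_X, evx_C hy.ev, evx_X hy.ev]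
    rw [mul_left_comm, ← Finset.prod_mul_distrib]
    simp only [← mul_pow, ← h4]
    simp only [← zc_oc]
    rfl
  · simp only [VZ, map_sum, map_mul, map_pow, map_natCast, map_intCast, map_C, map_X, evx_C hy.ev,
      evx_X hy.ev, h3, mul_add, Finset.mul_sum, Finset.sum_mul, Finset.sum_add_distrib]
    rw [Finset.sum_comm (f := fun i j => (T i : PS Unit ℂ_[p]) * ((g j i : PS Unit ℂ_[p]) * L j))]
    simp only [mul_assoc]
    congr 1
    exact Finset.sum_congr rfl fun i _ => Finset.sum_congr rfl fun k _ => mul_left_comm _ _ _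

/-- Roots of unity of order prime to `p` are Teichmueller lifts
(`UAP.root_eq_one_of_coprime`). -/
theorem root_jw {ω : ℂ_[p]} {r : ℕ} (hr : ¬ p ∣ r) (h : ω ^ r = 1) : ‖ω‖ = 1 ∧
    (jw p (WittVector.teichmuller p (red p (toO ω))) : ℂ_[p]) = ω := by
  have hr0 : r ≠ 0 := fun e => hr (e ▸ dvd_zero p)
  have h1 : ‖ω‖ = 1 := (pow_eq_one_iff_of_nonneg (norm_nonneg _) hr0).1
    (by rw [← norm_pow, h, norm_one])
  have h0 : ω ≠ 0 := norm_ne_zero_iff.1 (h1 ▸ one_ne_zero)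
  have h2 := coe_toO h1.le
  have h3 : toO ω ^ r = 1 := Subtype.ext (by rw [SubmonoidClass.coe_pow, h2, h]; rfl)
  refine ⟨h1, (div_eq_one_iff_eq h0).1 (UAP.root_eq_one_of_coprime hr ?_ ?_)⟩
  · rw [div_pow, h, div_one, ← SubmonoidClass.coe_pow, ← map_pow, ← map_pow, ← map_pow, h3,
      map_one, map_one, map_one]
    rfl
  · have h4 : red p (jw p (WittVector.teichmuller p (red p (toO ω))) - toO ω) = 0 := by
      rw [map_sub, red_jw, WittVector.teichmuller_coeff_zero, sub_self]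
    have h5 := red_eq_zero.1 h4
    rw [AddSubgroupClass.coe_sub, h2] at h5
    rwa [div_sub_one h0, norm_div, h1, div_one]

end Pool.Agent.E7
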