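import Pool.Agent.Lib.MP_7e5527_ag.EL.RD

/-! A fundamental set with bounded real part. -/

noncomputable section

namespace Pool.Agent.E7

/-- `Z` is comparable to the point `Y` of the Siegel set. -/
def NearS (Z : Ix → ℂ) (Y : Ix → ℝ) : Prop :=
  Y ∈ Sieg ∧ 1 / 4 ≤ dg Y 0 ∧ (2 : ℝ) • imv Z - Y ∈ Om ∧ (2 : ℝ) • Y - imv Z ∈ Om

theorem pr1a_near {Z : Ix → ℂ} (hZ : Z ∈ HH) : ∃ γ ∈ Gam, ∃ Y, NearS (act γ Z) Y := by
  obtain ⟨γ0, h0, mn⟩ := exists_min hZ
  have h1 := (act_spec (Gam_le h0) hZ).2.1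
  obtain ⟨Y, y1, y2, y3⟩ := exists_rat_near h1
  obtain ⟨A, hA, hS⟩ := reduce y1
  obtain ⟨m, hm⟩ := exists_m hA.1
  have h2 := HH.lin_mem h1 hA.1
  have k := nE_mem_Gam (Lam.zsmul (ed_mem 0) (-round (dg (lin A (act γ0 Z)) 0).re))
  have e := mn _ (Gam.mul_mem (Gam.mul_mem w0E_mem k) (hm.mem_Gam hA))
  rw [jf_mul _ (hm.mem_GG hA.1) h1, hm.jf_eq, hm.act_eq, mul_one, jf_mul _ (Gam_le k) h2, jf_nE,
    mul_one, act_nE, jf_w0E, toR_smul, toR_ed, dg_add, dg_smul, Complex.sq_norm,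
    Complex.normSq_apply] at e
  have r := abs_le.1 (abs_sub_round (dg (lin A (act γ0 Z)) 0).re)
  have p := HH.dg_im_pos h2 0
  have q : (dg (lin A (act γ0 Z)) 0).im = dg (lin A fun l => (act γ0 Z l).im) 0 :=
    congrFun (im_lin A _) _
  simp [ed, ← sub_eq_add_neg] at e
  have y4 := (hA.1.2.2 _).2 y3
  have y5 := (hA.1.2.2 _).2 y2
  rw [lin_sub, lin_smul, lin_toR] at y4
  rw [lin_sub, lin_smul, lin_toR] at y5
  have y6 := y4.1
  rw [dg_sub, dg_smul, ← q] at y6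
  refine ⟨m * γ0, Gam.mul_mem (hm.mem_Gam hA) h0, _, hS, by nlinarith, ?_⟩
  rw [act_mul (hm.mem_GG hA.1) (Gam_le h0) hZ, hm.act_eq]
  have i : imv (lin A (act γ0 Z)) = lin A fun l => (act γ0 Z l).im := im_lin A _
  rw [i]
  exact ⟨y5, y4⟩

/-- The proof of `fund`, then a translation by an integral vector. -/
theorem fund2 : ∃ C : ℝ, ∀ Z ∈ HH, ∃ γ ∈ Gam,
    (∀ l, |(act γ Z l).re| ≤ C) ∧ ∃ Y, NearS (act γ Z) Y := by
  refine ⟨∑ l, ∑ i, |(UU i l : ℝ)|, fun Z hZ => ?_⟩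
  obtain ⟨γ, hγ, Y, hY⟩ := pr1a_near hZ
  set X : Ix → ℝ := fun l => (act γ Z l).re with hX
  have k := nE_mem_Gam (Lam.sum Finset.univ fun i _ => Lam.zsmul (UU_mem i) (-round (yc X i)))
  refine ⟨_ * γ, Gam.mul_mem k hγ, ?_⟩
  rw [act_mul (Gam_le k) (Gam_le hγ) hZ, act_nE]
  refine ⟨fun l => ?_, Y, ?_⟩
  · have e : (act γ Z l).re = ∑ i, yc X i * (UU i l : ℝ) := by
      have := congrFun (pt_yc X) l
      rw [pt, Finset.sum_apply] at this
      exact this.symm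
    have e' : ((act γ Z + toR ℂ (∑ i, ((-round (yc X i) : ℤ) : ℚ) • UU i)) l).re =
        ∑ i, (yc X i - round (yc X i)) * (UU i l : ℝ) := by
      rw [Pi.add_apply, Complex.add_re, e, toR, Complex.ratCast_re, Finset.sum_apply, Rat.cast_sum,
        ← Finset.sum_add_distrib]
      refine Finset.sum_congr rfl fun i _ => ?_
      rw [Pi.smul_apply, smul_eq_mul]
      push_cast
      ring
    rw [e']
    refine ((Finset.abs_sum_le_sum_abs _ _).trans (Finset.sum_le_sum fun i _ => ?_)).trans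
      (Finset.single_le_sum (f := fun l => ∑ i, |(UU i l : ℝ)|)
        (fun _ _ => Finset.sum_nonneg fun _ _ => abs_nonneg _) (Finset.mem_univ l))
    rw [abs_mul]
    exact mul_le_of_le_one_left (abs_nonneg _) ((abs_sub_round _).trans (by norm_num))
  · have i : imv (act γ Z + toR ℂ (∑ i, ((-round (yc X i) : ℤ) : ℚ) • UU i)) = imv (act γ Z) := by
      funext l
      simp only [imv, Pi.add_apply, Complex.add_im, toR, Complex.ratCast_im, add_zero]
    rwa [NearS, i]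

theorem pr1b_add {A D : Ix → ℝ} (hA : A ∈ closure Om) (hD : D ∈ Om) : A + D ∈ Om := by
  obtain ⟨B, h1, h2⟩ := mem_closure_iff.1 hA {B | A + D - B ∈ Om}
    (isOpen_Om.preimage (by fun_prop)) (by simpa using hD)
  simpa using Om.add h1 h2

theorem pr1b_bd {Y : Ix → ℝ} (h : Y ∈ Om) {B : ℝ} (hB : ∀ i, dg Y i ≤ B) (l : Ix) : |Y l| ≤ B := by
  rcases l with i | ⟨i, k⟩
  · exact (abs_of_pos (Om.dg_pos h i)).trans_le (hB i)
  · have h1 : 0 < dg Y (i + 1) * dg Y (i + 2) - onorm (oc Y i) := Om.dg_sharp_pos h i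
    have h2 : oc Y i k ^ 2 ≤ onorm (oc Y i) :=
      Finset.single_le_sum (f := fun k => oc Y i k ^ 2) (fun _ _ => sq_nonneg _) (Finset.mem_univ k)
    have h3 := (Om.dg_pos h 0).le.trans (hB 0)
    exact abs_le_of_sq_le_sq (a := oc Y i k) (by
      nlinarith [mul_le_mul (hB (i + 1)) (hB (i + 2)) (Om.dg_pos h _).le h3]) h3

/-- Bounded height gives a compact set. -/
theorem near_cpt (C L : ℝ) : ∃ K : Set (Ix → ℂ), IsCompact K ∧ K ⊆ HH ∧
    ∀ Z Y, (∀ l, |(Z l).re| ≤ C) → NearS Z Y → dg Y 2 ≤ L → Z ∈ K := by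
  obtain ⟨c, hc, h⟩ := sieg_low
  have h0 : ∀ A : Ix → ℝ, A - (c / 2) • one3 ∈ closure Om → A ∈ Om := fun A hA => by
    simpa using pr1b_add hA (Om.smul one3_mem (half_pos hc))
  refine ⟨Metric.closedBall 0 (C + 144 * L) ∩ {Z | imv Z - (c / 2) • one3 ∈ closure Om},
    (isCompact_closedBall _ _).inter_right (isClosed_closure.preimage (by fun_prop)),
    fun Z hZ => h0 _ hZ.2, fun Z Y h1 ⟨h2, h3, h4, h5⟩ h6 => ?_⟩
  have h7 := Om.smul (Om.add h4 (h Y h2 h3)) one_half_pos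
  rw [sub_add_sub_cancel, smul_sub, smul_smul, smul_smul, one_div_mul_cancel two_ne_zero, one_smul,
    one_div_mul_eq_div] at h7
  refine ⟨mem_closedBall_zero_iff.2 ((pi_norm_le_iff_of_nonempty _).2 fun l =>
    (Complex.norm_le_abs_re_add_abs_im _).trans (add_le_add (h1 l)
      (pr1b_bd (h0 _ (subset_closure h7)) (fun i => ?_) l))), subset_closure h7⟩
  have h8 : 0 < 2 * dg Y i - dg (imv Z) i := Om.dg_pos h5 i
  obtain ⟨d0, d1, d2, u0, u1, u2, a0, a1, a2, -, -, a3, rfl⟩ := h2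
  rw [dg_jac_2] at h6
  have b0 := mul_nonneg (show 0 ≤ d1 by linarith) (onorm_nonneg u0)
  have b1 := mul_nonneg a0.le (onorm_nonneg u1)
  have b2 := mul_le_of_le_one_right a0.le a3
  have h9 : dg (jac d0 d1 d2 u0 u1 u2) i ≤ 72 * L := by
    fin_cases i
    exacts [(dg_jac_0 ..).trans_le (by linarith), (dg_jac_1 ..).trans_le (by linarith),
      (dg_jac_2 ..).trans_le (by linarith)]
  linarith

end Pool.Agent.E7
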