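import Pool.Agent.Lib.MP_7e5527_ag.EF.PR1
import Pool.Agent.Lib.MP_7e5527_ag.EO.DPsd
import Pool.Agent.Lib.MP_7e5527_ag.EO.QOp

/-! Decay of cusp forms, and a form without zeros, on the fundamental set. -/

noncomputable section

namespace Pool.Agent.E7

/-- `GoodC.bound` at `i c one3`, with `sieg_low` and `sieg_dg`. -/
theorem near_decay {B : Fn} (hB : Gd B) (hp : ∀ T, cf B T ≠ 0 → 0 < dg T 2) {η : ℝ}
    (hη : 0 < η) : ∃ L : ℝ, ∀ (Z : HH) Y, NearS Z Y → η ≤ ‖B Z‖ → dg Y 2 ≤ L := by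
  obtain ⟨c, hc, low⟩ := sieg_low
  obtain ⟨S, hS⟩ := hB.spec.bound ⟨(((c / 4 : ℝ) : ℂ) * Complex.I) •
    fun l => ((one3 : Ix → ℝ) l : ℂ), smul_mem_HH one3_mem (by simpa using hc)⟩
  obtain ⟨M, hM0, hM⟩ := hB.spec.supp
  have e : imv ((((c / 4 : ℝ) : ℂ) * Complex.I) • fun l => ((one3 : Ix → ℝ) l : ℂ)) =
      (c / 4) • one3 := by
    funext l
    simp [imv]
  have M0 : (0 : ℝ) < M := by exact_mod_cast hM0
  refine ⟨73 * (M * (S / η)), ?_⟩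
  rintro Z Y ⟨hY, h0, h1, -⟩ hZ
  have h2 := low Y hY h0
  obtain ⟨d0, d1, d2, u0, u1, u2, p0, p1, p2, k0, k1, k2, rfl⟩ := hY
  have q2 : 0 < d2 := by linarith
  have h3 := hS Z (d2 / M / 4) fun T hT => by
    obtain ⟨a0, a1⟩ := hM T hT
    obtain ⟨n, hn⟩ := a0.1 2
    have a2 : (M : ℚ) * dg T 2 = n := hn
    have a3 : (0 : ℚ) < n := a2 ▸ mul_pos (by exact_mod_cast hM0) (hp T hT)
    have a4 : (1 : ℚ) ≤ M * dg T 2 := by
      rw [a2]
      exact_mod_cast (show (1 : ℤ) ≤ n by exact_mod_cast a3)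
    have a5 : (1 : ℝ) ≤ M * (dg T 2 : ℚ) := by exact_mod_cast a4
    have a6 : d2 / M ≤ d2 * (dg T 2 : ℚ) := by
      rw [div_le_iff₀ M0]
      nlinarith
    have a7 := (sieg_dg a1 p0 p1 p2 k0 k1 k2).2.2
    have a8 := a1 _ h1
    have a9 := a1 _ h2
    change _ ≤ tr _ (imv Z - imv ((((c / 4 : ℝ) : ℂ) * Complex.I) •
      fun l => ((one3 : Ix → ℝ) l : ℂ)))
    rw [e]
    simp only [tr_sub_right, tr_smul_right] at a8 a9 ⊢
    linarith
  have h4 := hZ.trans h3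
  rw [Real.exp_neg, le_mul_inv_iff₀ (Real.exp_pos _)] at h4
  have h5 : d2 / M ≤ Real.exp (2 * Real.pi * (d2 / M / 4)) := by
    have h6 := Real.add_one_le_exp (2 * Real.pi * (d2 / M / 4))
    nlinarith [Real.pi_gt_three, div_pos q2 M0]
  have h6 : d2 / M ≤ S / η := by
    rw [le_div_iff₀ hη]
    nlinarith
  rw [div_le_iff₀' M0] at h6
  rw [dg_jac_2]
  nlinarith

theorem pr2b_tr {T : Ix → ℚ} (hL : T ∈ Lam) (hP : Psd T) (h0 : T ≠ 0) :
    1 ≤ tr (toR ℝ T) one3 := by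
  have h1 := hP.pos h0 one3_mem
  rw [tr_toR_one3, psd_tr_one3] at h1 ⊢
  obtain ⟨a, ha⟩ := hL.1 0
  obtain ⟨b, hb⟩ := hL.1 1
  obtain ⟨c, hc⟩ := hL.1 2
  rw [ha, hb, hc] at h1 ⊢
  have h2 : 0 < a + b + c := by exact_mod_cast h1
  exact_mod_cast h2

theorem pr2b_small (S : ℝ) : ∃ L : ℝ, 0 ≤ L ∧ S * Real.exp (-(2 * Real.pi * L)) ≤ 1 / 2 := by
  refine ⟨|S|, abs_nonneg S, ?_⟩
  have h1 := Real.add_one_le_exp (2 * Real.pi * |S|)
  have h2 := mul_le_mul_of_nonneg_right Real.pi_gt_three.le (abs_nonneg S)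
  rw [Real.exp_neg, ← div_eq_mul_inv, div_le_iff₀ (Real.exp_pos _)]
  linarith [le_abs_self S, abs_nonneg S]

/-- `F0 Z = ThF (M • Z)` for a large integer `M`. -/
theorem exists_F0 : ∃ F0 : Fn, MF 4 F0 ∧ ∀ (Z : HH) Y, NearS Z Y → 1 / 2 ≤ ‖F0 Z‖ := by
  obtain ⟨c, hc, hs⟩ := sieg_low
  obtain ⟨S, hS⟩ := (ThF_good.add (GoodC.one.smul (-1))).bound bpt
  obtain ⟨L, hL, hSL⟩ := pr2b_small S
  obtain ⟨M, hM⟩ := exists_rat_gt (2 * (L + 1) / c)
  have hM0 : (0 : ℝ) < M := lt_trans (by positivity) hM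
  have hsim := isSim_scalar (t := M) (by exact_mod_cast hM0)
  obtain ⟨g, hg⟩ := exists_m hsim
  have hG := IsM.mem_GG hsim hg
  refine ⟨sl 4 g ThF, ThF_mf.slash hG, fun Z Y hZ => ?_⟩
  have e : imv (ofC (act g Z)) = (M : ℝ) • imv Z := by
    rw [coe_ofC (act_spec hG Z.2).2.1, hg.act_eq, lin_scalar]
    funext l
    simp [imv]
  have e0 : imv bpt = one3 := by
    funext l
    simp [imv, bpt]
  have h1 := hS (ofC (act g Z)) L fun T hT => by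
    have h0 : T ≠ 0 := by
      rintro rfl
      simp [Kim.kc_zero] at hT
    obtain ⟨hΛ, hP⟩ := Kim.isMF_Th.1 T (by simpa [Pi.single_eq_of_ne h0] using hT)
    have h2 := pr2b_tr hΛ hP h0
    have h3 := hP _ (Om.add hZ.2.2.1 (hs Y hZ.1 hZ.2.1))
    rw [sub_add_sub_cancel, tr_sub_right, tr_smul_right, tr_smul_right] at h3
    rw [e, e0, tr_sub_right, tr_smul_right]
    rw [div_lt_iff₀ hc] at hM
    have h4 := mul_le_mul_of_nonneg_left h3 hM0.le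
    have h5 := mul_le_mul_of_nonneg_right hM.le (zero_le_one.trans h2)
    have h6 := mul_le_mul_of_nonneg_left h2 hL
    nlinarith
  have h2 := norm_sub_norm_le (1 : ℂ) (ThF (ofC (act g Z)))
  rw [norm_sub_rev, norm_one] at h2
  simp only [Pi.add_apply, Pi.smul_apply, Pi.one_apply, smul_eq_mul, mul_one,
    ← sub_eq_add_neg] at h1
  rw [sl, hg.jf_eq, one_zpow, one_mul]
  linarith

end Pool.Agent.E7
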