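import Pool.Agent.Lib.MP_7e5527_ag.EA.AK
import Pool.Agent.Lib.MP_7e5527_ag.EA.AT

/-! Lines, finiteness and normalisation for quotients of power series rings. -/

open MvPowerSeries

noncomputable section

namespace Pool.Agent.E7

variable {σ τ k : Type} [Finite σ] [Finite τ] [Field k]

theorem ra_ext {A S : Type} [CommRing A] [CommRing S] {α β : PS σ A →+* S}
    (hs : ∀ y, (∀ N, y ∈ Ideal.span (Set.range fun i => α (X i)) ^ N) → y = 0)
    (hC : ∀ a, α (C a) = β (C a)) (hX : ∀ i, α (X i) = β (X i)) (f : PS σ A) : α f = β f := by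
  refine sub_eq_zero.1 (hs _ fun N => ?_)
  have h1 := hom_trunc α f N
  have h2 := hom_trunc β f N
  rw [← funext hX, ← show α.comp C = β.comp C from RingHom.ext hC] at h2
  have h3 := Ideal.sub_mem _ h1 h2
  rwa [sub_sub_sub_cancel_right] at h3

omit [Finite σ] in
theorem ra_max {G : PS σ k} : G ∈ IsLocalRing.maximalIdeal (PS σ k) ↔ constantCoeff G = 0 := by
  rw [IsLocalRing.mem_maximalIdeal, mem_nonunits_iff, isUnit_iff_constantCoeff, isUnit_iff_ne_zero,
    not_not]

omit [Finite τ] in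
theorem ra_sep (P : Ideal (PS σ k)) [P.IsPrime] {b : τ → PS σ k} (hb : C0 b) (y : PS σ k ⧸ P)
    (h : ∀ N, y ∈ Ideal.span (Set.range fun i => Ideal.Quotient.mk P (b i)) ^ N) : y = 0 := by
  refine kr (Ideal.span (Set.range fun i => Ideal.Quotient.mk P (b i))) (s := 1) (fun n e => ?_)
    fun n => ⟨0, by rw [pow_zero, one_mul]; exact h n⟩
  rw [one_pow, show (fun i => Ideal.Quotient.mk P (b i)) = Ideal.Quotient.mk P ∘ b from rfl,
    Set.range_comp, ← Ideal.map_span, ← map_one (Ideal.Quotient.mk P),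
    Ideal.mem_quotient_iff_mem_sup] at e
  exact (IsLocalRing.maximalIdeal.isMaximal _).ne_top ((Ideal.eq_top_iff_one _).2
    (sup_le (Ideal.span_le.2 (Set.range_subset_iff.2 fun i => ra_max.2 (hb i)))
      (IsLocalRing.le_maximalIdeal (Ideal.IsPrime.ne_top ‹_›)) e))

/-- The line through `v`. -/
def rln (v : σ → k) : σ → PS Unit k := fun i => C (v i) * X ()

omit [Finite σ] in
theorem rln_c0 (v : σ → k) : C0 (rln v) := fun i => by simp [rln]

/-- A nonzero series does not vanish on all lines. -/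
theorem ra_line [Infinite k] {g : PS σ k} (h : g ≠ 0) : ∃ v : σ → k, sb (rln v) g ≠ 0 := by
  classical
  have hex : ∃ d, ∃ ν : σ →₀ ℕ, ν.degree = d ∧ coeff ν g ≠ 0 := by
    by_contra h1
    exact h (MvPowerSeries.ext fun ν => by_contra fun h2 => h1 ⟨_, ν, rfl, h2⟩)
  obtain ⟨ν0, h0, h1⟩ := Nat.find_spec hex
  set d := Nat.find hex
  set P : MvPolynomial σ k := truncTotal (d + 1) g with hP
  have h2 : P.IsHomogeneous d := fun ν hν => by
    refine (DFunLike.congr_fun Finsupp.degree_eq_weight_one ν).symm.trans ?_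
    by_cases h3 : ν.degree < d + 1
    · rw [hP, coeff_truncTotal _ h3] at hν
      exact le_antisymm (Nat.lt_succ_iff.1 h3) (Nat.find_min' hex ⟨ν, rfl, hν⟩)
    · exact (hν (by rw [hP, coeff_truncTotal_eq_zero _ (not_lt.1 h3)])).elim
  have h3 : P ≠ 0 := fun e => h1 (by
    rw [← coeff_truncTotal g (show ν0.degree < d + 1 by omega), ← hP, e, MvPolynomial.coeff_zero])
  obtain ⟨v, hv⟩ : ∃ v : σ → k, MvPolynomial.eval v P ≠ 0 := by
    by_contra h4
    exact h3 (MvPolynomial.funext fun v => by_contra fun h5 => h4 ⟨v, by simpa using h5⟩)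
  refine ⟨v, fun e => hv ?_⟩
  have h4 := hom_trunc (sb (rln v)) g (d + 1)
  have h5 : MvPolynomial.eval₂ ((sb (rln v)).comp C) (fun i => sb (rln v) (X i)) P =
      C (MvPolynomial.eval v P) * X () ^ d := by
    conv_lhs => rw [P.as_sum]
    rw [MvPolynomial.eval₂_sum, MvPolynomial.eval_eq, map_sum, Finset.sum_mul]
    refine Finset.sum_congr rfl fun ν hν => ?_
    have h6 : ν.degree = d := by
      rw [Finsupp.degree_eq_weight_one]
      exact h2 (MvPolynomial.mem_support_iff.1 hν)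
    rw [MvPolynomial.eval₂_monomial, RingHom.comp_apply, evx_C (rln_c0 v).ev, map_mul, mul_assoc,
      Finsupp.prod, map_prod, ← h6, Finsupp.degree_apply, ← Finset.prod_pow_eq_pow_sum,
      ← Finset.prod_mul_distrib]
    refine congrArg _ (Finset.prod_congr rfl fun i _ => ?_)
    rw [evx_X (rln_c0 v).ev, rln, mul_pow, map_pow]
  rw [e, ← hP, h5, zero_sub, neg_mem_iff] at h4
  have h6 : Ideal.span (Set.range fun i => sb (rln v) (X i)) ≤
      Ideal.span (Set.range (X : Unit → PS Unit k)) :=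
    Ideal.span_le.2 (Set.range_subset_iff.2 fun i => by
      rw [evx_X (rln_c0 v).ev]
      exact Ideal.mul_mem_left _ _ (Ideal.subset_span ⟨(), rfl⟩))
  have h7 := mem_X_pow.1 (Ideal.pow_right_mono h6 _ h4) (Finsupp.single () d) (by simp)
  rwa [coeff_C_mul, X_pow_eq, coeff_monomial_same, mul_one] at h7

/-- Complete Nakayama. -/
theorem ra_fin (P : Ideal (PS σ k)) [P.IsPrime] {l : τ → PS σ k} (h0 : C0 l)
    (h : ∀ i, X i ∈ (P ⊔ Ideal.span (Set.range l)).radical) :
    ((Ideal.Quotient.mk P).comp (sb l)).Finite := by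
  classical
  set ψ := (Ideal.Quotient.mk P).comp (sb l)
  have e1 : ∀ j, ψ (X j) = Ideal.Quotient.mk P (l j) := fun j => congrArg _ (evx_X h0.ev j)
  have e2 : ∀ c, ψ (C c) = Ideal.Quotient.mk P (C c) := fun c => congrArg _ (evx_C h0.ev c)
  obtain ⟨M, hM⟩ := Ideal.exists_pow_le_of_le_radical_of_fg (J := P ⊔ Ideal.span (Set.range l))
    (I := Ideal.span (Set.range X)) (Ideal.span_le.2 (Set.range_subset_iff.2 h))
    (IsNoetherian.noetherian _)
  let _ := ψ.toAlgebra
  let s := (Finsupp.finite_of_degree_lt (σ := σ) M).toFinset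
  let I : Ideal (PS τ k) := Ideal.span (Set.range X)
  have hI : ∀ N, (I ^ N • ⊤ : Submodule (PS τ k) (PS σ k ⧸ P)) =
      (Ideal.span (Set.range fun j => Ideal.Quotient.mk P (l j)) ^ N).restrictScalars _ :=
    fun N => by
      rw [Ideal.smul_top_eq_map, Ideal.map_pow, Ideal.map_span, ← Set.range_comp, ← funext e1]
      rfl
  have : IsHausdorff I (PS σ k ⧸ P) := ⟨fun y hy => ra_sep P h0 y fun N => by
    have h1 := hy N
    rwa [SModEq.zero, hI] at h1⟩
  have : IsPrecomplete I (s → PS τ k) := ⟨fun f hf => by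
    choose y hy using fun ν : s => IsPrecomplete.prec' (I := I) (fun n => f n ν) fun {m n} hmn =>
      SModEq.sub_mem.2 (by
        have h1 := Submodule.mem_map_of_mem (f := LinearMap.proj (R := PS τ k)
          (φ := fun _ : s => PS τ k) ν) (SModEq.sub_mem.1 (hf hmn))
        rw [Submodule.map_smul''] at h1
        exact Submodule.smul_mono le_rfl le_top h1)
    refine ⟨y, fun n => SModEq.sub_mem.2 ?_⟩
    rw [← Finset.univ_sum_single (f n - y)]
    refine sum_mem fun ν _ => ?_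
    have h1 := Submodule.mem_map_of_mem (f := LinearMap.single (PS τ k) (fun _ : s => PS τ k) ν)
      (SModEq.sub_mem.1 (hy ν n))
    rw [Submodule.map_smul''] at h1
    exact Submodule.smul_mono le_rfl le_top h1⟩
  let F : (s → PS τ k) →ₗ[PS τ k] PS σ k ⧸ P :=
    Fintype.linearCombination _ fun ν => Ideal.Quotient.mk P (monomial ν.1 1)
  refine Module.Finite.of_surjective F (surjective_of_mkQ_comp_surjective (I := I) fun y => ?_)
  obtain ⟨y, rfl⟩ := Submodule.mkQ_surjective _ y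
  obtain ⟨f, rfl⟩ := Ideal.Quotient.mk_surjective y
  refine ⟨fun ν => C (coeff ν.1 f), (Submodule.Quotient.eq _).2 ?_⟩
  have h1 := hI 1
  rw [pow_one] at h1
  rw [h1, Submodule.restrictScalars_mem, Submodule.pow_one, Fintype.linearCombination_apply]
  simp only [Algebra.smul_def, RingHom.algebraMap_toAlgebra, e2, ← map_mul, ← map_sum, ← map_sub]
  rw [show (fun j => Ideal.Quotient.mk P (l j)) = Ideal.Quotient.mk P ∘ l from rfl,
    Set.range_comp, ← Ideal.map_span, Ideal.mem_quotient_iff_mem_sup, sup_comm]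
  refine hM (mem_X_pow.2 fun ν hν => ?_)
  rw [Finset.sum_coe_sort s fun ν => C (coeff ν f) * monomial ν 1]
  simp [coeff_monomial, hν, s]

theorem ra_drop [Infinite k] (P : Ideal (PS σ k)) [P.IsPrime] {n : ℕ} {l : Fin (n + 1) → PS σ k}
    (h0 : C0 l) {g : PS (Fin (n + 1)) k} (hg : g ≠ 0) (h : sb l g ∈ P) : ∃ c : Fin n → k,
      P ⊔ Ideal.span (Set.range l) ≤
        (P ⊔ Ideal.span (Set.range fun j => l j.succ - C (c j) * l 0)).radical := by
  obtain ⟨v, hv⟩ := ra_line (mul_ne_zero hg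
    (nonZeroDivisors.ne_zero (X_mem_nonzeroDivisors (i := 0))))
  rw [map_mul, evx_X (rln_c0 v).ev] at hv
  have v0 : v 0 ≠ 0 := fun e => right_ne_zero_of_mul hv (by simp [rln, e])
  refine ⟨fun j => v j.succ / v 0, ?_⟩
  rw [Ideal.radical_eq_sInf]
  refine le_sInf fun Q ⟨hQ, _⟩ => ?_
  have hu : C0 fun _ : Unit => C (v 0)⁻¹ * l 0 := fun _ => by simp [h0 0]
  have h1 : ∀ j : Fin n, l j.succ - C (v j.succ / v 0) * l 0 ∈ Q := fun j =>
    hQ (Ideal.mem_sup_right (Ideal.subset_span ⟨j, rfl⟩))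
  have h2 := ra_ext (α := (Ideal.Quotient.mk Q).comp (sb l))
    (β := ((Ideal.Quotient.mk Q).comp (sb fun _ : Unit => C (v 0)⁻¹ * l 0)).comp (sb (rln v)))
    (fun y hy => ra_sep Q h0 y (by simpa only [RingHom.comp_apply, evx_X h0.ev] using hy))
    (fun a => by simp only [RingHom.comp_apply, evx_C h0.ev, evx_C hu.ev, evx_C (rln_c0 v).ev])
    (fun i => by
      simp only [RingHom.comp_apply, evx_X h0.ev, evx_X (rln_c0 v).ev]
      rw [rln, map_mul, evx_C hu.ev, evx_X hu.ev, Ideal.Quotient.eq, ← mul_assoc, ← map_mul,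
        ← div_eq_mul_inv]
      refine Fin.cases ?_ h1 i
      rw [div_self v0, map_one, one_mul, sub_self]
      exact zero_mem _) g
  obtain ⟨d, hd⟩ := IsDiscreteValuationRing.associated_pow_irreducible (R := PowerSeries k)
    (left_ne_zero_of_mul hv) PowerSeries.X_irreducible
  have h3 : Associated (((Ideal.Quotient.mk Q).comp (sb fun _ : Unit => C (v 0)⁻¹ * l 0))
      (sb (rln v) g)) (((Ideal.Quotient.mk Q).comp (sb fun _ : Unit => C (v 0)⁻¹ * l 0))
        (X () ^ d)) := hd.map _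
  rw [RingHom.comp_apply, RingHom.comp_apply _ (sb (rln v)),
    Ideal.Quotient.eq_zero_iff_mem.2 (hQ (Ideal.mem_sup_left h))] at h2
  rw [← h2, map_pow, RingHom.comp_apply, evx_X hu.ev] at h3
  have h4 := Ideal.Quotient.eq_zero_iff_mem.1
    (pow_eq_zero_iff' .. |>.1 ((associated_zero_iff_eq_zero _).1 h3.symm)).1
  have h5 : l 0 ∈ Q := by
    have h6 := Q.mul_mem_left (C (v 0)) h4
    rwa [← mul_assoc, ← map_mul, mul_inv_cancel₀ v0, map_one, one_mul] at h6
  refine sup_le (le_sup_left.trans hQ) (Ideal.span_le.2 (Set.range_subset_iff.2 fun i => ?_))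
  refine Fin.cases h5 (fun j => ?_) i
  simpa using add_mem (h1 j) (Q.mul_mem_left (C (v j.succ / v 0)) h5)

/-- Normalisation by elements of a given subspace. -/
theorem ra_norm [Infinite k] (P : Ideal (PS σ k)) [P.IsPrime] (W : Subalgebra k (PS σ k))
    {x : τ → PS σ k} (h0 : C0 x) (hW : ∀ j, x j ∈ W)
    (hx : ∀ i, X i ∈ (Ideal.span (Set.range x)).radical) :
    ∃ (n : ℕ) (l : Fin n → PS σ k), C0 l ∧ (∀ j, l j ∈ W) ∧
      (∀ i, X i ∈ (P ⊔ Ideal.span (Set.range l)).radical) ∧ ∀ g, sb l g ∈ P → g = 0 := by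
  classical
  have hex : ∃ n, ∃ l : Fin n → PS σ k, C0 l ∧ (∀ j, l j ∈ W) ∧
      ∀ i, X i ∈ (P ⊔ Ideal.span (Set.range l)).radical := by
    obtain ⟨n, ⟨e⟩⟩ := Finite.exists_equiv_fin τ
    refine ⟨n, x ∘ e.symm, fun j => h0 _, fun j => hW _, fun i => ?_⟩
    rw [e.symm.surjective.range_comp]
    exact Ideal.radical_mono le_sup_right (hx i)
  obtain ⟨l, h1, h2, h3⟩ := Nat.find_spec hex
  have hm := fun m => Nat.find_min hex (m := m)
  generalize Nat.find hex = n at l h1 h2 h3 hm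
  refine ⟨n, l, h1, h2, h3, fun g hg => by_contra fun g0 => ?_⟩
  rcases n with _ | n
  · have h4 := ra_max.1 (IsLocalRing.le_maximalIdeal (Ideal.IsPrime.ne_top ‹_›) hg)
    rw [const_sb h1] at h4
    exact g0 (MvPowerSeries.ext fun ν => by
      rw [Subsingleton.elim ν 0, coeff_zero_eq_constantCoeff_apply, h4, map_zero])
  · obtain ⟨c, hc⟩ := ra_drop P h1 g0 hg
    exact hm n n.lt_succ_self ⟨_, fun j => by simp [h1 _], fun j =>
      sub_mem (h2 _) (mul_mem (W.algebraMap_mem _) (h2 0)), fun i =>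
        Ideal.radical_le_radical_iff.2 hc (h3 i)⟩

end Pool.Agent.E7
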