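import Pool.Agent.Lib.MP_7e5527_ag.EF.RA
import Pool.Agent.Lib.MP_7e5527_ag.EA.SA
import Pool.Agent.Lib.MP_7e5527_ag.EA.VL
import Pool.Agent.Lib.MP_7e5527_ag.EA.HGen

/-! The coordinates are algebraic on a branch of a variety. -/

open MvPowerSeries

noncomputable section

namespace Pool.Agent.E7

variable {I τ k L : Type} [Fintype I] [DecidableEq I] [Field k] [CharZero k]

theorem rb_min {A S : Type} [CommRing A] [IsAddTorsionFree A] [CommRing S] (ψ : A →+* S)
    (hi : ∀ a, ψ a = 0 → a = 0) {v : S} {P : Polynomial A} (h0 : P ≠ 0) (h1 : P.eval₂ ψ v = 0) :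
    ∃ Q : Polynomial A, Q.eval₂ ψ v = 0 ∧ Q.derivative.eval₂ ψ v ≠ 0 := by
  induction hn : P.natDegree using Nat.strong_induction_on generalizing P with
  | _ n ih =>
    by_cases h2 : P.derivative.eval₂ ψ v = 0
    swap
    · exact ⟨P, h1, h2⟩
    have h3 : P.natDegree ≠ 0 := fun e => by
      rw [Polynomial.eq_C_of_natDegree_eq_zero e, Polynomial.eval₂_C] at h1
      rw [Polynomial.eq_C_of_natDegree_eq_zero e, hi _ h1] at h0
      exact h0 (map_zero _)
    exact ih _ (hn ▸ Polynomial.natDegree_derivative_lt h3)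
      (fun e => h3 (Polynomial.derivative_eq_zero.1 e)) h2 rfl

theorem rb_sum {R A M ι : Type} [CommRing R] [CommRing A] [Algebra R A] [AddCommGroup M]
    [Module R M] [Module A M] (s : Finset ι) (D : ι → Derivation R A M) (a : A) :
    (∑ i ∈ s, D i) a = ∑ i ∈ s, D i a := by
  classical
  induction s using Finset.induction_on with
  | empty => simp
  | insert i s hi ih => rw [Finset.sum_insert hi, Finset.sum_insert hi, Derivation.add_apply, ih]

omit [CharZero k] in
/-- Vector fields with given values on the coordinates. -/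
theorem rb_vec {S : Type} [CommRing S] (φ : PS I k →+* S) {x : I → PS I k}
    (hJ : IsUnit (jacS x).det) (u : I → S) :
    ∃ w : I → S, ∀ j, ∑ q, φ (pderiv k q (x j)) * w q = u j := by
  have h1 : IsUnit (φ.mapMatrix (jacS x)) :=
    ((Matrix.isUnit_iff_isUnit_det _).2 hJ).map φ.mapMatrix
  obtain ⟨w, hw⟩ := Matrix.mulVec_surjective_iff_isUnit.2 h1 u
  exact ⟨w, fun j => congrFun hw j⟩

/-- Algebraic series stay algebraic under every specialisation. -/
theorem rb_vl {S : Type} [CommRing S] [IsDomain S] [Algebra k S] (φ : PS I k →+* S)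
    (hφ : ∀ c, φ (C c) = algebraMap k S c) {x : I → PS I k} (hJ : IsUnit (jacS x).det)
    {f : PS I k} (hf : f ∈ algS k x) : φ f ∈ algS k fun q => φ (x q) := by
  obtain ⟨P, h1, h2⟩ := ad1_poly.1 hf
  have hP : P ≠ 0 := fun e => h1 (by rw [e, Polynomial.map_zero])
  choose w hw using fun j => rb_vec (RingHom.id _) hJ (Pi.single j 1)
  let D : I → Derivation k (PS I k) (PS I k) := fun j => ∑ q, w j q • pderiv k q
  have hD : DC (C : k →+* PS I k) x fun j => (D j).toLinearMap.toAddMonoidHom :=
    ⟨fun j a b => (D j).leibniz a b, fun j t => (D j).map_algebraMap t, fun j l => by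
      rw [← Pi.single_apply, ← hw j l]
      change D j (x l) = _
      simp [D, rb_sum, mul_comm]⟩
  have e : ∀ a, φ (MvPolynomial.eval₂Hom C x a) = MvPolynomial.aeval (fun q => φ (x q)) a :=
    fun a => by
      rw [MvPolynomial.map_eval₂Hom, show φ.comp C = algebraMap k S from RingHom.ext hφ]
      rfl
  let q := RingHom.ker (MvPolynomial.aeval (R := k) fun q => φ (x q)).toRingHom
  have hq : ∀ t, MvPolynomial.C t ∈ q → t = 0 := fun t ht =>
    (algebraMap k S).injective (((MvPolynomial.aeval_C _ t).symm.trans ht).trans (map_zero _).symm)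
  have h3 : ∃ N, ∃ i ∈ Finset.range (P.natDegree + 1), P.coeff i ∉ vlD q N := by
    by_contra! h
    exact hP (Polynomial.leadingCoeff_eq_zero.1 (vlD_zero hq (P.leadingCoeff.totalDegree + 1) _
      (fun N => h N _ (Finset.self_mem_range_succ _)) fun ν hν =>
        MvPolynomial.coeff_eq_zero_of_totalDegree_lt hν))
  classical
  obtain ⟨N, hN⟩ := Nat.exists_eq_succ_of_ne_zero (n := Nat.find h3) fun e => by
    obtain ⟨i, -, hi⟩ := Nat.find_spec h3
    exact hi (e ▸ trivial)
  obtain ⟨a, ⟨i, hi, h4⟩, h5⟩ := vl_step (q := q) (Finset.range (P.natDegree + 1)) N P.coeff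
    (fun i hi => not_not.1 fun e => Nat.find_min h3 (hN ▸ N.lt_succ_self) ⟨i, hi, e⟩)
    (by simpa only [hN] using Nat.find_spec h3)
  have h6 := h5 _ C x _ (fun i => f ^ i) hD (by
    rw [← Polynomial.eval₂_eq_sum_range]
    exact (show P.eval₂ (MvPolynomial.eval₂Hom C x) f = 0 from h2) ▸ zero_mem _)
  have h7 : q.map (MvPolynomial.eval₂Hom C x) ≤ RingHom.ker φ :=
    Ideal.map_le_iff_le_comap.2 fun b hb => (e b).trans hb
  refine algS_root (P := ∑ i ∈ Finset.range (P.natDegree + 1), Polynomial.monomial i (a i))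
    (fun h8 => h4 ?_) ?_
  · have h9 := congrArg (·.coeff i) h8
    simp only [Polynomial.coeff_map, Polynomial.finset_sum_coeff, Polynomial.coeff_monomial,
      Finset.sum_ite_eq', if_pos hi, Polynomial.coeff_zero] at h9
    exact h9
  · have h9 : φ _ = 0 := h7 h6
    rw [Polynomial.eval₂_finset_sum, ← h9, map_sum]
    exact Finset.sum_congr rfl fun i _ => by
      rw [Polynomial.eval₂_monomial, map_mul, map_pow, e]
      rfl

variable [Field L] [Algebra k L] [Fintype τ]

theorem rb_alg (φ : PS I k →+* L) (hφ : ∀ c, φ (C c) = algebraMap k L c) {x : I → PS I k}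
    (hJ : IsUnit (jacS x).det)
    (hc : Con φ Set.univ ≤ Con φ (Algebra.adjoin k (Set.range x))) {l : τ → PS I k} (h0 : C0 l)
    (hl : ∀ j, l j ∈ Algebra.adjoin k (Set.range x)) (hi : ∀ g, φ (sb l g) = 0 → g = 0)
    (ha : ∀ f, (φ.comp (sb l)).IsIntegralElem (φ f)) (q : I) :
    φ (x q) ∈ algS k fun j => φ (l j) := by
  refine alg_of_der fun D hD => ?_
  obtain ⟨w, hw⟩ := rb_vec φ hJ fun j => D (φ (x j))
  let _ := φ.toAlgebra
  have : IsScalarTower k (PS I k) L := IsScalarTower.of_algebraMap_eq fun c => (hφ c).symm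
  let E : Derivation k (PS I k) L :=
    ∑ q, w q • (Algebra.linearMap (PS I k) L).compDer (pderiv k q)
  have hE : ∀ f, E f = ∑ q, φ (pderiv k q f) * w q := fun f => by
    simp only [E, rb_sum, Derivation.smul_apply, smul_eq_mul, mul_comm (w _)]
    rfl
  have hm : ∀ f g, E (f * g) = φ f * E g + φ g * E f := fun f g => E.leibniz f g
  have h1 : ∀ g ∈ Algebra.adjoin k (Set.range x), E g = D (φ g) := fun g hg => by
    induction hg using Algebra.adjoin_induction with
    | mem y hy =>
      obtain ⟨j, rfl⟩ := hy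
      rw [hE, hw]
    | algebraMap c =>
      rw [E.map_algebraMap, show φ (algebraMap k _ c) = _ from hφ c, D.map_algebraMap]
    | add y z _ _ hy hz => rw [map_add, map_add, map_add, hy, hz]
    | mul y z _ _ hy hz => rw [hm, map_mul, D.leibniz, hy, hz, smul_eq_mul, smul_eq_mul]
  have h2 : ∀ f, φ f = 0 → E f = 0 := fun f hf => by
    have h3 : Con φ (Algebra.adjoin k (Set.range x)) ≤
        LinearMap.ker (Fintype.linearCombination L w) := Submodule.span_le.2 (by
      rintro _ ⟨g, g1, g2, rfl⟩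
      have h4 := h1 g g1
      rw [g2, map_zero, hE] at h4
      exact h4)
    rw [hE]
    exact h3 (hc (Submodule.subset_span ⟨f, trivial, hf, rfl⟩))
  have h3 : ∀ g, E (sb l g) = 0 := fun g => by
    rw [hE]
    simp only [pderiv_sb h0, map_sum, map_mul, Finset.sum_mul, mul_assoc]
    rw [Finset.sum_comm]
    refine Finset.sum_eq_zero fun j _ => ?_
    rw [← Finset.mul_sum, ← hE, h1 _ (hl j), hD, mul_zero]
  have h4 : ∀ (f : PS I k) (Q : Polynomial (PS τ k)),
      E (Q.eval₂ (sb l) f) = φ (Q.derivative.eval₂ (sb l) f) * E f := fun f Q => by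
    induction Q using Polynomial.induction_on' with
    | add p r hp hr => simp only [map_add, Polynomial.eval₂_add, hp, hr, add_mul]
    | monomial n a =>
      rw [Polynomial.derivative_monomial, Polynomial.eval₂_monomial, Polynomial.eval₂_monomial,
        hm, h3, E.leibniz_pow, nsmul_eq_mul, Algebra.smul_def, RingHom.algebraMap_toAlgebra]
      simp only [map_mul, map_natCast]
      ring
  have : CharZero (PS τ k) := charZero_of_injective_algebraMap (algebraMap k _).injective
  obtain ⟨P, p1, p2⟩ := ha (x q)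
  obtain ⟨Q, q1, q2⟩ := rb_min (φ.comp (sb l)) hi p1.ne_zero p2
  rw [← Polynomial.hom_eval₂] at q1 q2
  have h5 := h2 _ q1
  rw [h4] at h5
  rw [← hw, ← hE]
  exact (mul_eq_zero.1 h5).resolve_left q2

end Pool.Agent.E7
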