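import Pool.Agent.Lib.MP_7e5527_ag.EF.RB

/-! Algebraic arcs in a branch of a variety. -/

open MvPowerSeries

noncomputable section

namespace Pool.Agent.E7

variable {k : Type} [Field k] [IsAlgClosed k] [CharZero k]

omit [IsAlgClosed k] [CharZero k] in
theorem rc_jac {u : PS Unit k} (h : constantCoeff (pderiv k () u) ≠ 0) :
    IsUnit (jacS fun _ : Unit => u).det := by
  rw [Matrix.det_unique, isUnit_iff_constantCoeff, isUnit_iff_ne_zero]
  exact h

/-- A change of the parameter makes a series a power of the variable. -/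
theorem rc_root {u : PS Unit k} (h : u ≠ 0) (h0 : constantCoeff u = 0) :
    ∃ (e : ℕ) (η : PS Unit k →+* PS Unit k), e ≠ 0 ∧ Function.Injective η ∧ (∀ c, η (C c) = C c) ∧
      η u = X () ^ e := by
  obtain ⟨e, he⟩ := IsDiscreteValuationRing.associated_pow_irreducible (R := PowerSeries k) h
    PowerSeries.X_irreducible
  obtain ⟨t, ht⟩ : Associated (X () ^ e : PS Unit k) u := he.symm
  have t0 : constantCoeff t.1 ≠ 0 := (isUnit_iff_constantCoeff.1 t.isUnit).ne_zero
  have e0 : e ≠ 0 := fun e1 => t0 (by rw [← h0, ← ht, e1, pow_zero, one_mul])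
  obtain ⟨a, ha⟩ := IsAlgClosed.exists_pow_nat_eq (constantCoeff t.1) (Nat.pos_of_ne_zero e0)
  have a0 : a ≠ 0 := fun e1 => t0 (by rw [← ha, e1, zero_pow e0])
  have h1 : C0 fun _ : Unit => t.1 - C (constantCoeff ((C a + X () : PS Unit k) ^ e)) :=
    fun _ => by simp [ha]
  obtain ⟨r, r1, r2, r3⟩ := evx_surj (x := fun _ : Unit => (C a + X ()) ^ e)
    (rc_jac (by simp [Derivation.leibniz_pow, e0, a0])) C (z := fun _ => t.1) h1.ev
  have r4 : constantCoeff (r ()) = 0 := ra_max.1 ((Ideal.span_le.2 (Set.range_subset_iff.2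
    fun i => ra_max.2 (h1 i))) (r3 ()))
  have r5 := r2 ()
  rw [map_pow, map_add, evx_C r1, evx_X r1] at r5
  have h2 : C0 fun _ : Unit => X () * (C a + r ()) := fun _ => by simp
  obtain ⟨β, b1, b2, b3⟩ := exists_inv h2 (rc_jac (by simp [Derivation.leibniz, r4, a0]))
  refine ⟨e, sb β, e0, Function.LeftInverse.injective (g := sb fun _ : Unit => X () * (C a + r ()))
    fun f => ?_, evx_C b1.ev, ?_⟩
  · rw [evx_sb h2.ev b1.ev (h2.ev.evx b1), funext b3, sb_X]
  · rw [← ht, ← r5, ← mul_pow, map_pow, b2 ()]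

/-- A finite extension of a power series ring has a point over a general line. -/
theorem rc_pt {B : Type} [CommRing B] [IsDomain B] {n : ℕ} (ψ : PS (Fin (n + 1)) k →+* B)
    (hi : Function.Injective ψ) (hf : ψ.Finite) {b : B} (hb : b ≠ 0) :
    ∃ (ρ : B →+* PS Unit k) (e : ℕ) (v : Fin (n + 1) → k), e ≠ 0 ∧ ρ b ≠ 0 ∧
      (∀ c, ρ (ψ (C c)) = C c) ∧ ∀ j, ρ (ψ (X j)) = C (v j) * X () ^ e := by
  let _ := ψ.toAlgebra
  have : Module.Finite (PS (Fin (n + 1)) k) B := hf
  obtain ⟨N, N0, hN⟩ := (Algebra.IsIntegral.isIntegral (R := PS (Fin (n + 1)) k)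
    b).isAlgebraic.exists_nonzero_dvd (mem_nonZeroDivisors_of_ne_zero hb)
  obtain ⟨v, hv⟩ := ra_line (mul_ne_zero N0
    (nonZeroDivisors.ne_zero (X_mem_nonzeroDivisors (i := 0))))
  have hl := (rln_c0 v).ev
  rw [map_mul, evx_X hl] at hv
  have v0 : v 0 ≠ 0 := fun e => right_ne_zero_of_mul hv (by simp [rln, e])
  have := RingHom.ker_isPrime (sb (rln v))
  obtain ⟨Q, _, hQ⟩ := Ideal.exists_ideal_over_prime_of_isIntegral_of_isDomain (S := B)
    (RingHom.ker (sb (rln v))) (((RingHom.injective_iff_ker_eq_bot _).1 hi).trans_le bot_le)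
  have h1 : ∀ f, Ideal.Quotient.mk Q (ψ f) = 0 ↔ sb (rln v) f = 0 := fun f => by
    rw [Ideal.Quotient.eq_zero_iff_mem, ← RingHom.mem_ker, ← hQ]
    rfl
  have hu : C0 fun _ : Unit => (C (v 0)⁻¹ * X 0 : PS (Fin (n + 1)) k) := fun _ => by simp
  set s := sb fun _ : Unit => (C (v 0)⁻¹ * X 0 : PS (Fin (n + 1)) k) with hs
  have h2 : ∀ f, sb (rln v) (s f) = f := fun f => by
    rw [hs, evx_sb hl hu.ev (hl.evx hu)]
    simp only [map_mul, evx_C hl, evx_X hl, rln, ← mul_assoc, ← map_mul C, inv_mul_cancel₀ v0,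
      map_one, one_mul]
    exact sb_X f
  let χ := ((Ideal.Quotient.mk Q).comp ψ).comp s
  have h3 : ∀ f, Ideal.Quotient.mk Q (ψ f) = χ (sb (rln v) f) := fun f => by
    change _ = Ideal.Quotient.mk Q (ψ _)
    rw [← sub_eq_zero, ← map_sub, ← map_sub, h1, map_sub, h2, sub_self]
  obtain ⟨V, _, _, g, w, hg, w0, w1, ⟨z, w2⟩, w3, w4⟩ := exists_dvr χ
    ((injective_iff_map_eq_zero _).2 fun f e => (h2 f).symm.trans ((h1 _).1 e))
    (RingHom.Finite.of_comp_finite (f := sb (rln v)) (RingHom.ext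
      (f := (Ideal.Quotient.mk Q).comp ψ) (g := χ.comp (sb (rln v))) h3 ▸
        (RingHom.Finite.of_surjective _ Ideal.Quotient.mk_surjective).comp hf))
  obtain ⟨ε, hε, e1, e2⟩ := dvr_expand (g.comp (χ.comp C)) w0 w1 w3 w4
  have h4 : ∀ f, ε (g (χ f)) = 0 → f = 0 := fun f e => by
    rw [map_eq_zero_iff ε hε, map_eq_zero_iff g hg] at e
    exact (h2 f).symm.trans ((h1 _).1 e)
  obtain ⟨e, η, e0, η1, η2, η3⟩ := rc_root (u := ε (g (χ (X ()))))
    (fun e => nonZeroDivisors.ne_zero X_mem_nonzeroDivisors (h4 _ e)) (by simp [w2, e1])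
  refine ⟨η.comp (ε.comp (g.comp (Ideal.Quotient.mk Q))), e, v, e0, fun h5 => ?_, fun c => ?_,
    fun j => ?_⟩
  · have h6 := map_dvd (η.comp (ε.comp (g.comp (Ideal.Quotient.mk Q)))) hN
    rw [h5, zero_dvd_iff] at h6
    refine left_ne_zero_of_mul hv (h4 _ ((map_eq_zero_iff η η1).1 ?_))
    rw [← h3]
    exact h6
  · change η (ε (g (Ideal.Quotient.mk Q _))) = _
    rw [h3, evx_C hl]
    exact (congrArg η (e2 c)).trans (η2 c)
  · change η (ε (g (Ideal.Quotient.mk Q _))) = _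
    rw [h3, evx_X hl, rln, map_mul, map_mul, map_mul, map_mul, η3]
    exact congrArg (· * _) ((congrArg η (e2 _)).trans (η2 _))

variable {I L A J : Type} [Fintype I] [DecidableEq I] [Field L] [Fintype A] [Finite J]

/-- An algebraic arc in a branch: it keeps all linear relations with the algebraic coefficients
`c`, and finitely many non-relations. -/
theorem arc_alg (φ : PS I k →+* L) {x : I → PS I k} (hJ : IsUnit (jacS x).det)
    (hX : ∃ q, φ (X q) ≠ 0) (hc : Con φ Set.univ ≤ Con φ (Algebra.adjoin k (Set.range x)))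
    (c : A → L)
    (ha : ∀ a, IsAlgebraic ((Algebra.adjoin k (Set.range x)).toSubring.map φ) (c a))
    (g0 : J → PS I k) (g : J → A → PS I k) (hg : ∀ j, φ (g0 j) + ∑ a, c a * φ (g j a) ≠ 0) :
    ∃ (y : I → PS Unit k) (d : PS Unit k) (c' : A → PS Unit k), C0 y ∧ d ≠ 0 ∧
      (∀ (f0 : PS I k) (f : A → PS I k), φ f0 + ∑ a, c a * φ (f a) = 0 →
        d * sb y f0 + ∑ a, c' a * sb y (f a) = 0) ∧
      (∀ j, d * sb y (g0 j) + ∑ a, c' a * sb y (g j a) ≠ 0) ∧
      (∀ f ∈ algS k x, sb y f ∈ algS k fun _ : Unit => (X () : PS Unit k)) ∧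
      d ∈ algS k (fun _ : Unit => (X () : PS Unit k)) ∧
      ∀ a, c' a ∈ algS k fun _ : Unit => (X () : PS Unit k) := by
  classical
  let _ : Algebra k L := (φ.comp C).toAlgebra
  have hφ : ∀ t, φ (C t) = algebraMap k L t := fun _ => rfl
  have := RingHom.ker_isPrime φ
  obtain ⟨x', β, x0, b0, x1, -, x2⟩ := at2_inv hJ
  obtain ⟨n, l, l0, l1, l2, l3⟩ := ra_norm (RingHom.ker φ) (Algebra.adjoin k (Set.range x)) x0
    (fun j => x1 j ▸ sub_mem (Algebra.subset_adjoin ⟨j, rfl⟩) (Subalgebra.algebraMap_mem _ _))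
    fun i => Ideal.le_radical (by simpa [x2, b0 i] using evx_sub_const (φ := C) x0.ev (β i))
  rcases n with _ | n
  · obtain ⟨q, hq⟩ := hX
    have h1 := l2 q
    rw [Set.range_eq_empty, Ideal.span_empty, sup_bot_eq, this.radical] at h1
    exact (hq h1).elim
  have hf := ra_fin _ l0 l2
  have h1 := rb_alg φ hφ hJ hc l0 l1 l3 fun f => by
    have h2 := (hf.to_isIntegral (Ideal.Quotient.mk _ f)).map φ.kerLift
    rwa [← RingHom.comp_assoc, RingHom.kerLift_mk, show φ.kerLift.comp (Ideal.Quotient.mk _) = φ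
      from RingHom.ext φ.kerLift_mk] at h2
  have h2 : ∀ i, Sum.elim (fun q => φ (x q)) c i ∈ algS k fun j => φ (l j) := by
    rintro (q | a)
    · exact h1 q
    refine algS_le h1 (mem_algS.2 ((ha a).ringHom_of_comp_eq (Subring.inclusion
      (T := (Algebra.adjoin k (Set.range fun q => φ (x q))).toSubring) ?_) (RingHom.id L)
      (Subring.inclusion_injective _) rfl))
    rintro _ ⟨u, hu, rfl⟩
    obtain ⟨p, rfl⟩ := (Algebra.adjoin_range_eq_range_aeval k x).le hu
    refine (Algebra.adjoin_range_eq_range_aeval k _).ge ⟨p, ?_⟩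
    exact (MvPolynomial.map_aeval x φ p).symm
  let χ := (MvPolynomial.aeval (R := k) fun j => φ (l j)).toRingHom
  have h3 : χ = φ.comp ((sb l).comp MvPolynomial.coeToMvPowerSeries.ringHom) :=
    MvPolynomial.ringHom_ext (fun t => by simp [χ, evx_C l0.ev, hφ]) fun j => by
      simp [χ, evx_X l0.ev]
  let _ := χ.toAlgebra
  choose r r0 r1 using fun i => IsAlgebraic.exists_integral_multiple
    (R := MvPolynomial (Fin (n + 1)) k) (z := Sum.elim (fun q => φ (x q)) c i) (by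
      obtain ⟨P, p1, p2⟩ := ad1_poly.1 (h2 i)
      exact ⟨P, fun e => p1 (by rw [e, Polynomial.map_zero]), p2⟩)
  set δ := ∏ i, r i
  have h4 : ∀ i, χ.IsIntegralElem (χ δ * Sum.elim (fun q => φ (x q)) c i) := fun i => by
    have h5 := (r1 i).smul (∏ j ∈ Finset.univ.erase i, r j)
    rwa [← mul_smul, Finset.prod_erase_mul _ _ (Finset.mem_univ i)] at h5
  let _ := φ.toAlgebra
  let B := Algebra.adjoin (PS I k) (Set.range fun a => χ δ * c a)
  have : Module.Finite (PS I k) B := Algebra.finite_adjoin_of_finite_of_isIntegral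
    (Set.finite_range _) (by
      rintro _ ⟨a, rfl⟩
      have h5 := h4 (.inr a)
      nth_rw 1 [h3] at h5
      exact h5.of_comp)
  let ι := algebraMap (PS I k) B
  have hι : ∀ f, (ι f : L) = φ f := fun _ => rfl
  let ι' := Ideal.Quotient.lift (RingHom.ker φ) ι fun f hf => Subtype.ext hf
  let z : A → B := fun a => ⟨χ δ * c a, Algebra.subset_adjoin ⟨a, rfl⟩⟩
  let ψ := ι.comp (sb l)
  have hψ : ∀ p : MvPolynomial (Fin (n + 1)) k, (ψ p : L) = χ p := fun p => by rw [h3]; rfl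
  have h5 : Function.Injective ψ :=
    (injective_iff_map_eq_zero _).2 fun f e => l3 f (congrArg Subtype.val e)
  have d0 : ψ δ ≠ 0 := (map_ne_zero_iff ψ h5).2 fun e =>
    Finset.prod_ne_zero_iff.2 (fun i _ => r0 i) (MvPolynomial.coe_eq_zero_iff.1 e)
  have h6 : ∀ (f0 : PS I k) (f : A → PS I k), ψ δ * ι f0 + ∑ a, z a * ι (f a) = 0 ↔
      φ f0 + ∑ a, c a * φ (f a) = 0 := fun f0 f => by
    rw [← mul_eq_zero_iff_left (fun e => d0 (Subtype.ext ((hψ δ).trans e)) : χ δ ≠ 0),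
      Subtype.ext_iff]
    simp only [AddMemClass.coe_add, MulMemClass.coe_mul, AddSubmonoidClass.coe_finsetSum, hψ, hι, z,
      mul_add, Finset.mul_sum, mul_assoc, ZeroMemClass.coe_zero]
  have := Fintype.ofFinite J
  obtain ⟨ρ, e, v, e0, ρ0, ρ1, ρ2⟩ := rc_pt ψ h5
    ((RingHom.Finite.of_comp_finite (f := Ideal.Quotient.mk _) (g := ι') ‹Module.Finite _ B›).comp
      hf) (mul_ne_zero d0 (Finset.prod_ne_zero_iff.2 fun j (_ : j ∈ Finset.univ) e =>
        hg j ((h6 _ _).1 e)))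
  rw [map_mul, map_prod] at ρ0
  have h7 : RingHom.ker φ ⊔ Ideal.span (Set.range l) ≤
      RingHom.ker (constantCoeff.comp (ρ.comp ι)) :=
    sup_le (fun f hf => by simp [show ι f = 0 from Subtype.ext hf])
      (Ideal.span_le.2 (Set.range_subset_iff.2 fun j => by
        have h8 : ρ (ι (l j)) = _ := (congrArg (ρ.comp ι) (evx_X l0.ev j)).symm.trans (ρ2 j)
        simp [h8, e0]))
  have y0 : C0 fun q => ρ (ι (X q)) := fun q => by
    obtain ⟨N, hN⟩ := l2 q
    have h8 := h7 hN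
    rw [RingHom.mem_ker, map_pow] at h8
    exact (pow_eq_zero_iff'.1 h8).1
  have h8 : ∀ f, sb (fun q => ρ (ι (X q))) f = ρ (ι f) := fun f =>
    (eq_evx (φ := C) y0.ev (E := ρ.comp ι)
      (fun t => (congrArg (ρ.comp ι) (evx_C l0.ev t)).symm.trans (ρ1 t)) (fun _ => rfl) f).symm
  let μ := (MvPolynomial.aeval (R := k) fun j =>
    (MvPolynomial.C (v j) * MvPolynomial.X () ^ e : MvPolynomial Unit k)).toRingHom
  have h9 : (MvPolynomial.aeval (R := k) fun _ : Unit => (X () : PS Unit k)).toRingHom.comp μ =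
      ρ.comp (ψ.comp MvPolynomial.coeToMvPowerSeries.ringHom) :=
    MvPolynomial.ringHom_ext (fun t => by simp [μ, ρ1]; rfl) fun j => by
      simp [μ, ρ2]; exact .inl rfl
  have h10 : ∀ b : B, χ.IsIntegralElem b.1 → ρ b ∈ algS k fun _ : Unit => (X () : PS Unit k) :=
    fun b hb => by
      obtain ⟨P, p1, p2⟩ := RingHom.IsIntegralElem.of_map
        (f := ψ.comp MvPolynomial.coeToMvPowerSeries.ringHom) (g := B.val.toRingHom)
        Subtype.val_injective (x := b) (h3 ▸ hb)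
      refine algS_root (P := P.map μ) ((p1.map _).map _).ne_zero ?_
      rw [Polynomial.eval₂_map, h9, ← Polynomial.hom_eval₂, p2, map_zero]
  have h11 := h10 (ψ δ) (hψ δ ▸ χ.isIntegralElem_map)
  refine ⟨_, ρ (ψ δ), fun a => ρ (z a), y0, left_ne_zero_of_mul ρ0, fun f0 f h => ?_, fun j => ?_,
    fun f hf => algS_le (fun q => algS_div h11 (left_ne_zero_of_mul ρ0) ?_)
      (rb_vl _ (evx_C y0.ev) hJ hf), h11, fun a => h10 _ (h4 (.inr a))⟩
  · simpa only [map_add, map_sum, map_mul, map_zero, h8] using congrArg ρ ((h6 f0 f).2 h)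
  · simpa only [map_add, map_sum, map_mul, h8] using
      Finset.prod_ne_zero_iff.1 (right_ne_zero_of_mul ρ0) j (Finset.mem_univ j)
  · change _ * sb _ (x q) ∈ _
    rw [h8, ← map_mul]
    refine h10 _ ?_
    rw [MulMemClass.coe_mul, hψ]
    exact h4 (.inl q)

end Pool.Agent.E7
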