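import Pool.Agent.Lib.MP_7e5527_ag.EF.RB
import Pool.Agent.Lib.MP_aa40d3_nt.GR.SpecB

/-! Algebraic power series converge. -/

open Polynomial Filter Topology

noncomputable section

namespace Pool.Agent.E7

theorem rd_dvd {p : ℂ[X]} {n : ℕ}
    (h : PowerSeries.X ^ n ∣ algebraMap ℂ[X] (PowerSeries ℂ) p) : X ^ n ∣ p := by
  rw [GR.speca_algebraMap, PowerSeries.X_pow_dvd_iff] at h
  exact X_pow_dvd_iff.2 fun d hd => (coeff_coe p d).symm.trans (h d hd)

theorem rd_X : algebraMap ℂ[X] (PowerSeries ℂ) X = PowerSeries.X := by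
  rw [GR.speca_algebraMap, coe_X]

theorem rd_inj : Function.Injective (algebraMap ℂ[X] (PowerSeries ℂ)) := fun p q h =>
  coe_injective ℂ (by rwa [GR.speca_algebraMap, GR.speca_algebraMap] at h)

/-- The tail of an algebraic series is a simple root. -/
theorem rd_red {f : PowerSeries ℂ} (hf : IsAlgebraic ℂ[X] f) :
    ∃ (p : ℂ[X]) (n : ℕ) (g : PowerSeries ℂ) (Q : ℂ[X][X]),
      f = algebraMap _ _ p + PowerSeries.X ^ n * g ∧ aeval g Q = 0 ∧
        PowerSeries.constantCoeff (aeval g Q.derivative) ≠ 0 := by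
  obtain ⟨P0, p0, p1⟩ := hf
  obtain ⟨P, h0, h1⟩ := rb_min (algebraMap ℂ[X] (PowerSeries ℂ))
    ((injective_iff_map_eq_zero _).1 rd_inj) p0 p1
  rw [← aeval_def] at h0 h1
  have h2 := PowerSeries.X_pow_order_mul_divXPowOrder (f := aeval f P.derivative)
  have h3 := PowerSeries.constantCoeff_divXPowOrder_eq_zero_iff.not.2 h1
  generalize (aeval f P.derivative).order.toNat = d at h2
  generalize (aeval f P.derivative).divXPowOrder = u at h2 h3
  have h4 := PowerSeries.eq_X_pow_mul_shift_add_trunc (d + 1) f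
  rw [add_comm, ← GR.speca_algebraMap] at h4
  generalize PowerSeries.trunc (d + 1) f = p at h4
  generalize (PowerSeries.mk fun i => PowerSeries.coeff (i + (d + 1)) f) = g at h4
  have h5 : aeval g (C p + C (X ^ (d + 1)) * X : ℂ[X][X]) = f := by
    rw [map_add, map_mul, aeval_C, aeval_C, aeval_X, map_pow, rd_X, ← h4]
  obtain ⟨K, hK⟩ := (P.map C).binomExpansion (C p) (C (X ^ (d + 1)) * X)
  rw [derivative_map, eval_map_apply, eval_map_apply, eval_map, ← comp] at hK
  obtain ⟨b, hb⟩ : X ^ d ∣ P.derivative.eval p := rd_dvd (by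
    have h6 := sub_dvd_eval_sub f (algebraMap _ _ p)
      (P.derivative.map (algebraMap ℂ[X] (PowerSeries ℂ)))
    rw [eval_map_algebraMap, eval_map_apply, ← h2] at h6
    refine (dvd_sub_right (dvd_mul_right _ u)).1 (Dvd.dvd.trans ?_ h6)
    rw [h4, add_sub_cancel_left]
    exact (pow_dvd_pow _ d.le_succ).mul_right g)
  have h6 := congrArg (aeval g) hK
  rw [aeval_comp, h5, h0] at h6
  obtain ⟨a, ha⟩ : X ^ (2 * d + 1) ∣ P.eval p := rd_dvd ⟨-(algebraMap _ _ b * g +
      PowerSeries.X * aeval g K * g ^ 2), by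
    simp only [hb, map_add, map_mul, map_pow, aeval_C, aeval_X, rd_X] at h6
    linear_combination -h6⟩
  have h7 : P.comp (C p + C (X ^ (d + 1)) * X) =
      C (X ^ (2 * d + 1)) * (C a + C b * X + C X * K * X ^ 2) := by
    rw [hK, ha, hb]
    simp only [map_mul, map_pow]
    ring
  have h8 : (PowerSeries.X : PowerSeries ℂ) ^ (2 * d + 1) ≠ 0 := pow_ne_zero _ PowerSeries.X_ne_zero
  refine ⟨p, d + 1, g, C a + C b * X + C X * K * X ^ 2, h4, mul_left_cancel₀ h8 ?_, ?_⟩
  · have h9 := congrArg (aeval g) h7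
    rw [aeval_comp, h5, h0, map_mul, aeval_C, map_pow, rd_X] at h9
    rw [← h9, mul_zero]
  · have h9 := congrArg (fun R => aeval g (derivative R)) h7
    simp only [derivative_comp, derivative_C_mul] at h9
    rw [derivative_add, derivative_C, derivative_C_mul, derivative_X, zero_add, mul_one, map_mul,
      map_mul, aeval_comp, h5, ← h2, aeval_C, aeval_C, map_pow, map_pow, rd_X, ← mul_assoc,
      ← pow_add, show d + 1 + d = 2 * d + 1 by ring] at h9
    rwa [← mul_left_cancel₀ h8 h9]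

theorem rd_const (g : PowerSeries ℂ) (Q : ℂ[X][X]) : PowerSeries.constantCoeff (aeval g Q) =
    Q.evalEval 0 (PowerSeries.constantCoeff g) := by
  rw [aeval_def, hom_eval₂, ← eval₂_evalRingHom]
  refine congrArg (fun φ => eval₂ φ _ Q) (Polynomial.ringHom_ext (fun c => ?_) ?_)
  · simp [GR.speca_algebraMap]
  · simp [rd_X]

/-- The analytic root through a simple root. -/
theorem rd_root (Q : ℂ[X][X]) {s c : ℂ} (h0 : Q.evalEval s c = 0)
    (h1 : Q.derivative.evalEval s c ≠ 0) :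
    ∃ g : ℂ → ℂ, AnalyticAt ℂ g s ∧ g s = c ∧ ∀ᶠ t in 𝓝 s, Q.evalEval t (g t) = 0 := by
  have ha : ∀ Q : ℂ[X][X], AnalyticAt ℂ (fun z : ℂ × ℂ => Q.evalEval z.1 z.2) (s, c) := fun Q => by
    induction Q using Polynomial.induction_on' with
    | add p q hp hq => simpa only [evalEval_add] using hp.fun_add hq
    | monomial n a =>
      simp only [← C_mul_X_pow_eq_monomial, evalEval_mul, evalEval_C, evalEval_pow, evalEval_X]
      exact (analyticAt_fst.aeval_polynomial a).fun_mul (analyticAt_snd.fun_pow n)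
  have hc : ContDiffAt ℂ ⊤ (fun z : ℂ × ℂ => Q.evalEval z.1 z.2) (s, c) := (ha Q).contDiffAt
  have h2 := (ha Q).differentiableAt.hasFDerivAt.comp c (hasFDerivAt_prodMk_right s c)
  have h3 : HasDerivAt (fun w => Q.evalEval s w) (Q.derivative.evalEval s c) c := by
    simpa only [derivative_map, map_evalRingHom_eval] using
      (Q.map (evalRingHom s)).hasDerivAt c
  have h4 : (fderiv ℂ (fun z : ℂ × ℂ => Q.evalEval z.1 z.2) (s, c) ∘L .inr ℂ ℂ ℂ).IsInvertible :=
    ⟨_, (h2.unique (h3.hasFDerivAt_equiv h1)).symm⟩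
  exact ⟨_, (hc.contDiffAt_implicitFunction (by simp) h4).analyticAt,
    hc.implicitFunction_apply_self (by simp) h4,
    (hc.eventually_apply_implicitFunction (by simp) h4).mono fun t ht => ht.trans h0⟩

theorem rd_uniq {Q : ℂ[X][X]} {f g : PowerSeries ℂ} (hf : aeval f Q = 0) (hg : aeval g Q = 0)
    (h : PowerSeries.constantCoeff f = PowerSeries.constantCoeff g)
    (h1 : PowerSeries.constantCoeff (aeval g Q.derivative) ≠ 0) : f = g := by
  obtain ⟨K, hK⟩ := (Q.map (algebraMap ℂ[X] (PowerSeries ℂ))).binomExpansion g (f - g)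
  rw [add_sub_cancel, derivative_map, eval_map_algebraMap, eval_map_algebraMap,
    eval_map_algebraMap, hf, hg] at hK
  refine sub_eq_zero.1 ((mul_eq_zero.1 (show (aeval g Q.derivative + K * (f - g)) * (f - g) = 0 by
    linear_combination -hK)).resolve_left fun e => h1 ?_)
  simpa [h] using congrArg PowerSeries.constantCoeff e

theorem rd_poly (p : ℂ[X]) : GR.tay (fun s => p.eval s) = algebraMap _ _ p := by
  simpa only [evalEval_C, aeval_C] using (GR.specb_eval (f := fun _ => 0) analyticAt_const (C p)).2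

theorem conv' {f : PowerSeries ℂ} (hf : IsAlgebraic ℂ[X] f) :
    ∃ F : ℂ → ℂ, AnalyticAt ℂ F 0 ∧ GR.tay F = f := by
  obtain ⟨p, n, g, Q, rfl, h0, h1⟩ := rd_red hf
  obtain ⟨G, g1, g2, g3⟩ := rd_root Q (by rw [← rd_const, h0, map_zero]) (rd_const g _ ▸ h1)
  have h2 : GR.tay G = g := rd_uniq (by
    rw [← (GR.specb_eval g1 Q).2, GR.tay_congr g3, GR.tay_const, map_zero]) h0
    (by rw [← g2, ← GR.tay_coeff_zero G, PowerSeries.coeff_zero_eq_constantCoeff]) h1
  obtain ⟨h3, h4⟩ := GR.specb_eval g1 (C p + C (X ^ n) * X)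
  exact ⟨_, h3, by rw [h4, h2, map_add, map_mul, aeval_C, aeval_C, aeval_X, map_pow, rd_X]⟩

theorem alg1_iff {f : PS Unit ℂ} : f ∈ algS ℂ (fun _ : Unit => (MvPowerSeries.X () : PS Unit ℂ)) ↔
    IsAlgebraic ℂ[X] (show PowerSeries ℂ from f) := by
  let e := MvPolynomial.uniqueAlgEquiv ℂ Unit
  have h : (algebraMap ℂ[X] (PowerSeries ℂ)).comp e.toRingEquiv.toRingHom = (MvPolynomial.aeval
      fun _ : Unit => (MvPowerSeries.X () : PS Unit ℂ)).toRingHom :=
    MvPolynomial.ringHom_ext (fun c => by simp [e, GR.speca_algebraMap]) fun _ => by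
      simp [e, rd_X, PowerSeries.X]
  rw [ad1_poly, ← h]
  simp only [← Polynomial.map_map, ← eval₂_map, Polynomial.map_ne_zero_iff rd_inj]
  exact ⟨fun ⟨P, h1, h2⟩ => ⟨_, h1, h2⟩, fun ⟨P, h1, h2⟩ => by
    obtain ⟨P, rfl⟩ := map_surjective e.toRingEquiv.toRingHom e.surjective P
    exact ⟨P, h1, h2⟩⟩

/-- An algebraic power series is the Taylor series of an analytic algebraic germ. -/
theorem conv {f : PS Unit ℂ}
    (hf : f ∈ algS ℂ fun _ : Unit => (MvPowerSeries.X () : PS Unit ℂ)) :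
    ∃ F : ℂ → ℂ, AnalyticAt ℂ F 0 ∧ GR.tay F = f ∧ GR.AlgG F 0 := by
  obtain ⟨F, h1, h2⟩ := conv' (alg1_iff.1 hf)
  exact ⟨F, h1, h2, (GR.algG_iff h1).2 (h2 ▸ alg1_iff.1 hf)⟩

theorem algG_of {F : ℂ → ℂ} (h : AnalyticAt ℂ F 0)
    (hf : GR.tay F ∈ algS ℂ fun _ : Unit => (MvPowerSeries.X () : PS Unit ℂ)) : GR.AlgG F 0 :=
  (GR.algG_iff h).2 (alg1_iff.1 hf)

end Pool.Agent.E7
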