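import Pool.Agent.Lib.MP_7e5527_ag.EF.RD

/-! Taylor series of analytic germs, and the germ of an algebraic arc. -/

open MvPowerSeries Filter Topology

noncomputable section

namespace Pool.Agent.E7

variable {I : Type} [Fintype I] [DecidableEq I]

/-- The derivative in the direction of a coordinate. -/
def dG (l : I) (G : (I → ℂ) → ℂ) : (I → ℂ) → ℂ := fun W => fderiv ℂ G W (Pi.single l 1)

/-- The Taylor series of `F` at `Z`. -/
def tyG (F : (I → ℂ) → ℂ) (Z : I → ℂ) : PS I ℂ := fun ν =>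
  (∏ l, ((ν l).factorial : ℂ))⁻¹ * ν.toMultiset.toList.foldr dG F Z

variable {F G : (I → ℂ) → ℂ} {Z : I → ℂ}

theorem dG_an (h : AnalyticAt ℂ F Z) (l : I) : AnalyticAt ℂ (dG l F) Z :=
  ((ContinuousLinearMap.apply ℂ ℂ (Pi.single l 1 : I → ℂ)).analyticAt _).comp h.fderiv

theorem dG_congr (h : F =ᶠ[𝓝 Z] G) (l : I) : dG l F =ᶠ[𝓝 Z] dG l G :=
  (h.fderiv (𝕜 := ℂ)).mono fun _ hW => DFunLike.congr_fun hW _

theorem dG_comm (h : AnalyticAt ℂ F Z) (i j : I) : dG i (dG j F) =ᶠ[𝓝 Z] dG j (dG i F) :=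
  h.eventually_analyticAt.mono fun W hW => by
    have key : ∀ i j, dG i (dG j F) W =
        fderiv ℂ (fderiv ℂ F) W (Pi.single i 1) (Pi.single j 1) := fun i j => by
      change fderiv ℂ (fun W => fderiv ℂ F W (Pi.single j 1)) W _ = _
      rw [fderiv_clm_apply hW.fderiv.differentiableAt (differentiableAt_const _)]
      simp
    rw [key, key]
    exact (hW.contDiffAt (n := ⊤)).isSymmSndFDerivAt (by simp) _ _

theorem re_an (h : AnalyticAt ℂ F Z) (L : List I) : AnalyticAt ℂ (L.foldr dG F) Z := by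
  induction L with
  | nil => exact h
  | cons l L ih => exact dG_an ih l

theorem re_congr (h : F =ᶠ[𝓝 Z] G) (L : List I) : L.foldr dG F =ᶠ[𝓝 Z] L.foldr dG G := by
  induction L with
  | nil => exact h
  | cons l L ih => exact dG_congr ih l

theorem re_perm (h : AnalyticAt ℂ F Z) {L L' : List I} (e : L.Perm L') :
    L.foldr dG F =ᶠ[𝓝 Z] L'.foldr dG F := by
  induction e with
  | nil => rfl
  | cons l _ ih => exact dG_congr ih l
  | swap i j L => exact dG_comm (re_an h L) j i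
  | trans _ _ h1 h2 => exact h1.trans h2

theorem tyG_congr (h : F =ᶠ[𝓝 Z] G) : tyG F Z = tyG G Z :=
  funext fun _ => congrArg _ (re_congr h _).eq_of_nhds

theorem tyG_zero (F : (I → ℂ) → ℂ) (Z : I → ℂ) : constantCoeff (tyG F Z) = F Z := by
  change tyG F Z 0 = _
  simp [tyG]

theorem tyG_der (h : AnalyticAt ℂ F Z) (l : I) : pderiv ℂ l (tyG F Z) = tyG (dG l F) Z := by
  ext μ
  have h1 : (μ + Finsupp.single l 1).toMultiset.toList.Perm (μ.toMultiset.toList ++ [l]) := by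
    rw [← Multiset.coe_eq_coe, ← Multiset.coe_add]
    simp
  have h2 : ((μ l : ℂ) + 1) ≠ 0 := Nat.cast_add_one_ne_zero _
  rw [coeff_pderiv]
  change tyG F Z _ * _ = tyG _ Z _
  rw [tyG, tyG, (re_perm h h1).eq_of_nhds, List.foldr_append, ← Nat.cast_prod, ← Nat.cast_prod, at1_fact]
  push_cast
  rw [mul_inv, mul_right_comm, inv_mul_cancel_right₀ h2]
  rfl

theorem tyG_const (c : ℂ) (Z : I → ℂ) : tyG (fun _ => c) Z = C c := by
  refine sub_eq_zero.1 (odeu (fun c => tyG (fun _ => c) Z - C c) (fun c => by simp [tyG_zero])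
    (fun l c => Ideal.subset_span ⟨0, ?_⟩) c)
  simp only [map_sub, tyG_der analyticAt_const, pderiv_C, map_zero]
  exact congrArg (tyG · Z - 0) (funext fun W => by simp [dG])

theorem tyG_add (hF : AnalyticAt ℂ F Z) (hG : AnalyticAt ℂ G Z) :
    tyG (F + G) Z = tyG F Z + tyG G Z := by
  refine sub_eq_zero.1 (odeu (fun y : {F // AnalyticAt ℂ F Z} × {F // AnalyticAt ℂ F Z} =>
    tyG (y.1.1 + y.2.1) Z - (tyG y.1.1 Z + tyG y.2.1 Z)) (fun y => by simp [tyG_zero])
    (fun l y => Ideal.subset_span ⟨(⟨_, dG_an y.1.2 l⟩, ⟨_, dG_an y.2.2 l⟩), ?_⟩)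
    (⟨F, hF⟩, ⟨G, hG⟩))
  rw [map_sub, map_add, tyG_der (y.1.2.add y.2.2), tyG_der y.1.2, tyG_der y.2.2]
  refine congrArg (· - _) (tyG_congr ?_)
  filter_upwards [y.1.2.eventually_analyticAt, y.2.2.eventually_analyticAt] with W h1 h2
  simp [dG, fderiv_add h1.differentiableAt h2.differentiableAt]

theorem tyG_mul (hF : AnalyticAt ℂ F Z) (hG : AnalyticAt ℂ G Z) :
    tyG (F * G) Z = tyG F Z * tyG G Z := by
  refine sub_eq_zero.1 (odeu (fun y : {F // AnalyticAt ℂ F Z} × {F // AnalyticAt ℂ F Z} =>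
    tyG (y.1.1 * y.2.1) Z - tyG y.1.1 Z * tyG y.2.1 Z) (fun y => by simp [tyG_zero])
    (fun l y => ?_) (⟨F, hF⟩, ⟨G, hG⟩))
  have h1 : dG l (y.1.1 * y.2.1) =ᶠ[𝓝 Z] y.1.1 * dG l y.2.1 + y.2.1 * dG l y.1.1 := by
    filter_upwards [y.1.2.eventually_analyticAt, y.2.2.eventually_analyticAt] with W h1 h2
    simp [dG, fderiv_mul h1.differentiableAt h2.differentiableAt]
  rw [map_sub, Derivation.leibniz, tyG_der (y.1.2.mul y.2.2), tyG_der y.1.2, tyG_der y.2.2,
    tyG_congr h1, tyG_add (y.1.2.mul (dG_an y.2.2 l)) (y.2.2.mul (dG_an y.1.2 l)), smul_eq_mul,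
    smul_eq_mul, add_sub_add_comm]
  exact add_mem (Ideal.subset_span ⟨(y.1, ⟨_, dG_an y.2.2 l⟩), rfl⟩)
    (Ideal.subset_span ⟨(y.2, ⟨_, dG_an y.1.2 l⟩), rfl⟩)

theorem tyG_var (l : I) (Z : I → ℂ) : tyG (fun W => W l) Z = C (Z l) + X l := by
  refine pderiv.ext (fun j => ?_) (by simp [tyG_zero])
  have h : dG j (fun W : I → ℂ => W l) = fun _ => (Pi.single j 1 : I → ℂ) l := funext fun W =>
    DFunLike.congr_fun (ContinuousLinearMap.proj (R := ℂ) (φ := fun _ : I => ℂ) l).fderiv _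
  rw [tyG_der (F := fun W => W l)
    ((ContinuousLinearMap.proj (R := ℂ) (φ := fun _ : I => ℂ) l).analyticAt Z), h,
    tyG_const, map_add, pderiv_C, zero_add, pderiv_X]
  simp only [Pi.single_apply, apply_ite C, map_one, map_zero]

/-- Functions analytic at `Z`. -/
def AnG (Z : I → ℂ) : Subalgebra ℂ ((I → ℂ) → ℂ) where
  carrier := {F | AnalyticAt ℂ F Z}
  mul_mem' hf hg := hf.mul hg
  add_mem' hf hg := hf.add hg
  algebraMap_mem' _ := analyticAt_const

/-- The Taylor series as an algebra map. -/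
def tyH (Z : I → ℂ) : AnG Z →ₐ[ℂ] PS I ℂ where
  toFun F := tyG F.1 Z
  map_one' := (tyG_const 1 Z).trans (map_one _)
  map_mul' F G := tyG_mul F.2 G.2
  map_zero' := (tyG_const 0 Z).trans (map_zero _)
  map_add' F G := tyG_add F.2 G.2
  commutes' c := tyG_const c Z

theorem tay1_zero (f : ℂ → ℂ) : constantCoeff (GR.tay f : PS Unit ℂ) = f 0 :=
  (coeff_zero_eq_constantCoeff_apply _).symm.trans (by
    simpa [PowerSeries.coeff] using GR.tay_coeff_zero f)

theorem tay1_sum {α : Type} (s : Finset α) {f : α → ℂ → ℂ} (h : ∀ a, AnalyticAt ℂ (f a) 0) :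
    GR.tay (fun t => ∑ a ∈ s, f a t) = ∑ a ∈ s, GR.tay (f a) := by
  refine Eq.trans (congrArg GR.tay (funext fun t => ?_))
    (map_sum GR.tayH (fun a => (⟨f a, h a⟩ : GR.An)) s)
  rw [AddSubmonoidClass.coe_finsetSum, Finset.sum_apply]

theorem tay1_mul {f g : ℂ → ℂ} (hf : AnalyticAt ℂ f 0) (hg : AnalyticAt ℂ g 0) :
    GR.tay (fun t => f t * g t) = GR.tay f * GR.tay g := GR.tay_mul hf hg

theorem tay1_add {f g : ℂ → ℂ} (hf : AnalyticAt ℂ f 0) (hg : AnalyticAt ℂ g 0) :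
    GR.tay (fun t => f t + g t) = GR.tay f + GR.tay g := GR.tay_add hf hg

omit [Fintype I] [DecidableEq I] in
theorem tay1_c0 {h : ℂ → I → ℂ} (h0 : h 0 = Z) :
    C0 fun l => (GR.tay fun t => h t l - Z l : PS Unit ℂ) := fun l => by
  rw [tay1_zero, h0, sub_self]

/-- The Taylor series along an arc. -/
theorem tay1_comp (hF : AnalyticAt ℂ F Z) {h : ℂ → I → ℂ} (ha : AnalyticAt ℂ h 0) (h0 : h 0 = Z) :
    GR.tay (fun t => F (h t)) = sb (fun l => GR.tay fun t => h t l - Z l) (tyG F Z) := by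
  have h1 := tay1_c0 h0
  have h2 : ∀ l, AnalyticAt ℂ (fun t => h t l - Z l) 0 := fun l =>
    (analyticAt_pi_iff.1 ha l).fun_sub analyticAt_const
  refine sub_eq_zero.1 (odeu (σ := Unit) (fun G : {G // AnalyticAt ℂ G Z} =>
    GR.tay (fun t => G.1 (h t)) - sb (fun l => GR.tay fun t => h t l - Z l) (tyG G.1 Z))
    (fun G => by simp only [map_sub, tay1_zero, const_sb h1, tyG_zero, h0, sub_self])
    (fun _ G => ?_) ⟨F, hF⟩)
  have h3 : deriv (fun t => G.1 (h t)) =ᶠ[𝓝 0]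
      fun t => ∑ l, dG l G.1 (h t) * deriv (fun t => h t l - Z l) t := by
    filter_upwards [ha.eventually_analyticAt,
      ha.continuousAt.eventually (h0 ▸ G.2 : AnalyticAt ℂ G.1 (h 0)).eventually_analyticAt]
      with t h4 h5
    have h6 := h4.differentiableAt.hasDerivAt
    refine (h5.differentiableAt.hasFDerivAt.comp_hasDerivAt t h6).deriv.trans ?_
    rw [pi_eq_sum_univ' (deriv h t), map_sum]
    refine Finset.sum_congr rfl fun l _ => ?_
    rw [map_smul, smul_eq_mul, mul_comm, deriv_sub_const, (hasDerivAt_pi.1 h6 l).deriv]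
    rfl
  have h4 : ∀ l, AnalyticAt ℂ (fun t => dG l G.1 (h t)) 0 := fun l =>
    (dG_an G.2 l).comp_of_eq ha h0
  have h5 : ∀ f, pderiv ℂ () (GR.tay f : PS Unit ℂ) = GR.tay (deriv f) := GR.tay_deriv
  rw [map_sub, pderiv_sb h1, h5, GR.tay_congr h3,
    tay1_sum _ fun l => (h4 l).fun_mul (h2 l).deriv, ← Finset.sum_sub_distrib]
  refine sum_mem fun l _ => ?_
  rw [tay1_mul (h4 l) (h2 l).deriv, h5, tyG_der G.2, ← sub_mul]
  exact Ideal.mul_mem_right _ _ (Ideal.subset_span ⟨⟨_, dG_an G.2 l⟩, rfl⟩)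

/-- The local inverse of a system of coordinates. -/
theorem re_inv {x : I → (I → ℂ) → ℂ} (hx : ∀ j, AnalyticAt ℂ (x j) Z)
    (hJ : IsUnit (jacS fun j => tyG (x j) Z).det) :
    ∃ ψ : (I → ℂ) → I → ℂ, AnalyticAt ℂ ψ (fun j => x j Z) ∧ ψ (fun j => x j Z) = Z ∧
      ∀ᶠ w in 𝓝 fun j => x j Z, (fun j => x j (ψ w)) = w := by
  have h1 : AnalyticAt ℂ (fun W j => x j W) Z := analyticAt_pi_iff.2 hx
  have h2 : LinearMap.toMatrix' (fderiv ℂ (fun W j => x j W) Z).toLinearMap =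
      (jacS fun j => tyG (x j) Z).map constantCoeff := by
    ext j l
    rw [LinearMap.toMatrix'_apply, Matrix.map_apply, jacS, Matrix.of_apply, tyG_der (hx j),
      tyG_zero, fderiv_pi fun j => (hx j).differentiableAt]
    rfl
  have h3 : (fderiv ℂ (fun W j => x j W) Z).det ≠ 0 := by
    rw [ContinuousLinearMap.det, ← LinearMap.det_toMatrix', h2]
    exact (isUnit_det_ps.1 hJ).ne_zero
  have h4 : HasFDerivAt (fun W j => x j W)
      (ContinuousLinearMap.toContinuousLinearEquivOfDetNeZero _ h3 : (I → ℂ) →L[ℂ] I → ℂ) Z :=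
    h1.differentiableAt.hasFDerivAt
  have h5 : ContDiffAt ℂ ⊤ (fun W j => x j W) Z := h1.contDiffAt
  exact ⟨_, (h5.to_localInverse h4 (by simp)).analyticAt, h5.localInverse_apply_image h4 (by simp),
    (h5.hasStrictFDerivAt' h4 (by simp)).eventually_right_inverse⟩

/-- A formal arc on which the coordinates are algebraic is the Taylor series of an analytic arc. -/
theorem germ {x : I → (I → ℂ) → ℂ} (hx : ∀ j, AnalyticAt ℂ (x j) Z)
    (hJ : IsUnit (jacS fun j => tyG (x j) Z).det) {y : I → PS Unit ℂ} (h0 : C0 y)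
    (ha : ∀ j, sb y (tyG (x j) Z) ∈ algS ℂ fun _ : Unit => (X () : PS Unit ℂ)) :
    ∃ h : ℂ → I → ℂ, AnalyticAt ℂ h 0 ∧ h 0 = Z ∧ (∀ l, GR.tay (fun t => h t l - Z l) = y l) ∧
      ∀ F, AnalyticAt ℂ F Z → GR.tay (fun t => F (h t)) = sb y (tyG F Z) := by
  choose g g1 g2 _ using fun j => conv (ha j)
  obtain ⟨ψ, p1, p2, p3⟩ := re_inv hx hJ
  have h1 : (fun j => g j 0) = fun j => x j Z := funext fun j => by
    rw [← tay1_zero (g j), g2, const_sb h0, tyG_zero]
  have h2 : AnalyticAt ℂ (fun t j => g j t) 0 := analyticAt_pi_iff.2 g1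
  have h3 : AnalyticAt ℂ (fun t => ψ fun j => g j t) 0 := p1.comp_of_eq h2 h1
  have h4 : (ψ fun j => g j 0) = Z := h1 ▸ p2
  have h5 := evx_inj (φ := C) hJ (tay1_c0 (h := fun t => ψ fun j => g j t) h4).ev h0.ev fun j => by
    rw [← g2 j]
    refine (tay1_comp (hx j) h3 h4).symm.trans (GR.tay_congr ?_)
    rw [← h1] at p3
    exact (h2.continuousAt.eventually p3).mono fun t ht => congrFun ht j
  exact ⟨_, h3, h4, congrFun h5, fun F hF => h5 ▸ tay1_comp hF h3 h4⟩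

end Pool.Agent.E7
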