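import Pool.Agent.Lib.MP_7e5527_ag.EF.RC
import Pool.Agent.Lib.MP_7e5527_ag.EF.RE

/-! An analytic arc in a formal branch; products. -/

open MvPowerSeries Filter Topology

noncomputable section

namespace Pool.Agent.E7

variable {I L A J : Type} [Fintype I] [DecidableEq I] [Field L] [Fintype A] [Finite J]

theorem tay1_ne {f : ℂ → ℂ} (hf : AnalyticAt ℂ f 0) (h : GR.tay f ≠ 0) :
    ∀ᶠ t in 𝓝[≠] (0 : ℂ), f t ≠ 0 :=
  hf.eventually_eq_zero_or_eventually_ne_zero.resolve_left fun e =>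
    h ((GR.tay_congr e).trans ((GR.tay_const 0).trans (map_zero _)))

/-- The analytic form of `arc_alg`. -/
theorem arc_germ (φ : PS I ℂ →+* L) {x : I → (I → ℂ) → ℂ} {Z : I → ℂ}
    (hx : ∀ j, AnalyticAt ℂ (x j) Z) (hJ : IsUnit (jacS fun j => tyG (x j) Z).det)
    (hX : ∃ q, φ (X q) ≠ 0)
    (hc : Con φ Set.univ ≤ Con φ (Algebra.adjoin ℂ (Set.range fun j => tyG (x j) Z))) (c : A → L)
    (ha : ∀ a, IsAlgebraic
      ((Algebra.adjoin ℂ (Set.range fun j => tyG (x j) Z)).toSubring.map φ) (c a))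
    (G0 : J → (I → ℂ) → ℂ) (G : J → A → (I → ℂ) → ℂ) (hG0 : ∀ j, AnalyticAt ℂ (G0 j) Z)
    (hG : ∀ j a, AnalyticAt ℂ (G j a) Z)
    (hg : ∀ j, φ (tyG (G0 j) Z) + ∑ a, c a * φ (tyG (G j a) Z) ≠ 0) :
    ∃ (h : ℂ → I → ℂ) (d : ℂ → ℂ) (c' : ℂ → A → ℂ), AnalyticAt ℂ h 0 ∧ AnalyticAt ℂ d 0 ∧
      AnalyticAt ℂ c' 0 ∧ h 0 = Z ∧ (∀ᶠ t in 𝓝[≠] (0 : ℂ), d t ≠ 0) ∧
      (∀ (F0 : (I → ℂ) → ℂ) (F : A → (I → ℂ) → ℂ), AnalyticAt ℂ F0 Z →
        (∀ a, AnalyticAt ℂ (F a) Z) → φ (tyG F0 Z) + ∑ a, c a * φ (tyG (F a) Z) = 0 →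
          ∀ᶠ t in 𝓝 (0 : ℂ), d t * F0 (h t) + ∑ a, c' t a * F a (h t) = 0) ∧
      (∀ j, ∀ᶠ t in 𝓝[≠] (0 : ℂ), d t * G0 j (h t) + ∑ a, c' t a * G j a (h t) ≠ 0) ∧
      (∀ F, AnalyticAt ℂ F Z → tyG F Z ∈ algS ℂ (fun j => tyG (x j) Z) →
        GR.AlgG (fun t => F (h t)) 0) ∧ GR.AlgG d 0 ∧ ∀ a, GR.AlgG (fun t => c' t a) 0 := by
  obtain ⟨y, d, c', y0, d0, h1, h2, h3, h4, h5⟩ :=
    arc_alg φ hJ hX hc c ha (fun j => tyG (G0 j) Z) (fun j a => tyG (G j a) Z) hg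
  obtain ⟨h, a1, a2, -, a3⟩ := germ hx hJ y0 fun j => h3 _ (self_mem_algS j)
  obtain ⟨D, d1, rfl, d2⟩ := conv h4
  choose c1 c2 c3 c4 using fun a => conv (h5 a)
  have key : ∀ (F0 : (I → ℂ) → ℂ) (F : A → (I → ℂ) → ℂ), AnalyticAt ℂ F0 Z →
      (∀ a, AnalyticAt ℂ (F a) Z) →
      AnalyticAt ℂ (fun t => D t * F0 (h t) + ∑ a, c1 a t * F a (h t)) 0 ∧
        GR.tay (fun t => D t * F0 (h t) + ∑ a, c1 a t * F a (h t)) =
          GR.tay D * sb y (tyG F0 Z) + ∑ a, c' a * sb y (tyG (F a) Z) := fun F0 F f0 f => by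
    have b0 : AnalyticAt ℂ (fun t => F0 (h t)) 0 := f0.comp_of_eq a1 a2
    have b1 : ∀ a, AnalyticAt ℂ (fun t => F a (h t)) 0 := fun a => (f a).comp_of_eq a1 a2
    have b2 := fun a => (c2 a).fun_mul (b1 a)
    have b3 := Finset.univ.analyticAt_fun_sum fun a _ => b2 a
    refine ⟨(d1.fun_mul b0).fun_add b3, ?_⟩
    rw [tay1_add (d1.fun_mul b0) b3, tay1_mul d1 b0, tay1_sum _ b2, a3 _ f0]
    exact congrArg _ (Finset.sum_congr rfl fun a _ => by
      rw [tay1_mul (c2 a) (b1 a), c3, a3 _ (f a)])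
  exact ⟨h, D, fun t a => c1 a t, a1, d1, analyticAt_pi_iff.2 c2, a2, tay1_ne d1 d0,
    fun F0 F f0 f e => GR.tay_eq_zero (key F0 F f0 f).1 ((key F0 F f0 f).2.trans (h1 _ _ e)),
    fun j => tay1_ne (key _ _ (hG0 j) (hG j)).1 ((key _ _ (hG0 j) (hG j)).2 ▸ h2 j),
    fun F f e => algG_of (f.comp_of_eq a1 a2) (a3 F f ▸ h3 _ e), d2, c4⟩

variable {M : Type} [Fintype M] [DecidableEq M]

theorem an_ren {F : (I → ℂ) → ℂ} {Z : M × I → ℂ} {i : M} (h : AnalyticAt ℂ F fun l => Z (i, l)) :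
    AnalyticAt ℂ (fun W : M × I → ℂ => F fun l => W (i, l)) Z :=
  h.comp_of_eq (analyticAt_pi_iff.2 fun l =>
    (ContinuousLinearMap.proj (R := ℂ) (φ := fun _ : M × I => ℂ) (i, l)).analyticAt Z) rfl

theorem rf_der (i i' : M) (l : I) (f : PS I ℂ) : pderiv ℂ (i', l) (rename (Prod.mk i) f) =
    if i' = i then rename (Prod.mk i) (pderiv ℂ l f) else 0 := by
  have h0 : C0 fun l : I => (X (i, l) : PS (M × I) ℂ) := fun l => constantCoeff_X _
  rw [rename_eq_sb, pderiv_sb h0, rename_eq_sb]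
  split_ifs with h
  · simp [pderiv_X, Pi.single_apply, h]
  · simp [Ne.symm h]

/-- The Taylor series of a function of one factor. -/
theorem tyG_ren {F : (I → ℂ) → ℂ} {Z : M × I → ℂ} {i : M} (h : AnalyticAt ℂ F fun l => Z (i, l)) :
    tyG (fun W : M × I → ℂ => F fun l => W (i, l)) Z =
      rename (Prod.mk i) (tyG F fun l => Z (i, l)) := by
  refine sub_eq_zero.1 (odeu (fun G : {G // AnalyticAt ℂ G fun l => Z (i, l)} =>
    tyG (fun W : M × I → ℂ => G.1 fun l => W (i, l)) Z -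
      rename (Prod.mk i) (tyG G.1 fun l => Z (i, l))) (fun G => by simp [tyG_zero])
    (fun ⟨i', l⟩ G => ?_) ⟨F, h⟩)
  let π : (M × I → ℂ) →L[ℂ] I → ℂ := .pi fun l => .proj (i, l)
  have h1 : dG (i', l) (fun W : M × I → ℂ => G.1 fun l => W (i, l)) =ᶠ[𝓝 Z]
      fun W => if i' = i then dG l G.1 fun l => W (i, l) else 0 := by
    filter_upwards [π.continuous.continuousAt.eventually G.2.eventually_analyticAt] with W hW
    refine (DFunLike.congr_fun (hW.differentiableAt.hasFDerivAt.comp W π.hasFDerivAt).fderiv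
      _).trans ?_
    have h2 : π (Pi.single (i', l) 1) = if i' = i then Pi.single l 1 else 0 := by
      funext l'
      split_ifs with h
      · simp [π, Pi.single_apply, h]
      · simp [π, Ne.symm h]
    rw [ContinuousLinearMap.comp_apply, h2]
    split_ifs
    exacts [rfl, map_zero _]
  rw [map_sub, tyG_der (an_ren G.2), tyG_congr h1, rf_der, tyG_der G.2]
  split_ifs
  · exact Ideal.subset_span ⟨⟨_, dG_an G.2 l⟩, rfl⟩
  · rw [tyG_const, map_zero, sub_self]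
    exact zero_mem _

/-- The Jacobian of a product of coordinate systems. -/
theorem jac_prod {x : M → I → PS I ℂ} (h : ∀ i, IsUnit (jacS (x i)).det) :
    IsUnit (jacS fun q : M × I => rename (Prod.mk q.1) (x q.1 q.2)).det := by
  have e : (jacS fun q : M × I => rename (Prod.mk q.1) (x q.1 q.2)) = Matrix.reindex
      (Equiv.prodComm _ _) (Equiv.prodComm _ _) (Matrix.blockDiagonal fun i =>
        (rename (Prod.mk i) : PS I ℂ →ₐ[ℂ] PS (M × I) ℂ).toRingHom.mapMatrix (jacS (x i))) := by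
    ext1 ⟨i, j⟩ ⟨i', l⟩
    rw [jacS, Matrix.of_apply, rf_der]
    simp only [Matrix.reindex_apply, Matrix.submatrix_apply, Matrix.blockDiagonal_apply,
      Equiv.prodComm_symm, Equiv.prodComm_apply, Prod.swap_prod_mk, eq_comm (a := i')]
    rfl
  rw [e, Matrix.det_reindex_self, Matrix.det_blockDiagonal]
  exact IsUnit.prod_univ_iff.2 fun i => by
    rw [← RingHom.map_det]
    exact (h i).map _

end Pool.Agent.E7
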