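import Pool.Agent.Lib.MP_7e5527_ag.EL.St

/-! Tate points with jointly generic conjugates. -/

noncomputable section

namespace Pool.Agent.E7.St

/-- The coordinates of `x` are the values of the `q`-expansions at the character `q`, whose values
are algebraic over `ℚ_[p]` and whose valuations are given by a point of the cone. -/
def Tq {p : ℕ} [Fact p.Prime] (e : ℂ_[p] ≃+* ℂ) (q : (Ix → ℚ) → ℂ_[p]) (x : Ix → ℂ) : Prop :=
  ∃ (Y : Ix → ℚ) (c : ℂ), toR ℝ Y ∈ Om ∧ c ≠ 0 ∧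
    (∀ T T', q (T + T') = q T * q T') ∧ (∀ T, IsAlgebraic ℚ_[p] (q T)) ∧
    (∀ T, ‖q T‖ = (p : ℝ) ^ (-(tr T Y : ℚ) : ℝ)) ∧
    ∀ k F a, Form k F a → F x = c ^ k * e (∑' T, e.symm (a T) * q T)

/-- The Mumford-Tate group of the point `h` of the power of the datum, in the representation by
block matrices, contains the derived group of the power of `H`. -/
def Jg {n G : Type} [Group G] (ρ : G → Matrix n n ℂ) (H : Subgroup G) {m : ℕ}
    (h : Fin m → ℂˣ → G) : Prop :=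
  ⁅Subgroup.pi Set.univ fun _ : Fin m => H, Subgroup.pi Set.univ fun _ => H⁆ ≤
    MT (fun g => Matrix.blockDiagonal fun i => ρ (g i)) fun z i => h i z

/-- The `x i` are Tate points, conjugate to `x 0` over `ℚ_[p]`, and jointly Hodge generic. -/
def Cj {p m : ℕ} [Fact p.Prime] [NeZero m] (e : ℂ_[p] ≃+* ℂ) (x : Fin m → Ix → ℂ) : Prop :=
  (∃ q : Fin m → (Ix → ℚ) → ℂ_[p], ∀ i, x i ∈ HH ∧ Tq e (q i) (x i) ∧
    ∃ ρ : ℂ_[p] →+* ℂ_[p], (∀ z, ‖ρ z‖ = ‖z‖) ∧ q i = ρ ∘ q 0) ∧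
    Jg (mat bW) (GE sy q4) fun i => hg (x i)

end Pool.Agent.E7.St
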